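import Pool.Agent.Lib_helper76.UEN.S

/-!
# Scaling of the generators in the solutions of a unit equation, the scaling factor at any place
-/

set_option autoImplicit false
set_option linter.unusedSectionVars false

namespace Pool.Agent.UE12C

open Pool.Agent.KC72 UEN

variable {F : Type*} [Field F]

/-- the entry of number `i` is changed by `c` -/
def addA : ℕ → List ℤ → ℤ → List ℤ
  | _, [], _ => []
  | 0, a :: l, c => (a + c) :: l
  | i + 1, a :: l, c => a :: addA i l c

lemma evl_addA {q : F} (hq : q ≠ 0) {c : ℤ} : ∀ {i : ℕ} {g : List F} {e : List ℤ},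
    g[i]? = some q → i < e.length → evl g (addA i e c) = evl g e * q ^ c := by
  intro i
  induction i with
  | zero =>
    intro g e hg hl
    cases g with
    | nil => simp at hg
    | cons z g =>
      cases e with
      | nil => simp at hl
      | cons a l =>
        have hz : z = q := by simpa using hg
        subst hz
        simp only [addA, evl_cons]
        rw [zpow_add₀ hq]
        ring
  | succ i ih =>
    intro g e hg hl
    cases g with
    | nil => simp at hg
    | cons z g =>
      cases e with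
      | nil => simp at hl
      | cons a l =>
        simp only [addA, evl_cons]
        rw [ih (by simpa using hg) (by simpa using hl)]
        ring

/-- the new exponents: `V = (-q)⁻¹`, `q` the generator of number `i` -/
def trA (i : ℕ) (ks : List ℤ) (c : Mo) : Mo :=
  (xor c.1 (decide (dot ks c.2 % 2 = 1)), addA i c.2 (-dot ks c.2))

lemma ev_sclA {q : F} (hq : q ≠ 0) {i : ℕ} {ks : List ℤ} {g : List F} {c : Mo}
    (hi : g[i]? = some q) (hk : ks.length = g.length) (hc : i < c.2.length)
    (hg : ∀ z ∈ g, z ≠ 0) : ev (scl (-q)⁻¹ ks g) c = ev g (trA i ks c) := by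
  have hV : (-q)⁻¹ ≠ 0 := inv_ne_zero (neg_ne_zero.mpr hq)
  unfold ev
  rw [evl_scl hV hk hg]
  show _ = (bif xor c.1 (decide (dot ks c.2 % 2 = 1)) then -1 else 1) *
    evl g (addA i c.2 (-dot ks c.2))
  rw [evl_addA hq hi hc]
  have e1 : (-q)⁻¹ = -1 * q⁻¹ := by rw [inv_neg]; ring
  have e2 : (-q)⁻¹ ^ dot ks c.2 =
      (bif decide (dot ks c.2 % 2 = 1) then (-1 : F) else 1) * q ^ (-dot ks c.2) := by
    rw [e1, mul_zpow, neg_one_zpow_iff, zpow_neg, inv_zpow]
  rw [e2]
  cases c.1 <;> cases decide (dot ks c.2 % 2 = 1) <;> simp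

/-- the solutions, after scaling -/
theorem sols_sclA {q : F} (hq : q ≠ 0) {i : ℕ} {ks : List ℤ} {g : List F}
    {cls cls' : List (Mo × Mo)} (hi : g[i]? = some q) (hk : ks.length = g.length)
    (hc : ∀ c ∈ cls, i < c.1.2.length ∧ i < c.2.2.length)
    (hg : ∀ z ∈ g, z ≠ 0) (hcls : cls.map (fun c => (trA i ks c.1, trA i ks c.2)) = cls')
    (h : Sols g cls') : Sols (scl (-q)⁻¹ ks g) cls := by
  intro c hc'
  obtain ⟨h1, h2⟩ := hc c hc'
  rw [ev_sclA hq hi hk h1 hg, ev_sclA hq hi hk h2 hg]
  exact h (trA i ks c.1, trA i ks c.2) (by rw [← hcls]; exact List.mem_map.mpr ⟨c, hc', rfl⟩)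

end Pool.Agent.UE12C
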