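import Pool.Agent.Lib_helper76.UEN.S

/-!
# The scaled generators and the scaled curve for a point of order twelve
-/

set_option autoImplicit false
set_option linter.unusedSectionVars false

namespace Pool.Agent.UE12C

/-- the weights -/
def ks12 : List ℤ := [6, 6, 6, 6, 6, 6, 9, 9, 9, 9, 9, 0, 0, 0, 0, 0]

variable {F : Type*} [Field F]

/-- the scaled generators -/
def gs12 (x y T : F) : List F :=
  [x, x - (2 * T ^ 2 - 2 * T + 1) * (3 * T ^ 2 - 3 * T + 1) * T * (2 * T - 1) * (1 - T) ^ 2,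
    x - (3 * T ^ 2 - 3 * T + 1) * T * (2 * T - 1) * (1 - T) ^ 3,
    x - T * (2 * T - 1) * (2 * T ^ 2 - 2 * T + 1) * (1 - T) ^ 4,
    x - T * (2 * T - 1) * (2 * T ^ 2 - 2 * T + 1) * (3 * T ^ 2 - 3 * T + 1) * (1 - T),
    x + T * (3 * T ^ 2 - 3 * T + 1) * (1 - T) ^ 5, y,
    y - (3 * T ^ 2 - 3 * T + 1) * T * (2 * T - 1) * x,
    y - T * (2 * T - 1) * (1 - T) ^ 2 * x, y - T * (2 * T - 1) * (2 * T ^ 2 - 2 * T + 1) * x,
    y + T * (3 * T ^ 2 - 3 * T + 1) * (1 - T) * x, T, T - 1, 2 * T - 1,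
    2 * T ^ 2 - 2 * T + 1, 3 * T ^ 2 - 3 * T + 1]

/-- the equation of the scaled curve -/
def HE12 (x y T : F) : Prop :=
  y ^ 2 + ((1 - T) ^ 3 - (3 * T ^ 2 - 3 * T + 1) * T * (2 * T - 1)) * (x * y) -
      (2 * T ^ 2 - 2 * T + 1) * (3 * T ^ 2 - 3 * T + 1) * T * (2 * T - 1) * (1 - T) ^ 5 * y =
    x ^ 3 - (2 * T ^ 2 - 2 * T + 1) * (3 * T ^ 2 - 3 * T + 1) * T * (2 * T - 1) *
      (1 - T) ^ 2 * x ^ 2

end Pool.Agent.UE12C
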