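import Pool.Agent.Lib_helper76.UE12.A
import Pool.Agent.Lib_helper76.UEN.F
import Pool.Agent.Lib_helper7.N12.A
import Pool.Agent.Lib_helper7.N12.S0

/-!
# Points of order twelve: the generators, their divisors and the scaling
-/

set_option autoImplicit false
set_option linter.unusedSectionVars false

open scoped TensorProduct

namespace Pool.Agent.UE12C

open WeierstrassCurve.Affine Polynomial WithZero GK UP
open UEG (Gen IsUn P0)
open UEN
open UE12 (bb cc x4 x5 x6 s3 s4 s5)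
open TN (Wt)
open KC72

section defs

variable {k : Type*} [Field k] {F : Type*} [Field F] [Algebra k F]

/-- the generators -/
def G12 (t : k) (x y : F) : Fin 16 → F := ![x, x - algebraMap k F (bb t), x - algebraMap k F (cc t),
  x - algebraMap k F (x4 t), x - algebraMap k F (x5 t), x - algebraMap k F (x6 t), y,
  y - algebraMap k F (cc t) * x, y - algebraMap k F (s3 t) * x, y - algebraMap k F (s4 t) * x,
  y - algebraMap k F (s5 t) * x, algebraMap k F t, algebraMap k F (t - 1),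
  algebraMap k F (2 * t - 1), algebraMap k F (2 * t ^ 2 - 2 * t + 1),
  algebraMap k F (3 * t ^ 2 - 3 * t + 1)]

/-- the list of the generators -/
def gl12 (t : k) (x y : F) : List F := [x, x - algebraMap k F (bb t), x - algebraMap k F (cc t),
  x - algebraMap k F (x4 t), x - algebraMap k F (x5 t), x - algebraMap k F (x6 t), y,
  y - algebraMap k F (cc t) * x, y - algebraMap k F (s3 t) * x, y - algebraMap k F (s4 t) * x,
  y - algebraMap k F (s5 t) * x, algebraMap k F t, algebraMap k F (t - 1),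
  algebraMap k F (2 * t - 1), algebraMap k F (2 * t ^ 2 - 2 * t + 1),
  algebraMap k F (3 * t ^ 2 - 3 * t + 1)]

lemma ofFn_G12 (t : k) (x y : F) : List.ofFn (G12 t x y) = gl12 t x y := rfl

/-- the divisors of the generators -/
def ds12 : List (ZMod 12 → ℤ) := [dV 1, dV 2, dV 3, dV 4, dV 5, dV 6, dL 1 1, dL 1 2, dL 1 3,
  dL 1 4, dL 1 5, fun _ => 0, fun _ => 0, fun _ => 0, fun _ => 0, fun _ => 0]

end defs

section scale

variable {k : Type*} [Field k] {t : k} {F : Type*} [Field F] [Algebra k F] {x y : F}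

/-- the number `1 - t` in `F` -/
def sF (F : Type*) [Field F] [Algebra k F] (t : k) : F := algebraMap k F (1 - t)

lemma mapF {t a p : k} (n : ℕ) (h : a * (1 - t) ^ n = p) :
    algebraMap k F a * sF F t ^ n = algebraMap k F p := by
  unfold sF; rw [← map_pow, ← map_mul, h]

lemma gl12_eq (h1 : 1 - t ≠ 0) : gl12 t x y =
    scl (-(algebraMap k F t - 1))⁻¹ ks12
      (gs12 (x * sF F t ^ 6) (y * sF F t ^ 9) (algebraMap k F t)) := by
  have hw : sF F t ≠ 0 := (_root_.map_ne_zero _).mpr h1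
  have e0 : -(algebraMap k F t - 1) = sF F t := by
    unfold sF
    simp only [map_sub, map_one]
    ring
  have e1 : (1 - algebraMap k F t) = sF F t := by
    rw [← e0]; ring
  have eb := mapF (F := F) (t := t) (a := bb t) 6
    (p := (2 * t ^ 2 - 2 * t + 1) * (3 * t ^ 2 - 3 * t + 1) * t * (2 * t - 1) * (1 - t) ^ 2)
    (by unfold bb cc; field_simp)
  have ec := mapF (F := F) (t := t) (a := cc t) 6
    (p := (3 * t ^ 2 - 3 * t + 1) * t * (2 * t - 1) * (1 - t) ^ 3)
    (by unfold cc; field_simp)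
  have e4 := mapF (F := F) (t := t) (a := x4 t) 6
    (p := t * (2 * t - 1) * (2 * t ^ 2 - 2 * t + 1) * (1 - t) ^ 4)
    (by unfold x4; field_simp)
  have e5 := mapF (F := F) (t := t) (a := x5 t) 6
    (p := t * (2 * t - 1) * (2 * t ^ 2 - 2 * t + 1) * (3 * t ^ 2 - 3 * t + 1) * (1 - t))
    (by unfold x5; field_simp)
  have e6 := mapF (F := F) (t := t) (a := x6 t) 6
    (p := -(t * (3 * t ^ 2 - 3 * t + 1) * (1 - t) ^ 5))
    (by unfold UE12.x6; field_simp)
  have ec3 := mapF (F := F) (t := t) (a := cc t) 3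
    (p := (3 * t ^ 2 - 3 * t + 1) * t * (2 * t - 1))
    (by unfold cc; field_simp)
  have es3 := mapF (F := F) (t := t) (a := s3 t) 3
    (p := t * (2 * t - 1) * (1 - t) ^ 2)
    (by unfold s3; field_simp)
  have es4 := mapF (F := F) (t := t) (a := s4 t) 3
    (p := t * (2 * t - 1) * (2 * t ^ 2 - 2 * t + 1))
    (by unfold s4; field_simp)
  have es5 := mapF (F := F) (t := t) (a := s5 t) 3
    (p := -(t * (3 * t ^ 2 - 3 * t + 1) * (1 - t)))
    (by unfold s5; field_simp)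
  simp only [map_sub, map_mul, map_one, map_ofNat, map_pow, map_add, map_neg, e1] at eb ec e4 e5 e6
  simp only [map_sub, map_mul, map_one, map_ofNat, map_pow, map_add, map_neg, e1] at ec3 es3 es4 es5
  rw [e0]
  unfold gs12 gl12 ks12
  rw [e1]
  simp only [scl, List.cons.injEq, zpow_zero, mul_one, and_true]
  have hz2 : (sF F t)⁻¹ ^ (6 : ℤ) = (sF F t ^ 6)⁻¹ := by
    rw [inv_zpow]; norm_cast
  have hz3 : (sF F t)⁻¹ ^ (9 : ℤ) = (sF F t ^ 9)⁻¹ := by
    rw [inv_zpow]; norm_cast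
  rw [hz2, hz3]
  have h2 : sF F t ^ 6 ≠ 0 := pow_ne_zero 6 hw
  have h3 : sF F t ^ 9 ≠ 0 := pow_ne_zero 9 hw
  refine ⟨?_, ?_, ?_, ?_, ?_, ?_, ?_, ?_, ?_, ?_, ?_, trivial, ?_, ?_, ?_, ?_⟩
  · rw [eq_mul_inv_iff_mul_eq₀ h2]
  · rw [eq_mul_inv_iff_mul_eq₀ h2]; linear_combination -eb
  · rw [eq_mul_inv_iff_mul_eq₀ h2]; linear_combination -ec
  · rw [eq_mul_inv_iff_mul_eq₀ h2]; linear_combination -e4
  · rw [eq_mul_inv_iff_mul_eq₀ h2]; linear_combination -e5
  · rw [eq_mul_inv_iff_mul_eq₀ h2]; linear_combination -e6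
  · rw [eq_mul_inv_iff_mul_eq₀ h3]
  · rw [eq_mul_inv_iff_mul_eq₀ h3]; linear_combination -(x * sF F t ^ 6) * ec3
  · rw [eq_mul_inv_iff_mul_eq₀ h3]; linear_combination -(x * sF F t ^ 6) * es3
  · rw [eq_mul_inv_iff_mul_eq₀ h3]; linear_combination -(x * sF F t ^ 6) * es4
  · rw [eq_mul_inv_iff_mul_eq₀ h3]; linear_combination -(x * sF F t ^ 6) * es5
  · simp only [map_sub, map_one]
  · simp only [map_sub, map_one, map_mul, map_ofNat]
  · simp only [map_sub, map_one, map_mul, map_ofNat, map_add, map_pow]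
  · simp only [map_sub, map_one, map_mul, map_ofNat, map_add, map_pow]

/-- the equation of the scaled curve -/
lemma he12 (h1 : 1 - t ≠ 0) (he : y ^ 2 + (1 - algebraMap k F (cc t)) * x * y -
    algebraMap k F (bb t) * y = x ^ 3 - algebraMap k F (bb t) * x ^ 2) {X Y T : F}
    (hX : X = x * sF F t ^ 6) (hY : Y = y * sF F t ^ 9) (hT : T = algebraMap k F t) :
    HE12 X Y T := by
  unfold HE12
  have e1 : (1 - T) = sF F t := by
    rw [hT]; unfold sF
    simp only [map_sub, map_one]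
  have ec := mapF (F := F) (t := t) (a := cc t) 3
    (p := (3 * t ^ 2 - 3 * t + 1) * t * (2 * t - 1))
    (by unfold cc; field_simp)
  have eb := mapF (F := F) (t := t) (a := bb t) 6
    (p := (2 * t ^ 2 - 2 * t + 1) * (3 * t ^ 2 - 3 * t + 1) * t * (2 * t - 1) * (1 - t) ^ 2)
    (by unfold bb cc; field_simp)
  simp only [map_sub, map_mul, map_one, map_ofNat, map_pow, map_add, map_neg, ← hT, e1] at ec eb
  rw [hX, hY]
  have e2 : (2 * T ^ 2 - 2 * T + 1) * (3 * T ^ 2 - 3 * T + 1) * T * (2 * T - 1) * (1 - T) ^ 5 =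
      algebraMap k F (bb t) * sF F t ^ 9 := by
    linear_combination -(sF F t ^ 3) * eb + ((2 * T ^ 2 - 2 * T + 1) * (3 * T ^ 2 - 3 * T + 1) *
      T * (2 * T - 1)) * ((1 - T) ^ 4 + (1 - T) ^ 3 * sF F t + (1 - T) ^ 2 * sF F t ^ 2 +
      (1 - T) * sF F t ^ 3 + sF F t ^ 4) * e1
  rw [e2, e1, ← ec, ← eb]
  linear_combination sF F t ^ 18 * he

end scale

section pq

variable {k : Type*} [Field k] [DecidableEq k] [CharZero k] {t : k}
  {F : Type*} [Field F] [DecidableEq F] [Algebra k F] {x y : F}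
  (ht : t ≠ 0) (h1 : 1 - t ≠ 0) (h2 : 2 * t - 1 ≠ 0)
  (hv : 2 * t ^ 2 - 2 * t + 1 ≠ 0) (hw : 3 * t ^ 2 - 3 * t + 1 ≠ 0) {hb : bb t ≠ 0}
  (hO : addOrderOf (P0 (cc t) hb) = 12) [Fintype (AddSubgroup.zmultiples (P0 (cc t) hb))]
  [DecidableEq (AddSubgroup.zmultiples (P0 (cc t) hb))] (hg : Gen (Wt (bb t) (cc t)) x y)

omit [DecidableEq k] [CharZero k] in
include h1 in
lemma t1_ne : t - 1 ≠ 0 := fun h => h1 (by linear_combination -h)

include ht h1 h2 hv hw in
lemma pq_gl12 : List.Forall₂ (fun f d => PQ hO hg f d) (gl12 t x y) ds12 :=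
  .cons (UE12.v1 hO hg) (.cons (UE12.v2 hO hg) (.cons (UE12.v3 hO hg)
    (.cons (UE12.v4 ht h1 h2 hw hO hg) (.cons (UE12.v5 ht h1 h2 hw hO hg)
    (.cons (UE12.v6 ht h1 h2 hw hO hg) (.cons (UE12.l11 hO hg) (.cons (UE12.l12 hO hg)
    (.cons (UE12.l13 ht h1 h2 hw hO hg) (.cons (UE12.l14 ht h1 h2 hv hw hO hg)
    (.cons (UE12.l15 ht h1 h2 hv hw hO hg) (.cons (PQ.const hg ht)
    (.cons (PQ.const hg (t1_ne h1)) (.cons (PQ.const hg h2) (.cons (PQ.const hg hv)
    (.cons (PQ.const hg hw) .nil)))))))))))))))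

end pq

end Pool.Agent.UE12C
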