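import Pool.Agent.Lib_helper7.N12.L

/-!
# The solutions of the unit equation for a point of order twelve, part 1
-/

set_option autoImplicit false
set_option linter.unusedSectionVars false
set_option linter.unusedSimpArgs false
set_option maxRecDepth 100000

namespace Pool.Agent.UE12C

open Pool.Agent.KC72

variable {F : Type*} [Field F] {x y T : F} (he : HE12 x y T) (hne : ∀ z ∈ gs12 x y T, z ≠ 0)

include he hne in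
lemma c0 : ev (gs12 x y T) (pr (kc true 0 1 0 0 0) (kc false 1 0 0 0 0) m_l_5_9_10 m_l_3_4_5) +
    ev (gs12 x y T) (pr (kc false 0 0 1 0 0) (kc false 1 0 0 0 0) m_l_5_8_11 m_l_3_4_5) = 1 := by
  refine cls3 hne (e_l_5_9_10 he hne) (e_l_5_8_11 he hne) (e_l_3_4_5 he hne) _ _ _ _ _ _ _ _ _ _ _ _ _ _ _ _ _ ?_
  simp only [kv, cond_true, cond_false]
  ring

include he hne in
lemma c1 : ev (gs12 x y T) (pr (kc true 0 0 0 1 0) (kc false 1 1 0 0 0) m_l_5_9_10 m_l_2_5_5) +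
    ev (gs12 x y T) (pr (kc false 0 0 0 0 1) (kc false 1 1 0 0 0) m_l_5_8_11 m_l_2_5_5) = 1 := by
  refine cls3 hne (e_l_5_9_10 he hne) (e_l_5_8_11 he hne) (e_l_2_5_5 he hne) _ _ _ _ _ _ _ _ _ _ _ _ _ _ _ _ _ ?_
  simp only [kv, cond_true, cond_false]
  ring

include he hne in
lemma c2 : ev (gs12 x y T) (pr (kc true 2 0 0 0 0) (kc false 0 1 1 0 0) m_l_5_9_10 m_l_2_5_5) +
    ev (gs12 x y T) (pr (kc false 0 0 0 0 1) (kc false 0 1 1 0 0) m_l_3_4_5 m_l_2_5_5) = 1 := by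
  refine cls3 hne (e_l_5_9_10 he hne) (e_l_3_4_5 he hne) (e_l_2_5_5 he hne) _ _ _ _ _ _ _ _ _ _ _ _ _ _ _ _ _ ?_
  simp only [kv, cond_true, cond_false]
  ring

include he hne in
lemma c3 : ev (gs12 x y T) (pr (kc false 0 0 0 0 0) (kc false 2 1 1 0 0) m_l_3_4_5 m_v_5) +
    ev (gs12 x y T) (pr (kc true 0 0 0 0 0) (kc false 2 1 1 0 0) m_l_2_5_5 m_v_5) = 1 := by
  refine cls3 hne (e_l_3_4_5 he hne) (e_l_2_5_5 he hne) e_v_5 _ _ _ _ _ _ _ _ _ _ _ _ _ _ _ _ _ ?_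
  simp only [kv, cond_true, cond_false]
  ring

include he hne in
lemma c4 : ev (gs12 x y T) (pr (kc false 0 0 0 0 0) (kc false 0 2 2 0 0) m_l_5_9_10 m_v_5) +
    ev (gs12 x y T) (pr (kc true 0 0 0 0 0) (kc false 0 2 2 0 0) m_l_3_4_5 m_v_5) = 1 := by
  refine cls3 hne (e_l_5_9_10 he hne) (e_l_3_4_5 he hne) e_v_5 _ _ _ _ _ _ _ _ _ _ _ _ _ _ _ _ _ ?_
  simp only [kv, cond_true, cond_false]
  ring

include he hne in
lemma c5 : ev (gs12 x y T) (pr (kc false 0 0 0 0 0) (kc false 0 3 1 0 0) m_l_5_8_11 m_v_5) +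
    ev (gs12 x y T) (pr (kc true 0 0 0 0 0) (kc false 0 3 1 0 0) m_l_3_4_5 m_v_5) = 1 := by
  refine cls3 hne (e_l_5_8_11 he hne) (e_l_3_4_5 he hne) e_v_5 _ _ _ _ _ _ _ _ _ _ _ _ _ _ _ _ _ ?_
  simp only [kv, cond_true, cond_false]
  ring

include he hne in
lemma c6 : ev (gs12 x y T) (pr (kc false 1 0 0 0 0) (kc false 0 0 1 0 0) m_l_5_8_11 m_l_1_5_6) +
    ev (gs12 x y T) (pr (kc false 0 1 0 0 0) (kc false 0 0 1 0 0) m_l_3_4_5 m_l_1_5_6) = 1 := by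
  refine cls3 hne (e_l_5_8_11 he hne) (e_l_3_4_5 he hne) e_l_1_5_6 _ _ _ _ _ _ _ _ _ _ _ _ _ _ _ _ _ ?_
  simp only [kv, cond_true, cond_false]
  ring

include he hne in
lemma c7 : ev (gs12 x y T) (pr (kc false 0 0 0 0 1) (kc false 1 0 1 0 0) m_l_3_4_5 m_l_1_5_6) +
    ev (gs12 x y T) (pr (kc true 0 2 0 0 0) (kc false 1 0 1 0 0) m_l_2_5_5 m_l_1_5_6) = 1 := by
  refine cls3 hne (e_l_3_4_5 he hne) (e_l_2_5_5 he hne) e_l_1_5_6 _ _ _ _ _ _ _ _ _ _ _ _ _ _ _ _ _ ?_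
  simp only [kv, cond_true, cond_false]
  ring

include he hne in
lemma c8 : ev (gs12 x y T) (pr (kc false 1 0 0 0 0) (kc false 0 0 1 0 0) m_l_5_9_10 m_l_1_5_6) +
    ev (gs12 x y T) (pr (kc false 0 1 0 0 0) (kc false 0 0 1 0 0) m_l_2_5_5 m_l_1_5_6) = 1 := by
  refine cls3 hne (e_l_5_9_10 he hne) (e_l_2_5_5 he hne) e_l_1_5_6 _ _ _ _ _ _ _ _ _ _ _ _ _ _ _ _ _ ?_
  simp only [kv, cond_true, cond_false]
  ring

include he hne in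
lemma c9 : ev (gs12 x y T) (pr (kc true 0 0 0 0 0) (kc false 1 3 0 0 0) m_l_3_4_5 m_v_5) +
    ev (gs12 x y T) (pr (kc false 0 0 0 0 0) (kc false 1 3 0 0 0) m_l_1_5_6 m_v_5) = 1 := by
  refine cls3 hne (e_l_3_4_5 he hne) e_l_1_5_6 e_v_5 _ _ _ _ _ _ _ _ _ _ _ _ _ _ _ _ _ ?_
  simp only [kv, cond_true, cond_false]
  ring

include he hne in
lemma c10 : ev (gs12 x y T) (pr (kc true 0 0 0 0 0) (kc false 0 1 0 0 1) m_l_5_8_11 m_v_4) +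
    ev (gs12 x y T) (pr (kc false 0 0 0 0 0) (kc false 0 1 0 0 1) m_l_1_3_8 m_v_4) = 1 := by
  refine cls3 hne (e_l_5_8_11 he hne) e_l_1_3_8 e_v_4 _ _ _ _ _ _ _ _ _ _ _ _ _ _ _ _ _ ?_
  simp only [kv, cond_true, cond_false]
  ring

include he hne in
lemma c11 : ev (gs12 x y T) (pr (kc false 0 0 0 0 1) (kc false 2 0 1 0 0) m_l_4_4_4 m_l_1_4_7) +
    ev (gs12 x y T) (pr (kc false 0 1 0 1 0) (kc false 2 0 1 0 0) m_l_3_4_5 m_l_1_4_7) = 1 := by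
  refine cls3 hne (e_l_4_4_4 he hne) (e_l_3_4_5 he hne) e_l_1_4_7 _ _ _ _ _ _ _ _ _ _ _ _ _ _ _ _ _ ?_
  simp only [kv, cond_true, cond_false]
  ring

include he hne in
lemma c12 : ev (gs12 x y T) (pr (kc false 2 0 1 0 0) (kc false 0 0 0 0 1) m_l_6_7_11 m_l_2_4_6) +
    ev (gs12 x y T) (pr (kc true 0 1 0 1 0) (kc false 0 0 0 0 1) m_l_3_3_6 m_l_2_4_6) = 1 := by
  refine cls3 hne (e_l_6_7_11 he hne) (e_l_3_3_6 he hne) (e_l_2_4_6 he hne) _ _ _ _ _ _ _ _ _ _ _ _ _ _ _ _ _ ?_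
  simp only [kv, cond_true, cond_false]
  ring

include he hne in
lemma c13 : ev (gs12 x y T) (pr (kc true 0 0 0 0 0) (kc false 1 1 0 1 0) m_l_3_4_5 m_v_3) +
    ev (gs12 x y T) (pr (kc false 0 0 0 0 0) (kc false 1 1 0 1 0) m_l_1_3_8 m_v_3) = 1 := by
  refine cls3 hne (e_l_3_4_5 he hne) e_l_1_3_8 e_v_3 _ _ _ _ _ _ _ _ _ _ _ _ _ _ _ _ _ ?_
  simp only [kv, cond_true, cond_false]
  ring

include he hne in
lemma c14 : ev (gs12 x y T) (pr (kc false 0 2 1 0 0) (kc false 1 0 0 1 0) m_v_5 m_v_3) +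
    ev (gs12 x y T) (pr (kc false 0 0 0 0 1) (kc false 1 0 0 1 0) m_v_4 m_v_3) = 1 := by
  refine cls3 hne e_v_5 e_v_4 e_v_3 _ _ _ _ _ _ _ _ _ _ _ _ _ _ _ _ _ ?_
  simp only [kv, cond_true, cond_false]
  ring

include he hne in
lemma c15 : ev (gs12 x y T) (pr (kc false 0 0 1 0 0) (kc false 1 0 0 0 0) m_l_1_4_7 m_l_1_2_9) +
    ev (gs12 x y T) (pr (kc true 0 1 0 0 0) (kc false 1 0 0 0 0) m_l_1_3_8 m_l_1_2_9) = 1 := by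
  refine cls3 hne e_l_1_4_7 e_l_1_3_8 e_l_1_2_9 _ _ _ _ _ _ _ _ _ _ _ _ _ _ _ _ _ ?_
  simp only [kv, cond_true, cond_false]
  ring

include he hne in
lemma c16 : ev (gs12 x y T) (pr (kc true 0 0 0 0 0) (kc false 0 0 1 0 1) m_l_4_9_11 m_v_4) +
    ev (gs12 x y T) (pr (kc false 0 0 0 0 0) (kc false 0 0 1 0 1) m_l_3_4_5 m_v_4) = 1 := by
  refine cls3 hne (e_l_4_9_11 he hne) (e_l_3_4_5 he hne) e_v_4 _ _ _ _ _ _ _ _ _ _ _ _ _ _ _ _ _ ?_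
  simp only [kv, cond_true, cond_false]
  ring

include he hne in
lemma c17 : ev (gs12 x y T) (pr (kc false 0 0 0 0 0) (kc false 1 0 0 0 1) m_l_3_4_5 m_v_4) +
    ev (gs12 x y T) (pr (kc true 0 0 0 0 0) (kc false 1 0 0 0 1) m_l_1_4_7 m_v_4) = 1 := by
  refine cls3 hne (e_l_3_4_5 he hne) e_l_1_4_7 e_v_4 _ _ _ _ _ _ _ _ _ _ _ _ _ _ _ _ _ ?_
  simp only [kv, cond_true, cond_false]
  ring

include he hne in
lemma c18 : ev (gs12 x y T) (pr (kc true 0 0 0 0 0) (kc false 1 1 0 1 0) m_l_4_4_4 m_v_4) +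
    ev (gs12 x y T) (pr (kc false 0 0 0 0 0) (kc false 1 1 0 1 0) m_l_1_4_7 m_v_4) = 1 := by
  refine cls3 hne (e_l_4_4_4 he hne) e_l_1_4_7 e_v_4 _ _ _ _ _ _ _ _ _ _ _ _ _ _ _ _ _ ?_
  simp only [kv, cond_true, cond_false]
  ring

include he hne in
lemma c19 : ev (gs12 x y T) (pr (kc true 0 1 0 0 0) (kc false 1 0 0 0 0) m_l_6_8_10 m_l_2_4_6) +
    ev (gs12 x y T) (pr (kc false 0 0 1 0 0) (kc false 1 0 0 0 0) m_l_6_7_11 m_l_2_4_6) = 1 := by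
  refine cls3 hne (e_l_6_8_10 he hne) (e_l_6_7_11 he hne) (e_l_2_4_6 he hne) _ _ _ _ _ _ _ _ _ _ _ _ _ _ _ _ _ ?_
  simp only [kv, cond_true, cond_false]
  ring

include he hne in
lemma c20 : ev (gs12 x y T) (pr (kc false 0 0 0 0 0) (kc false 1 0 1 1 0) m_l_5_9_10 m_v_3) +
    ev (gs12 x y T) (pr (kc true 0 0 0 0 0) (kc false 1 0 1 1 0) m_l_4_9_11 m_v_3) = 1 := by
  refine cls3 hne (e_l_5_9_10 he hne) (e_l_4_9_11 he hne) e_v_3 _ _ _ _ _ _ _ _ _ _ _ _ _ _ _ _ _ ?_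
  simp only [kv, cond_true, cond_false]
  ring

include he hne in
lemma c21 : ev (gs12 x y T) (pr (kc false 0 0 1 0 0) (kc false 1 0 0 0 0) m_l_1_5_6 m_l_1_3_8) +
    ev (gs12 x y T) (pr (kc true 0 1 0 0 0) (kc false 1 0 0 0 0) m_l_1_4_7 m_l_1_3_8) = 1 := by
  refine cls3 hne e_l_1_5_6 e_l_1_4_7 e_l_1_3_8 _ _ _ _ _ _ _ _ _ _ _ _ _ _ _ _ _ ?_
  simp only [kv, cond_true, cond_false]
  ring

include he hne in
lemma c22 : ev (gs12 x y T) (pr (kc false 0 0 0 0 0) (kc false 2 0 2 0 0) m_l_3_3_6 m_v_6) +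
    ev (gs12 x y T) (pr (kc true 0 0 0 0 0) (kc false 2 0 2 0 0) m_l_2_4_6 m_v_6) = 1 := by
  refine cls3 hne (e_l_3_3_6 he hne) (e_l_2_4_6 he hne) e_v_6 _ _ _ _ _ _ _ _ _ _ _ _ _ _ _ _ _ ?_
  simp only [kv, cond_true, cond_false]
  ring

include he hne in
lemma c23 : ev (gs12 x y T) (pr (kc false 0 0 0 0 0) (kc false 0 0 2 1 0) m_l_6_8_10 m_v_6) +
    ev (gs12 x y T) (pr (kc true 0 0 0 0 0) (kc false 0 0 2 1 0) m_l_2_4_6 m_v_6) = 1 := by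
  refine cls3 hne (e_l_6_8_10 he hne) (e_l_2_4_6 he hne) e_v_6 _ _ _ _ _ _ _ _ _ _ _ _ _ _ _ _ _ ?_
  simp only [kv, cond_true, cond_false]
  ring

include he hne in
lemma c24 : ev (gs12 x y T) (pr (kc true 0 1 1 0 0) (kc false 2 0 0 0 0) m_l_1_5_6 m_l_1_2_9) +
    ev (gs12 x y T) (pr (kc false 0 0 0 0 1) (kc false 2 0 0 0 0) m_l_1_4_7 m_l_1_2_9) = 1 := by
  refine cls3 hne e_l_1_5_6 e_l_1_4_7 e_l_1_2_9 _ _ _ _ _ _ _ _ _ _ _ _ _ _ _ _ _ ?_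
  simp only [kv, cond_true, cond_false]
  ring

include he hne in
lemma c25 : ev (gs12 x y T) (pr (kc true 0 0 0 0 0) (kc false 3 0 1 0 0) m_l_1_4_7 m_v_1) +
    ev (gs12 x y T) (pr (kc false 0 0 0 0 0) (kc false 3 0 1 0 0) m_l_1_3_8 m_v_1) = 1 := by
  refine cls3 hne e_l_1_4_7 e_l_1_3_8 e_v_1 _ _ _ _ _ _ _ _ _ _ _ _ _ _ _ _ _ ?_
  simp only [kv, cond_true, cond_false]
  ring

include he hne in
lemma c26 : ev (gs12 x y T) (pr (kc true 2 0 0 0 0) (kc false 0 2 0 0 0) m_l_3_10_11 m_l_2_3_7) +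
    ev (gs12 x y T) (pr (kc false 0 0 0 1 0) (kc false 0 2 0 0 0) m_l_3_3_6 m_l_2_3_7) = 1 := by
  refine cls3 hne (e_l_3_10_11 he hne) (e_l_3_3_6 he hne) (e_l_2_3_7 he hne) _ _ _ _ _ _ _ _ _ _ _ _ _ _ _ _ _ ?_
  simp only [kv, cond_true, cond_false]
  ring

include he hne in
lemma c27 : ev (gs12 x y T) (pr (kc false 0 0 0 0 0) (kc false 2 0 2 0 0) m_l_1_3_8 m_v_1) +
    ev (gs12 x y T) (pr (kc true 0 0 0 0 0) (kc false 2 0 2 0 0) m_l_1_2_9 m_v_1) = 1 := by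
  refine cls3 hne e_l_1_3_8 e_l_1_2_9 e_v_1 _ _ _ _ _ _ _ _ _ _ _ _ _ _ _ _ _ ?_
  simp only [kv, cond_true, cond_false]
  ring

include he hne in
lemma c28 : ev (gs12 x y T) (pr (kc false 2 0 1 0 0) (kc false 0 0 0 0 1) m_l_2_11_11 m_l_2_2_8) +
    ev (gs12 x y T) (pr (kc true 0 1 0 1 0) (kc false 0 0 0 0 1) m_l_2_3_7 m_l_2_2_8) = 1 := by
  refine cls3 hne (e_l_2_11_11 he hne) (e_l_2_3_7 he hne) (e_l_2_2_8 he hne) _ _ _ _ _ _ _ _ _ _ _ _ _ _ _ _ _ ?_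
  simp only [kv, cond_true, cond_false]
  ring

include he hne in
lemma c29 : ev (gs12 x y T) (pr (kc true 0 0 0 0 0) (kc false 3 1 0 0 0) m_l_1_5_6 m_v_1) +
    ev (gs12 x y T) (pr (kc false 0 0 0 0 0) (kc false 3 1 0 0 0) m_l_1_3_8 m_v_1) = 1 := by
  refine cls3 hne e_l_1_5_6 e_l_1_3_8 e_v_1 _ _ _ _ _ _ _ _ _ _ _ _ _ _ _ _ _ ?_
  simp only [kv, cond_true, cond_false]
  ring

include he hne in
lemma c30 : ev (gs12 x y T) (pr (kc false 0 0 0 0 0) (kc false 3 0 1 0 0) m_l_5_8_11 m_v_1) +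
    ev (gs12 x y T) (pr (kc true 0 0 0 0 0) (kc false 3 0 1 0 0) m_l_4_9_11 m_v_1) = 1 := by
  refine cls3 hne (e_l_5_8_11 he hne) (e_l_4_9_11 he hne) e_v_1 _ _ _ _ _ _ _ _ _ _ _ _ _ _ _ _ _ ?_
  simp only [kv, cond_true, cond_false]
  ring

include he hne in
lemma c31 : ev (gs12 x y T) (pr (kc false 0 0 0 0 0) (kc false 3 0 1 0 0) m_l_8_8_8 m_v_4) +
    ev (gs12 x y T) (pr (kc true 0 0 0 0 0) (kc false 3 0 1 0 0) m_l_7_8_9 m_v_4) = 1 := by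
  refine cls3 hne (e_l_8_8_8 he hne) (e_l_7_8_9 he hne) e_v_4 _ _ _ _ _ _ _ _ _ _ _ _ _ _ _ _ _ ?_
  simp only [kv, cond_true, cond_false]
  ring

include he hne in
lemma c32 : ev (gs12 x y T) (pr (kc false 0 0 0 0 0) (kc false 1 1 0 1 0) m_l_7_8_9 m_v_3) +
    ev (gs12 x y T) (pr (kc true 0 0 0 0 0) (kc false 1 1 0 1 0) m_l_4_9_11 m_v_3) = 1 := by
  refine cls3 hne (e_l_7_8_9 he hne) (e_l_4_9_11 he hne) e_v_3 _ _ _ _ _ _ _ _ _ _ _ _ _ _ _ _ _ ?_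
  simp only [kv, cond_true, cond_false]
  ring

include he hne in
lemma c33 : ev (gs12 x y T) (pr (kc false 0 0 1 0 0) (kc false 1 0 0 0 0) m_l_6_7_11 m_l_2_11_11) +
    ev (gs12 x y T) (pr (kc true 0 1 0 0 0) (kc false 1 0 0 0 0) m_l_3_10_11 m_l_2_11_11) = 1 := by
  refine cls3 hne (e_l_6_7_11 he hne) (e_l_3_10_11 he hne) (e_l_2_11_11 he hne) _ _ _ _ _ _ _ _ _ _ _ _ _ _ _ _ _ ?_
  simp only [kv, cond_true, cond_false]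
  ring

include he hne in
lemma c34 : ev (gs12 x y T) (pr (kc false 0 0 0 0 0) (kc false 0 3 1 0 0) m_l_7_8_9 m_v_5) +
    ev (gs12 x y T) (pr (kc true 0 0 0 0 0) (kc false 0 3 1 0 0) m_l_1_4_7 m_v_5) = 1 := by
  refine cls3 hne (e_l_7_8_9 he hne) e_l_1_4_7 e_v_5 _ _ _ _ _ _ _ _ _ _ _ _ _ _ _ _ _ ?_
  simp only [kv, cond_true, cond_false]
  ring

include he hne in
lemma c35 : ev (gs12 x y T) (pr (kc true 0 1 1 0 0) (kc false 2 0 0 0 0) m_l_1_5_6 m_l_1_1_10) +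
    ev (gs12 x y T) (pr (kc false 0 0 0 0 1) (kc false 2 0 0 0 0) m_l_1_3_8 m_l_1_1_10) = 1 := by
  refine cls3 hne e_l_1_5_6 e_l_1_3_8 e_l_1_1_10 _ _ _ _ _ _ _ _ _ _ _ _ _ _ _ _ _ ?_
  simp only [kv, cond_true, cond_false]
  ring

include he hne in
lemma c36 : ev (gs12 x y T) (pr (kc false 0 0 0 0 1) (kc false 1 1 0 0 0) m_l_7_8_9 m_l_5_9_10) +
    ev (gs12 x y T) (pr (kc true 0 0 0 1 0) (kc false 1 1 0 0 0) m_l_6_9_9 m_l_5_9_10) = 1 := by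
  refine cls3 hne (e_l_7_8_9 he hne) (e_l_6_9_9 he hne) (e_l_5_9_10 he hne) _ _ _ _ _ _ _ _ _ _ _ _ _ _ _ _ _ ?_
  simp only [kv, cond_true, cond_false]
  ring

include he hne in
lemma c37 : ev (gs12 x y T) (pr (kc false 0 0 0 0 0) (kc false 1 0 1 0 1) m_l_3_10_11 m_v_1) +
    ev (gs12 x y T) (pr (kc true 0 0 0 0 0) (kc false 1 0 1 0 1) m_l_2_11_11 m_v_1) = 1 := by
  refine cls3 hne (e_l_3_10_11 he hne) (e_l_2_11_11 he hne) e_v_1 _ _ _ _ _ _ _ _ _ _ _ _ _ _ _ _ _ ?_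
  simp only [kv, cond_true, cond_false]
  ring

include he hne in
lemma c38 : ev (gs12 x y T) (pr (kc false 1 1 0 0 0) (kc false 0 0 0 0 1) m_l_3_10_11 m_l_1_3_8) +
    ev (gs12 x y T) (pr (kc false 0 0 0 1 0) (kc false 0 0 0 0 1) m_l_3_3_6 m_l_1_3_8) = 1 := by
  refine cls3 hne (e_l_3_10_11 he hne) (e_l_3_3_6 he hne) e_l_1_3_8 _ _ _ _ _ _ _ _ _ _ _ _ _ _ _ _ _ ?_
  simp only [kv, cond_true, cond_false]
  ring

include he hne in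
lemma c39 : ev (gs12 x y T) (pr (kc false 1 0 1 0 0) (kc false 0 0 0 0 1) m_l_3_10_11 m_l_1_3_8) +
    ev (gs12 x y T) (pr (kc false 0 2 0 0 0) (kc false 0 0 0 0 1) m_l_2_3_7 m_l_1_3_8) = 1 := by
  refine cls3 hne (e_l_3_10_11 he hne) (e_l_2_3_7 he hne) e_l_1_3_8 _ _ _ _ _ _ _ _ _ _ _ _ _ _ _ _ _ ?_
  simp only [kv, cond_true, cond_false]
  ring

include he hne in
lemma c40 : ev (gs12 x y T) (pr (kc false 1 0 1 0 0) (kc false 0 0 0 0 1) m_l_6_7_11 m_l_1_4_7) +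
    ev (gs12 x y T) (pr (kc false 0 2 0 0 0) (kc false 0 0 0 0 1) m_l_2_3_7 m_l_1_4_7) = 1 := by
  refine cls3 hne (e_l_6_7_11 he hne) (e_l_2_3_7 he hne) e_l_1_4_7 _ _ _ _ _ _ _ _ _ _ _ _ _ _ _ _ _ ?_
  simp only [kv, cond_true, cond_false]
  ring

include he hne in
lemma c41 : ev (gs12 x y T) (pr (kc false 0 0 0 0 0) (kc false 1 0 0 0 0) m_l_6_8_10 m_l_1_5_6) +
    ev (gs12 x y T) (pr (kc false 0 1 0 0 0) (kc false 1 0 0 0 0) m_l_6_7_11 m_l_1_5_6) = 1 := by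
  refine cls3 hne (e_l_6_8_10 he hne) (e_l_6_7_11 he hne) e_l_1_5_6 _ _ _ _ _ _ _ _ _ _ _ _ _ _ _ _ _ ?_
  simp only [kv, cond_true, cond_false]
  ring

include he hne in
lemma c42 : ev (gs12 x y T) (pr (kc false 0 0 1 0 0) (kc false 2 0 0 0 0) m_l_2_4_6 m_l_1_2_9) +
    ev (gs12 x y T) (pr (kc false 0 2 0 0 0) (kc false 2 0 0 0 0) m_l_2_3_7 m_l_1_2_9) = 1 := by
  refine cls3 hne (e_l_2_4_6 he hne) (e_l_2_3_7 he hne) e_l_1_2_9 _ _ _ _ _ _ _ _ _ _ _ _ _ _ _ _ _ ?_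
  simp only [kv, cond_true, cond_false]
  ring

include he hne in
lemma c43 : ev (gs12 x y T) (pr (kc false 0 0 0 0 0) (kc false 1 1 1 0 0) m_l_2_3_7 m_v_2) +
    ev (gs12 x y T) (pr (kc true 0 0 0 0 0) (kc false 1 1 1 0 0) m_l_1_2_9 m_v_2) = 1 := by
  refine cls3 hne (e_l_2_3_7 he hne) e_l_1_2_9 e_v_2 _ _ _ _ _ _ _ _ _ _ _ _ _ _ _ _ _ ?_
  simp only [kv, cond_true, cond_false]
  ring

include he hne in
lemma c44 : ev (gs12 x y T) (pr (kc false 0 0 0 0 1) (kc false 1 1 0 0 0) m_l_3_4_5 m_l_2_3_7) +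
    ev (gs12 x y T) (pr (kc true 0 0 0 1 0) (kc false 1 1 0 0 0) m_l_3_3_6 m_l_2_3_7) = 1 := by
  refine cls3 hne (e_l_3_4_5 he hne) (e_l_3_3_6 he hne) (e_l_2_3_7 he hne) _ _ _ _ _ _ _ _ _ _ _ _ _ _ _ _ _ ?_
  simp only [kv, cond_true, cond_false]
  ring

include he hne in
lemma c45 : ev (gs12 x y T) (pr (kc true 0 1 1 0 0) (kc false 2 0 0 0 0) m_l_6_7_11 m_l_3_10_11) +
    ev (gs12 x y T) (pr (kc false 0 0 0 0 1) (kc false 2 0 0 0 0) m_l_5_8_11 m_l_3_10_11) = 1 := by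
  refine cls3 hne (e_l_6_7_11 he hne) (e_l_5_8_11 he hne) (e_l_3_10_11 he hne) _ _ _ _ _ _ _ _ _ _ _ _ _ _ _ _ _ ?_
  simp only [kv, cond_true, cond_false]
  ring

include he hne in
lemma c46 : ev (gs12 x y T) (pr (kc false 0 0 0 0 0) (kc false 0 1 1 0 1) m_l_7_7_10 m_v_5) +
    ev (gs12 x y T) (pr (kc true 0 0 0 0 0) (kc false 0 1 1 0 1) m_l_2_3_7 m_v_5) = 1 := by
  refine cls3 hne (e_l_7_7_10 he hne) (e_l_2_3_7 he hne) e_v_5 _ _ _ _ _ _ _ _ _ _ _ _ _ _ _ _ _ ?_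
  simp only [kv, cond_true, cond_false]
  ring

include he hne in
lemma c47 : ev (gs12 x y T) (pr (kc false 1 0 0 0 0) (kc false 0 1 0 0 0) m_l_4_9_11 m_l_1_4_7) +
    ev (gs12 x y T) (pr (kc true 0 0 0 0 0) (kc false 0 1 0 0 0) m_l_2_4_6 m_l_1_4_7) = 1 := by
  refine cls3 hne (e_l_4_9_11 he hne) (e_l_2_4_6 he hne) e_l_1_4_7 _ _ _ _ _ _ _ _ _ _ _ _ _ _ _ _ _ ?_
  simp only [kv, cond_true, cond_false]
  ring

include he hne in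
lemma c48 : ev (gs12 x y T) (pr (kc false 0 1 0 0 0) (kc false 1 0 0 0 0) m_l_3_4_5 m_l_1_4_7) +
    ev (gs12 x y T) (pr (kc false 0 0 0 0 0) (kc false 1 0 0 0 0) m_l_2_4_6 m_l_1_4_7) = 1 := by
  refine cls3 hne (e_l_3_4_5 he hne) (e_l_2_4_6 he hne) e_l_1_4_7 _ _ _ _ _ _ _ _ _ _ _ _ _ _ _ _ _ ?_
  simp only [kv, cond_true, cond_false]
  ring

include he hne in
lemma c49 : ev (gs12 x y T) (pr (kc false 0 0 0 0 0) (kc false 0 2 0 0 1) m_l_6_8_10 m_v_4) +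
    ev (gs12 x y T) (pr (kc true 0 0 0 0 0) (kc false 0 2 0 0 1) m_l_1_3_8 m_v_4) = 1 := by
  refine cls3 hne (e_l_6_8_10 he hne) e_l_1_3_8 e_v_4 _ _ _ _ _ _ _ _ _ _ _ _ _ _ _ _ _ ?_
  simp only [kv, cond_true, cond_false]
  ring

/-- part 1 of the list -/
def cp1 : List (Mo × Mo) := [
  (pr (kc true 0 1 0 0 0) (kc false 1 0 0 0 0) m_l_5_9_10 m_l_3_4_5,
    pr (kc false 0 0 1 0 0) (kc false 1 0 0 0 0) m_l_5_8_11 m_l_3_4_5),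
  (pr (kc true 0 0 0 1 0) (kc false 1 1 0 0 0) m_l_5_9_10 m_l_2_5_5,
    pr (kc false 0 0 0 0 1) (kc false 1 1 0 0 0) m_l_5_8_11 m_l_2_5_5),
  (pr (kc true 2 0 0 0 0) (kc false 0 1 1 0 0) m_l_5_9_10 m_l_2_5_5,
    pr (kc false 0 0 0 0 1) (kc false 0 1 1 0 0) m_l_3_4_5 m_l_2_5_5),
  (pr (kc false 0 0 0 0 0) (kc false 2 1 1 0 0) m_l_3_4_5 m_v_5,
    pr (kc true 0 0 0 0 0) (kc false 2 1 1 0 0) m_l_2_5_5 m_v_5),
  (pr (kc false 0 0 0 0 0) (kc false 0 2 2 0 0) m_l_5_9_10 m_v_5,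
    pr (kc true 0 0 0 0 0) (kc false 0 2 2 0 0) m_l_3_4_5 m_v_5),
  (pr (kc false 0 0 0 0 0) (kc false 0 3 1 0 0) m_l_5_8_11 m_v_5,
    pr (kc true 0 0 0 0 0) (kc false 0 3 1 0 0) m_l_3_4_5 m_v_5),
  (pr (kc false 1 0 0 0 0) (kc false 0 0 1 0 0) m_l_5_8_11 m_l_1_5_6,
    pr (kc false 0 1 0 0 0) (kc false 0 0 1 0 0) m_l_3_4_5 m_l_1_5_6),
  (pr (kc false 0 0 0 0 1) (kc false 1 0 1 0 0) m_l_3_4_5 m_l_1_5_6,
    pr (kc true 0 2 0 0 0) (kc false 1 0 1 0 0) m_l_2_5_5 m_l_1_5_6),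
  (pr (kc false 1 0 0 0 0) (kc false 0 0 1 0 0) m_l_5_9_10 m_l_1_5_6,
    pr (kc false 0 1 0 0 0) (kc false 0 0 1 0 0) m_l_2_5_5 m_l_1_5_6),
  (pr (kc true 0 0 0 0 0) (kc false 1 3 0 0 0) m_l_3_4_5 m_v_5,
    pr (kc false 0 0 0 0 0) (kc false 1 3 0 0 0) m_l_1_5_6 m_v_5),
  (pr (kc true 0 0 0 0 0) (kc false 0 1 0 0 1) m_l_5_8_11 m_v_4,
    pr (kc false 0 0 0 0 0) (kc false 0 1 0 0 1) m_l_1_3_8 m_v_4),
  (pr (kc false 0 0 0 0 1) (kc false 2 0 1 0 0) m_l_4_4_4 m_l_1_4_7,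
    pr (kc false 0 1 0 1 0) (kc false 2 0 1 0 0) m_l_3_4_5 m_l_1_4_7),
  (pr (kc false 2 0 1 0 0) (kc false 0 0 0 0 1) m_l_6_7_11 m_l_2_4_6,
    pr (kc true 0 1 0 1 0) (kc false 0 0 0 0 1) m_l_3_3_6 m_l_2_4_6),
  (pr (kc true 0 0 0 0 0) (kc false 1 1 0 1 0) m_l_3_4_5 m_v_3,
    pr (kc false 0 0 0 0 0) (kc false 1 1 0 1 0) m_l_1_3_8 m_v_3),
  (pr (kc false 0 2 1 0 0) (kc false 1 0 0 1 0) m_v_5 m_v_3,
    pr (kc false 0 0 0 0 1) (kc false 1 0 0 1 0) m_v_4 m_v_3),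
  (pr (kc false 0 0 1 0 0) (kc false 1 0 0 0 0) m_l_1_4_7 m_l_1_2_9,
    pr (kc true 0 1 0 0 0) (kc false 1 0 0 0 0) m_l_1_3_8 m_l_1_2_9),
  (pr (kc true 0 0 0 0 0) (kc false 0 0 1 0 1) m_l_4_9_11 m_v_4,
    pr (kc false 0 0 0 0 0) (kc false 0 0 1 0 1) m_l_3_4_5 m_v_4),
  (pr (kc false 0 0 0 0 0) (kc false 1 0 0 0 1) m_l_3_4_5 m_v_4,
    pr (kc true 0 0 0 0 0) (kc false 1 0 0 0 1) m_l_1_4_7 m_v_4),
  (pr (kc true 0 0 0 0 0) (kc false 1 1 0 1 0) m_l_4_4_4 m_v_4,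
    pr (kc false 0 0 0 0 0) (kc false 1 1 0 1 0) m_l_1_4_7 m_v_4),
  (pr (kc true 0 1 0 0 0) (kc false 1 0 0 0 0) m_l_6_8_10 m_l_2_4_6,
    pr (kc false 0 0 1 0 0) (kc false 1 0 0 0 0) m_l_6_7_11 m_l_2_4_6),
  (pr (kc false 0 0 0 0 0) (kc false 1 0 1 1 0) m_l_5_9_10 m_v_3,
    pr (kc true 0 0 0 0 0) (kc false 1 0 1 1 0) m_l_4_9_11 m_v_3),
  (pr (kc false 0 0 1 0 0) (kc false 1 0 0 0 0) m_l_1_5_6 m_l_1_3_8,
    pr (kc true 0 1 0 0 0) (kc false 1 0 0 0 0) m_l_1_4_7 m_l_1_3_8),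
  (pr (kc false 0 0 0 0 0) (kc false 2 0 2 0 0) m_l_3_3_6 m_v_6,
    pr (kc true 0 0 0 0 0) (kc false 2 0 2 0 0) m_l_2_4_6 m_v_6),
  (pr (kc false 0 0 0 0 0) (kc false 0 0 2 1 0) m_l_6_8_10 m_v_6,
    pr (kc true 0 0 0 0 0) (kc false 0 0 2 1 0) m_l_2_4_6 m_v_6),
  (pr (kc true 0 1 1 0 0) (kc false 2 0 0 0 0) m_l_1_5_6 m_l_1_2_9,
    pr (kc false 0 0 0 0 1) (kc false 2 0 0 0 0) m_l_1_4_7 m_l_1_2_9),
  (pr (kc true 0 0 0 0 0) (kc false 3 0 1 0 0) m_l_1_4_7 m_v_1,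
    pr (kc false 0 0 0 0 0) (kc false 3 0 1 0 0) m_l_1_3_8 m_v_1),
  (pr (kc true 2 0 0 0 0) (kc false 0 2 0 0 0) m_l_3_10_11 m_l_2_3_7,
    pr (kc false 0 0 0 1 0) (kc false 0 2 0 0 0) m_l_3_3_6 m_l_2_3_7),
  (pr (kc false 0 0 0 0 0) (kc false 2 0 2 0 0) m_l_1_3_8 m_v_1,
    pr (kc true 0 0 0 0 0) (kc false 2 0 2 0 0) m_l_1_2_9 m_v_1),
  (pr (kc false 2 0 1 0 0) (kc false 0 0 0 0 1) m_l_2_11_11 m_l_2_2_8,
    pr (kc true 0 1 0 1 0) (kc false 0 0 0 0 1) m_l_2_3_7 m_l_2_2_8),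
  (pr (kc true 0 0 0 0 0) (kc false 3 1 0 0 0) m_l_1_5_6 m_v_1,
    pr (kc false 0 0 0 0 0) (kc false 3 1 0 0 0) m_l_1_3_8 m_v_1),
  (pr (kc false 0 0 0 0 0) (kc false 3 0 1 0 0) m_l_5_8_11 m_v_1,
    pr (kc true 0 0 0 0 0) (kc false 3 0 1 0 0) m_l_4_9_11 m_v_1),
  (pr (kc false 0 0 0 0 0) (kc false 3 0 1 0 0) m_l_8_8_8 m_v_4,
    pr (kc true 0 0 0 0 0) (kc false 3 0 1 0 0) m_l_7_8_9 m_v_4),
  (pr (kc false 0 0 0 0 0) (kc false 1 1 0 1 0) m_l_7_8_9 m_v_3,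
    pr (kc true 0 0 0 0 0) (kc false 1 1 0 1 0) m_l_4_9_11 m_v_3),
  (pr (kc false 0 0 1 0 0) (kc false 1 0 0 0 0) m_l_6_7_11 m_l_2_11_11,
    pr (kc true 0 1 0 0 0) (kc false 1 0 0 0 0) m_l_3_10_11 m_l_2_11_11),
  (pr (kc false 0 0 0 0 0) (kc false 0 3 1 0 0) m_l_7_8_9 m_v_5,
    pr (kc true 0 0 0 0 0) (kc false 0 3 1 0 0) m_l_1_4_7 m_v_5),
  (pr (kc true 0 1 1 0 0) (kc false 2 0 0 0 0) m_l_1_5_6 m_l_1_1_10,
    pr (kc false 0 0 0 0 1) (kc false 2 0 0 0 0) m_l_1_3_8 m_l_1_1_10),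
  (pr (kc false 0 0 0 0 1) (kc false 1 1 0 0 0) m_l_7_8_9 m_l_5_9_10,
    pr (kc true 0 0 0 1 0) (kc false 1 1 0 0 0) m_l_6_9_9 m_l_5_9_10),
  (pr (kc false 0 0 0 0 0) (kc false 1 0 1 0 1) m_l_3_10_11 m_v_1,
    pr (kc true 0 0 0 0 0) (kc false 1 0 1 0 1) m_l_2_11_11 m_v_1),
  (pr (kc false 1 1 0 0 0) (kc false 0 0 0 0 1) m_l_3_10_11 m_l_1_3_8,
    pr (kc false 0 0 0 1 0) (kc false 0 0 0 0 1) m_l_3_3_6 m_l_1_3_8),
  (pr (kc false 1 0 1 0 0) (kc false 0 0 0 0 1) m_l_3_10_11 m_l_1_3_8,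
    pr (kc false 0 2 0 0 0) (kc false 0 0 0 0 1) m_l_2_3_7 m_l_1_3_8),
  (pr (kc false 1 0 1 0 0) (kc false 0 0 0 0 1) m_l_6_7_11 m_l_1_4_7,
    pr (kc false 0 2 0 0 0) (kc false 0 0 0 0 1) m_l_2_3_7 m_l_1_4_7),
  (pr (kc false 0 0 0 0 0) (kc false 1 0 0 0 0) m_l_6_8_10 m_l_1_5_6,
    pr (kc false 0 1 0 0 0) (kc false 1 0 0 0 0) m_l_6_7_11 m_l_1_5_6),
  (pr (kc false 0 0 1 0 0) (kc false 2 0 0 0 0) m_l_2_4_6 m_l_1_2_9,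
    pr (kc false 0 2 0 0 0) (kc false 2 0 0 0 0) m_l_2_3_7 m_l_1_2_9),
  (pr (kc false 0 0 0 0 0) (kc false 1 1 1 0 0) m_l_2_3_7 m_v_2,
    pr (kc true 0 0 0 0 0) (kc false 1 1 1 0 0) m_l_1_2_9 m_v_2),
  (pr (kc false 0 0 0 0 1) (kc false 1 1 0 0 0) m_l_3_4_5 m_l_2_3_7,
    pr (kc true 0 0 0 1 0) (kc false 1 1 0 0 0) m_l_3_3_6 m_l_2_3_7),
  (pr (kc true 0 1 1 0 0) (kc false 2 0 0 0 0) m_l_6_7_11 m_l_3_10_11,
    pr (kc false 0 0 0 0 1) (kc false 2 0 0 0 0) m_l_5_8_11 m_l_3_10_11),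
  (pr (kc false 0 0 0 0 0) (kc false 0 1 1 0 1) m_l_7_7_10 m_v_5,
    pr (kc true 0 0 0 0 0) (kc false 0 1 1 0 1) m_l_2_3_7 m_v_5),
  (pr (kc false 1 0 0 0 0) (kc false 0 1 0 0 0) m_l_4_9_11 m_l_1_4_7,
    pr (kc true 0 0 0 0 0) (kc false 0 1 0 0 0) m_l_2_4_6 m_l_1_4_7),
  (pr (kc false 0 1 0 0 0) (kc false 1 0 0 0 0) m_l_3_4_5 m_l_1_4_7,
    pr (kc false 0 0 0 0 0) (kc false 1 0 0 0 0) m_l_2_4_6 m_l_1_4_7),
  (pr (kc false 0 0 0 0 0) (kc false 0 2 0 0 1) m_l_6_8_10 m_v_4,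
    pr (kc true 0 0 0 0 0) (kc false 0 2 0 0 1) m_l_1_3_8 m_v_4)]

include he hne in
theorem sp1 : Sols (gs12 x y T) cp1 := by
  intro p hp
  unfold cp1 at hp
  simp only [List.mem_cons, List.not_mem_nil, or_false] at hp
  rcases hp with rfl | rfl | rfl | rfl | rfl | rfl | rfl | rfl | rfl | rfl | rfl | rfl | rfl | rfl | rfl | rfl | rfl | rfl | rfl | rfl | rfl | rfl | rfl | rfl | rfl | rfl | rfl | rfl | rfl | rfl | rfl | rfl | rfl | rfl | rfl | rfl | rfl | rfl | rfl | rfl | rfl | rfl | rfl | rfl | rfl | rfl | rfl | rfl | rfl | rfl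
  · exact c0 he hne
  · exact c1 he hne
  · exact c2 he hne
  · exact c3 he hne
  · exact c4 he hne
  · exact c5 he hne
  · exact c6 he hne
  · exact c7 he hne
  · exact c8 he hne
  · exact c9 he hne
  · exact c10 he hne
  · exact c11 he hne
  · exact c12 he hne
  · exact c13 he hne
  · exact c14 he hne
  · exact c15 he hne
  · exact c16 he hne
  · exact c17 he hne
  · exact c18 he hne
  · exact c19 he hne
  · exact c20 he hne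
  · exact c21 he hne
  · exact c22 he hne
  · exact c23 he hne
  · exact c24 he hne
  · exact c25 he hne
  · exact c26 he hne
  · exact c27 he hne
  · exact c28 he hne
  · exact c29 he hne
  · exact c30 he hne
  · exact c31 he hne
  · exact c32 he hne
  · exact c33 he hne
  · exact c34 he hne
  · exact c35 he hne
  · exact c36 he hne
  · exact c37 he hne
  · exact c38 he hne
  · exact c39 he hne
  · exact c40 he hne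
  · exact c41 he hne
  · exact c42 he hne
  · exact c43 he hne
  · exact c44 he hne
  · exact c45 he hne
  · exact c46 he hne
  · exact c47 he hne
  · exact c48 he hne
  · exact c49 he hne

end Pool.Agent.UE12C
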