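import Pool.Agent.Lib_helper7.N12.L

/-!
# The solutions of the unit equation for a point of order twelve, part 2
-/

set_option autoImplicit false
set_option linter.unusedSectionVars false
set_option linter.unusedSimpArgs false
set_option maxRecDepth 100000

namespace Pool.Agent.UE12C

open Pool.Agent.KC72

variable {F : Type*} [Field F] {x y T : F} (he : HE12 x y T) (hne : ∀ z ∈ gs12 x y T, z ≠ 0)

include he hne in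
lemma c50 : ev (gs12 x y T) (pr (kc true 2 0 0 0 0) (kc false 0 2 0 0 0) m_l_5_8_11 m_l_2_5_5) +
    ev (gs12 x y T) (pr (kc false 0 0 0 1 0) (kc false 0 2 0 0 0) m_l_3_4_5 m_l_2_5_5) = 1 := by
  refine cls3 hne (e_l_5_8_11 he hne) (e_l_3_4_5 he hne) (e_l_2_5_5 he hne) _ _ _ _ _ _ _ _ _ _ _ _ _ _ _ _ _ ?_
  simp only [kv, cond_true, cond_false]
  ring

include he hne in
lemma c51 : ev (gs12 x y T) (pr (kc false 0 0 0 0 0) (kc false 0 1 1 0 1) m_l_5_9_10 m_v_5) +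
    ev (gs12 x y T) (pr (kc true 0 0 0 0 0) (kc false 0 1 1 0 1) m_l_2_5_5 m_v_5) = 1 := by
  refine cls3 hne (e_l_5_9_10 he hne) (e_l_2_5_5 he hne) e_v_5 _ _ _ _ _ _ _ _ _ _ _ _ _ _ _ _ _ ?_
  simp only [kv, cond_true, cond_false]
  ring

include he hne in
lemma c52 : ev (gs12 x y T) (pr (kc false 0 0 0 0 0) (kc false 1 2 1 0 0) m_l_5_9_10 m_v_5) +
    ev (gs12 x y T) (pr (kc true 0 0 0 0 0) (kc false 1 2 1 0 0) m_l_5_8_11 m_v_5) = 1 := by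
  refine cls3 hne (e_l_5_9_10 he hne) (e_l_5_8_11 he hne) e_v_5 _ _ _ _ _ _ _ _ _ _ _ _ _ _ _ _ _ ?_
  simp only [kv, cond_true, cond_false]
  ring

include he hne in
lemma c53 : ev (gs12 x y T) (pr (kc false 0 0 0 0 0) (kc false 0 1 1 1 0) m_l_5_8_11 m_v_5) +
    ev (gs12 x y T) (pr (kc true 0 0 0 0 0) (kc false 0 1 1 1 0) m_l_2_5_5 m_v_5) = 1 := by
  refine cls3 hne (e_l_5_8_11 he hne) (e_l_2_5_5 he hne) e_v_5 _ _ _ _ _ _ _ _ _ _ _ _ _ _ _ _ _ ?_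
  simp only [kv, cond_true, cond_false]
  ring

include he hne in
lemma c54 : ev (gs12 x y T) (pr (kc false 1 0 0 0 1) (kc false 0 0 1 1 0) m_l_5_8_11 m_l_1_5_6) +
    ev (gs12 x y T) (pr (kc false 0 3 0 0 0) (kc false 0 0 1 1 0) m_l_2_5_5 m_l_1_5_6) = 1 := by
  refine cls3 hne (e_l_5_8_11 he hne) (e_l_2_5_5 he hne) e_l_1_5_6 _ _ _ _ _ _ _ _ _ _ _ _ _ _ _ _ _ ?_
  simp only [kv, cond_true, cond_false]
  ring

include he hne in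
lemma c55 : ev (gs12 x y T) (pr (kc true 0 2 0 0 0) (kc false 1 0 1 0 0) m_l_5_9_10 m_l_1_5_6) +
    ev (gs12 x y T) (pr (kc false 0 0 0 0 1) (kc false 1 0 1 0 0) m_l_5_8_11 m_l_1_5_6) = 1 := by
  refine cls3 hne (e_l_5_9_10 he hne) (e_l_5_8_11 he hne) e_l_1_5_6 _ _ _ _ _ _ _ _ _ _ _ _ _ _ _ _ _ ?_
  simp only [kv, cond_true, cond_false]
  ring

include he hne in
lemma c56 : ev (gs12 x y T) (pr (kc false 0 0 0 0 0) (kc false 1 1 2 0 0) (Mo.mul m_l_3_4_5 m_l_5_9_10) (Mo.mul m_v_5 m_l_1_5_6)) +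
    ev (gs12 x y T) (pr (kc true 0 0 0 0 0) (kc false 1 1 2 0 0) (Mo.mul m_l_2_5_5 m_l_5_8_11) (Mo.mul m_v_5 m_l_1_5_6)) = 1 := by
  refine cls3 hne (mul2 hne (e_l_3_4_5 he hne) (e_l_5_9_10 he hne)) (mul2 hne (e_l_2_5_5 he hne) (e_l_5_8_11 he hne)) (mul2 hne e_v_5 e_l_1_5_6) _ _ _ _ _ _ _ _ _ _ _ _ _ _ _ _ _ ?_
  simp only [kv, cond_true, cond_false]
  ring

include he hne in
lemma c57 : ev (gs12 x y T) (pr (kc false 1 1 0 0 0) (kc false 0 0 2 0 0) m_l_5_9_10 m_l_1_5_6) +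
    ev (gs12 x y T) (pr (kc false 0 0 0 0 1) (kc false 0 0 2 0 0) m_l_3_4_5 m_l_1_5_6) = 1 := by
  refine cls3 hne (e_l_5_9_10 he hne) (e_l_3_4_5 he hne) e_l_1_5_6 _ _ _ _ _ _ _ _ _ _ _ _ _ _ _ _ _ ?_
  simp only [kv, cond_true, cond_false]
  ring

include he hne in
lemma c58 : ev (gs12 x y T) (pr (kc false 0 0 0 0 0) (kc false 0 2 0 0 1) m_l_5_9_10 m_v_5) +
    ev (gs12 x y T) (pr (kc true 0 0 0 0 0) (kc false 0 2 0 0 1) m_l_1_5_6 m_v_5) = 1 := by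
  refine cls3 hne (e_l_5_9_10 he hne) e_l_1_5_6 e_v_5 _ _ _ _ _ _ _ _ _ _ _ _ _ _ _ _ _ ?_
  simp only [kv, cond_true, cond_false]
  ring

include he hne in
lemma c59 : ev (gs12 x y T) (pr (kc false 0 0 0 0 0) (kc false 0 4 0 0 0) m_l_5_8_11 m_v_5) +
    ev (gs12 x y T) (pr (kc true 0 0 0 0 0) (kc false 0 4 0 0 0) m_l_1_5_6 m_v_5) = 1 := by
  refine cls3 hne (e_l_5_8_11 he hne) e_l_1_5_6 e_v_5 _ _ _ _ _ _ _ _ _ _ _ _ _ _ _ _ _ ?_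
  simp only [kv, cond_true, cond_false]
  ring

include he hne in
lemma c60 : ev (gs12 x y T) (pr (kc true 0 0 0 0 0) (kc false 1 1 0 0 1) m_l_2_5_5 m_v_5) +
    ev (gs12 x y T) (pr (kc false 0 0 0 0 0) (kc false 1 1 0 0 1) m_l_1_5_6 m_v_5) = 1 := by
  refine cls3 hne (e_l_2_5_5 he hne) e_l_1_5_6 e_v_5 _ _ _ _ _ _ _ _ _ _ _ _ _ _ _ _ _ ?_
  simp only [kv, cond_true, cond_false]
  ring

include he hne in
lemma c61 : ev (gs12 x y T) (pr (kc false 0 0 0 0 0) (kc false 0 2 0 1 0) m_l_4_9_11 m_v_3) +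
    ev (gs12 x y T) (pr (kc true 0 0 0 0 0) (kc false 0 2 0 1 0) m_l_1_2_9 m_v_3) = 1 := by
  refine cls3 hne (e_l_4_9_11 he hne) e_l_1_2_9 e_v_3 _ _ _ _ _ _ _ _ _ _ _ _ _ _ _ _ _ ?_
  simp only [kv, cond_true, cond_false]
  ring

include he hne in
lemma c62 : ev (gs12 x y T) (pr (kc false 1 0 0 1 0) (kc false 0 2 1 0 0) m_l_4_9_11 m_l_1_4_7) +
    ev (gs12 x y T) (pr (kc true 0 0 0 0 1) (kc false 0 2 1 0 0) m_l_4_4_4 m_l_1_4_7) = 1 := by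
  refine cls3 hne (e_l_4_9_11 he hne) (e_l_4_4_4 he hne) e_l_1_4_7 _ _ _ _ _ _ _ _ _ _ _ _ _ _ _ _ _ ?_
  simp only [kv, cond_true, cond_false]
  ring

include he hne in
lemma c63 : ev (gs12 x y T) (pr (kc false 3 0 0 0 0) (kc false 0 3 0 0 0) m_l_4_9_11 m_l_3_4_5) +
    ev (gs12 x y T) (pr (kc true 0 0 0 0 1) (kc false 0 3 0 0 0) m_l_4_4_4 m_l_3_4_5) = 1 := by
  refine cls3 hne (e_l_4_9_11 he hne) (e_l_4_4_4 he hne) (e_l_3_4_5 he hne) _ _ _ _ _ _ _ _ _ _ _ _ _ _ _ _ _ ?_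
  simp only [kv, cond_true, cond_false]
  ring

include he hne in
lemma c64 : ev (gs12 x y T) (pr (kc false 1 0 0 0 0) (kc false 0 0 1 0 0) m_l_4_9_11 m_l_1_4_7) +
    ev (gs12 x y T) (pr (kc false 0 1 0 0 0) (kc false 0 0 1 0 0) m_l_3_4_5 m_l_1_4_7) = 1 := by
  refine cls3 hne (e_l_4_9_11 he hne) (e_l_3_4_5 he hne) e_l_1_4_7 _ _ _ _ _ _ _ _ _ _ _ _ _ _ _ _ _ ?_
  simp only [kv, cond_true, cond_false]
  ring

include he hne in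
lemma c65 : ev (gs12 x y T) (pr (kc true 0 0 0 0 0) (kc false 0 1 0 0 1) m_l_4_9_11 m_v_4) +
    ev (gs12 x y T) (pr (kc false 0 0 0 0 0) (kc false 0 1 0 0 1) m_l_1_4_7 m_v_4) = 1 := by
  refine cls3 hne (e_l_4_9_11 he hne) e_l_1_4_7 e_v_4 _ _ _ _ _ _ _ _ _ _ _ _ _ _ _ _ _ ?_
  simp only [kv, cond_true, cond_false]
  ring

include he hne in
lemma c66 : ev (gs12 x y T) (pr (kc false 0 0 0 0 0) (kc false 0 3 1 0 0) m_l_4_9_11 m_v_4) +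
    ev (gs12 x y T) (pr (kc true 0 0 0 0 0) (kc false 0 3 1 0 0) m_l_4_4_4 m_v_4) = 1 := by
  refine cls3 hne (e_l_4_9_11 he hne) (e_l_4_4_4 he hne) e_v_4 _ _ _ _ _ _ _ _ _ _ _ _ _ _ _ _ _ ?_
  simp only [kv, cond_true, cond_false]
  ring

include he hne in
lemma c67 : ev (gs12 x y T) (pr (kc true 0 0 0 0 0) (kc false 3 0 1 0 0) m_l_4_4_4 m_v_4) +
    ev (gs12 x y T) (pr (kc false 0 0 0 0 0) (kc false 3 0 1 0 0) m_l_3_4_5 m_v_4) = 1 := by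
  refine cls3 hne (e_l_4_4_4 he hne) (e_l_3_4_5 he hne) e_v_4 _ _ _ _ _ _ _ _ _ _ _ _ _ _ _ _ _ ?_
  simp only [kv, cond_true, cond_false]
  ring

include he hne in
lemma c68 : ev (gs12 x y T) (pr (kc false 0 0 0 0 0) (kc false 1 2 1 0 0) m_l_4_10_10 m_v_2) +
    ev (gs12 x y T) (pr (kc true 0 0 0 0 0) (kc false 1 2 1 0 0) m_l_3_10_11 m_v_2) = 1 := by
  refine cls3 hne (e_l_4_10_10 he hne) (e_l_3_10_11 he hne) e_v_2 _ _ _ _ _ _ _ _ _ _ _ _ _ _ _ _ _ ?_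
  simp only [kv, cond_true, cond_false]
  ring

include he hne in
lemma c69 : ev (gs12 x y T) (pr (kc false 0 0 0 0 1) (kc false 1 0 0 1 0) m_l_6_8_10 m_l_3_3_6) +
    ev (gs12 x y T) (pr (kc false 0 2 1 0 0) (kc false 1 0 0 1 0) m_l_6_7_11 m_l_3_3_6) = 1 := by
  refine cls3 hne (e_l_6_8_10 he hne) (e_l_6_7_11 he hne) (e_l_3_3_6 he hne) _ _ _ _ _ _ _ _ _ _ _ _ _ _ _ _ _ ?_
  simp only [kv, cond_true, cond_false]
  ring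

include he hne in
lemma c70 : ev (gs12 x y T) (pr (kc true 2 0 0 0 0) (kc false 0 2 0 0 0) m_l_6_8_10 m_l_2_4_6) +
    ev (gs12 x y T) (pr (kc false 0 0 0 1 0) (kc false 0 2 0 0 0) m_l_3_3_6 m_l_2_4_6) = 1 := by
  refine cls3 hne (e_l_6_8_10 he hne) (e_l_3_3_6 he hne) (e_l_2_4_6 he hne) _ _ _ _ _ _ _ _ _ _ _ _ _ _ _ _ _ ?_
  simp only [kv, cond_true, cond_false]
  ring

include he hne in
lemma c71 : ev (gs12 x y T) (pr (kc true 0 0 0 0 0) (kc false 0 0 1 0 1) m_l_6_7_11 m_v_6) +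
    ev (gs12 x y T) (pr (kc false 0 0 0 0 0) (kc false 0 0 1 0 1) m_l_3_3_6 m_v_6) = 1 := by
  refine cls3 hne (e_l_6_7_11 he hne) (e_l_3_3_6 he hne) e_v_6 _ _ _ _ _ _ _ _ _ _ _ _ _ _ _ _ _ ?_
  simp only [kv, cond_true, cond_false]
  ring

include he hne in
lemma c72 : ev (gs12 x y T) (pr (kc false 0 0 0 0 0) (kc false 0 1 1 1 0) m_l_6_7_11 m_v_6) +
    ev (gs12 x y T) (pr (kc true 0 0 0 0 0) (kc false 0 1 1 1 0) m_l_2_4_6 m_v_6) = 1 := by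
  refine cls3 hne (e_l_6_7_11 he hne) (e_l_2_4_6 he hne) e_v_6 _ _ _ _ _ _ _ _ _ _ _ _ _ _ _ _ _ ?_
  simp only [kv, cond_true, cond_false]
  ring

include he hne in
lemma c73 : ev (gs12 x y T) (pr (kc false 0 0 1 0 0) (kc false 1 0 0 0 0) m_l_2_4_6 m_l_2_2_8) +
    ev (gs12 x y T) (pr (kc true 0 1 0 0 0) (kc false 1 0 0 0 0) m_l_2_3_7 m_l_2_2_8) = 1 := by
  refine cls3 hne (e_l_2_4_6 he hne) (e_l_2_3_7 he hne) (e_l_2_2_8 he hne) _ _ _ _ _ _ _ _ _ _ _ _ _ _ _ _ _ ?_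
  simp only [kv, cond_true, cond_false]
  ring

include he hne in
lemma c74 : ev (gs12 x y T) (pr (kc true 0 1 0 0 0) (kc false 1 0 0 0 0) m_l_7_7_10 m_l_2_3_7) +
    ev (gs12 x y T) (pr (kc false 0 0 1 0 0) (kc false 1 0 0 0 0) m_l_6_7_11 m_l_2_3_7) = 1 := by
  refine cls3 hne (e_l_7_7_10 he hne) (e_l_6_7_11 he hne) (e_l_2_3_7 he hne) _ _ _ _ _ _ _ _ _ _ _ _ _ _ _ _ _ ?_
  simp only [kv, cond_true, cond_false]
  ring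

include he hne in
lemma c75 : ev (gs12 x y T) (pr (kc false 0 0 0 0 0) (kc false 1 0 1 1 0) m_l_6_8_10 m_v_6) +
    ev (gs12 x y T) (pr (kc true 0 0 0 0 0) (kc false 1 0 1 1 0) m_l_6_7_11 m_v_6) = 1 := by
  refine cls3 hne (e_l_6_8_10 he hne) (e_l_6_7_11 he hne) e_v_6 _ _ _ _ _ _ _ _ _ _ _ _ _ _ _ _ _ ?_
  simp only [kv, cond_true, cond_false]
  ring

include he hne in
lemma c76 : ev (gs12 x y T) (pr (kc false 0 0 0 0 0) (kc false 0 2 2 0 0) m_l_6_8_10 m_v_6) +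
    ev (gs12 x y T) (pr (kc true 0 0 0 0 0) (kc false 0 2 2 0 0) m_l_3_3_6 m_v_6) = 1 := by
  refine cls3 hne (e_l_6_8_10 he hne) (e_l_3_3_6 he hne) e_v_6 _ _ _ _ _ _ _ _ _ _ _ _ _ _ _ _ _ ?_
  simp only [kv, cond_true, cond_false]
  ring

include he hne in
lemma c77 : ev (gs12 x y T) (pr (kc true 0 2 0 0 0) (kc false 1 0 1 0 0) m_l_5_9_10 m_l_1_2_9) +
    ev (gs12 x y T) (pr (kc false 0 0 0 0 1) (kc false 1 0 1 0 0) m_l_4_9_11 m_l_1_2_9) = 1 := by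
  refine cls3 hne (e_l_5_9_10 he hne) (e_l_4_9_11 he hne) e_l_1_2_9 _ _ _ _ _ _ _ _ _ _ _ _ _ _ _ _ _ ?_
  simp only [kv, cond_true, cond_false]
  ring

include he hne in
lemma c78 : ev (gs12 x y T) (pr (kc false 0 0 2 0 0) (kc false 1 1 0 0 0) m_l_1_5_6 m_l_1_2_9) +
    ev (gs12 x y T) (pr (kc true 0 0 0 0 1) (kc false 1 1 0 0 0) m_l_1_3_8 m_l_1_2_9) = 1 := by
  refine cls3 hne e_l_1_5_6 e_l_1_3_8 e_l_1_2_9 _ _ _ _ _ _ _ _ _ _ _ _ _ _ _ _ _ ?_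
  simp only [kv, cond_true, cond_false]
  ring

include he hne in
lemma c79 : ev (gs12 x y T) (pr (kc false 0 0 0 0 0) (kc false 0 0 0 1 1) m_l_5_9_10 m_v_3) +
    ev (gs12 x y T) (pr (kc true 0 0 0 0 0) (kc false 0 0 0 1 1) m_l_1_2_9 m_v_3) = 1 := by
  refine cls3 hne (e_l_5_9_10 he hne) e_l_1_2_9 e_v_3 _ _ _ _ _ _ _ _ _ _ _ _ _ _ _ _ _ ?_
  simp only [kv, cond_true, cond_false]
  ring

include he hne in
lemma c80 : ev (gs12 x y T) (pr (kc true 2 0 0 0 0) (kc false 0 2 0 0 0) m_l_2_11_11 m_l_2_2_8) +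
    ev (gs12 x y T) (pr (kc false 0 0 0 1 0) (kc false 0 2 0 0 0) m_l_2_4_6 m_l_2_2_8) = 1 := by
  refine cls3 hne (e_l_2_11_11 he hne) (e_l_2_4_6 he hne) (e_l_2_2_8 he hne) _ _ _ _ _ _ _ _ _ _ _ _ _ _ _ _ _ ?_
  simp only [kv, cond_true, cond_false]
  ring

include he hne in
lemma c81 : ev (gs12 x y T) (pr (kc true 0 2 0 0 0) (kc false 2 0 0 0 0) m_l_7_8_9 m_l_4_9_11) +
    ev (gs12 x y T) (pr (kc false 0 0 0 1 0) (kc false 2 0 0 0 0) m_l_6_9_9 m_l_4_9_11) = 1 := by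
  refine cls3 hne (e_l_7_8_9 he hne) (e_l_6_9_9 he hne) (e_l_4_9_11 he hne) _ _ _ _ _ _ _ _ _ _ _ _ _ _ _ _ _ ?_
  simp only [kv, cond_true, cond_false]
  ring

include he hne in
lemma c82 : ev (gs12 x y T) (pr (kc false 0 0 0 0 0) (kc false 2 1 1 0 0) m_l_1_4_7 m_v_1) +
    ev (gs12 x y T) (pr (kc true 0 0 0 0 0) (kc false 2 1 1 0 0) m_l_1_2_9 m_v_1) = 1 := by
  refine cls3 hne e_l_1_4_7 e_l_1_2_9 e_v_1 _ _ _ _ _ _ _ _ _ _ _ _ _ _ _ _ _ ?_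
  simp only [kv, cond_true, cond_false]
  ring

include he hne in
lemma c83 : ev (gs12 x y T) (pr (kc false 3 0 0 0 0) (kc false 0 3 0 0 0) m_l_2_11_11 m_l_2_3_7) +
    ev (gs12 x y T) (pr (kc true 0 0 0 0 1) (kc false 0 3 0 0 0) m_l_2_4_6 m_l_2_3_7) = 1 := by
  refine cls3 hne (e_l_2_11_11 he hne) (e_l_2_4_6 he hne) (e_l_2_3_7 he hne) _ _ _ _ _ _ _ _ _ _ _ _ _ _ _ _ _ ?_
  simp only [kv, cond_true, cond_false]
  ring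

include he hne in
lemma c84 : ev (gs12 x y T) (pr (kc false 0 3 0 0 0) (kc false 3 0 0 0 0) m_l_7_7_10 m_l_3_10_11) +
    ev (gs12 x y T) (pr (kc false 0 0 0 0 1) (kc false 3 0 0 0 0) m_l_6_8_10 m_l_3_10_11) = 1 := by
  refine cls3 hne (e_l_7_7_10 he hne) (e_l_6_8_10 he hne) (e_l_3_10_11 he hne) _ _ _ _ _ _ _ _ _ _ _ _ _ _ _ _ _ ?_
  simp only [kv, cond_true, cond_false]
  ring

include he hne in
lemma c85 : ev (gs12 x y T) (pr (kc false 0 0 0 0 1) (kc false 2 0 1 0 0) m_l_8_8_8 m_l_5_8_11) +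
    ev (gs12 x y T) (pr (kc false 0 1 0 1 0) (kc false 2 0 1 0 0) m_l_7_8_9 m_l_5_8_11) = 1 := by
  refine cls3 hne (e_l_8_8_8 he hne) (e_l_7_8_9 he hne) (e_l_5_8_11 he hne) _ _ _ _ _ _ _ _ _ _ _ _ _ _ _ _ _ ?_
  simp only [kv, cond_true, cond_false]
  ring

include he hne in
lemma c86 : ev (gs12 x y T) (pr (kc false 0 0 0 0 1) (kc false 2 0 1 0 0) m_v_4 m_v_1) +
    ev (gs12 x y T) (pr (kc false 0 1 0 1 0) (kc false 2 0 1 0 0) m_v_3 m_v_1) = 1 := by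
  refine cls3 hne e_v_4 e_v_3 e_v_1 _ _ _ _ _ _ _ _ _ _ _ _ _ _ _ _ _ ?_
  simp only [kv, cond_true, cond_false]
  ring

include he hne in
lemma c87 : ev (gs12 x y T) (pr (kc false 0 3 0 0 0) (kc false 3 0 0 0 0) m_v_5 m_v_1) +
    ev (gs12 x y T) (pr (kc false 0 0 0 0 1) (kc false 3 0 0 0 0) m_v_4 m_v_1) = 1 := by
  refine cls3 hne e_v_5 e_v_4 e_v_1 _ _ _ _ _ _ _ _ _ _ _ _ _ _ _ _ _ ?_
  simp only [kv, cond_true, cond_false]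
  ring

include he hne in
lemma c88 : ev (gs12 x y T) (pr (kc true 0 2 0 0 0) (kc false 2 0 0 0 0) m_v_5 m_v_1) +
    ev (gs12 x y T) (pr (kc false 0 0 0 1 0) (kc false 2 0 0 0 0) m_v_3 m_v_1) = 1 := by
  refine cls3 hne e_v_5 e_v_3 e_v_1 _ _ _ _ _ _ _ _ _ _ _ _ _ _ _ _ _ ?_
  simp only [kv, cond_true, cond_false]
  ring

include he hne in
lemma c89 : ev (gs12 x y T) (pr (kc false 0 0 0 0 0) (kc false 4 0 0 0 0) m_l_1_5_6 m_v_1) +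
    ev (gs12 x y T) (pr (kc true 0 0 0 0 0) (kc false 4 0 0 0 0) m_l_1_4_7 m_v_1) = 1 := by
  refine cls3 hne e_l_1_5_6 e_l_1_4_7 e_v_1 _ _ _ _ _ _ _ _ _ _ _ _ _ _ _ _ _ ?_
  simp only [kv, cond_true, cond_false]
  ring

include he hne in
lemma c90 : ev (gs12 x y T) (pr (kc false 0 0 0 0 0) (kc false 2 0 0 0 1) m_l_1_5_6 m_v_1) +
    ev (gs12 x y T) (pr (kc true 0 0 0 0 0) (kc false 2 0 0 0 1) m_l_1_2_9 m_v_1) = 1 := by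
  refine cls3 hne e_l_1_5_6 e_l_1_2_9 e_v_1 _ _ _ _ _ _ _ _ _ _ _ _ _ _ _ _ _ ?_
  simp only [kv, cond_true, cond_false]
  ring

include he hne in
lemma c91 : ev (gs12 x y T) (pr (kc false 0 0 0 0 0) (kc false 3 1 0 0 0) m_l_7_8_9 m_v_3) +
    ev (gs12 x y T) (pr (kc true 0 0 0 0 0) (kc false 3 1 0 0 0) m_l_6_9_9 m_v_3) = 1 := by
  refine cls3 hne (e_l_7_8_9 he hne) (e_l_6_9_9 he hne) e_v_3 _ _ _ _ _ _ _ _ _ _ _ _ _ _ _ _ _ ?_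
  simp only [kv, cond_true, cond_false]
  ring

include he hne in
lemma c92 : ev (gs12 x y T) (pr (kc false 0 0 0 0 1) (kc false 3 0 0 0 0) m_l_8_8_8 m_l_1_3_8) +
    ev (gs12 x y T) (pr (kc false 0 3 0 0 0) (kc false 3 0 0 0 0) m_l_7_8_9 m_l_1_3_8) = 1 := by
  refine cls3 hne (e_l_8_8_8 he hne) (e_l_7_8_9 he hne) e_l_1_3_8 _ _ _ _ _ _ _ _ _ _ _ _ _ _ _ _ _ ?_
  simp only [kv, cond_true, cond_false]
  ring

include he hne in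
lemma c93 : ev (gs12 x y T) (pr (kc false 0 0 0 0 0) (kc false 3 1 1 0 1) m_v_5 m_1) +
    ev (gs12 x y T) (pr (kc true 0 0 0 0 0) (kc false 3 1 1 0 1) m_v_3 m_1) = 1 := by
  refine cls3 hne e_v_5 e_v_3 e_1 _ _ _ _ _ _ _ _ _ _ _ _ _ _ _ _ _ ?_
  simp only [kv, cond_true, cond_false]
  ring

include he hne in
lemma c94 : ev (gs12 x y T) (pr (kc false 0 0 0 0 0) (kc false 2 2 0 0 0) m_l_2_4_6 m_v_2) +
    ev (gs12 x y T) (pr (kc true 0 0 0 0 0) (kc false 2 2 0 0 0) m_l_2_2_8 m_v_2) = 1 := by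
  refine cls3 hne (e_l_2_4_6 he hne) (e_l_2_2_8 he hne) e_v_2 _ _ _ _ _ _ _ _ _ _ _ _ _ _ _ _ _ ?_
  simp only [kv, cond_true, cond_false]
  ring

include he hne in
lemma c95 : ev (gs12 x y T) (pr (kc true 0 2 0 0 0) (kc false 2 0 0 0 0) m_l_1_4_7 m_l_1_1_10) +
    ev (gs12 x y T) (pr (kc false 0 0 0 1 0) (kc false 2 0 0 0 0) m_l_1_3_8 m_l_1_1_10) = 1 := by
  refine cls3 hne e_l_1_4_7 e_l_1_3_8 e_l_1_1_10 _ _ _ _ _ _ _ _ _ _ _ _ _ _ _ _ _ ?_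
  simp only [kv, cond_true, cond_false]
  ring

include he hne in
lemma c96 : ev (gs12 x y T) (pr (kc true 0 0 0 0 0) (kc false 3 3 2 0 0) m_v_4 m_1) +
    ev (gs12 x y T) (pr (kc false 0 0 0 0 0) (kc false 3 3 2 0 0) m_v_3 m_1) = 1 := by
  refine cls3 hne e_v_4 e_v_3 e_1 _ _ _ _ _ _ _ _ _ _ _ _ _ _ _ _ _ ?_
  simp only [kv, cond_true, cond_false]
  ring

include he hne in
lemma c97 : ev (gs12 x y T) (pr (kc false 0 0 0 0 0) (kc false 2 1 1 0 0) m_l_2_3_7 m_v_2) +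
    ev (gs12 x y T) (pr (kc true 0 0 0 0 0) (kc false 2 1 1 0 0) m_l_2_2_8 m_v_2) = 1 := by
  refine cls3 hne (e_l_2_3_7 he hne) (e_l_2_2_8 he hne) e_v_2 _ _ _ _ _ _ _ _ _ _ _ _ _ _ _ _ _ ?_
  simp only [kv, cond_true, cond_false]
  ring

include he hne in
lemma c98 : ev (gs12 x y T) (pr (kc true 0 2 0 0 0) (kc false 2 0 0 0 0) m_l_7_7_10 m_l_4_10_10) +
    ev (gs12 x y T) (pr (kc false 0 0 0 1 0) (kc false 2 0 0 0 0) m_l_6_8_10 m_l_4_10_10) = 1 := by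
  refine cls3 hne (e_l_7_7_10 he hne) (e_l_6_8_10 he hne) (e_l_4_10_10 he hne) _ _ _ _ _ _ _ _ _ _ _ _ _ _ _ _ _ ?_
  simp only [kv, cond_true, cond_false]
  ring

include he hne in
lemma c99 : ev (gs12 x y T) (pr (kc true 0 0 0 0 0) (kc false 4 0 0 0 0) m_l_7_7_10 m_v_2) +
    ev (gs12 x y T) (pr (kc false 0 0 0 0 0) (kc false 4 0 0 0 0) m_l_6_8_10 m_v_2) = 1 := by
  refine cls3 hne (e_l_7_7_10 he hne) (e_l_6_8_10 he hne) e_v_2 _ _ _ _ _ _ _ _ _ _ _ _ _ _ _ _ _ ?_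
  simp only [kv, cond_true, cond_false]
  ring

/-- part 2 of the list -/
def cp2 : List (Mo × Mo) := [
  (pr (kc true 2 0 0 0 0) (kc false 0 2 0 0 0) m_l_5_8_11 m_l_2_5_5,
    pr (kc false 0 0 0 1 0) (kc false 0 2 0 0 0) m_l_3_4_5 m_l_2_5_5),
  (pr (kc false 0 0 0 0 0) (kc false 0 1 1 0 1) m_l_5_9_10 m_v_5,
    pr (kc true 0 0 0 0 0) (kc false 0 1 1 0 1) m_l_2_5_5 m_v_5),
  (pr (kc false 0 0 0 0 0) (kc false 1 2 1 0 0) m_l_5_9_10 m_v_5,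
    pr (kc true 0 0 0 0 0) (kc false 1 2 1 0 0) m_l_5_8_11 m_v_5),
  (pr (kc false 0 0 0 0 0) (kc false 0 1 1 1 0) m_l_5_8_11 m_v_5,
    pr (kc true 0 0 0 0 0) (kc false 0 1 1 1 0) m_l_2_5_5 m_v_5),
  (pr (kc false 1 0 0 0 1) (kc false 0 0 1 1 0) m_l_5_8_11 m_l_1_5_6,
    pr (kc false 0 3 0 0 0) (kc false 0 0 1 1 0) m_l_2_5_5 m_l_1_5_6),
  (pr (kc true 0 2 0 0 0) (kc false 1 0 1 0 0) m_l_5_9_10 m_l_1_5_6,
    pr (kc false 0 0 0 0 1) (kc false 1 0 1 0 0) m_l_5_8_11 m_l_1_5_6),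
  (pr (kc false 0 0 0 0 0) (kc false 1 1 2 0 0) (Mo.mul m_l_3_4_5 m_l_5_9_10) (Mo.mul m_v_5 m_l_1_5_6),
    pr (kc true 0 0 0 0 0) (kc false 1 1 2 0 0) (Mo.mul m_l_2_5_5 m_l_5_8_11) (Mo.mul m_v_5 m_l_1_5_6)),
  (pr (kc false 1 1 0 0 0) (kc false 0 0 2 0 0) m_l_5_9_10 m_l_1_5_6,
    pr (kc false 0 0 0 0 1) (kc false 0 0 2 0 0) m_l_3_4_5 m_l_1_5_6),
  (pr (kc false 0 0 0 0 0) (kc false 0 2 0 0 1) m_l_5_9_10 m_v_5,
    pr (kc true 0 0 0 0 0) (kc false 0 2 0 0 1) m_l_1_5_6 m_v_5),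
  (pr (kc false 0 0 0 0 0) (kc false 0 4 0 0 0) m_l_5_8_11 m_v_5,
    pr (kc true 0 0 0 0 0) (kc false 0 4 0 0 0) m_l_1_5_6 m_v_5),
  (pr (kc true 0 0 0 0 0) (kc false 1 1 0 0 1) m_l_2_5_5 m_v_5,
    pr (kc false 0 0 0 0 0) (kc false 1 1 0 0 1) m_l_1_5_6 m_v_5),
  (pr (kc false 0 0 0 0 0) (kc false 0 2 0 1 0) m_l_4_9_11 m_v_3,
    pr (kc true 0 0 0 0 0) (kc false 0 2 0 1 0) m_l_1_2_9 m_v_3),
  (pr (kc false 1 0 0 1 0) (kc false 0 2 1 0 0) m_l_4_9_11 m_l_1_4_7,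
    pr (kc true 0 0 0 0 1) (kc false 0 2 1 0 0) m_l_4_4_4 m_l_1_4_7),
  (pr (kc false 3 0 0 0 0) (kc false 0 3 0 0 0) m_l_4_9_11 m_l_3_4_5,
    pr (kc true 0 0 0 0 1) (kc false 0 3 0 0 0) m_l_4_4_4 m_l_3_4_5),
  (pr (kc false 1 0 0 0 0) (kc false 0 0 1 0 0) m_l_4_9_11 m_l_1_4_7,
    pr (kc false 0 1 0 0 0) (kc false 0 0 1 0 0) m_l_3_4_5 m_l_1_4_7),
  (pr (kc true 0 0 0 0 0) (kc false 0 1 0 0 1) m_l_4_9_11 m_v_4,
    pr (kc false 0 0 0 0 0) (kc false 0 1 0 0 1) m_l_1_4_7 m_v_4),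
  (pr (kc false 0 0 0 0 0) (kc false 0 3 1 0 0) m_l_4_9_11 m_v_4,
    pr (kc true 0 0 0 0 0) (kc false 0 3 1 0 0) m_l_4_4_4 m_v_4),
  (pr (kc true 0 0 0 0 0) (kc false 3 0 1 0 0) m_l_4_4_4 m_v_4,
    pr (kc false 0 0 0 0 0) (kc false 3 0 1 0 0) m_l_3_4_5 m_v_4),
  (pr (kc false 0 0 0 0 0) (kc false 1 2 1 0 0) m_l_4_10_10 m_v_2,
    pr (kc true 0 0 0 0 0) (kc false 1 2 1 0 0) m_l_3_10_11 m_v_2),
  (pr (kc false 0 0 0 0 1) (kc false 1 0 0 1 0) m_l_6_8_10 m_l_3_3_6,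
    pr (kc false 0 2 1 0 0) (kc false 1 0 0 1 0) m_l_6_7_11 m_l_3_3_6),
  (pr (kc true 2 0 0 0 0) (kc false 0 2 0 0 0) m_l_6_8_10 m_l_2_4_6,
    pr (kc false 0 0 0 1 0) (kc false 0 2 0 0 0) m_l_3_3_6 m_l_2_4_6),
  (pr (kc true 0 0 0 0 0) (kc false 0 0 1 0 1) m_l_6_7_11 m_v_6,
    pr (kc false 0 0 0 0 0) (kc false 0 0 1 0 1) m_l_3_3_6 m_v_6),
  (pr (kc false 0 0 0 0 0) (kc false 0 1 1 1 0) m_l_6_7_11 m_v_6,
    pr (kc true 0 0 0 0 0) (kc false 0 1 1 1 0) m_l_2_4_6 m_v_6),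
  (pr (kc false 0 0 1 0 0) (kc false 1 0 0 0 0) m_l_2_4_6 m_l_2_2_8,
    pr (kc true 0 1 0 0 0) (kc false 1 0 0 0 0) m_l_2_3_7 m_l_2_2_8),
  (pr (kc true 0 1 0 0 0) (kc false 1 0 0 0 0) m_l_7_7_10 m_l_2_3_7,
    pr (kc false 0 0 1 0 0) (kc false 1 0 0 0 0) m_l_6_7_11 m_l_2_3_7),
  (pr (kc false 0 0 0 0 0) (kc false 1 0 1 1 0) m_l_6_8_10 m_v_6,
    pr (kc true 0 0 0 0 0) (kc false 1 0 1 1 0) m_l_6_7_11 m_v_6),
  (pr (kc false 0 0 0 0 0) (kc false 0 2 2 0 0) m_l_6_8_10 m_v_6,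
    pr (kc true 0 0 0 0 0) (kc false 0 2 2 0 0) m_l_3_3_6 m_v_6),
  (pr (kc true 0 2 0 0 0) (kc false 1 0 1 0 0) m_l_5_9_10 m_l_1_2_9,
    pr (kc false 0 0 0 0 1) (kc false 1 0 1 0 0) m_l_4_9_11 m_l_1_2_9),
  (pr (kc false 0 0 2 0 0) (kc false 1 1 0 0 0) m_l_1_5_6 m_l_1_2_9,
    pr (kc true 0 0 0 0 1) (kc false 1 1 0 0 0) m_l_1_3_8 m_l_1_2_9),
  (pr (kc false 0 0 0 0 0) (kc false 0 0 0 1 1) m_l_5_9_10 m_v_3,
    pr (kc true 0 0 0 0 0) (kc false 0 0 0 1 1) m_l_1_2_9 m_v_3),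
  (pr (kc true 2 0 0 0 0) (kc false 0 2 0 0 0) m_l_2_11_11 m_l_2_2_8,
    pr (kc false 0 0 0 1 0) (kc false 0 2 0 0 0) m_l_2_4_6 m_l_2_2_8),
  (pr (kc true 0 2 0 0 0) (kc false 2 0 0 0 0) m_l_7_8_9 m_l_4_9_11,
    pr (kc false 0 0 0 1 0) (kc false 2 0 0 0 0) m_l_6_9_9 m_l_4_9_11),
  (pr (kc false 0 0 0 0 0) (kc false 2 1 1 0 0) m_l_1_4_7 m_v_1,
    pr (kc true 0 0 0 0 0) (kc false 2 1 1 0 0) m_l_1_2_9 m_v_1),
  (pr (kc false 3 0 0 0 0) (kc false 0 3 0 0 0) m_l_2_11_11 m_l_2_3_7,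
    pr (kc true 0 0 0 0 1) (kc false 0 3 0 0 0) m_l_2_4_6 m_l_2_3_7),
  (pr (kc false 0 3 0 0 0) (kc false 3 0 0 0 0) m_l_7_7_10 m_l_3_10_11,
    pr (kc false 0 0 0 0 1) (kc false 3 0 0 0 0) m_l_6_8_10 m_l_3_10_11),
  (pr (kc false 0 0 0 0 1) (kc false 2 0 1 0 0) m_l_8_8_8 m_l_5_8_11,
    pr (kc false 0 1 0 1 0) (kc false 2 0 1 0 0) m_l_7_8_9 m_l_5_8_11),
  (pr (kc false 0 0 0 0 1) (kc false 2 0 1 0 0) m_v_4 m_v_1,
    pr (kc false 0 1 0 1 0) (kc false 2 0 1 0 0) m_v_3 m_v_1),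
  (pr (kc false 0 3 0 0 0) (kc false 3 0 0 0 0) m_v_5 m_v_1,
    pr (kc false 0 0 0 0 1) (kc false 3 0 0 0 0) m_v_4 m_v_1),
  (pr (kc true 0 2 0 0 0) (kc false 2 0 0 0 0) m_v_5 m_v_1,
    pr (kc false 0 0 0 1 0) (kc false 2 0 0 0 0) m_v_3 m_v_1),
  (pr (kc false 0 0 0 0 0) (kc false 4 0 0 0 0) m_l_1_5_6 m_v_1,
    pr (kc true 0 0 0 0 0) (kc false 4 0 0 0 0) m_l_1_4_7 m_v_1),
  (pr (kc false 0 0 0 0 0) (kc false 2 0 0 0 1) m_l_1_5_6 m_v_1,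
    pr (kc true 0 0 0 0 0) (kc false 2 0 0 0 1) m_l_1_2_9 m_v_1),
  (pr (kc false 0 0 0 0 0) (kc false 3 1 0 0 0) m_l_7_8_9 m_v_3,
    pr (kc true 0 0 0 0 0) (kc false 3 1 0 0 0) m_l_6_9_9 m_v_3),
  (pr (kc false 0 0 0 0 1) (kc false 3 0 0 0 0) m_l_8_8_8 m_l_1_3_8,
    pr (kc false 0 3 0 0 0) (kc false 3 0 0 0 0) m_l_7_8_9 m_l_1_3_8),
  (pr (kc false 0 0 0 0 0) (kc false 3 1 1 0 1) m_v_5 m_1,
    pr (kc true 0 0 0 0 0) (kc false 3 1 1 0 1) m_v_3 m_1),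
  (pr (kc false 0 0 0 0 0) (kc false 2 2 0 0 0) m_l_2_4_6 m_v_2,
    pr (kc true 0 0 0 0 0) (kc false 2 2 0 0 0) m_l_2_2_8 m_v_2),
  (pr (kc true 0 2 0 0 0) (kc false 2 0 0 0 0) m_l_1_4_7 m_l_1_1_10,
    pr (kc false 0 0 0 1 0) (kc false 2 0 0 0 0) m_l_1_3_8 m_l_1_1_10),
  (pr (kc true 0 0 0 0 0) (kc false 3 3 2 0 0) m_v_4 m_1,
    pr (kc false 0 0 0 0 0) (kc false 3 3 2 0 0) m_v_3 m_1),
  (pr (kc false 0 0 0 0 0) (kc false 2 1 1 0 0) m_l_2_3_7 m_v_2,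
    pr (kc true 0 0 0 0 0) (kc false 2 1 1 0 0) m_l_2_2_8 m_v_2),
  (pr (kc true 0 2 0 0 0) (kc false 2 0 0 0 0) m_l_7_7_10 m_l_4_10_10,
    pr (kc false 0 0 0 1 0) (kc false 2 0 0 0 0) m_l_6_8_10 m_l_4_10_10),
  (pr (kc true 0 0 0 0 0) (kc false 4 0 0 0 0) m_l_7_7_10 m_v_2,
    pr (kc false 0 0 0 0 0) (kc false 4 0 0 0 0) m_l_6_8_10 m_v_2)]

include he hne in
theorem sp2 : Sols (gs12 x y T) cp2 := by
  intro p hp
  unfold cp2 at hp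
  simp only [List.mem_cons, List.not_mem_nil, or_false] at hp
  rcases hp with rfl | rfl | rfl | rfl | rfl | rfl | rfl | rfl | rfl | rfl | rfl | rfl | rfl | rfl | rfl | rfl | rfl | rfl | rfl | rfl | rfl | rfl | rfl | rfl | rfl | rfl | rfl | rfl | rfl | rfl | rfl | rfl | rfl | rfl | rfl | rfl | rfl | rfl | rfl | rfl | rfl | rfl | rfl | rfl | rfl | rfl | rfl | rfl | rfl | rfl
  · exact c50 he hne
  · exact c51 he hne
  · exact c52 he hne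
  · exact c53 he hne
  · exact c54 he hne
  · exact c55 he hne
  · exact c56 he hne
  · exact c57 he hne
  · exact c58 he hne
  · exact c59 he hne
  · exact c60 he hne
  · exact c61 he hne
  · exact c62 he hne
  · exact c63 he hne
  · exact c64 he hne
  · exact c65 he hne
  · exact c66 he hne
  · exact c67 he hne
  · exact c68 he hne
  · exact c69 he hne
  · exact c70 he hne
  · exact c71 he hne
  · exact c72 he hne
  · exact c73 he hne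
  · exact c74 he hne
  · exact c75 he hne
  · exact c76 he hne
  · exact c77 he hne
  · exact c78 he hne
  · exact c79 he hne
  · exact c80 he hne
  · exact c81 he hne
  · exact c82 he hne
  · exact c83 he hne
  · exact c84 he hne
  · exact c85 he hne
  · exact c86 he hne
  · exact c87 he hne
  · exact c88 he hne
  · exact c89 he hne
  · exact c90 he hne
  · exact c91 he hne
  · exact c92 he hne
  · exact c93 he hne
  · exact c94 he hne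
  · exact c95 he hne
  · exact c96 he hne
  · exact c97 he hne
  · exact c98 he hne
  · exact c99 he hne

end Pool.Agent.UE12C
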