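import Pool.Agent.Lib_helper7.N12.L

/-!
# The solutions of the unit equation for a point of order twelve, part 3
-/

set_option autoImplicit false
set_option linter.unusedSectionVars false
set_option linter.unusedSimpArgs false
set_option maxRecDepth 100000

namespace Pool.Agent.UE12C

open Pool.Agent.KC72

variable {F : Type*} [Field F] {x y T : F} (he : HE12 x y T) (hne : ∀ z ∈ gs12 x y T, z ≠ 0)

include he hne in
lemma c100 : ev (gs12 x y T) (pr (kc false 0 0 0 0 0) (kc false 4 1 1 1 0) m_v_5 m_1) +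
    ev (gs12 x y T) (pr (kc true 0 0 0 0 0) (kc false 4 1 1 1 0) m_v_4 m_1) = 1 := by
  refine cls3 hne e_v_5 e_v_4 e_1 _ _ _ _ _ _ _ _ _ _ _ _ _ _ _ _ _ ?_
  simp only [kv, cond_true, cond_false]
  ring

include he hne in
lemma c101 : ev (gs12 x y T) (pr (kc true 0 0 0 0 0) (kc false 3 1 0 0 0) m_l_2_4_6 m_v_2) +
    ev (gs12 x y T) (pr (kc false 0 0 0 0 0) (kc false 3 1 0 0 0) m_l_2_3_7 m_v_2) = 1 := by
  refine cls3 hne (e_l_2_4_6 he hne) (e_l_2_3_7 he hne) e_v_2 _ _ _ _ _ _ _ _ _ _ _ _ _ _ _ _ _ ?_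
  simp only [kv, cond_true, cond_false]
  ring

include he hne in
lemma c102 : ev (gs12 x y T) (pr (kc true 0 0 0 0 0) (kc false 1 0 0 0 1) m_l_7_7_10 m_v_2) +
    ev (gs12 x y T) (pr (kc false 0 0 0 0 0) (kc false 1 0 0 0 1) m_l_3_10_11 m_v_2) = 1 := by
  refine cls3 hne (e_l_7_7_10 he hne) (e_l_3_10_11 he hne) e_v_2 _ _ _ _ _ _ _ _ _ _ _ _ _ _ _ _ _ ?_
  simp only [kv, cond_true, cond_false]
  ring

include he hne in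
lemma c103 : ev (gs12 x y T) (pr (kc false 0 0 0 0 0) (kc false 1 3 0 0 0) m_l_6_8_10 m_v_2) +
    ev (gs12 x y T) (pr (kc true 0 0 0 0 0) (kc false 1 3 0 0 0) m_l_3_10_11 m_v_2) = 1 := by
  refine cls3 hne (e_l_6_8_10 he hne) (e_l_3_10_11 he hne) e_v_2 _ _ _ _ _ _ _ _ _ _ _ _ _ _ _ _ _ ?_
  simp only [kv, cond_true, cond_false]
  ring

include he hne in
lemma c104 : ev (gs12 x y T) (pr (kc false 0 0 0 0 0) (kc false 1 1 0 1 0) m_l_8_8_8 m_v_4) +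
    ev (gs12 x y T) (pr (kc true 0 0 0 0 0) (kc false 1 1 0 1 0) m_l_5_8_11 m_v_4) = 1 := by
  refine cls3 hne (e_l_8_8_8 he hne) (e_l_5_8_11 he hne) e_v_4 _ _ _ _ _ _ _ _ _ _ _ _ _ _ _ _ _ ?_
  simp only [kv, cond_true, cond_false]
  ring

include he hne in
lemma c105 : ev (gs12 x y T) (pr (kc true 0 0 0 0 0) (kc false 1 0 0 0 1) m_l_7_8_9 m_v_4) +
    ev (gs12 x y T) (pr (kc false 0 0 0 0 0) (kc false 1 0 0 0 1) m_l_5_8_11 m_v_4) = 1 := by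
  refine cls3 hne (e_l_7_8_9 he hne) (e_l_5_8_11 he hne) e_v_4 _ _ _ _ _ _ _ _ _ _ _ _ _ _ _ _ _ ?_
  simp only [kv, cond_true, cond_false]
  ring

include he hne in
lemma c106 : ev (gs12 x y T) (pr (kc false 0 0 0 0 0) (kc false 1 3 0 0 0) m_l_6_9_9 m_v_3) +
    ev (gs12 x y T) (pr (kc true 0 0 0 0 0) (kc false 1 3 0 0 0) m_l_4_9_11 m_v_3) = 1 := by
  refine cls3 hne (e_l_6_9_9 he hne) (e_l_4_9_11 he hne) e_v_3 _ _ _ _ _ _ _ _ _ _ _ _ _ _ _ _ _ ?_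
  simp only [kv, cond_true, cond_false]
  ring

include he hne in
lemma c107 : ev (gs12 x y T) (pr (kc false 0 2 1 0 0) (kc false 1 0 0 1 0) m_l_7_7_10 m_l_3_10_11) +
    ev (gs12 x y T) (pr (kc false 0 0 0 0 1) (kc false 1 0 0 1 0) m_l_4_10_10 m_l_3_10_11) = 1 := by
  refine cls3 hne (e_l_7_7_10 he hne) (e_l_4_10_10 he hne) (e_l_3_10_11 he hne) _ _ _ _ _ _ _ _ _ _ _ _ _ _ _ _ _ ?_
  simp only [kv, cond_true, cond_false]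
  ring

include he hne in
lemma c108 : ev (gs12 x y T) (pr (kc false 0 0 0 0 0) (kc false 0 4 0 0 0) m_l_2_11_11 m_v_2) +
    ev (gs12 x y T) (pr (kc true 0 0 0 0 0) (kc false 0 4 0 0 0) m_l_2_4_6 m_v_2) = 1 := by
  refine cls3 hne (e_l_2_11_11 he hne) (e_l_2_4_6 he hne) e_v_2 _ _ _ _ _ _ _ _ _ _ _ _ _ _ _ _ _ ?_
  simp only [kv, cond_true, cond_false]
  ring

include he hne in
lemma c109 : ev (gs12 x y T) (pr (kc true 0 0 0 0 0) (kc false 0 1 0 0 1) m_l_2_11_11 m_v_2) +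
    ev (gs12 x y T) (pr (kc false 0 0 0 0 0) (kc false 0 1 0 0 1) m_l_2_3_7 m_v_2) = 1 := by
  refine cls3 hne (e_l_2_11_11 he hne) (e_l_2_3_7 he hne) e_v_2 _ _ _ _ _ _ _ _ _ _ _ _ _ _ _ _ _ ?_
  simp only [kv, cond_true, cond_false]
  ring

include he hne in
lemma c110 : ev (gs12 x y T) (pr (kc true 0 0 0 0 0) (kc false 2 2 0 0 0) m_l_6_8_10 m_v_2) +
    ev (gs12 x y T) (pr (kc false 0 0 0 0 0) (kc false 2 2 0 0 0) m_l_4_10_10 m_v_2) = 1 := by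
  refine cls3 hne (e_l_6_8_10 he hne) (e_l_4_10_10 he hne) e_v_2 _ _ _ _ _ _ _ _ _ _ _ _ _ _ _ _ _ ?_
  simp only [kv, cond_true, cond_false]
  ring

include he hne in
lemma c111 : ev (gs12 x y T) (pr (kc true 0 0 0 0 0) (kc false 2 0 0 1 0) m_l_7_7_10 m_v_2) +
    ev (gs12 x y T) (pr (kc false 0 0 0 0 0) (kc false 2 0 0 1 0) m_l_4_10_10 m_v_2) = 1 := by
  refine cls3 hne (e_l_7_7_10 he hne) (e_l_4_10_10 he hne) e_v_2 _ _ _ _ _ _ _ _ _ _ _ _ _ _ _ _ _ ?_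
  simp only [kv, cond_true, cond_false]
  ring

include he hne in
lemma c112 : ev (gs12 x y T) (pr (kc false 0 0 1 0 0) (kc false 1 0 0 0 0) m_l_7_8_9 m_l_4_9_11) +
    ev (gs12 x y T) (pr (kc true 0 1 0 0 0) (kc false 1 0 0 0 0) m_l_5_9_10 m_l_4_9_11) = 1 := by
  refine cls3 hne (e_l_7_8_9 he hne) (e_l_5_9_10 he hne) (e_l_4_9_11 he hne) _ _ _ _ _ _ _ _ _ _ _ _ _ _ _ _ _ ?_
  simp only [kv, cond_true, cond_false]
  ring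

include he hne in
lemma c113 : ev (gs12 x y T) (pr (kc false 0 0 1 0 0) (kc false 1 0 0 0 0) m_l_6_8_10 m_l_3_10_11) +
    ev (gs12 x y T) (pr (kc true 0 1 0 0 0) (kc false 1 0 0 0 0) m_l_4_10_10 m_l_3_10_11) = 1 := by
  refine cls3 hne (e_l_6_8_10 he hne) (e_l_4_10_10 he hne) (e_l_3_10_11 he hne) _ _ _ _ _ _ _ _ _ _ _ _ _ _ _ _ _ ?_
  simp only [kv, cond_true, cond_false]
  ring

include he hne in
lemma c114 : ev (gs12 x y T) (pr (kc true 0 0 0 0 0) (kc false 2 0 0 1 0) m_l_7_8_9 m_v_3) +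
    ev (gs12 x y T) (pr (kc false 0 0 0 0 0) (kc false 2 0 0 1 0) m_l_5_9_10 m_v_3) = 1 := by
  refine cls3 hne (e_l_7_8_9 he hne) (e_l_5_9_10 he hne) e_v_3 _ _ _ _ _ _ _ _ _ _ _ _ _ _ _ _ _ ?_
  simp only [kv, cond_true, cond_false]
  ring

include he hne in
lemma c115 : ev (gs12 x y T) (pr (kc false 0 0 0 0 0) (kc false 0 2 0 1 0) m_l_2_11_11 m_v_2) +
    ev (gs12 x y T) (pr (kc true 0 0 0 0 0) (kc false 0 2 0 1 0) m_l_2_2_8 m_v_2) = 1 := by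
  refine cls3 hne (e_l_2_11_11 he hne) (e_l_2_2_8 he hne) e_v_2 _ _ _ _ _ _ _ _ _ _ _ _ _ _ _ _ _ ?_
  simp only [kv, cond_true, cond_false]
  ring

include he hne in
lemma c116 : ev (gs12 x y T) (pr (kc true 0 0 0 0 0) (kc false 0 0 1 0 1) m_l_7_8_9 m_v_4) +
    ev (gs12 x y T) (pr (kc false 0 0 0 0 0) (kc false 0 0 1 0 1) m_l_1_3_8 m_v_4) = 1 := by
  refine cls3 hne (e_l_7_8_9 he hne) e_l_1_3_8 e_v_4 _ _ _ _ _ _ _ _ _ _ _ _ _ _ _ _ _ ?_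
  simp only [kv, cond_true, cond_false]
  ring

include he hne in
lemma c117 : ev (gs12 x y T) (pr (kc true 0 0 0 0 0) (kc false 1 4 1 1 0) m_v_4 m_1) +
    ev (gs12 x y T) (pr (kc false 0 0 0 0 0) (kc false 1 4 1 1 0) m_v_1 m_1) = 1 := by
  refine cls3 hne e_v_4 e_v_1 e_1 _ _ _ _ _ _ _ _ _ _ _ _ _ _ _ _ _ ?_
  simp only [kv, cond_true, cond_false]
  ring

include he hne in
lemma c118 : ev (gs12 x y T) (pr (kc true 0 0 0 0 0) (kc false 1 2 1 0 0) m_l_1_3_8 m_v_1) +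
    ev (gs12 x y T) (pr (kc false 0 0 0 0 0) (kc false 1 2 1 0 0) m_l_1_1_10 m_v_1) = 1 := by
  refine cls3 hne e_l_1_3_8 e_l_1_1_10 e_v_1 _ _ _ _ _ _ _ _ _ _ _ _ _ _ _ _ _ ?_
  simp only [kv, cond_true, cond_false]
  ring

include he hne in
lemma c119 : ev (gs12 x y T) (pr (kc false 0 0 0 0 1) (kc false 1 0 0 1 0) m_l_8_8_8 m_l_1_3_8) +
    ev (gs12 x y T) (pr (kc false 0 2 1 0 0) (kc false 1 0 0 1 0) m_l_5_8_11 m_l_1_3_8) = 1 := by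
  refine cls3 hne (e_l_8_8_8 he hne) (e_l_5_8_11 he hne) e_l_1_3_8 _ _ _ _ _ _ _ _ _ _ _ _ _ _ _ _ _ ?_
  simp only [kv, cond_true, cond_false]
  ring

include he hne in
lemma c120 : ev (gs12 x y T) (pr (kc false 0 0 0 0 1) (kc false 2 0 0 0 0) m_l_7_8_9 m_l_1_2_9) +
    ev (gs12 x y T) (pr (kc true 0 1 1 0 0) (kc false 2 0 0 0 0) m_l_5_9_10 m_l_1_2_9) = 1 := by
  refine cls3 hne (e_l_7_8_9 he hne) (e_l_5_9_10 he hne) e_l_1_2_9 _ _ _ _ _ _ _ _ _ _ _ _ _ _ _ _ _ ?_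
  simp only [kv, cond_true, cond_false]
  ring

include he hne in
lemma c121 : ev (gs12 x y T) (pr (kc false 0 0 0 0 0) (kc false 0 1 1 1 0) m_l_7_8_9 m_v_3) +
    ev (gs12 x y T) (pr (kc true 0 0 0 0 0) (kc false 0 1 1 1 0) m_l_1_2_9 m_v_3) = 1 := by
  refine cls3 hne (e_l_7_8_9 he hne) e_l_1_2_9 e_v_3 _ _ _ _ _ _ _ _ _ _ _ _ _ _ _ _ _ ?_
  simp only [kv, cond_true, cond_false]
  ring

include he hne in
lemma c122 : ev (gs12 x y T) (pr (kc false 0 0 0 0 0) (kc false 1 3 1 0 1) m_v_3 m_1) +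
    ev (gs12 x y T) (pr (kc true 0 0 0 0 0) (kc false 1 3 1 0 1) m_v_1 m_1) = 1 := by
  refine cls3 hne e_v_3 e_v_1 e_1 _ _ _ _ _ _ _ _ _ _ _ _ _ _ _ _ _ ?_
  simp only [kv, cond_true, cond_false]
  ring

include he hne in
lemma c123 : ev (gs12 x y T) (pr (kc true 0 1 0 0 0) (kc false 1 0 0 0 0) m_l_7_8_9 m_l_1_3_8) +
    ev (gs12 x y T) (pr (kc false 0 0 1 0 0) (kc false 1 0 0 0 0) m_l_5_8_11 m_l_1_3_8) = 1 := by
  refine cls3 hne (e_l_7_8_9 he hne) (e_l_5_8_11 he hne) e_l_1_3_8 _ _ _ _ _ _ _ _ _ _ _ _ _ _ _ _ _ ?_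
  simp only [kv, cond_true, cond_false]
  ring

include he hne in
lemma c124 : ev (gs12 x y T) (pr (kc false 0 0 0 0 0) (kc false 0 3 1 0 0) m_l_8_8_8 m_v_4) +
    ev (gs12 x y T) (pr (kc true 0 0 0 0 0) (kc false 0 3 1 0 0) m_l_1_3_8 m_v_4) = 1 := by
  refine cls3 hne (e_l_8_8_8 he hne) e_l_1_3_8 e_v_4 _ _ _ _ _ _ _ _ _ _ _ _ _ _ _ _ _ ?_
  simp only [kv, cond_true, cond_false]
  ring

include he hne in
lemma c125 : ev (gs12 x y T) (pr (kc true 0 0 0 0 0) (kc false 1 0 1 1 0) m_l_1_4_7 m_v_1) +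
    ev (gs12 x y T) (pr (kc false 0 0 0 0 0) (kc false 1 0 1 1 0) m_l_1_1_10 m_v_1) = 1 := by
  refine cls3 hne e_l_1_4_7 e_l_1_1_10 e_v_1 _ _ _ _ _ _ _ _ _ _ _ _ _ _ _ _ _ ?_
  simp only [kv, cond_true, cond_false]
  ring

include he hne in
lemma c126 : ev (gs12 x y T) (pr (kc false 0 0 0 0 0) (kc false 1 1 1 1 1) m_v_5 m_1) +
    ev (gs12 x y T) (pr (kc true 0 0 0 0 0) (kc false 1 1 1 1 1) m_v_1 m_1) = 1 := by
  refine cls3 hne e_v_5 e_v_1 e_1 _ _ _ _ _ _ _ _ _ _ _ _ _ _ _ _ _ ?_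
  simp only [kv, cond_true, cond_false]
  ring

include he hne in
lemma c127 : ev (gs12 x y T) (pr (kc true 0 1 0 0 0) (kc false 1 0 0 0 0) m_l_7_8_9 m_l_1_2_9) +
    ev (gs12 x y T) (pr (kc false 0 0 1 0 0) (kc false 1 0 0 0 0) m_l_4_9_11 m_l_1_2_9) = 1 := by
  refine cls3 hne (e_l_7_8_9 he hne) (e_l_4_9_11 he hne) e_l_1_2_9 _ _ _ _ _ _ _ _ _ _ _ _ _ _ _ _ _ ?_
  simp only [kv, cond_true, cond_false]
  ring

include he hne in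
lemma c128 : ev (gs12 x y T) (pr (kc true 0 1 0 0 1) (kc false 3 0 0 0 0) m_l_7_8_9 m_l_1_2_9) +
    ev (gs12 x y T) (pr (kc false 0 0 1 1 0) (kc false 3 0 0 0 0) m_l_6_9_9 m_l_1_2_9) = 1 := by
  refine cls3 hne (e_l_7_8_9 he hne) (e_l_6_9_9 he hne) e_l_1_2_9 _ _ _ _ _ _ _ _ _ _ _ _ _ _ _ _ _ ?_
  simp only [kv, cond_true, cond_false]
  ring

include he hne in
lemma c129 : ev (gs12 x y T) (pr (kc false 0 0 0 0 0) (kc false 0 2 0 0 1) m_l_6_9_9 m_v_3) +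
    ev (gs12 x y T) (pr (kc true 0 0 0 0 0) (kc false 0 2 0 0 1) m_l_1_2_9 m_v_3) = 1 := by
  refine cls3 hne (e_l_6_9_9 he hne) e_l_1_2_9 e_v_3 _ _ _ _ _ _ _ _ _ _ _ _ _ _ _ _ _ ?_
  simp only [kv, cond_true, cond_false]
  ring

include he hne in
lemma c130 : ev (gs12 x y T) (pr (kc false 0 0 1 1 0) (kc false 3 0 0 0 0) m_l_1_5_6 m_l_1_1_10) +
    ev (gs12 x y T) (pr (kc true 0 1 0 0 1) (kc false 3 0 0 0 0) m_l_1_4_7 m_l_1_1_10) = 1 := by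
  refine cls3 hne e_l_1_5_6 e_l_1_4_7 e_l_1_1_10 _ _ _ _ _ _ _ _ _ _ _ _ _ _ _ _ _ ?_
  simp only [kv, cond_true, cond_false]
  ring

include he hne in
lemma c131 : ev (gs12 x y T) (pr (kc true 0 0 0 0 0) (kc false 1 1 0 0 1) m_l_1_5_6 m_v_1) +
    ev (gs12 x y T) (pr (kc false 0 0 0 0 0) (kc false 1 1 0 0 1) m_l_1_1_10 m_v_1) = 1 := by
  refine cls3 hne e_l_1_5_6 e_l_1_1_10 e_v_1 _ _ _ _ _ _ _ _ _ _ _ _ _ _ _ _ _ ?_
  simp only [kv, cond_true, cond_false]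
  ring

include he hne in
lemma c132 : ev (gs12 x y T) (pr (kc true 0 0 0 1 0) (kc false 1 1 0 0 0) m_l_6_9_9 m_l_1_2_9) +
    ev (gs12 x y T) (pr (kc false 0 0 0 0 1) (kc false 1 1 0 0 0) m_l_4_9_11 m_l_1_2_9) = 1 := by
  refine cls3 hne (e_l_6_9_9 he hne) (e_l_4_9_11 he hne) e_l_1_2_9 _ _ _ _ _ _ _ _ _ _ _ _ _ _ _ _ _ ?_
  simp only [kv, cond_true, cond_false]
  ring

include he hne in
lemma c133 : ev (gs12 x y T) (pr (kc false 0 0 0 0 1) (kc false 1 0 1 0 0) m_l_1_3_8 m_l_1_1_10) +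
    ev (gs12 x y T) (pr (kc true 0 2 0 0 0) (kc false 1 0 1 0 0) m_l_1_2_9 m_l_1_1_10) = 1 := by
  refine cls3 hne e_l_1_3_8 e_l_1_2_9 e_l_1_1_10 _ _ _ _ _ _ _ _ _ _ _ _ _ _ _ _ _ ?_
  simp only [kv, cond_true, cond_false]
  ring

include he hne in
lemma c134 : ev (gs12 x y T) (pr (kc false 0 0 1 1 0) (kc false 1 0 0 0 1) m_l_6_9_9 m_l_4_9_11) +
    ev (gs12 x y T) (pr (kc true 0 3 0 0 0) (kc false 1 0 0 0 1) m_l_5_9_10 m_l_4_9_11) = 1 := by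
  refine cls3 hne (e_l_6_9_9 he hne) (e_l_5_9_10 he hne) (e_l_4_9_11 he hne) _ _ _ _ _ _ _ _ _ _ _ _ _ _ _ _ _ ?_
  simp only [kv, cond_true, cond_false]
  ring

include he hne in
lemma c135 : ev (gs12 x y T) (pr (kc false 0 0 0 1 0) (kc false 2 0 0 0 0) m_l_6_9_9 m_l_1_2_9) +
    ev (gs12 x y T) (pr (kc true 0 2 0 0 0) (kc false 2 0 0 0 0) m_l_5_9_10 m_l_1_2_9) = 1 := by
  refine cls3 hne (e_l_6_9_9 he hne) (e_l_5_9_10 he hne) e_l_1_2_9 _ _ _ _ _ _ _ _ _ _ _ _ _ _ _ _ _ ?_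
  simp only [kv, cond_true, cond_false]
  ring

include he hne in
lemma c136 : ev (gs12 x y T) (pr (kc true 0 0 0 0 0) (kc false 2 0 0 0 1) m_l_6_9_9 m_v_3) +
    ev (gs12 x y T) (pr (kc false 0 0 0 0 0) (kc false 2 0 0 0 1) m_l_5_9_10 m_v_3) = 1 := by
  refine cls3 hne (e_l_6_9_9 he hne) (e_l_5_9_10 he hne) e_v_3 _ _ _ _ _ _ _ _ _ _ _ _ _ _ _ _ _ ?_
  simp only [kv, cond_true, cond_false]
  ring

include he hne in
lemma c137 : ev (gs12 x y T) (pr (kc false 0 0 0 0 0) (kc false 0 0 0 2 0) (Mo.mul m_l_3_4_5 m_l_3_10_11) (Mo.mul m_v_3 m_l_3_3_6)) +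
    ev (gs12 x y T) (pr (kc true 0 0 0 0 0) (kc false 0 0 0 2 0) (Mo.mul m_l_1_3_8 m_l_2_3_7) (Mo.mul m_v_3 m_l_3_3_6)) = 1 := by
  refine cls3 hne (mul2 hne (e_l_3_4_5 he hne) (e_l_3_10_11 he hne)) (mul2 hne e_l_1_3_8 (e_l_2_3_7 he hne)) (mul2 hne e_v_3 (e_l_3_3_6 he hne)) _ _ _ _ _ _ _ _ _ _ _ _ _ _ _ _ _ ?_
  simp only [kv, cond_true, cond_false]
  ring

include he hne in
lemma c138 : ev (gs12 x y T) (pr (kc false 0 0 0 0 1) (kc false 1 1 0 0 0) m_l_1_4_7 m_l_1_1_10) +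
    ev (gs12 x y T) (pr (kc true 0 0 0 1 0) (kc false 1 1 0 0 0) m_l_1_2_9 m_l_1_1_10) = 1 := by
  refine cls3 hne e_l_1_4_7 e_l_1_2_9 e_l_1_1_10 _ _ _ _ _ _ _ _ _ _ _ _ _ _ _ _ _ ?_
  simp only [kv, cond_true, cond_false]
  ring

include he hne in
lemma c139 : ev (gs12 x y T) (pr (kc false 0 0 1 0 0) (kc false 1 0 0 0 0) m_l_1_5_6 m_l_1_1_10) +
    ev (gs12 x y T) (pr (kc true 0 1 0 0 0) (kc false 1 0 0 0 0) m_l_1_2_9 m_l_1_1_10) = 1 := by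
  refine cls3 hne e_l_1_5_6 e_l_1_2_9 e_l_1_1_10 _ _ _ _ _ _ _ _ _ _ _ _ _ _ _ _ _ ?_
  simp only [kv, cond_true, cond_false]
  ring

include he hne in
lemma c140 : ev (gs12 x y T) (pr (kc true 0 0 0 0 0) (kc false 1 0 1 0 1) m_l_1_2_9 m_v_1) +
    ev (gs12 x y T) (pr (kc false 0 0 0 0 0) (kc false 1 0 1 0 1) m_l_1_1_10 m_v_1) = 1 := by
  refine cls3 hne e_l_1_2_9 e_l_1_1_10 e_v_1 _ _ _ _ _ _ _ _ _ _ _ _ _ _ _ _ _ ?_
  simp only [kv, cond_true, cond_false]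
  ring

include he hne in
lemma c141 : ev (gs12 x y T) (pr (kc true 0 0 0 0 0) (kc false 1 1 2 0 0) (Mo.mul m_l_1_2_9 m_l_1_3_8) (Mo.mul m_v_1 m_l_1_5_6)) +
    ev (gs12 x y T) (pr (kc false 0 0 0 0 0) (kc false 1 1 2 0 0) (Mo.mul m_l_1_1_10 m_l_1_4_7) (Mo.mul m_v_1 m_l_1_5_6)) = 1 := by
  refine cls3 hne (mul2 hne e_l_1_2_9 e_l_1_3_8) (mul2 hne e_l_1_1_10 e_l_1_4_7) (mul2 hne e_v_1 e_l_1_5_6) _ _ _ _ _ _ _ _ _ _ _ _ _ _ _ _ _ ?_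
  simp only [kv, cond_true, cond_false]
  ring

include he hne in
lemma c142 : ev (gs12 x y T) (pr (kc false 1 1 0 0 0) (kc false 0 0 0 0 1) m_l_4_10_10 m_l_1_4_7) +
    ev (gs12 x y T) (pr (kc false 0 0 0 1 0) (kc false 0 0 0 0 1) m_l_2_4_6 m_l_1_4_7) = 1 := by
  refine cls3 hne (e_l_4_10_10 he hne) (e_l_2_4_6 he hne) e_l_1_4_7 _ _ _ _ _ _ _ _ _ _ _ _ _ _ _ _ _ ?_
  simp only [kv, cond_true, cond_false]
  ring

include he hne in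
lemma c143 : ev (gs12 x y T) (pr (kc false 1 0 1 0 0) (kc false 0 0 0 0 1) m_l_2_11_11 m_l_1_2_9) +
    ev (gs12 x y T) (pr (kc false 0 2 0 0 0) (kc false 0 0 0 0 1) m_l_2_3_7 m_l_1_2_9) = 1 := by
  refine cls3 hne (e_l_2_11_11 he hne) (e_l_2_3_7 he hne) e_l_1_2_9 _ _ _ _ _ _ _ _ _ _ _ _ _ _ _ _ _ ?_
  simp only [kv, cond_true, cond_false]
  ring

include he hne in
lemma c144 : ev (gs12 x y T) (pr (kc false 0 0 1 1 0) (kc false 1 0 0 0 1) m_l_3_3_6 m_l_1_3_8) +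
    ev (gs12 x y T) (pr (kc true 0 3 0 0 0) (kc false 1 0 0 0 1) m_l_2_3_7 m_l_1_3_8) = 1 := by
  refine cls3 hne (e_l_3_3_6 he hne) (e_l_2_3_7 he hne) e_l_1_3_8 _ _ _ _ _ _ _ _ _ _ _ _ _ _ _ _ _ ?_
  simp only [kv, cond_true, cond_false]
  ring

include he hne in
lemma c145 : ev (gs12 x y T) (pr (kc true 0 3 0 0 0) (kc false 1 0 0 0 1) m_l_7_7_10 m_l_1_4_7) +
    ev (gs12 x y T) (pr (kc false 0 0 1 1 0) (kc false 1 0 0 0 1) m_l_6_7_11 m_l_1_4_7) = 1 := by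
  refine cls3 hne (e_l_7_7_10 he hne) (e_l_6_7_11 he hne) e_l_1_4_7 _ _ _ _ _ _ _ _ _ _ _ _ _ _ _ _ _ ?_
  simp only [kv, cond_true, cond_false]
  ring

include he hne in
lemma c146 : ev (gs12 x y T) (pr (kc false 0 0 1 1 0) (kc false 1 0 0 0 1) m_v_6 m_v_1) +
    ev (gs12 x y T) (pr (kc true 0 3 0 0 0) (kc false 1 0 0 0 1) m_v_2 m_v_1) = 1 := by
  refine cls3 hne e_v_6 e_v_2 e_v_1 _ _ _ _ _ _ _ _ _ _ _ _ _ _ _ _ _ ?_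
  simp only [kv, cond_true, cond_false]
  ring

include he hne in
lemma c147 : ev (gs12 x y T) (pr (kc false 0 0 0 0 0) (kc false 1 1 0 0 1) m_l_6_7_11 m_v_1) +
    ev (gs12 x y T) (pr (kc true 0 0 0 0 0) (kc false 1 1 0 0 1) m_l_2_11_11 m_v_1) = 1 := by
  refine cls3 hne (e_l_6_7_11 he hne) (e_l_2_11_11 he hne) e_v_1 _ _ _ _ _ _ _ _ _ _ _ _ _ _ _ _ _ ?_
  simp only [kv, cond_true, cond_false]
  ring

include he hne in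
lemma c148 : ev (gs12 x y T) (pr (kc true 0 0 0 0 0) (kc false 2 0 0 0 1) m_l_6_7_11 m_v_1) +
    ev (gs12 x y T) (pr (kc false 0 0 0 0 0) (kc false 2 0 0 0 1) m_l_3_10_11 m_v_1) = 1 := by
  refine cls3 hne (e_l_6_7_11 he hne) (e_l_3_10_11 he hne) e_v_1 _ _ _ _ _ _ _ _ _ _ _ _ _ _ _ _ _ ?_
  simp only [kv, cond_true, cond_false]
  ring

include he hne in
lemma c149 : ev (gs12 x y T) (pr (kc false 1 1 0 0 0) (kc false 0 0 0 0 1) m_l_6_7_11 m_l_1_5_6) +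
    ev (gs12 x y T) (pr (kc false 0 0 0 1 0) (kc false 0 0 0 0 1) m_l_3_3_6 m_l_1_5_6) = 1 := by
  refine cls3 hne (e_l_6_7_11 he hne) (e_l_3_3_6 he hne) e_l_1_5_6 _ _ _ _ _ _ _ _ _ _ _ _ _ _ _ _ _ ?_
  simp only [kv, cond_true, cond_false]
  ring

/-- part 3 of the list -/
def cp3 : List (Mo × Mo) := [
  (pr (kc false 0 0 0 0 0) (kc false 4 1 1 1 0) m_v_5 m_1,
    pr (kc true 0 0 0 0 0) (kc false 4 1 1 1 0) m_v_4 m_1),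
  (pr (kc true 0 0 0 0 0) (kc false 3 1 0 0 0) m_l_2_4_6 m_v_2,
    pr (kc false 0 0 0 0 0) (kc false 3 1 0 0 0) m_l_2_3_7 m_v_2),
  (pr (kc true 0 0 0 0 0) (kc false 1 0 0 0 1) m_l_7_7_10 m_v_2,
    pr (kc false 0 0 0 0 0) (kc false 1 0 0 0 1) m_l_3_10_11 m_v_2),
  (pr (kc false 0 0 0 0 0) (kc false 1 3 0 0 0) m_l_6_8_10 m_v_2,
    pr (kc true 0 0 0 0 0) (kc false 1 3 0 0 0) m_l_3_10_11 m_v_2),
  (pr (kc false 0 0 0 0 0) (kc false 1 1 0 1 0) m_l_8_8_8 m_v_4,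
    pr (kc true 0 0 0 0 0) (kc false 1 1 0 1 0) m_l_5_8_11 m_v_4),
  (pr (kc true 0 0 0 0 0) (kc false 1 0 0 0 1) m_l_7_8_9 m_v_4,
    pr (kc false 0 0 0 0 0) (kc false 1 0 0 0 1) m_l_5_8_11 m_v_4),
  (pr (kc false 0 0 0 0 0) (kc false 1 3 0 0 0) m_l_6_9_9 m_v_3,
    pr (kc true 0 0 0 0 0) (kc false 1 3 0 0 0) m_l_4_9_11 m_v_3),
  (pr (kc false 0 2 1 0 0) (kc false 1 0 0 1 0) m_l_7_7_10 m_l_3_10_11,
    pr (kc false 0 0 0 0 1) (kc false 1 0 0 1 0) m_l_4_10_10 m_l_3_10_11),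
  (pr (kc false 0 0 0 0 0) (kc false 0 4 0 0 0) m_l_2_11_11 m_v_2,
    pr (kc true 0 0 0 0 0) (kc false 0 4 0 0 0) m_l_2_4_6 m_v_2),
  (pr (kc true 0 0 0 0 0) (kc false 0 1 0 0 1) m_l_2_11_11 m_v_2,
    pr (kc false 0 0 0 0 0) (kc false 0 1 0 0 1) m_l_2_3_7 m_v_2),
  (pr (kc true 0 0 0 0 0) (kc false 2 2 0 0 0) m_l_6_8_10 m_v_2,
    pr (kc false 0 0 0 0 0) (kc false 2 2 0 0 0) m_l_4_10_10 m_v_2),
  (pr (kc true 0 0 0 0 0) (kc false 2 0 0 1 0) m_l_7_7_10 m_v_2,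
    pr (kc false 0 0 0 0 0) (kc false 2 0 0 1 0) m_l_4_10_10 m_v_2),
  (pr (kc false 0 0 1 0 0) (kc false 1 0 0 0 0) m_l_7_8_9 m_l_4_9_11,
    pr (kc true 0 1 0 0 0) (kc false 1 0 0 0 0) m_l_5_9_10 m_l_4_9_11),
  (pr (kc false 0 0 1 0 0) (kc false 1 0 0 0 0) m_l_6_8_10 m_l_3_10_11,
    pr (kc true 0 1 0 0 0) (kc false 1 0 0 0 0) m_l_4_10_10 m_l_3_10_11),
  (pr (kc true 0 0 0 0 0) (kc false 2 0 0 1 0) m_l_7_8_9 m_v_3,
    pr (kc false 0 0 0 0 0) (kc false 2 0 0 1 0) m_l_5_9_10 m_v_3),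
  (pr (kc false 0 0 0 0 0) (kc false 0 2 0 1 0) m_l_2_11_11 m_v_2,
    pr (kc true 0 0 0 0 0) (kc false 0 2 0 1 0) m_l_2_2_8 m_v_2),
  (pr (kc true 0 0 0 0 0) (kc false 0 0 1 0 1) m_l_7_8_9 m_v_4,
    pr (kc false 0 0 0 0 0) (kc false 0 0 1 0 1) m_l_1_3_8 m_v_4),
  (pr (kc true 0 0 0 0 0) (kc false 1 4 1 1 0) m_v_4 m_1,
    pr (kc false 0 0 0 0 0) (kc false 1 4 1 1 0) m_v_1 m_1),
  (pr (kc true 0 0 0 0 0) (kc false 1 2 1 0 0) m_l_1_3_8 m_v_1,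
    pr (kc false 0 0 0 0 0) (kc false 1 2 1 0 0) m_l_1_1_10 m_v_1),
  (pr (kc false 0 0 0 0 1) (kc false 1 0 0 1 0) m_l_8_8_8 m_l_1_3_8,
    pr (kc false 0 2 1 0 0) (kc false 1 0 0 1 0) m_l_5_8_11 m_l_1_3_8),
  (pr (kc false 0 0 0 0 1) (kc false 2 0 0 0 0) m_l_7_8_9 m_l_1_2_9,
    pr (kc true 0 1 1 0 0) (kc false 2 0 0 0 0) m_l_5_9_10 m_l_1_2_9),
  (pr (kc false 0 0 0 0 0) (kc false 0 1 1 1 0) m_l_7_8_9 m_v_3,
    pr (kc true 0 0 0 0 0) (kc false 0 1 1 1 0) m_l_1_2_9 m_v_3),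
  (pr (kc false 0 0 0 0 0) (kc false 1 3 1 0 1) m_v_3 m_1,
    pr (kc true 0 0 0 0 0) (kc false 1 3 1 0 1) m_v_1 m_1),
  (pr (kc true 0 1 0 0 0) (kc false 1 0 0 0 0) m_l_7_8_9 m_l_1_3_8,
    pr (kc false 0 0 1 0 0) (kc false 1 0 0 0 0) m_l_5_8_11 m_l_1_3_8),
  (pr (kc false 0 0 0 0 0) (kc false 0 3 1 0 0) m_l_8_8_8 m_v_4,
    pr (kc true 0 0 0 0 0) (kc false 0 3 1 0 0) m_l_1_3_8 m_v_4),
  (pr (kc true 0 0 0 0 0) (kc false 1 0 1 1 0) m_l_1_4_7 m_v_1,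
    pr (kc false 0 0 0 0 0) (kc false 1 0 1 1 0) m_l_1_1_10 m_v_1),
  (pr (kc false 0 0 0 0 0) (kc false 1 1 1 1 1) m_v_5 m_1,
    pr (kc true 0 0 0 0 0) (kc false 1 1 1 1 1) m_v_1 m_1),
  (pr (kc true 0 1 0 0 0) (kc false 1 0 0 0 0) m_l_7_8_9 m_l_1_2_9,
    pr (kc false 0 0 1 0 0) (kc false 1 0 0 0 0) m_l_4_9_11 m_l_1_2_9),
  (pr (kc true 0 1 0 0 1) (kc false 3 0 0 0 0) m_l_7_8_9 m_l_1_2_9,
    pr (kc false 0 0 1 1 0) (kc false 3 0 0 0 0) m_l_6_9_9 m_l_1_2_9),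
  (pr (kc false 0 0 0 0 0) (kc false 0 2 0 0 1) m_l_6_9_9 m_v_3,
    pr (kc true 0 0 0 0 0) (kc false 0 2 0 0 1) m_l_1_2_9 m_v_3),
  (pr (kc false 0 0 1 1 0) (kc false 3 0 0 0 0) m_l_1_5_6 m_l_1_1_10,
    pr (kc true 0 1 0 0 1) (kc false 3 0 0 0 0) m_l_1_4_7 m_l_1_1_10),
  (pr (kc true 0 0 0 0 0) (kc false 1 1 0 0 1) m_l_1_5_6 m_v_1,
    pr (kc false 0 0 0 0 0) (kc false 1 1 0 0 1) m_l_1_1_10 m_v_1),
  (pr (kc true 0 0 0 1 0) (kc false 1 1 0 0 0) m_l_6_9_9 m_l_1_2_9,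
    pr (kc false 0 0 0 0 1) (kc false 1 1 0 0 0) m_l_4_9_11 m_l_1_2_9),
  (pr (kc false 0 0 0 0 1) (kc false 1 0 1 0 0) m_l_1_3_8 m_l_1_1_10,
    pr (kc true 0 2 0 0 0) (kc false 1 0 1 0 0) m_l_1_2_9 m_l_1_1_10),
  (pr (kc false 0 0 1 1 0) (kc false 1 0 0 0 1) m_l_6_9_9 m_l_4_9_11,
    pr (kc true 0 3 0 0 0) (kc false 1 0 0 0 1) m_l_5_9_10 m_l_4_9_11),
  (pr (kc false 0 0 0 1 0) (kc false 2 0 0 0 0) m_l_6_9_9 m_l_1_2_9,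
    pr (kc true 0 2 0 0 0) (kc false 2 0 0 0 0) m_l_5_9_10 m_l_1_2_9),
  (pr (kc true 0 0 0 0 0) (kc false 2 0 0 0 1) m_l_6_9_9 m_v_3,
    pr (kc false 0 0 0 0 0) (kc false 2 0 0 0 1) m_l_5_9_10 m_v_3),
  (pr (kc false 0 0 0 0 0) (kc false 0 0 0 2 0) (Mo.mul m_l_3_4_5 m_l_3_10_11) (Mo.mul m_v_3 m_l_3_3_6),
    pr (kc true 0 0 0 0 0) (kc false 0 0 0 2 0) (Mo.mul m_l_1_3_8 m_l_2_3_7) (Mo.mul m_v_3 m_l_3_3_6)),
  (pr (kc false 0 0 0 0 1) (kc false 1 1 0 0 0) m_l_1_4_7 m_l_1_1_10,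
    pr (kc true 0 0 0 1 0) (kc false 1 1 0 0 0) m_l_1_2_9 m_l_1_1_10),
  (pr (kc false 0 0 1 0 0) (kc false 1 0 0 0 0) m_l_1_5_6 m_l_1_1_10,
    pr (kc true 0 1 0 0 0) (kc false 1 0 0 0 0) m_l_1_2_9 m_l_1_1_10),
  (pr (kc true 0 0 0 0 0) (kc false 1 0 1 0 1) m_l_1_2_9 m_v_1,
    pr (kc false 0 0 0 0 0) (kc false 1 0 1 0 1) m_l_1_1_10 m_v_1),
  (pr (kc true 0 0 0 0 0) (kc false 1 1 2 0 0) (Mo.mul m_l_1_2_9 m_l_1_3_8) (Mo.mul m_v_1 m_l_1_5_6),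
    pr (kc false 0 0 0 0 0) (kc false 1 1 2 0 0) (Mo.mul m_l_1_1_10 m_l_1_4_7) (Mo.mul m_v_1 m_l_1_5_6)),
  (pr (kc false 1 1 0 0 0) (kc false 0 0 0 0 1) m_l_4_10_10 m_l_1_4_7,
    pr (kc false 0 0 0 1 0) (kc false 0 0 0 0 1) m_l_2_4_6 m_l_1_4_7),
  (pr (kc false 1 0 1 0 0) (kc false 0 0 0 0 1) m_l_2_11_11 m_l_1_2_9,
    pr (kc false 0 2 0 0 0) (kc false 0 0 0 0 1) m_l_2_3_7 m_l_1_2_9),
  (pr (kc false 0 0 1 1 0) (kc false 1 0 0 0 1) m_l_3_3_6 m_l_1_3_8,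
    pr (kc true 0 3 0 0 0) (kc false 1 0 0 0 1) m_l_2_3_7 m_l_1_3_8),
  (pr (kc true 0 3 0 0 0) (kc false 1 0 0 0 1) m_l_7_7_10 m_l_1_4_7,
    pr (kc false 0 0 1 1 0) (kc false 1 0 0 0 1) m_l_6_7_11 m_l_1_4_7),
  (pr (kc false 0 0 1 1 0) (kc false 1 0 0 0 1) m_v_6 m_v_1,
    pr (kc true 0 3 0 0 0) (kc false 1 0 0 0 1) m_v_2 m_v_1),
  (pr (kc false 0 0 0 0 0) (kc false 1 1 0 0 1) m_l_6_7_11 m_v_1,
    pr (kc true 0 0 0 0 0) (kc false 1 1 0 0 1) m_l_2_11_11 m_v_1),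
  (pr (kc true 0 0 0 0 0) (kc false 2 0 0 0 1) m_l_6_7_11 m_v_1,
    pr (kc false 0 0 0 0 0) (kc false 2 0 0 0 1) m_l_3_10_11 m_v_1),
  (pr (kc false 1 1 0 0 0) (kc false 0 0 0 0 1) m_l_6_7_11 m_l_1_5_6,
    pr (kc false 0 0 0 1 0) (kc false 0 0 0 0 1) m_l_3_3_6 m_l_1_5_6)]

include he hne in
theorem sp3 : Sols (gs12 x y T) cp3 := by
  intro p hp
  unfold cp3 at hp
  simp only [List.mem_cons, List.not_mem_nil, or_false] at hp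
  rcases hp with rfl | rfl | rfl | rfl | rfl | rfl | rfl | rfl | rfl | rfl | rfl | rfl | rfl | rfl | rfl | rfl | rfl | rfl | rfl | rfl | rfl | rfl | rfl | rfl | rfl | rfl | rfl | rfl | rfl | rfl | rfl | rfl | rfl | rfl | rfl | rfl | rfl | rfl | rfl | rfl | rfl | rfl | rfl | rfl | rfl | rfl | rfl | rfl | rfl | rfl
  · exact c100 he hne
  · exact c101 he hne
  · exact c102 he hne
  · exact c103 he hne
  · exact c104 he hne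
  · exact c105 he hne
  · exact c106 he hne
  · exact c107 he hne
  · exact c108 he hne
  · exact c109 he hne
  · exact c110 he hne
  · exact c111 he hne
  · exact c112 he hne
  · exact c113 he hne
  · exact c114 he hne
  · exact c115 he hne
  · exact c116 he hne
  · exact c117 he hne
  · exact c118 he hne
  · exact c119 he hne
  · exact c120 he hne
  · exact c121 he hne
  · exact c122 he hne
  · exact c123 he hne
  · exact c124 he hne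
  · exact c125 he hne
  · exact c126 he hne
  · exact c127 he hne
  · exact c128 he hne
  · exact c129 he hne
  · exact c130 he hne
  · exact c131 he hne
  · exact c132 he hne
  · exact c133 he hne
  · exact c134 he hne
  · exact c135 he hne
  · exact c136 he hne
  · exact c137 he hne
  · exact c138 he hne
  · exact c139 he hne
  · exact c140 he hne
  · exact c141 he hne
  · exact c142 he hne
  · exact c143 he hne
  · exact c144 he hne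
  · exact c145 he hne
  · exact c146 he hne
  · exact c147 he hne
  · exact c148 he hne
  · exact c149 he hne

end Pool.Agent.UE12C
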