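import Pool.Agent.Lib_helper7.N12.L

/-!
# The solutions of the unit equation for a point of order twelve, part 4
-/

set_option autoImplicit false
set_option linter.unusedSectionVars false
set_option linter.unusedSimpArgs false
set_option maxRecDepth 100000

namespace Pool.Agent.UE12C

open Pool.Agent.KC72

variable {F : Type*} [Field F] {x y T : F} (he : HE12 x y T) (hne : ∀ z ∈ gs12 x y T, z ≠ 0)

include he hne in
lemma c150 : ev (gs12 x y T) (pr (kc false 1 1 0 0 0) (kc false 0 0 0 0 1) m_l_7_7_10 m_l_1_4_7) +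
    ev (gs12 x y T) (pr (kc false 0 0 0 1 0) (kc false 0 0 0 0 1) m_l_2_3_7 m_l_1_4_7) = 1 := by
  refine cls3 hne (e_l_7_7_10 he hne) (e_l_2_3_7 he hne) e_l_1_4_7 _ _ _ _ _ _ _ _ _ _ _ _ _ _ _ _ _ ?_
  simp only [kv, cond_true, cond_false]
  ring

include he hne in
lemma c151 : ev (gs12 x y T) (pr (kc false 1 0 1 0 0) (kc false 0 0 0 0 1) m_l_6_8_10 m_l_1_3_8) +
    ev (gs12 x y T) (pr (kc false 0 2 0 0 0) (kc false 0 0 0 0 1) m_l_2_2_8 m_l_1_3_8) = 1 := by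
  refine cls3 hne (e_l_6_8_10 he hne) (e_l_2_2_8 he hne) e_l_1_3_8 _ _ _ _ _ _ _ _ _ _ _ _ _ _ _ _ _ ?_
  simp only [kv, cond_true, cond_false]
  ring

include he hne in
lemma c152 : ev (gs12 x y T) (pr (kc true 0 3 0 0 0) (kc false 1 0 0 0 1) m_l_7_7_10 m_l_1_1_10) +
    ev (gs12 x y T) (pr (kc false 0 0 1 1 0) (kc false 1 0 0 0 1) m_l_3_10_11 m_l_1_1_10) = 1 := by
  refine cls3 hne (e_l_7_7_10 he hne) (e_l_3_10_11 he hne) e_l_1_1_10 _ _ _ _ _ _ _ _ _ _ _ _ _ _ _ _ _ ?_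
  simp only [kv, cond_true, cond_false]
  ring

include he hne in
lemma c153 : ev (gs12 x y T) (pr (kc false 1 0 1 0 0) (kc false 0 0 0 1 0) m_l_2_11_11 m_l_1_2_9) +
    ev (gs12 x y T) (pr (kc true 0 1 0 0 0) (kc false 0 0 0 1 0) m_l_2_2_8 m_l_1_2_9) = 1 := by
  refine cls3 hne (e_l_2_11_11 he hne) (e_l_2_2_8 he hne) e_l_1_2_9 _ _ _ _ _ _ _ _ _ _ _ _ _ _ _ _ _ ?_
  simp only [kv, cond_true, cond_false]
  ring

include he hne in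
lemma c154 : ev (gs12 x y T) (pr (kc false 0 1 0 0 0) (kc false 1 0 0 0 0) m_l_2_3_7 m_l_1_2_9) +
    ev (gs12 x y T) (pr (kc false 0 0 0 0 0) (kc false 1 0 0 0 0) m_l_2_2_8 m_l_1_2_9) = 1 := by
  refine cls3 hne (e_l_2_3_7 he hne) (e_l_2_2_8 he hne) e_l_1_2_9 _ _ _ _ _ _ _ _ _ _ _ _ _ _ _ _ _ ?_
  simp only [kv, cond_true, cond_false]
  ring

include he hne in
lemma c155 : ev (gs12 x y T) (pr (kc true 1 0 0 0 0) (kc false 0 1 1 0 0) m_l_6_8_10 m_l_1_5_6) +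
    ev (gs12 x y T) (pr (kc false 0 0 0 1 0) (kc false 0 1 1 0 0) m_l_3_3_6 m_l_1_5_6) = 1 := by
  refine cls3 hne (e_l_6_8_10 he hne) (e_l_3_3_6 he hne) e_l_1_5_6 _ _ _ _ _ _ _ _ _ _ _ _ _ _ _ _ _ ?_
  simp only [kv, cond_true, cond_false]
  ring

include he hne in
lemma c156 : ev (gs12 x y T) (pr (kc false 0 4 0 0 0) (kc false 4 0 0 0 0) m_l_7_7_10 m_l_1_1_10) +
    ev (gs12 x y T) (pr (kc false 0 0 1 1 0) (kc false 4 0 0 0 0) m_l_6_8_10 m_l_1_1_10) = 1 := by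
  refine cls3 hne (e_l_7_7_10 he hne) (e_l_6_8_10 he hne) e_l_1_1_10 _ _ _ _ _ _ _ _ _ _ _ _ _ _ _ _ _ ?_
  simp only [kv, cond_true, cond_false]
  ring

include he hne in
lemma c157 : ev (gs12 x y T) (pr (kc false 0 0 0 0 0) (kc false 1 0 0 0 0) m_l_6_8_10 m_l_1_1_10) +
    ev (gs12 x y T) (pr (kc false 0 1 0 0 0) (kc false 1 0 0 0 0) m_l_3_10_11 m_l_1_1_10) = 1 := by
  refine cls3 hne (e_l_6_8_10 he hne) (e_l_3_10_11 he hne) e_l_1_1_10 _ _ _ _ _ _ _ _ _ _ _ _ _ _ _ _ _ ?_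
  simp only [kv, cond_true, cond_false]
  ring

include he hne in
lemma c158 : ev (gs12 x y T) (pr (kc false 1 0 0 0 0) (kc false 0 1 0 0 0) m_l_2_11_11 m_l_1_2_9) +
    ev (gs12 x y T) (pr (kc true 0 0 0 0 0) (kc false 0 1 0 0 0) m_l_2_4_6 m_l_1_2_9) = 1 := by
  refine cls3 hne (e_l_2_11_11 he hne) (e_l_2_4_6 he hne) e_l_1_2_9 _ _ _ _ _ _ _ _ _ _ _ _ _ _ _ _ _ ?_
  simp only [kv, cond_true, cond_false]
  ring

include he hne in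
lemma c159 : ev (gs12 x y T) (pr (kc false 1 0 0 0 0) (kc false 0 1 0 0 0) m_l_6_7_11 m_l_1_5_6) +
    ev (gs12 x y T) (pr (kc true 0 0 0 0 0) (kc false 0 1 0 0 0) m_l_2_4_6 m_l_1_5_6) = 1 := by
  refine cls3 hne (e_l_6_7_11 he hne) (e_l_2_4_6 he hne) e_l_1_5_6 _ _ _ _ _ _ _ _ _ _ _ _ _ _ _ _ _ ?_
  simp only [kv, cond_true, cond_false]
  ring

include he hne in
lemma c160 : ev (gs12 x y T) (pr (kc false 0 1 0 0 0) (kc false 1 0 1 0 0) m_l_4_10_10 m_l_1_1_10) +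
    ev (gs12 x y T) (pr (kc false 0 0 0 1 0) (kc false 1 0 1 0 0) m_l_3_10_11 m_l_1_1_10) = 1 := by
  refine cls3 hne (e_l_4_10_10 he hne) (e_l_3_10_11 he hne) e_l_1_1_10 _ _ _ _ _ _ _ _ _ _ _ _ _ _ _ _ _ ?_
  simp only [kv, cond_true, cond_false]
  ring

include he hne in
lemma c161 : ev (gs12 x y T) (pr (kc false 0 2 0 0 0) (kc false 2 0 0 0 0) m_l_7_7_10 m_l_1_1_10) +
    ev (gs12 x y T) (pr (kc false 0 0 1 0 0) (kc false 2 0 0 0 0) m_l_4_10_10 m_l_1_1_10) = 1 := by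
  refine cls3 hne (e_l_7_7_10 he hne) (e_l_4_10_10 he hne) e_l_1_1_10 _ _ _ _ _ _ _ _ _ _ _ _ _ _ _ _ _ ?_
  simp only [kv, cond_true, cond_false]
  ring

include he hne in
lemma c162 : ev (gs12 x y T) (pr (kc false 0 0 0 1 0) (kc false 1 0 1 0 0) m_l_3_3_6 m_l_1_5_6) +
    ev (gs12 x y T) (pr (kc false 0 1 0 0 0) (kc false 1 0 1 0 0) m_l_2_4_6 m_l_1_5_6) = 1 := by
  refine cls3 hne (e_l_3_3_6 he hne) (e_l_2_4_6 he hne) e_l_1_5_6 _ _ _ _ _ _ _ _ _ _ _ _ _ _ _ _ _ ?_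
  simp only [kv, cond_true, cond_false]
  ring

include he hne in
lemma c163 : ev (gs12 x y T) (pr (kc false 0 0 1 0 0) (kc false 1 0 0 0 0) m_l_2_4_6 m_l_1_2_9) +
    ev (gs12 x y T) (pr (kc true 0 1 0 0 0) (kc false 1 0 0 0 0) m_l_2_2_8 m_l_1_2_9) = 1 := by
  refine cls3 hne (e_l_2_4_6 he hne) (e_l_2_2_8 he hne) e_l_1_2_9 _ _ _ _ _ _ _ _ _ _ _ _ _ _ _ _ _ ?_
  simp only [kv, cond_true, cond_false]
  ring

include he hne in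
lemma c164 : ev (gs12 x y T) (pr (kc false 1 0 0 0 0) (kc false 0 0 1 0 0) m_l_6_8_10 m_l_1_5_6) +
    ev (gs12 x y T) (pr (kc false 0 1 0 0 0) (kc false 0 0 1 0 0) m_l_2_4_6 m_l_1_5_6) = 1 := by
  refine cls3 hne (e_l_6_8_10 he hne) (e_l_2_4_6 he hne) e_l_1_5_6 _ _ _ _ _ _ _ _ _ _ _ _ _ _ _ _ _ ?_
  simp only [kv, cond_true, cond_false]
  ring

include he hne in
lemma c165 : ev (gs12 x y T) (pr (kc false 0 0 0 1 0) (kc false 2 0 0 0 0) m_l_6_8_10 m_l_1_1_10) +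
    ev (gs12 x y T) (pr (kc true 0 2 0 0 0) (kc false 2 0 0 0 0) m_l_4_10_10 m_l_1_1_10) = 1 := by
  refine cls3 hne (e_l_6_8_10 he hne) (e_l_4_10_10 he hne) e_l_1_1_10 _ _ _ _ _ _ _ _ _ _ _ _ _ _ _ _ _ ?_
  simp only [kv, cond_true, cond_false]
  ring

include he hne in
lemma c166 : ev (gs12 x y T) (pr (kc true 0 0 0 0 0) (kc false 0 3 0 0 0) m_l_2_11_11 m_v_2) +
    ev (gs12 x y T) (pr (kc false 0 0 0 0 0) (kc false 0 3 0 0 0) m_l_1_2_9 m_v_2) = 1 := by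
  refine cls3 hne (e_l_2_11_11 he hne) e_l_1_2_9 e_v_2 _ _ _ _ _ _ _ _ _ _ _ _ _ _ _ _ _ ?_
  simp only [kv, cond_true, cond_false]
  ring

include he hne in
lemma c167 : ev (gs12 x y T) (pr (kc true 0 0 0 0 0) (kc false 0 0 1 1 0) m_l_6_7_11 m_v_6) +
    ev (gs12 x y T) (pr (kc false 0 0 0 0 0) (kc false 0 0 1 1 0) m_l_1_5_6 m_v_6) = 1 := by
  refine cls3 hne (e_l_6_7_11 he hne) e_l_1_5_6 e_v_6 _ _ _ _ _ _ _ _ _ _ _ _ _ _ _ _ _ ?_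
  simp only [kv, cond_true, cond_false]
  ring

include he hne in
lemma c168 : ev (gs12 x y T) (pr (kc true 0 0 0 0 0) (kc false 0 3 0 0 0) m_l_3_10_11 m_v_2) +
    ev (gs12 x y T) (pr (kc false 0 0 0 0 0) (kc false 0 3 0 0 0) m_l_1_1_10 m_v_2) = 1 := by
  refine cls3 hne (e_l_3_10_11 he hne) e_l_1_1_10 e_v_2 _ _ _ _ _ _ _ _ _ _ _ _ _ _ _ _ _ ?_
  simp only [kv, cond_true, cond_false]
  ring

include he hne in
lemma c169 : ev (gs12 x y T) (pr (kc true 0 0 0 0 0) (kc false 0 0 1 1 0) m_l_7_7_10 m_v_2) +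
    ev (gs12 x y T) (pr (kc false 0 0 0 0 0) (kc false 0 0 1 1 0) m_l_1_1_10 m_v_2) = 1 := by
  refine cls3 hne (e_l_7_7_10 he hne) e_l_1_1_10 e_v_2 _ _ _ _ _ _ _ _ _ _ _ _ _ _ _ _ _ ?_
  simp only [kv, cond_true, cond_false]
  ring

include he hne in
lemma c170 : ev (gs12 x y T) (pr (kc false 0 0 0 0 0) (kc false 1 1 1 0 0) m_l_3_3_6 m_v_6) +
    ev (gs12 x y T) (pr (kc true 0 0 0 0 0) (kc false 1 1 1 0 0) m_l_1_5_6 m_v_6) = 1 := by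
  refine cls3 hne (e_l_3_3_6 he hne) e_l_1_5_6 e_v_6 _ _ _ _ _ _ _ _ _ _ _ _ _ _ _ _ _ ?_
  simp only [kv, cond_true, cond_false]
  ring

include he hne in
lemma c171 : ev (gs12 x y T) (pr (kc true 0 0 0 0 0) (kc false 1 3 0 0 0) m_l_2_4_6 m_v_2) +
    ev (gs12 x y T) (pr (kc false 0 0 0 0 0) (kc false 1 3 0 0 0) m_l_1_2_9 m_v_2) = 1 := by
  refine cls3 hne (e_l_2_4_6 he hne) e_l_1_2_9 e_v_2 _ _ _ _ _ _ _ _ _ _ _ _ _ _ _ _ _ ?_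
  simp only [kv, cond_true, cond_false]
  ring

include he hne in
lemma c172 : ev (gs12 x y T) (pr (kc true 0 0 0 0 0) (kc false 1 2 1 0 0) m_l_2_2_8 m_v_2) +
    ev (gs12 x y T) (pr (kc false 0 0 0 0 0) (kc false 1 2 1 0 0) m_l_1_2_9 m_v_2) = 1 := by
  refine cls3 hne (e_l_2_2_8 he hne) e_l_1_2_9 e_v_2 _ _ _ _ _ _ _ _ _ _ _ _ _ _ _ _ _ ?_
  simp only [kv, cond_true, cond_false]
  ring

include he hne in
lemma c173 : ev (gs12 x y T) (pr (kc false 0 0 0 0 0) (kc false 0 1 1 1 0) m_l_6_8_10 m_v_6) +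
    ev (gs12 x y T) (pr (kc true 0 0 0 0 0) (kc false 0 1 1 1 0) m_l_1_5_6 m_v_6) = 1 := by
  refine cls3 hne (e_l_6_8_10 he hne) e_l_1_5_6 e_v_6 _ _ _ _ _ _ _ _ _ _ _ _ _ _ _ _ _ ?_
  simp only [kv, cond_true, cond_false]
  ring

include he hne in
lemma c174 : ev (gs12 x y T) (pr (kc true 0 0 0 0 0) (kc false 1 0 1 1 0) m_l_2_4_6 m_v_6) +
    ev (gs12 x y T) (pr (kc false 0 0 0 0 0) (kc false 1 0 1 1 0) m_l_1_5_6 m_v_6) = 1 := by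
  refine cls3 hne (e_l_2_4_6 he hne) e_l_1_5_6 e_v_6 _ _ _ _ _ _ _ _ _ _ _ _ _ _ _ _ _ ?_
  simp only [kv, cond_true, cond_false]
  ring

include he hne in
lemma c175 : ev (gs12 x y T) (pr (kc false 0 0 0 0 0) (kc false 0 4 0 0 0) m_l_6_8_10 m_v_2) +
    ev (gs12 x y T) (pr (kc true 0 0 0 0 0) (kc false 0 4 0 0 0) m_l_1_1_10 m_v_2) = 1 := by
  refine cls3 hne (e_l_6_8_10 he hne) e_l_1_1_10 e_v_2 _ _ _ _ _ _ _ _ _ _ _ _ _ _ _ _ _ ?_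
  simp only [kv, cond_true, cond_false]
  ring

include he hne in
lemma c176 : ev (gs12 x y T) (pr (kc false 0 0 0 0 0) (kc false 0 2 0 1 0) m_l_4_10_10 m_v_2) +
    ev (gs12 x y T) (pr (kc true 0 0 0 0 0) (kc false 0 2 0 1 0) m_l_1_1_10 m_v_2) = 1 := by
  refine cls3 hne (e_l_4_10_10 he hne) e_l_1_1_10 e_v_2 _ _ _ _ _ _ _ _ _ _ _ _ _ _ _ _ _ ?_
  simp only [kv, cond_true, cond_false]
  ring

include he hne in
lemma c177 : ev (gs12 x y T) (pr (kc true 0 0 0 0 0) (kc false 1 1 2 0 0) (Mo.mul m_l_2_2_8 m_l_2_2_8) (Mo.mul m_v_2 m_l_2_4_6)) +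
    ev (gs12 x y T) (pr (kc false 0 0 0 0 0) (kc false 1 1 2 0 0) (Mo.mul m_l_1_2_9 m_l_2_3_7) (Mo.mul m_v_2 m_l_2_4_6)) = 1 := by
  refine cls3 hne (mul2 hne (e_l_2_2_8 he hne) (e_l_2_2_8 he hne)) (mul2 hne e_l_1_2_9 (e_l_2_3_7 he hne)) (mul2 hne e_v_2 (e_l_2_4_6 he hne)) _ _ _ _ _ _ _ _ _ _ _ _ _ _ _ _ _ ?_
  simp only [kv, cond_true, cond_false]
  ring

include he hne in
lemma c178 : ev (gs12 x y T) (pr (kc true 0 0 0 0 0) (kc false 1 1 2 2 0) (Mo.mul m_v_2 m_v_4) (Mo.mul m_1 m_v_6)) +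
    ev (gs12 x y T) (pr (kc false 0 0 0 0 0) (kc false 1 1 2 2 0) (Mo.mul m_v_1 m_v_5) (Mo.mul m_1 m_v_6)) = 1 := by
  refine cls3 hne (mul2 hne e_v_2 e_v_4) (mul2 hne e_v_1 e_v_5) (mul2 hne e_1 e_v_6) _ _ _ _ _ _ _ _ _ _ _ _ _ _ _ _ _ ?_
  simp only [kv, cond_true, cond_false]
  ring

include he hne in
lemma c179 : ev (gs12 x y T) (pr (kc false 0 0 0 0 0) (kc false 0 0 0 2 0) (Mo.mul m_l_4_4_4 m_l_4_10_10) (Mo.mul m_v_4 m_l_2_4_6)) +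
    ev (gs12 x y T) (pr (kc true 0 0 0 0 0) (kc false 0 0 0 2 0) (Mo.mul m_l_1_4_7 m_l_1_4_7) (Mo.mul m_v_4 m_l_2_4_6)) = 1 := by
  refine cls3 hne (mul2 hne (e_l_4_4_4 he hne) (e_l_4_10_10 he hne)) (mul2 hne e_l_1_4_7 e_l_1_4_7) (mul2 hne e_v_4 (e_l_2_4_6 he hne)) _ _ _ _ _ _ _ _ _ _ _ _ _ _ _ _ _ ?_
  simp only [kv, cond_true, cond_false]
  ring

include he hne in
lemma c180 : ev (gs12 x y T) (pr (kc false 0 0 0 0 0) (kc false 0 0 0 1 1) m_l_3_10_11 m_v_3) +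
    ev (gs12 x y T) (pr (kc true 0 0 0 0 0) (kc false 0 0 0 1 1) m_l_2_3_7 m_v_3) = 1 := by
  refine cls3 hne (e_l_3_10_11 he hne) (e_l_2_3_7 he hne) e_v_3 _ _ _ _ _ _ _ _ _ _ _ _ _ _ _ _ _ ?_
  simp only [kv, cond_true, cond_false]
  ring

include he hne in
lemma c181 : ev (gs12 x y T) (pr (kc false 0 0 0 0 0) (kc false 0 2 0 0 1) m_l_6_7_11 m_v_5) +
    ev (gs12 x y T) (pr (kc true 0 0 0 0 0) (kc false 0 2 0 0 1) m_l_2_3_7 m_v_5) = 1 := by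
  refine cls3 hne (e_l_6_7_11 he hne) (e_l_2_3_7 he hne) e_v_5 _ _ _ _ _ _ _ _ _ _ _ _ _ _ _ _ _ ?_
  simp only [kv, cond_true, cond_false]
  ring

include he hne in
lemma c182 : ev (gs12 x y T) (pr (kc true 0 0 0 0 0) (kc false 1 1 1 0 0) m_l_5_9_10 m_v_2) +
    ev (gs12 x y T) (pr (kc false 0 0 0 0 0) (kc false 1 1 1 0 0) m_l_3_10_11 m_v_2) = 1 := by
  refine cls3 hne (e_l_5_9_10 he hne) (e_l_3_10_11 he hne) e_v_2 _ _ _ _ _ _ _ _ _ _ _ _ _ _ _ _ _ ?_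
  simp only [kv, cond_true, cond_false]
  ring

include he hne in
lemma c183 : ev (gs12 x y T) (pr (kc false 0 0 0 0 1) (kc false 1 0 1 0 0) m_l_4_9_11 m_l_2_11_11) +
    ev (gs12 x y T) (pr (kc true 0 2 0 0 0) (kc false 1 0 1 0 0) m_l_3_10_11 m_l_2_11_11) = 1 := by
  refine cls3 hne (e_l_4_9_11 he hne) (e_l_3_10_11 he hne) (e_l_2_11_11 he hne) _ _ _ _ _ _ _ _ _ _ _ _ _ _ _ _ _ ?_
  simp only [kv, cond_true, cond_false]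
  ring

include he hne in
lemma c184 : ev (gs12 x y T) (pr (kc false 0 0 0 0 0) (kc false 0 0 0 0 2) m_l_6_8_10 m_v_4) +
    ev (gs12 x y T) (pr (kc true 0 0 0 0 0) (kc false 0 0 0 0 2) m_l_2_2_8 m_v_4) = 1 := by
  refine cls3 hne (e_l_6_8_10 he hne) (e_l_2_2_8 he hne) e_v_4 _ _ _ _ _ _ _ _ _ _ _ _ _ _ _ _ _ ?_
  simp only [kv, cond_true, cond_false]
  ring

include he hne in
lemma c185 : ev (gs12 x y T) (pr (kc false 0 1 0 0 0) (kc false 1 0 0 0 0) m_l_2_5_5 m_l_2_3_7) +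
    ev (gs12 x y T) (pr (kc false 0 0 0 0 0) (kc false 1 0 0 0 0) m_l_2_4_6 m_l_2_3_7) = 1 := by
  refine cls3 hne (e_l_2_5_5 he hne) (e_l_2_4_6 he hne) (e_l_2_3_7 he hne) _ _ _ _ _ _ _ _ _ _ _ _ _ _ _ _ _ ?_
  simp only [kv, cond_true, cond_false]
  ring

include he hne in
lemma c186 : ev (gs12 x y T) (pr (kc false 0 0 0 1 0) (kc false 1 0 1 0 0) m_l_6_9_9 m_l_6_7_11) +
    ev (gs12 x y T) (pr (kc false 0 1 0 0 0) (kc false 1 0 1 0 0) m_l_6_8_10 m_l_6_7_11) = 1 := by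
  refine cls3 hne (e_l_6_9_9 he hne) (e_l_6_8_10 he hne) (e_l_6_7_11 he hne) _ _ _ _ _ _ _ _ _ _ _ _ _ _ _ _ _ ?_
  simp only [kv, cond_true, cond_false]
  ring

include he hne in
lemma c187 : ev (gs12 x y T) (pr (kc false 3 0 0 0 0) (kc false 0 0 1 1 0) m_l_3_10_11 m_l_3_3_6) +
    ev (gs12 x y T) (pr (kc false 0 1 0 0 1) (kc false 0 0 1 1 0) m_l_3_4_5 m_l_3_3_6) = 1 := by
  refine cls3 hne (e_l_3_10_11 he hne) (e_l_3_4_5 he hne) (e_l_3_3_6 he hne) _ _ _ _ _ _ _ _ _ _ _ _ _ _ _ _ _ ?_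
  simp only [kv, cond_true, cond_false]
  ring

include he hne in
lemma c188 : ev (gs12 x y T) (pr (kc true 2 0 0 0 0) (kc false 0 1 1 0 0) m_l_3_10_11 m_l_2_3_7) +
    ev (gs12 x y T) (pr (kc false 0 0 0 0 1) (kc false 0 1 1 0 0) m_l_3_4_5 m_l_2_3_7) = 1 := by
  refine cls3 hne (e_l_3_10_11 he hne) (e_l_3_4_5 he hne) (e_l_2_3_7 he hne) _ _ _ _ _ _ _ _ _ _ _ _ _ _ _ _ _ ?_
  simp only [kv, cond_true, cond_false]
  ring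

include he hne in
lemma c189 : ev (gs12 x y T) (pr (kc true 0 0 0 0 1) (kc false 1 1 0 0 0) m_l_7_8_9 m_l_2_3_7) +
    ev (gs12 x y T) (pr (kc false 0 0 2 0 0) (kc false 1 1 0 0 0) m_l_6_7_11 m_l_2_3_7) = 1 := by
  refine cls3 hne (e_l_7_8_9 he hne) (e_l_6_7_11 he hne) (e_l_2_3_7 he hne) _ _ _ _ _ _ _ _ _ _ _ _ _ _ _ _ _ ?_
  simp only [kv, cond_true, cond_false]
  ring

include he hne in
lemma c190 : ev (gs12 x y T) (pr (kc false 0 0 1 0 0) (kc false 2 0 0 0 0) m_l_6_8_10 m_l_3_10_11) +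
    ev (gs12 x y T) (pr (kc false 0 2 0 0 0) (kc false 2 0 0 0 0) m_l_5_9_10 m_l_3_10_11) = 1 := by
  refine cls3 hne (e_l_6_8_10 he hne) (e_l_5_9_10 he hne) (e_l_3_10_11 he hne) _ _ _ _ _ _ _ _ _ _ _ _ _ _ _ _ _ ?_
  simp only [kv, cond_true, cond_false]
  ring

include he hne in
lemma c191 : ev (gs12 x y T) (pr (kc true 0 1 1 0 0) (kc false 1 0 0 0 0) m_l_7_7_10 m_l_4_10_10) +
    ev (gs12 x y T) (pr (kc false 0 0 0 1 0) (kc false 1 0 0 0 0) m_l_5_9_10 m_l_4_10_10) = 1 := by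
  refine cls3 hne (e_l_7_7_10 he hne) (e_l_5_9_10 he hne) (e_l_4_10_10 he hne) _ _ _ _ _ _ _ _ _ _ _ _ _ _ _ _ _ ?_
  simp only [kv, cond_true, cond_false]
  ring

include he hne in
lemma c192 : ev (gs12 x y T) (pr (kc false 0 0 1 1 0) (kc false 3 0 0 0 0) m_v_6 m_v_2) +
    ev (gs12 x y T) (pr (kc true 0 1 0 0 1) (kc false 3 0 0 0 0) m_v_5 m_v_2) = 1 := by
  refine cls3 hne e_v_6 e_v_5 e_v_2 _ _ _ _ _ _ _ _ _ _ _ _ _ _ _ _ _ ?_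
  simp only [kv, cond_true, cond_false]
  ring

include he hne in
lemma c193 : ev (gs12 x y T) (pr (kc true 0 1 1 0 0) (kc false 2 0 0 0 0) m_l_6_7_11 m_l_2_11_11) +
    ev (gs12 x y T) (pr (kc false 0 0 0 0 1) (kc false 2 0 0 0 0) m_l_4_9_11 m_l_2_11_11) = 1 := by
  refine cls3 hne (e_l_6_7_11 he hne) (e_l_4_9_11 he hne) (e_l_2_11_11 he hne) _ _ _ _ _ _ _ _ _ _ _ _ _ _ _ _ _ ?_
  simp only [kv, cond_true, cond_false]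
  ring

include he hne in
lemma c194 : ev (gs12 x y T) (pr (kc true 0 0 2 1 0) (kc false 2 2 0 0 0) m_v_6 m_v_2) +
    ev (gs12 x y T) (pr (kc false 0 0 0 0 2) (kc false 2 2 0 0 0) m_v_4 m_v_2) = 1 := by
  refine cls3 hne e_v_6 e_v_4 e_v_2 _ _ _ _ _ _ _ _ _ _ _ _ _ _ _ _ _ ?_
  simp only [kv, cond_true, cond_false]
  ring

include he hne in
lemma c195 : ev (gs12 x y T) (pr (kc false 0 0 0 0 0) (kc false 3 0 0 0 0) m_l_2_5_5 m_v_2) +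
    ev (gs12 x y T) (pr (kc true 0 0 0 0 0) (kc false 3 0 0 0 0) m_l_2_3_7 m_v_2) = 1 := by
  refine cls3 hne (e_l_2_5_5 he hne) (e_l_2_3_7 he hne) e_v_2 _ _ _ _ _ _ _ _ _ _ _ _ _ _ _ _ _ ?_
  simp only [kv, cond_true, cond_false]
  ring

include he hne in
lemma c196 : ev (gs12 x y T) (pr (kc true 2 2 0 0 0) (kc false 0 0 2 1 0) m_l_4_10_10 m_l_2_4_6) +
    ev (gs12 x y T) (pr (kc false 0 0 0 0 2) (kc false 0 0 2 1 0) m_l_4_4_4 m_l_2_4_6) = 1 := by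
  refine cls3 hne (e_l_4_10_10 he hne) (e_l_4_4_4 he hne) (e_l_2_4_6 he hne) _ _ _ _ _ _ _ _ _ _ _ _ _ _ _ _ _ ?_
  simp only [kv, cond_true, cond_false]
  ring

include he hne in
lemma c197 : ev (gs12 x y T) (pr (kc false 2 0 0 0 0) (kc false 0 0 1 0 0) m_l_2_11_11 m_l_2_2_8) +
    ev (gs12 x y T) (pr (kc true 0 2 0 0 0) (kc false 0 0 1 0 0) m_l_2_5_5 m_l_2_2_8) = 1 := by
  refine cls3 hne (e_l_2_11_11 he hne) (e_l_2_5_5 he hne) (e_l_2_2_8 he hne) _ _ _ _ _ _ _ _ _ _ _ _ _ _ _ _ _ ?_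
  simp only [kv, cond_true, cond_false]
  ring

include he hne in
lemma c198 : ev (gs12 x y T) (pr (kc false 0 0 2 0 0) (kc false 1 1 0 0 0) m_l_6_7_11 m_l_3_10_11) +
    ev (gs12 x y T) (pr (kc true 0 0 0 0 1) (kc false 1 1 0 0 0) m_l_4_9_11 m_l_3_10_11) = 1 := by
  refine cls3 hne (e_l_6_7_11 he hne) (e_l_4_9_11 he hne) (e_l_3_10_11 he hne) _ _ _ _ _ _ _ _ _ _ _ _ _ _ _ _ _ ?_
  simp only [kv, cond_true, cond_false]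
  ring

include he hne in
lemma c199 : ev (gs12 x y T) (pr (kc true 0 0 0 0 0) (kc false 0 0 3 0 0) m_l_6_9_9 m_v_6) +
    ev (gs12 x y T) (pr (kc false 0 0 0 0 0) (kc false 0 0 3 0 0) m_l_3_3_6 m_v_6) = 1 := by
  refine cls3 hne (e_l_6_9_9 he hne) (e_l_3_3_6 he hne) e_v_6 _ _ _ _ _ _ _ _ _ _ _ _ _ _ _ _ _ ?_
  simp only [kv, cond_true, cond_false]
  ring

/-- part 4 of the list -/
def cp4 : List (Mo × Mo) := [
  (pr (kc false 1 1 0 0 0) (kc false 0 0 0 0 1) m_l_7_7_10 m_l_1_4_7,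
    pr (kc false 0 0 0 1 0) (kc false 0 0 0 0 1) m_l_2_3_7 m_l_1_4_7),
  (pr (kc false 1 0 1 0 0) (kc false 0 0 0 0 1) m_l_6_8_10 m_l_1_3_8,
    pr (kc false 0 2 0 0 0) (kc false 0 0 0 0 1) m_l_2_2_8 m_l_1_3_8),
  (pr (kc true 0 3 0 0 0) (kc false 1 0 0 0 1) m_l_7_7_10 m_l_1_1_10,
    pr (kc false 0 0 1 1 0) (kc false 1 0 0 0 1) m_l_3_10_11 m_l_1_1_10),
  (pr (kc false 1 0 1 0 0) (kc false 0 0 0 1 0) m_l_2_11_11 m_l_1_2_9,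
    pr (kc true 0 1 0 0 0) (kc false 0 0 0 1 0) m_l_2_2_8 m_l_1_2_9),
  (pr (kc false 0 1 0 0 0) (kc false 1 0 0 0 0) m_l_2_3_7 m_l_1_2_9,
    pr (kc false 0 0 0 0 0) (kc false 1 0 0 0 0) m_l_2_2_8 m_l_1_2_9),
  (pr (kc true 1 0 0 0 0) (kc false 0 1 1 0 0) m_l_6_8_10 m_l_1_5_6,
    pr (kc false 0 0 0 1 0) (kc false 0 1 1 0 0) m_l_3_3_6 m_l_1_5_6),
  (pr (kc false 0 4 0 0 0) (kc false 4 0 0 0 0) m_l_7_7_10 m_l_1_1_10,
    pr (kc false 0 0 1 1 0) (kc false 4 0 0 0 0) m_l_6_8_10 m_l_1_1_10),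
  (pr (kc false 0 0 0 0 0) (kc false 1 0 0 0 0) m_l_6_8_10 m_l_1_1_10,
    pr (kc false 0 1 0 0 0) (kc false 1 0 0 0 0) m_l_3_10_11 m_l_1_1_10),
  (pr (kc false 1 0 0 0 0) (kc false 0 1 0 0 0) m_l_2_11_11 m_l_1_2_9,
    pr (kc true 0 0 0 0 0) (kc false 0 1 0 0 0) m_l_2_4_6 m_l_1_2_9),
  (pr (kc false 1 0 0 0 0) (kc false 0 1 0 0 0) m_l_6_7_11 m_l_1_5_6,
    pr (kc true 0 0 0 0 0) (kc false 0 1 0 0 0) m_l_2_4_6 m_l_1_5_6),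
  (pr (kc false 0 1 0 0 0) (kc false 1 0 1 0 0) m_l_4_10_10 m_l_1_1_10,
    pr (kc false 0 0 0 1 0) (kc false 1 0 1 0 0) m_l_3_10_11 m_l_1_1_10),
  (pr (kc false 0 2 0 0 0) (kc false 2 0 0 0 0) m_l_7_7_10 m_l_1_1_10,
    pr (kc false 0 0 1 0 0) (kc false 2 0 0 0 0) m_l_4_10_10 m_l_1_1_10),
  (pr (kc false 0 0 0 1 0) (kc false 1 0 1 0 0) m_l_3_3_6 m_l_1_5_6,
    pr (kc false 0 1 0 0 0) (kc false 1 0 1 0 0) m_l_2_4_6 m_l_1_5_6),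
  (pr (kc false 0 0 1 0 0) (kc false 1 0 0 0 0) m_l_2_4_6 m_l_1_2_9,
    pr (kc true 0 1 0 0 0) (kc false 1 0 0 0 0) m_l_2_2_8 m_l_1_2_9),
  (pr (kc false 1 0 0 0 0) (kc false 0 0 1 0 0) m_l_6_8_10 m_l_1_5_6,
    pr (kc false 0 1 0 0 0) (kc false 0 0 1 0 0) m_l_2_4_6 m_l_1_5_6),
  (pr (kc false 0 0 0 1 0) (kc false 2 0 0 0 0) m_l_6_8_10 m_l_1_1_10,
    pr (kc true 0 2 0 0 0) (kc false 2 0 0 0 0) m_l_4_10_10 m_l_1_1_10),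
  (pr (kc true 0 0 0 0 0) (kc false 0 3 0 0 0) m_l_2_11_11 m_v_2,
    pr (kc false 0 0 0 0 0) (kc false 0 3 0 0 0) m_l_1_2_9 m_v_2),
  (pr (kc true 0 0 0 0 0) (kc false 0 0 1 1 0) m_l_6_7_11 m_v_6,
    pr (kc false 0 0 0 0 0) (kc false 0 0 1 1 0) m_l_1_5_6 m_v_6),
  (pr (kc true 0 0 0 0 0) (kc false 0 3 0 0 0) m_l_3_10_11 m_v_2,
    pr (kc false 0 0 0 0 0) (kc false 0 3 0 0 0) m_l_1_1_10 m_v_2),
  (pr (kc true 0 0 0 0 0) (kc false 0 0 1 1 0) m_l_7_7_10 m_v_2,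
    pr (kc false 0 0 0 0 0) (kc false 0 0 1 1 0) m_l_1_1_10 m_v_2),
  (pr (kc false 0 0 0 0 0) (kc false 1 1 1 0 0) m_l_3_3_6 m_v_6,
    pr (kc true 0 0 0 0 0) (kc false 1 1 1 0 0) m_l_1_5_6 m_v_6),
  (pr (kc true 0 0 0 0 0) (kc false 1 3 0 0 0) m_l_2_4_6 m_v_2,
    pr (kc false 0 0 0 0 0) (kc false 1 3 0 0 0) m_l_1_2_9 m_v_2),
  (pr (kc true 0 0 0 0 0) (kc false 1 2 1 0 0) m_l_2_2_8 m_v_2,
    pr (kc false 0 0 0 0 0) (kc false 1 2 1 0 0) m_l_1_2_9 m_v_2),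
  (pr (kc false 0 0 0 0 0) (kc false 0 1 1 1 0) m_l_6_8_10 m_v_6,
    pr (kc true 0 0 0 0 0) (kc false 0 1 1 1 0) m_l_1_5_6 m_v_6),
  (pr (kc true 0 0 0 0 0) (kc false 1 0 1 1 0) m_l_2_4_6 m_v_6,
    pr (kc false 0 0 0 0 0) (kc false 1 0 1 1 0) m_l_1_5_6 m_v_6),
  (pr (kc false 0 0 0 0 0) (kc false 0 4 0 0 0) m_l_6_8_10 m_v_2,
    pr (kc true 0 0 0 0 0) (kc false 0 4 0 0 0) m_l_1_1_10 m_v_2),
  (pr (kc false 0 0 0 0 0) (kc false 0 2 0 1 0) m_l_4_10_10 m_v_2,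
    pr (kc true 0 0 0 0 0) (kc false 0 2 0 1 0) m_l_1_1_10 m_v_2),
  (pr (kc true 0 0 0 0 0) (kc false 1 1 2 0 0) (Mo.mul m_l_2_2_8 m_l_2_2_8) (Mo.mul m_v_2 m_l_2_4_6),
    pr (kc false 0 0 0 0 0) (kc false 1 1 2 0 0) (Mo.mul m_l_1_2_9 m_l_2_3_7) (Mo.mul m_v_2 m_l_2_4_6)),
  (pr (kc true 0 0 0 0 0) (kc false 1 1 2 2 0) (Mo.mul m_v_2 m_v_4) (Mo.mul m_1 m_v_6),
    pr (kc false 0 0 0 0 0) (kc false 1 1 2 2 0) (Mo.mul m_v_1 m_v_5) (Mo.mul m_1 m_v_6)),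
  (pr (kc false 0 0 0 0 0) (kc false 0 0 0 2 0) (Mo.mul m_l_4_4_4 m_l_4_10_10) (Mo.mul m_v_4 m_l_2_4_6),
    pr (kc true 0 0 0 0 0) (kc false 0 0 0 2 0) (Mo.mul m_l_1_4_7 m_l_1_4_7) (Mo.mul m_v_4 m_l_2_4_6)),
  (pr (kc false 0 0 0 0 0) (kc false 0 0 0 1 1) m_l_3_10_11 m_v_3,
    pr (kc true 0 0 0 0 0) (kc false 0 0 0 1 1) m_l_2_3_7 m_v_3),
  (pr (kc false 0 0 0 0 0) (kc false 0 2 0 0 1) m_l_6_7_11 m_v_5,
    pr (kc true 0 0 0 0 0) (kc false 0 2 0 0 1) m_l_2_3_7 m_v_5),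
  (pr (kc true 0 0 0 0 0) (kc false 1 1 1 0 0) m_l_5_9_10 m_v_2,
    pr (kc false 0 0 0 0 0) (kc false 1 1 1 0 0) m_l_3_10_11 m_v_2),
  (pr (kc false 0 0 0 0 1) (kc false 1 0 1 0 0) m_l_4_9_11 m_l_2_11_11,
    pr (kc true 0 2 0 0 0) (kc false 1 0 1 0 0) m_l_3_10_11 m_l_2_11_11),
  (pr (kc false 0 0 0 0 0) (kc false 0 0 0 0 2) m_l_6_8_10 m_v_4,
    pr (kc true 0 0 0 0 0) (kc false 0 0 0 0 2) m_l_2_2_8 m_v_4),
  (pr (kc false 0 1 0 0 0) (kc false 1 0 0 0 0) m_l_2_5_5 m_l_2_3_7,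
    pr (kc false 0 0 0 0 0) (kc false 1 0 0 0 0) m_l_2_4_6 m_l_2_3_7),
  (pr (kc false 0 0 0 1 0) (kc false 1 0 1 0 0) m_l_6_9_9 m_l_6_7_11,
    pr (kc false 0 1 0 0 0) (kc false 1 0 1 0 0) m_l_6_8_10 m_l_6_7_11),
  (pr (kc false 3 0 0 0 0) (kc false 0 0 1 1 0) m_l_3_10_11 m_l_3_3_6,
    pr (kc false 0 1 0 0 1) (kc false 0 0 1 1 0) m_l_3_4_5 m_l_3_3_6),
  (pr (kc true 2 0 0 0 0) (kc false 0 1 1 0 0) m_l_3_10_11 m_l_2_3_7,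
    pr (kc false 0 0 0 0 1) (kc false 0 1 1 0 0) m_l_3_4_5 m_l_2_3_7),
  (pr (kc true 0 0 0 0 1) (kc false 1 1 0 0 0) m_l_7_8_9 m_l_2_3_7,
    pr (kc false 0 0 2 0 0) (kc false 1 1 0 0 0) m_l_6_7_11 m_l_2_3_7),
  (pr (kc false 0 0 1 0 0) (kc false 2 0 0 0 0) m_l_6_8_10 m_l_3_10_11,
    pr (kc false 0 2 0 0 0) (kc false 2 0 0 0 0) m_l_5_9_10 m_l_3_10_11),
  (pr (kc true 0 1 1 0 0) (kc false 1 0 0 0 0) m_l_7_7_10 m_l_4_10_10,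
    pr (kc false 0 0 0 1 0) (kc false 1 0 0 0 0) m_l_5_9_10 m_l_4_10_10),
  (pr (kc false 0 0 1 1 0) (kc false 3 0 0 0 0) m_v_6 m_v_2,
    pr (kc true 0 1 0 0 1) (kc false 3 0 0 0 0) m_v_5 m_v_2),
  (pr (kc true 0 1 1 0 0) (kc false 2 0 0 0 0) m_l_6_7_11 m_l_2_11_11,
    pr (kc false 0 0 0 0 1) (kc false 2 0 0 0 0) m_l_4_9_11 m_l_2_11_11),
  (pr (kc true 0 0 2 1 0) (kc false 2 2 0 0 0) m_v_6 m_v_2,
    pr (kc false 0 0 0 0 2) (kc false 2 2 0 0 0) m_v_4 m_v_2),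
  (pr (kc false 0 0 0 0 0) (kc false 3 0 0 0 0) m_l_2_5_5 m_v_2,
    pr (kc true 0 0 0 0 0) (kc false 3 0 0 0 0) m_l_2_3_7 m_v_2),
  (pr (kc true 2 2 0 0 0) (kc false 0 0 2 1 0) m_l_4_10_10 m_l_2_4_6,
    pr (kc false 0 0 0 0 2) (kc false 0 0 2 1 0) m_l_4_4_4 m_l_2_4_6),
  (pr (kc false 2 0 0 0 0) (kc false 0 0 1 0 0) m_l_2_11_11 m_l_2_2_8,
    pr (kc true 0 2 0 0 0) (kc false 0 0 1 0 0) m_l_2_5_5 m_l_2_2_8),
  (pr (kc false 0 0 2 0 0) (kc false 1 1 0 0 0) m_l_6_7_11 m_l_3_10_11,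
    pr (kc true 0 0 0 0 1) (kc false 1 1 0 0 0) m_l_4_9_11 m_l_3_10_11),
  (pr (kc true 0 0 0 0 0) (kc false 0 0 3 0 0) m_l_6_9_9 m_v_6,
    pr (kc false 0 0 0 0 0) (kc false 0 0 3 0 0) m_l_3_3_6 m_v_6)]

include he hne in
theorem sp4 : Sols (gs12 x y T) cp4 := by
  intro p hp
  unfold cp4 at hp
  simp only [List.mem_cons, List.not_mem_nil, or_false] at hp
  rcases hp with rfl | rfl | rfl | rfl | rfl | rfl | rfl | rfl | rfl | rfl | rfl | rfl | rfl | rfl | rfl | rfl | rfl | rfl | rfl | rfl | rfl | rfl | rfl | rfl | rfl | rfl | rfl | rfl | rfl | rfl | rfl | rfl | rfl | rfl | rfl | rfl | rfl | rfl | rfl | rfl | rfl | rfl | rfl | rfl | rfl | rfl | rfl | rfl | rfl | rfl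
  · exact c150 he hne
  · exact c151 he hne
  · exact c152 he hne
  · exact c153 he hne
  · exact c154 he hne
  · exact c155 he hne
  · exact c156 he hne
  · exact c157 he hne
  · exact c158 he hne
  · exact c159 he hne
  · exact c160 he hne
  · exact c161 he hne
  · exact c162 he hne
  · exact c163 he hne
  · exact c164 he hne
  · exact c165 he hne
  · exact c166 he hne
  · exact c167 he hne
  · exact c168 he hne
  · exact c169 he hne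
  · exact c170 he hne
  · exact c171 he hne
  · exact c172 he hne
  · exact c173 he hne
  · exact c174 he hne
  · exact c175 he hne
  · exact c176 he hne
  · exact c177 he hne
  · exact c178 he hne
  · exact c179 he hne
  · exact c180 he hne
  · exact c181 he hne
  · exact c182 he hne
  · exact c183 he hne
  · exact c184 he hne
  · exact c185 he hne
  · exact c186 he hne
  · exact c187 he hne
  · exact c188 he hne
  · exact c189 he hne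
  · exact c190 he hne
  · exact c191 he hne
  · exact c192 he hne
  · exact c193 he hne
  · exact c194 he hne
  · exact c195 he hne
  · exact c196 he hne
  · exact c197 he hne
  · exact c198 he hne
  · exact c199 he hne

end Pool.Agent.UE12C
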