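import Pool.Agent.Lib_helper7.N12.L

/-!
# The solutions of the unit equation for a point of order twelve, part 5
-/

set_option autoImplicit false
set_option linter.unusedSectionVars false
set_option linter.unusedSimpArgs false
set_option maxRecDepth 100000

namespace Pool.Agent.UE12C

open Pool.Agent.KC72

variable {F : Type*} [Field F] {x y T : F} (he : HE12 x y T) (hne : ∀ z ∈ gs12 x y T, z ≠ 0)

include he hne in
lemma c200 : ev (gs12 x y T) (pr (kc false 0 0 0 1 0) (kc false 1 0 0 0 0) m_l_6_9_9 m_l_2_4_6) +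
    ev (gs12 x y T) (pr (kc true 0 1 1 0 0) (kc false 1 0 0 0 0) m_l_6_7_11 m_l_2_4_6) = 1 := by
  refine cls3 hne (e_l_6_9_9 he hne) (e_l_6_7_11 he hne) (e_l_2_4_6 he hne) _ _ _ _ _ _ _ _ _ _ _ _ _ _ _ _ _ ?_
  simp only [kv, cond_true, cond_false]
  ring

include he hne in
lemma c201 : ev (gs12 x y T) (pr (kc false 0 0 0 0 1) (kc false 2 0 0 0 0) m_l_7_8_9 m_l_2_2_8) +
    ev (gs12 x y T) (pr (kc true 0 1 1 0 0) (kc false 2 0 0 0 0) m_l_6_8_10 m_l_2_2_8) = 1 := by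
  refine cls3 hne (e_l_7_8_9 he hne) (e_l_6_8_10 he hne) (e_l_2_2_8 he hne) _ _ _ _ _ _ _ _ _ _ _ _ _ _ _ _ _ ?_
  simp only [kv, cond_true, cond_false]
  ring

include he hne in
lemma c202 : ev (gs12 x y T) (pr (kc false 0 0 0 0 0) (kc false 3 1 0 0 0) m_l_6_8_10 m_v_2) +
    ev (gs12 x y T) (pr (kc true 0 0 0 0 0) (kc false 3 1 0 0 0) m_l_5_9_10 m_v_2) = 1 := by
  refine cls3 hne (e_l_6_8_10 he hne) (e_l_5_9_10 he hne) e_v_2 _ _ _ _ _ _ _ _ _ _ _ _ _ _ _ _ _ ?_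
  simp only [kv, cond_true, cond_false]
  ring

include he hne in
lemma c203 : ev (gs12 x y T) (pr (kc false 0 0 0 0 0) (kc false 4 0 0 0 0) m_l_2_5_5 m_v_2) +
    ev (gs12 x y T) (pr (kc true 0 0 0 0 0) (kc false 4 0 0 0 0) m_l_2_4_6 m_v_2) = 1 := by
  refine cls3 hne (e_l_2_5_5 he hne) (e_l_2_4_6 he hne) e_v_2 _ _ _ _ _ _ _ _ _ _ _ _ _ _ _ _ _ ?_
  simp only [kv, cond_true, cond_false]
  ring

include he hne in
lemma c204 : ev (gs12 x y T) (pr (kc false 0 0 0 1 0) (kc false 2 0 0 0 0) m_l_6_9_9 m_l_2_4_6) +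
    ev (gs12 x y T) (pr (kc true 0 2 0 0 0) (kc false 2 0 0 0 0) m_l_6_8_10 m_l_2_4_6) = 1 := by
  refine cls3 hne (e_l_6_9_9 he hne) (e_l_6_8_10 he hne) (e_l_2_4_6 he hne) _ _ _ _ _ _ _ _ _ _ _ _ _ _ _ _ _ ?_
  simp only [kv, cond_true, cond_false]
  ring

include he hne in
lemma c205 : ev (gs12 x y T) (pr (kc false 0 0 1 1 0) (kc false 3 0 0 0 0) m_l_6_7_11 m_l_2_11_11) +
    ev (gs12 x y T) (pr (kc true 0 1 0 0 1) (kc false 3 0 0 0 0) m_l_5_8_11 m_l_2_11_11) = 1 := by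
  refine cls3 hne (e_l_6_7_11 he hne) (e_l_5_8_11 he hne) (e_l_2_11_11 he hne) _ _ _ _ _ _ _ _ _ _ _ _ _ _ _ _ _ ?_
  simp only [kv, cond_true, cond_false]
  ring

include he hne in
lemma c206 : ev (gs12 x y T) (pr (kc true 0 1 1 0 0) (kc false 2 0 0 0 0) m_l_7_7_10 m_l_3_10_11) +
    ev (gs12 x y T) (pr (kc false 0 0 0 0 1) (kc false 2 0 0 0 0) m_l_5_9_10 m_l_3_10_11) = 1 := by
  refine cls3 hne (e_l_7_7_10 he hne) (e_l_5_9_10 he hne) (e_l_3_10_11 he hne) _ _ _ _ _ _ _ _ _ _ _ _ _ _ _ _ _ ?_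
  simp only [kv, cond_true, cond_false]
  ring

include he hne in
lemma c207 : ev (gs12 x y T) (pr (kc false 0 0 0 0 0) (kc false 0 2 0 0 1) m_l_3_10_11 m_v_3) +
    ev (gs12 x y T) (pr (kc true 0 0 0 0 0) (kc false 0 2 0 0 1) m_l_3_3_6 m_v_3) = 1 := by
  refine cls3 hne (e_l_3_10_11 he hne) (e_l_3_3_6 he hne) e_v_3 _ _ _ _ _ _ _ _ _ _ _ _ _ _ _ _ _ ?_
  simp only [kv, cond_true, cond_false]
  ring

include he hne in
lemma c208 : ev (gs12 x y T) (pr (kc true 2 0 0 0 0) (kc false 0 1 1 0 0) m_l_4_10_10 m_l_2_4_6) +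
    ev (gs12 x y T) (pr (kc false 0 0 0 0 1) (kc false 0 1 1 0 0) m_l_3_4_5 m_l_2_4_6) = 1 := by
  refine cls3 hne (e_l_4_10_10 he hne) (e_l_3_4_5 he hne) (e_l_2_4_6 he hne) _ _ _ _ _ _ _ _ _ _ _ _ _ _ _ _ _ ?_
  simp only [kv, cond_true, cond_false]
  ring

include he hne in
lemma c209 : ev (gs12 x y T) (pr (kc false 0 0 0 0 0) (kc false 0 0 0 0 2) m_l_4_10_10 m_v_4) +
    ev (gs12 x y T) (pr (kc true 0 0 0 0 0) (kc false 0 0 0 0 2) m_l_2_4_6 m_v_4) = 1 := by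
  refine cls3 hne (e_l_4_10_10 he hne) (e_l_2_4_6 he hne) e_v_4 _ _ _ _ _ _ _ _ _ _ _ _ _ _ _ _ _ ?_
  simp only [kv, cond_true, cond_false]
  ring

include he hne in
lemma c210 : ev (gs12 x y T) (pr (kc false 0 0 0 0 0) (kc false 2 0 0 0 1) m_l_3_3_6 m_v_3) +
    ev (gs12 x y T) (pr (kc true 0 0 0 0 0) (kc false 2 0 0 0 1) m_l_2_3_7 m_v_3) = 1 := by
  refine cls3 hne (e_l_3_3_6 he hne) (e_l_2_3_7 he hne) e_v_3 _ _ _ _ _ _ _ _ _ _ _ _ _ _ _ _ _ ?_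
  simp only [kv, cond_true, cond_false]
  ring

include he hne in
lemma c211 : ev (gs12 x y T) (pr (kc true 0 0 0 0 0) (kc false 3 0 0 0 0) m_l_7_7_10 m_v_2) +
    ev (gs12 x y T) (pr (kc false 0 0 0 0 0) (kc false 3 0 0 0 0) m_l_5_9_10 m_v_2) = 1 := by
  refine cls3 hne (e_l_7_7_10 he hne) (e_l_5_9_10 he hne) e_v_2 _ _ _ _ _ _ _ _ _ _ _ _ _ _ _ _ _ ?_
  simp only [kv, cond_true, cond_false]
  ring

include he hne in
lemma c212 : ev (gs12 x y T) (pr (kc true 0 1 1 0 0) (kc false 1 0 0 0 0) m_l_2_5_5 m_l_2_2_8) +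
    ev (gs12 x y T) (pr (kc false 0 0 0 1 0) (kc false 1 0 0 0 0) m_l_2_3_7 m_l_2_2_8) = 1 := by
  refine cls3 hne (e_l_2_5_5 he hne) (e_l_2_3_7 he hne) (e_l_2_2_8 he hne) _ _ _ _ _ _ _ _ _ _ _ _ _ _ _ _ _ ?_
  simp only [kv, cond_true, cond_false]
  ring

include he hne in
lemma c213 : ev (gs12 x y T) (pr (kc false 0 0 0 0 1) (kc false 1 0 1 0 0) m_l_7_8_9 m_l_6_7_11) +
    ev (gs12 x y T) (pr (kc true 0 2 0 0 0) (kc false 1 0 1 0 0) m_l_7_7_10 m_l_6_7_11) = 1 := by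
  refine cls3 hne (e_l_7_8_9 he hne) (e_l_7_7_10 he hne) (e_l_6_7_11 he hne) _ _ _ _ _ _ _ _ _ _ _ _ _ _ _ _ _ ?_
  simp only [kv, cond_true, cond_false]
  ring

include he hne in
lemma c214 : ev (gs12 x y T) (pr (kc false 0 0 0 0 1) (kc false 1 1 0 0 0) m_l_5_8_11 m_l_2_11_11) +
    ev (gs12 x y T) (pr (kc true 0 0 0 1 0) (kc false 1 1 0 0 0) m_l_3_10_11 m_l_2_11_11) = 1 := by
  refine cls3 hne (e_l_5_8_11 he hne) (e_l_3_10_11 he hne) (e_l_2_11_11 he hne) _ _ _ _ _ _ _ _ _ _ _ _ _ _ _ _ _ ?_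
  simp only [kv, cond_true, cond_false]
  ring

include he hne in
lemma c215 : ev (gs12 x y T) (pr (kc false 0 1 0 0 0) (kc false 1 0 0 0 0) m_l_5_9_10 m_l_3_10_11) +
    ev (gs12 x y T) (pr (kc false 0 0 0 0 0) (kc false 1 0 0 0 0) m_l_4_10_10 m_l_3_10_11) = 1 := by
  refine cls3 hne (e_l_5_9_10 he hne) (e_l_4_10_10 he hne) (e_l_3_10_11 he hne) _ _ _ _ _ _ _ _ _ _ _ _ _ _ _ _ _ ?_
  simp only [kv, cond_true, cond_false]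
  ring

include he hne in
lemma c216 : ev (gs12 x y T) (pr (kc true 0 0 0 1 0) (kc false 1 1 0 0 0) m_l_6_8_10 m_l_2_2_8) +
    ev (gs12 x y T) (pr (kc false 0 0 0 0 1) (kc false 1 1 0 0 0) m_l_5_8_11 m_l_2_2_8) = 1 := by
  refine cls3 hne (e_l_6_8_10 he hne) (e_l_5_8_11 he hne) (e_l_2_2_8 he hne) _ _ _ _ _ _ _ _ _ _ _ _ _ _ _ _ _ ?_
  simp only [kv, cond_true, cond_false]
  ring

include he hne in
lemma c217 : ev (gs12 x y T) (pr (kc false 0 0 0 0 0) (kc false 1 1 0 0 1) m_l_7_7_10 m_v_5) +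
    ev (gs12 x y T) (pr (kc true 0 0 0 0 0) (kc false 1 1 0 0 1) m_l_6_7_11 m_v_5) = 1 := by
  refine cls3 hne (e_l_7_7_10 he hne) (e_l_6_7_11 he hne) e_v_5 _ _ _ _ _ _ _ _ _ _ _ _ _ _ _ _ _ ?_
  simp only [kv, cond_true, cond_false]
  ring

include he hne in
lemma c218 : ev (gs12 x y T) (pr (kc false 4 0 0 0 0) (kc false 0 0 1 1 0) m_l_2_11_11 m_l_2_4_6) +
    ev (gs12 x y T) (pr (kc true 0 4 0 0 0) (kc false 0 0 1 1 0) m_l_2_5_5 m_l_2_4_6) = 1 := by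
  refine cls3 hne (e_l_2_11_11 he hne) (e_l_2_5_5 he hne) (e_l_2_4_6 he hne) _ _ _ _ _ _ _ _ _ _ _ _ _ _ _ _ _ ?_
  simp only [kv, cond_true, cond_false]
  ring

include he hne in
lemma c219 : ev (gs12 x y T) (pr (kc false 3 0 0 0 0) (kc false 0 0 1 1 0) m_l_2_11_11 m_l_2_3_7) +
    ev (gs12 x y T) (pr (kc false 0 1 0 0 1) (kc false 0 0 1 1 0) m_l_2_5_5 m_l_2_3_7) = 1 := by
  refine cls3 hne (e_l_2_11_11 he hne) (e_l_2_5_5 he hne) (e_l_2_3_7 he hne) _ _ _ _ _ _ _ _ _ _ _ _ _ _ _ _ _ ?_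
  simp only [kv, cond_true, cond_false]
  ring

include he hne in
lemma c220 : ev (gs12 x y T) (pr (kc false 0 0 0 0 1) (kc false 2 0 0 0 0) m_l_7_8_9 m_l_2_3_7) +
    ev (gs12 x y T) (pr (kc true 0 1 1 0 0) (kc false 2 0 0 0 0) m_l_7_7_10 m_l_2_3_7) = 1 := by
  refine cls3 hne (e_l_7_8_9 he hne) (e_l_7_7_10 he hne) (e_l_2_3_7 he hne) _ _ _ _ _ _ _ _ _ _ _ _ _ _ _ _ _ ?_
  simp only [kv, cond_true, cond_false]
  ring

include he hne in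
lemma c221 : ev (gs12 x y T) (pr (kc false 0 0 0 0 2) (kc false 2 2 0 0 0) m_l_8_8_8 m_l_2_2_8) +
    ev (gs12 x y T) (pr (kc true 0 0 2 1 0) (kc false 2 2 0 0 0) m_l_6_8_10 m_l_2_2_8) = 1 := by
  refine cls3 hne (e_l_8_8_8 he hne) (e_l_6_8_10 he hne) (e_l_2_2_8 he hne) _ _ _ _ _ _ _ _ _ _ _ _ _ _ _ _ _ ?_
  simp only [kv, cond_true, cond_false]
  ring

include he hne in
lemma c222 : ev (gs12 x y T) (pr (kc true 0 0 0 0 1) (kc false 1 1 0 0 0) m_l_6_9_9 m_l_3_3_6) +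
    ev (gs12 x y T) (pr (kc false 0 0 2 0 0) (kc false 1 1 0 0 0) m_l_6_7_11 m_l_3_3_6) = 1 := by
  refine cls3 hne (e_l_6_9_9 he hne) (e_l_6_7_11 he hne) (e_l_3_3_6 he hne) _ _ _ _ _ _ _ _ _ _ _ _ _ _ _ _ _ ?_
  simp only [kv, cond_true, cond_false]
  ring

include he hne in
lemma c223 : ev (gs12 x y T) (pr (kc false 0 1 0 0 0) (kc false 1 0 0 0 0) m_l_7_7_10 m_l_5_9_10) +
    ev (gs12 x y T) (pr (kc false 0 0 0 0 0) (kc false 1 0 0 0 0) m_l_6_8_10 m_l_5_9_10) = 1 := by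
  refine cls3 hne (e_l_7_7_10 he hne) (e_l_6_8_10 he hne) (e_l_5_9_10 he hne) _ _ _ _ _ _ _ _ _ _ _ _ _ _ _ _ _ ?_
  simp only [kv, cond_true, cond_false]
  ring

include he hne in
lemma c224 : ev (gs12 x y T) (pr (kc true 0 2 0 0 0) (kc false 1 0 1 0 0) m_l_4_10_10 m_l_2_4_6) +
    ev (gs12 x y T) (pr (kc false 0 0 0 0 1) (kc false 1 0 1 0 0) m_l_4_9_11 m_l_2_4_6) = 1 := by
  refine cls3 hne (e_l_4_10_10 he hne) (e_l_4_9_11 he hne) (e_l_2_4_6 he hne) _ _ _ _ _ _ _ _ _ _ _ _ _ _ _ _ _ ?_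
  simp only [kv, cond_true, cond_false]
  ring

include he hne in
lemma c225 : ev (gs12 x y T) (pr (kc false 0 2 0 0 0) (kc false 2 0 0 0 0) m_l_6_9_9 m_l_3_3_6) +
    ev (gs12 x y T) (pr (kc false 0 0 1 0 0) (kc false 2 0 0 0 0) m_l_6_8_10 m_l_3_3_6) = 1 := by
  refine cls3 hne (e_l_6_9_9 he hne) (e_l_6_8_10 he hne) (e_l_3_3_6 he hne) _ _ _ _ _ _ _ _ _ _ _ _ _ _ _ _ _ ?_
  simp only [kv, cond_true, cond_false]
  ring

include he hne in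
lemma c226 : ev (gs12 x y T) (pr (kc true 0 0 0 0 0) (kc false 1 1 1 0 0) m_l_6_9_9 m_v_6) +
    ev (gs12 x y T) (pr (kc false 0 0 0 0 0) (kc false 1 1 1 0 0) m_l_6_7_11 m_v_6) = 1 := by
  refine cls3 hne (e_l_6_9_9 he hne) (e_l_6_7_11 he hne) e_v_6 _ _ _ _ _ _ _ _ _ _ _ _ _ _ _ _ _ ?_
  simp only [kv, cond_true, cond_false]
  ring

include he hne in
lemma c227 : ev (gs12 x y T) (pr (kc false 0 0 2 0 0) (kc false 1 1 0 0 0) m_v_6 m_v_2) +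
    ev (gs12 x y T) (pr (kc true 0 0 0 0 1) (kc false 1 1 0 0 0) m_v_3 m_v_2) = 1 := by
  refine cls3 hne e_v_6 e_v_3 e_v_2 _ _ _ _ _ _ _ _ _ _ _ _ _ _ _ _ _ ?_
  simp only [kv, cond_true, cond_false]
  ring

include he hne in
lemma c228 : ev (gs12 x y T) (pr (kc false 0 0 0 0 0) (kc false 2 2 0 0 2) m_v_6 m_1) +
    ev (gs12 x y T) (pr (kc true 0 0 0 0 0) (kc false 2 2 0 0 2) m_v_2 m_1) = 1 := by
  refine cls3 hne e_v_6 e_v_2 e_1 _ _ _ _ _ _ _ _ _ _ _ _ _ _ _ _ _ ?_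
  simp only [kv, cond_true, cond_false]
  ring

include he hne in
lemma c229 : ev (gs12 x y T) (pr (kc true 0 0 0 0 0) (kc false 2 1 1 0 0) m_l_5_9_10 m_v_2) +
    ev (gs12 x y T) (pr (kc false 0 0 0 0 0) (kc false 2 1 1 0 0) m_l_4_10_10 m_v_2) = 1 := by
  refine cls3 hne (e_l_5_9_10 he hne) (e_l_4_10_10 he hne) e_v_2 _ _ _ _ _ _ _ _ _ _ _ _ _ _ _ _ _ ?_
  simp only [kv, cond_true, cond_false]
  ring

include he hne in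
lemma c230 : ev (gs12 x y T) (pr (kc false 0 0 1 0 0) (kc false 1 0 0 0 0) m_l_6_8_10 m_l_4_10_10) +
    ev (gs12 x y T) (pr (kc true 0 1 0 0 0) (kc false 1 0 0 0 0) m_l_5_9_10 m_l_4_10_10) = 1 := by
  refine cls3 hne (e_l_6_8_10 he hne) (e_l_5_9_10 he hne) (e_l_4_10_10 he hne) _ _ _ _ _ _ _ _ _ _ _ _ _ _ _ _ _ ?_
  simp only [kv, cond_true, cond_false]
  ring

include he hne in
lemma c231 : ev (gs12 x y T) (pr (kc false 0 0 0 0 0) (kc false 2 0 0 1 0) m_l_2_5_5 m_v_2) +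
    ev (gs12 x y T) (pr (kc true 0 0 0 0 0) (kc false 2 0 0 1 0) m_l_2_2_8 m_v_2) = 1 := by
  refine cls3 hne (e_l_2_5_5 he hne) (e_l_2_2_8 he hne) e_v_2 _ _ _ _ _ _ _ _ _ _ _ _ _ _ _ _ _ ?_
  simp only [kv, cond_true, cond_false]
  ring

include he hne in
lemma c232 : ev (gs12 x y T) (pr (kc false 2 0 0 0 0) (kc false 0 0 1 0 0) m_l_6_9_9 m_l_2_4_6) +
    ev (gs12 x y T) (pr (kc true 0 2 0 0 0) (kc false 0 0 1 0 0) m_l_3_3_6 m_l_2_4_6) = 1 := by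
  refine cls3 hne (e_l_6_9_9 he hne) (e_l_3_3_6 he hne) (e_l_2_4_6 he hne) _ _ _ _ _ _ _ _ _ _ _ _ _ _ _ _ _ ?_
  simp only [kv, cond_true, cond_false]
  ring

include he hne in
lemma c233 : ev (gs12 x y T) (pr (kc true 0 2 0 0 0) (kc false 2 0 0 0 0) m_l_2_5_5 m_l_2_2_8) +
    ev (gs12 x y T) (pr (kc false 0 0 0 1 0) (kc false 2 0 0 0 0) m_l_2_4_6 m_l_2_2_8) = 1 := by
  refine cls3 hne (e_l_2_5_5 he hne) (e_l_2_4_6 he hne) (e_l_2_2_8 he hne) _ _ _ _ _ _ _ _ _ _ _ _ _ _ _ _ _ ?_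
  simp only [kv, cond_true, cond_false]
  ring

include he hne in
lemma c234 : ev (gs12 x y T) (pr (kc true 0 0 0 0 0) (kc false 0 0 1 1 0) m_l_2_11_11 m_v_2) +
    ev (gs12 x y T) (pr (kc false 0 0 0 0 0) (kc false 0 0 1 1 0) m_l_2_5_5 m_v_2) = 1 := by
  refine cls3 hne (e_l_2_11_11 he hne) (e_l_2_5_5 he hne) e_v_2 _ _ _ _ _ _ _ _ _ _ _ _ _ _ _ _ _ ?_
  simp only [kv, cond_true, cond_false]
  ring

include he hne in
lemma c235 : ev (gs12 x y T) (pr (kc true 0 0 0 0 0) (kc false 2 0 2 0 0) m_l_6_9_9 m_v_6) +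
    ev (gs12 x y T) (pr (kc false 0 0 0 0 0) (kc false 2 0 2 0 0) m_l_6_8_10 m_v_6) = 1 := by
  refine cls3 hne (e_l_6_9_9 he hne) (e_l_6_8_10 he hne) e_v_6 _ _ _ _ _ _ _ _ _ _ _ _ _ _ _ _ _ ?_
  simp only [kv, cond_true, cond_false]
  ring

include he hne in
lemma c236 : ev (gs12 x y T) (pr (kc false 0 0 0 0 0) (kc false 0 2 2 0 0) m_l_6_9_9 m_v_6) +
    ev (gs12 x y T) (pr (kc true 0 0 0 0 0) (kc false 0 2 2 0 0) m_l_2_4_6 m_v_6) = 1 := by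
  refine cls3 hne (e_l_6_9_9 he hne) (e_l_2_4_6 he hne) e_v_6 _ _ _ _ _ _ _ _ _ _ _ _ _ _ _ _ _ ?_
  simp only [kv, cond_true, cond_false]
  ring

include he hne in
lemma c237 : ev (gs12 x y T) (pr (kc false 0 0 0 0 0) (kc false 1 1 2 0 0) (Mo.mul m_l_4_4_4 m_l_4_10_10) (Mo.mul m_v_4 m_l_2_4_6)) +
    ev (gs12 x y T) (pr (kc true 0 0 0 0 0) (kc false 1 1 2 0 0) (Mo.mul m_l_3_4_5 m_l_4_9_11) (Mo.mul m_v_4 m_l_2_4_6)) = 1 := by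
  refine cls3 hne (mul2 hne (e_l_4_4_4 he hne) (e_l_4_10_10 he hne)) (mul2 hne (e_l_3_4_5 he hne) (e_l_4_9_11 he hne)) (mul2 hne e_v_4 (e_l_2_4_6 he hne)) _ _ _ _ _ _ _ _ _ _ _ _ _ _ _ _ _ ?_
  simp only [kv, cond_true, cond_false]
  ring

include he hne in
lemma c238 : ev (gs12 x y T) (pr (kc false 0 0 0 0 0) (kc false 0 0 0 2 0) (Mo.mul m_l_2_5_5 m_l_2_11_11) (Mo.mul m_v_2 m_l_2_4_6)) +
    ev (gs12 x y T) (pr (kc true 0 0 0 0 0) (kc false 0 0 0 2 0) (Mo.mul m_l_2_2_8 m_l_2_2_8) (Mo.mul m_v_2 m_l_2_4_6)) = 1 := by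
  refine cls3 hne (mul2 hne (e_l_2_5_5 he hne) (e_l_2_11_11 he hne)) (mul2 hne (e_l_2_2_8 he hne) (e_l_2_2_8 he hne)) (mul2 hne e_v_2 (e_l_2_4_6 he hne)) _ _ _ _ _ _ _ _ _ _ _ _ _ _ _ _ _ ?_
  simp only [kv, cond_true, cond_false]
  ring

include he hne in
lemma c239 : ev (gs12 x y T) (pr (kc false 0 0 0 0 0) (kc false 2 2 4 0 0) (Mo.mul m_v_3 m_v_3) (Mo.mul m_1 m_v_6)) +
    ev (gs12 x y T) (pr (kc true 0 0 0 0 0) (kc false 2 2 4 0 0) (Mo.mul m_v_2 m_v_4) (Mo.mul m_1 m_v_6)) = 1 := by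
  refine cls3 hne (mul2 hne e_v_3 e_v_3) (mul2 hne e_v_2 e_v_4) (mul2 hne e_1 e_v_6) _ _ _ _ _ _ _ _ _ _ _ _ _ _ _ _ _ ?_
  simp only [kv, cond_true, cond_false]
  ring

include he hne in
lemma c240 : ev (gs12 x y T) (pr (kc false 0 0 1 0 0) (kc false 2 0 0 0 0) m_v_6 m_v_1) +
    ev (gs12 x y T) (pr (kc false 0 2 0 0 0) (kc false 2 0 0 0 0) m_v_3 m_v_1) = 1 := by
  refine cls3 hne e_v_6 e_v_3 e_v_1 _ _ _ _ _ _ _ _ _ _ _ _ _ _ _ _ _ ?_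
  simp only [kv, cond_true, cond_false]
  ring

include he hne in
lemma c241 : ev (gs12 x y T) (pr (kc false 0 0 0 0 0) (kc false 1 2 1 0 0) m_l_4_9_11 m_v_1) +
    ev (gs12 x y T) (pr (kc true 0 0 0 0 0) (kc false 1 2 1 0 0) m_l_2_11_11 m_v_1) = 1 := by
  refine cls3 hne (e_l_4_9_11 he hne) (e_l_2_11_11 he hne) e_v_1 _ _ _ _ _ _ _ _ _ _ _ _ _ _ _ _ _ ?_
  simp only [kv, cond_true, cond_false]
  ring

include he hne in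
lemma c242 : ev (gs12 x y T) (pr (kc false 0 0 0 1 0) (kc false 1 0 1 0 0) m_v_3 m_v_1) +
    ev (gs12 x y T) (pr (kc false 0 1 0 0 0) (kc false 1 0 1 0 0) m_v_2 m_v_1) = 1 := by
  refine cls3 hne e_v_3 e_v_2 e_v_1 _ _ _ _ _ _ _ _ _ _ _ _ _ _ _ _ _ ?_
  simp only [kv, cond_true, cond_false]
  ring

include he hne in
lemma c243 : ev (gs12 x y T) (pr (kc true 0 1 0 0 0) (kc false 1 0 0 0 0) m_l_7_8_9 m_l_1_4_7) +
    ev (gs12 x y T) (pr (kc false 0 0 1 0 0) (kc false 1 0 0 0 0) m_l_6_7_11 m_l_1_4_7) = 1 := by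
  refine cls3 hne (e_l_7_8_9 he hne) (e_l_6_7_11 he hne) e_l_1_4_7 _ _ _ _ _ _ _ _ _ _ _ _ _ _ _ _ _ ?_
  simp only [kv, cond_true, cond_false]
  ring

include he hne in
lemma c244 : ev (gs12 x y T) (pr (kc false 0 2 0 0 0) (kc false 2 0 0 0 0) m_l_7_8_9 m_l_1_3_8) +
    ev (gs12 x y T) (pr (kc false 0 0 1 0 0) (kc false 2 0 0 0 0) m_l_6_8_10 m_l_1_3_8) = 1 := by
  refine cls3 hne (e_l_7_8_9 he hne) (e_l_6_8_10 he hne) e_l_1_3_8 _ _ _ _ _ _ _ _ _ _ _ _ _ _ _ _ _ ?_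
  simp only [kv, cond_true, cond_false]
  ring

include he hne in
lemma c245 : ev (gs12 x y T) (pr (kc false 0 1 0 0 0) (kc false 1 0 1 0 0) m_l_4_10_10 m_l_1_4_7) +
    ev (gs12 x y T) (pr (kc false 0 0 0 1 0) (kc false 1 0 1 0 0) m_l_4_9_11 m_l_1_4_7) = 1 := by
  refine cls3 hne (e_l_4_10_10 he hne) (e_l_4_9_11 he hne) e_l_1_4_7 _ _ _ _ _ _ _ _ _ _ _ _ _ _ _ _ _ ?_
  simp only [kv, cond_true, cond_false]
  ring

include he hne in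
lemma c246 : ev (gs12 x y T) (pr (kc true 0 0 0 0 0) (kc false 1 0 1 1 0) m_l_2_3_7 m_v_3) +
    ev (gs12 x y T) (pr (kc false 0 0 0 0 0) (kc false 1 0 1 1 0) m_l_1_3_8 m_v_3) = 1 := by
  refine cls3 hne (e_l_2_3_7 he hne) e_l_1_3_8 e_v_3 _ _ _ _ _ _ _ _ _ _ _ _ _ _ _ _ _ ?_
  simp only [kv, cond_true, cond_false]
  ring

include he hne in
lemma c247 : ev (gs12 x y T) (pr (kc true 0 0 0 0 0) (kc false 1 3 0 0 0) m_l_3_3_6 m_v_3) +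
    ev (gs12 x y T) (pr (kc false 0 0 0 0 0) (kc false 1 3 0 0 0) m_l_1_3_8 m_v_3) = 1 := by
  refine cls3 hne (e_l_3_3_6 he hne) e_l_1_3_8 e_v_3 _ _ _ _ _ _ _ _ _ _ _ _ _ _ _ _ _ ?_
  simp only [kv, cond_true, cond_false]
  ring

include he hne in
lemma c248 : ev (gs12 x y T) (pr (kc false 1 0 0 0 0) (kc false 0 0 1 0 0) m_l_7_8_9 m_l_1_4_7) +
    ev (gs12 x y T) (pr (kc false 0 1 0 0 0) (kc false 0 0 1 0 0) m_l_2_3_7 m_l_1_4_7) = 1 := by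
  refine cls3 hne (e_l_7_8_9 he hne) (e_l_2_3_7 he hne) e_l_1_4_7 _ _ _ _ _ _ _ _ _ _ _ _ _ _ _ _ _ ?_
  simp only [kv, cond_true, cond_false]
  ring

include he hne in
lemma c249 : ev (gs12 x y T) (pr (kc false 0 0 0 0 0) (kc false 3 1 0 0 0) m_l_6_7_11 m_v_1) +
    ev (gs12 x y T) (pr (kc true 0 0 0 0 0) (kc false 3 1 0 0 0) m_l_4_9_11 m_v_1) = 1 := by
  refine cls3 hne (e_l_6_7_11 he hne) (e_l_4_9_11 he hne) e_v_1 _ _ _ _ _ _ _ _ _ _ _ _ _ _ _ _ _ ?_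
  simp only [kv, cond_true, cond_false]
  ring

/-- part 5 of the list -/
def cp5 : List (Mo × Mo) := [
  (pr (kc false 0 0 0 1 0) (kc false 1 0 0 0 0) m_l_6_9_9 m_l_2_4_6,
    pr (kc true 0 1 1 0 0) (kc false 1 0 0 0 0) m_l_6_7_11 m_l_2_4_6),
  (pr (kc false 0 0 0 0 1) (kc false 2 0 0 0 0) m_l_7_8_9 m_l_2_2_8,
    pr (kc true 0 1 1 0 0) (kc false 2 0 0 0 0) m_l_6_8_10 m_l_2_2_8),
  (pr (kc false 0 0 0 0 0) (kc false 3 1 0 0 0) m_l_6_8_10 m_v_2,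
    pr (kc true 0 0 0 0 0) (kc false 3 1 0 0 0) m_l_5_9_10 m_v_2),
  (pr (kc false 0 0 0 0 0) (kc false 4 0 0 0 0) m_l_2_5_5 m_v_2,
    pr (kc true 0 0 0 0 0) (kc false 4 0 0 0 0) m_l_2_4_6 m_v_2),
  (pr (kc false 0 0 0 1 0) (kc false 2 0 0 0 0) m_l_6_9_9 m_l_2_4_6,
    pr (kc true 0 2 0 0 0) (kc false 2 0 0 0 0) m_l_6_8_10 m_l_2_4_6),
  (pr (kc false 0 0 1 1 0) (kc false 3 0 0 0 0) m_l_6_7_11 m_l_2_11_11,
    pr (kc true 0 1 0 0 1) (kc false 3 0 0 0 0) m_l_5_8_11 m_l_2_11_11),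
  (pr (kc true 0 1 1 0 0) (kc false 2 0 0 0 0) m_l_7_7_10 m_l_3_10_11,
    pr (kc false 0 0 0 0 1) (kc false 2 0 0 0 0) m_l_5_9_10 m_l_3_10_11),
  (pr (kc false 0 0 0 0 0) (kc false 0 2 0 0 1) m_l_3_10_11 m_v_3,
    pr (kc true 0 0 0 0 0) (kc false 0 2 0 0 1) m_l_3_3_6 m_v_3),
  (pr (kc true 2 0 0 0 0) (kc false 0 1 1 0 0) m_l_4_10_10 m_l_2_4_6,
    pr (kc false 0 0 0 0 1) (kc false 0 1 1 0 0) m_l_3_4_5 m_l_2_4_6),
  (pr (kc false 0 0 0 0 0) (kc false 0 0 0 0 2) m_l_4_10_10 m_v_4,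
    pr (kc true 0 0 0 0 0) (kc false 0 0 0 0 2) m_l_2_4_6 m_v_4),
  (pr (kc false 0 0 0 0 0) (kc false 2 0 0 0 1) m_l_3_3_6 m_v_3,
    pr (kc true 0 0 0 0 0) (kc false 2 0 0 0 1) m_l_2_3_7 m_v_3),
  (pr (kc true 0 0 0 0 0) (kc false 3 0 0 0 0) m_l_7_7_10 m_v_2,
    pr (kc false 0 0 0 0 0) (kc false 3 0 0 0 0) m_l_5_9_10 m_v_2),
  (pr (kc true 0 1 1 0 0) (kc false 1 0 0 0 0) m_l_2_5_5 m_l_2_2_8,
    pr (kc false 0 0 0 1 0) (kc false 1 0 0 0 0) m_l_2_3_7 m_l_2_2_8),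
  (pr (kc false 0 0 0 0 1) (kc false 1 0 1 0 0) m_l_7_8_9 m_l_6_7_11,
    pr (kc true 0 2 0 0 0) (kc false 1 0 1 0 0) m_l_7_7_10 m_l_6_7_11),
  (pr (kc false 0 0 0 0 1) (kc false 1 1 0 0 0) m_l_5_8_11 m_l_2_11_11,
    pr (kc true 0 0 0 1 0) (kc false 1 1 0 0 0) m_l_3_10_11 m_l_2_11_11),
  (pr (kc false 0 1 0 0 0) (kc false 1 0 0 0 0) m_l_5_9_10 m_l_3_10_11,
    pr (kc false 0 0 0 0 0) (kc false 1 0 0 0 0) m_l_4_10_10 m_l_3_10_11),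
  (pr (kc true 0 0 0 1 0) (kc false 1 1 0 0 0) m_l_6_8_10 m_l_2_2_8,
    pr (kc false 0 0 0 0 1) (kc false 1 1 0 0 0) m_l_5_8_11 m_l_2_2_8),
  (pr (kc false 0 0 0 0 0) (kc false 1 1 0 0 1) m_l_7_7_10 m_v_5,
    pr (kc true 0 0 0 0 0) (kc false 1 1 0 0 1) m_l_6_7_11 m_v_5),
  (pr (kc false 4 0 0 0 0) (kc false 0 0 1 1 0) m_l_2_11_11 m_l_2_4_6,
    pr (kc true 0 4 0 0 0) (kc false 0 0 1 1 0) m_l_2_5_5 m_l_2_4_6),
  (pr (kc false 3 0 0 0 0) (kc false 0 0 1 1 0) m_l_2_11_11 m_l_2_3_7,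
    pr (kc false 0 1 0 0 1) (kc false 0 0 1 1 0) m_l_2_5_5 m_l_2_3_7),
  (pr (kc false 0 0 0 0 1) (kc false 2 0 0 0 0) m_l_7_8_9 m_l_2_3_7,
    pr (kc true 0 1 1 0 0) (kc false 2 0 0 0 0) m_l_7_7_10 m_l_2_3_7),
  (pr (kc false 0 0 0 0 2) (kc false 2 2 0 0 0) m_l_8_8_8 m_l_2_2_8,
    pr (kc true 0 0 2 1 0) (kc false 2 2 0 0 0) m_l_6_8_10 m_l_2_2_8),
  (pr (kc true 0 0 0 0 1) (kc false 1 1 0 0 0) m_l_6_9_9 m_l_3_3_6,
    pr (kc false 0 0 2 0 0) (kc false 1 1 0 0 0) m_l_6_7_11 m_l_3_3_6),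
  (pr (kc false 0 1 0 0 0) (kc false 1 0 0 0 0) m_l_7_7_10 m_l_5_9_10,
    pr (kc false 0 0 0 0 0) (kc false 1 0 0 0 0) m_l_6_8_10 m_l_5_9_10),
  (pr (kc true 0 2 0 0 0) (kc false 1 0 1 0 0) m_l_4_10_10 m_l_2_4_6,
    pr (kc false 0 0 0 0 1) (kc false 1 0 1 0 0) m_l_4_9_11 m_l_2_4_6),
  (pr (kc false 0 2 0 0 0) (kc false 2 0 0 0 0) m_l_6_9_9 m_l_3_3_6,
    pr (kc false 0 0 1 0 0) (kc false 2 0 0 0 0) m_l_6_8_10 m_l_3_3_6),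
  (pr (kc true 0 0 0 0 0) (kc false 1 1 1 0 0) m_l_6_9_9 m_v_6,
    pr (kc false 0 0 0 0 0) (kc false 1 1 1 0 0) m_l_6_7_11 m_v_6),
  (pr (kc false 0 0 2 0 0) (kc false 1 1 0 0 0) m_v_6 m_v_2,
    pr (kc true 0 0 0 0 1) (kc false 1 1 0 0 0) m_v_3 m_v_2),
  (pr (kc false 0 0 0 0 0) (kc false 2 2 0 0 2) m_v_6 m_1,
    pr (kc true 0 0 0 0 0) (kc false 2 2 0 0 2) m_v_2 m_1),
  (pr (kc true 0 0 0 0 0) (kc false 2 1 1 0 0) m_l_5_9_10 m_v_2,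
    pr (kc false 0 0 0 0 0) (kc false 2 1 1 0 0) m_l_4_10_10 m_v_2),
  (pr (kc false 0 0 1 0 0) (kc false 1 0 0 0 0) m_l_6_8_10 m_l_4_10_10,
    pr (kc true 0 1 0 0 0) (kc false 1 0 0 0 0) m_l_5_9_10 m_l_4_10_10),
  (pr (kc false 0 0 0 0 0) (kc false 2 0 0 1 0) m_l_2_5_5 m_v_2,
    pr (kc true 0 0 0 0 0) (kc false 2 0 0 1 0) m_l_2_2_8 m_v_2),
  (pr (kc false 2 0 0 0 0) (kc false 0 0 1 0 0) m_l_6_9_9 m_l_2_4_6,
    pr (kc true 0 2 0 0 0) (kc false 0 0 1 0 0) m_l_3_3_6 m_l_2_4_6),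
  (pr (kc true 0 2 0 0 0) (kc false 2 0 0 0 0) m_l_2_5_5 m_l_2_2_8,
    pr (kc false 0 0 0 1 0) (kc false 2 0 0 0 0) m_l_2_4_6 m_l_2_2_8),
  (pr (kc true 0 0 0 0 0) (kc false 0 0 1 1 0) m_l_2_11_11 m_v_2,
    pr (kc false 0 0 0 0 0) (kc false 0 0 1 1 0) m_l_2_5_5 m_v_2),
  (pr (kc true 0 0 0 0 0) (kc false 2 0 2 0 0) m_l_6_9_9 m_v_6,
    pr (kc false 0 0 0 0 0) (kc false 2 0 2 0 0) m_l_6_8_10 m_v_6),
  (pr (kc false 0 0 0 0 0) (kc false 0 2 2 0 0) m_l_6_9_9 m_v_6,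
    pr (kc true 0 0 0 0 0) (kc false 0 2 2 0 0) m_l_2_4_6 m_v_6),
  (pr (kc false 0 0 0 0 0) (kc false 1 1 2 0 0) (Mo.mul m_l_4_4_4 m_l_4_10_10) (Mo.mul m_v_4 m_l_2_4_6),
    pr (kc true 0 0 0 0 0) (kc false 1 1 2 0 0) (Mo.mul m_l_3_4_5 m_l_4_9_11) (Mo.mul m_v_4 m_l_2_4_6)),
  (pr (kc false 0 0 0 0 0) (kc false 0 0 0 2 0) (Mo.mul m_l_2_5_5 m_l_2_11_11) (Mo.mul m_v_2 m_l_2_4_6),
    pr (kc true 0 0 0 0 0) (kc false 0 0 0 2 0) (Mo.mul m_l_2_2_8 m_l_2_2_8) (Mo.mul m_v_2 m_l_2_4_6)),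
  (pr (kc false 0 0 0 0 0) (kc false 2 2 4 0 0) (Mo.mul m_v_3 m_v_3) (Mo.mul m_1 m_v_6),
    pr (kc true 0 0 0 0 0) (kc false 2 2 4 0 0) (Mo.mul m_v_2 m_v_4) (Mo.mul m_1 m_v_6)),
  (pr (kc false 0 0 1 0 0) (kc false 2 0 0 0 0) m_v_6 m_v_1,
    pr (kc false 0 2 0 0 0) (kc false 2 0 0 0 0) m_v_3 m_v_1),
  (pr (kc false 0 0 0 0 0) (kc false 1 2 1 0 0) m_l_4_9_11 m_v_1,
    pr (kc true 0 0 0 0 0) (kc false 1 2 1 0 0) m_l_2_11_11 m_v_1),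
  (pr (kc false 0 0 0 1 0) (kc false 1 0 1 0 0) m_v_3 m_v_1,
    pr (kc false 0 1 0 0 0) (kc false 1 0 1 0 0) m_v_2 m_v_1),
  (pr (kc true 0 1 0 0 0) (kc false 1 0 0 0 0) m_l_7_8_9 m_l_1_4_7,
    pr (kc false 0 0 1 0 0) (kc false 1 0 0 0 0) m_l_6_7_11 m_l_1_4_7),
  (pr (kc false 0 2 0 0 0) (kc false 2 0 0 0 0) m_l_7_8_9 m_l_1_3_8,
    pr (kc false 0 0 1 0 0) (kc false 2 0 0 0 0) m_l_6_8_10 m_l_1_3_8),
  (pr (kc false 0 1 0 0 0) (kc false 1 0 1 0 0) m_l_4_10_10 m_l_1_4_7,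
    pr (kc false 0 0 0 1 0) (kc false 1 0 1 0 0) m_l_4_9_11 m_l_1_4_7),
  (pr (kc true 0 0 0 0 0) (kc false 1 0 1 1 0) m_l_2_3_7 m_v_3,
    pr (kc false 0 0 0 0 0) (kc false 1 0 1 1 0) m_l_1_3_8 m_v_3),
  (pr (kc true 0 0 0 0 0) (kc false 1 3 0 0 0) m_l_3_3_6 m_v_3,
    pr (kc false 0 0 0 0 0) (kc false 1 3 0 0 0) m_l_1_3_8 m_v_3),
  (pr (kc false 1 0 0 0 0) (kc false 0 0 1 0 0) m_l_7_8_9 m_l_1_4_7,
    pr (kc false 0 1 0 0 0) (kc false 0 0 1 0 0) m_l_2_3_7 m_l_1_4_7),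
  (pr (kc false 0 0 0 0 0) (kc false 3 1 0 0 0) m_l_6_7_11 m_v_1,
    pr (kc true 0 0 0 0 0) (kc false 3 1 0 0 0) m_l_4_9_11 m_v_1)]

include he hne in
theorem sp5 : Sols (gs12 x y T) cp5 := by
  intro p hp
  unfold cp5 at hp
  simp only [List.mem_cons, List.not_mem_nil, or_false] at hp
  rcases hp with rfl | rfl | rfl | rfl | rfl | rfl | rfl | rfl | rfl | rfl | rfl | rfl | rfl | rfl | rfl | rfl | rfl | rfl | rfl | rfl | rfl | rfl | rfl | rfl | rfl | rfl | rfl | rfl | rfl | rfl | rfl | rfl | rfl | rfl | rfl | rfl | rfl | rfl | rfl | rfl | rfl | rfl | rfl | rfl | rfl | rfl | rfl | rfl | rfl | rfl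
  · exact c200 he hne
  · exact c201 he hne
  · exact c202 he hne
  · exact c203 he hne
  · exact c204 he hne
  · exact c205 he hne
  · exact c206 he hne
  · exact c207 he hne
  · exact c208 he hne
  · exact c209 he hne
  · exact c210 he hne
  · exact c211 he hne
  · exact c212 he hne
  · exact c213 he hne
  · exact c214 he hne
  · exact c215 he hne
  · exact c216 he hne
  · exact c217 he hne
  · exact c218 he hne
  · exact c219 he hne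
  · exact c220 he hne
  · exact c221 he hne
  · exact c222 he hne
  · exact c223 he hne
  · exact c224 he hne
  · exact c225 he hne
  · exact c226 he hne
  · exact c227 he hne
  · exact c228 he hne
  · exact c229 he hne
  · exact c230 he hne
  · exact c231 he hne
  · exact c232 he hne
  · exact c233 he hne
  · exact c234 he hne
  · exact c235 he hne
  · exact c236 he hne
  · exact c237 he hne
  · exact c238 he hne
  · exact c239 he hne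
  · exact c240 he hne
  · exact c241 he hne
  · exact c242 he hne
  · exact c243 he hne
  · exact c244 he hne
  · exact c245 he hne
  · exact c246 he hne
  · exact c247 he hne
  · exact c248 he hne
  · exact c249 he hne

end Pool.Agent.UE12C
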