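import Pool.Agent.Lib_helper7.N12.L

/-!
# The solutions of the unit equation for a point of order twelve, part 6
-/

set_option autoImplicit false
set_option linter.unusedSectionVars false
set_option linter.unusedSimpArgs false
set_option maxRecDepth 100000

namespace Pool.Agent.UE12C

open Pool.Agent.KC72

variable {F : Type*} [Field F] {x y T : F} (he : HE12 x y T) (hne : ∀ z ∈ gs12 x y T, z ≠ 0)

include he hne in
lemma c250 : ev (gs12 x y T) (pr (kc false 1 0 0 0 0) (kc false 0 1 0 0 0) m_l_7_8_9 m_l_1_3_8) +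
    ev (gs12 x y T) (pr (kc true 0 0 0 0 0) (kc false 0 1 0 0 0) m_l_2_2_8 m_l_1_3_8) = 1 := by
  refine cls3 hne (e_l_7_8_9 he hne) (e_l_2_2_8 he hne) e_l_1_3_8 _ _ _ _ _ _ _ _ _ _ _ _ _ _ _ _ _ ?_
  simp only [kv, cond_true, cond_false]
  ring

include he hne in
lemma c251 : ev (gs12 x y T) (pr (kc false 0 0 0 0 0) (kc false 0 2 0 1 0) m_l_3_10_11 m_v_3) +
    ev (gs12 x y T) (pr (kc true 0 0 0 0 0) (kc false 0 2 0 1 0) m_l_1_3_8 m_v_3) = 1 := by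
  refine cls3 hne (e_l_3_10_11 he hne) e_l_1_3_8 e_v_3 _ _ _ _ _ _ _ _ _ _ _ _ _ _ _ _ _ ?_
  simp only [kv, cond_true, cond_false]
  ring

include he hne in
lemma c252 : ev (gs12 x y T) (pr (kc true 0 0 0 0 0) (kc false 2 0 2 0 0) m_l_4_9_11 m_v_1) +
    ev (gs12 x y T) (pr (kc false 0 0 0 0 0) (kc false 2 0 2 0 0) m_l_3_10_11 m_v_1) = 1 := by
  refine cls3 hne (e_l_4_9_11 he hne) (e_l_3_10_11 he hne) e_v_1 _ _ _ _ _ _ _ _ _ _ _ _ _ _ _ _ _ ?_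
  simp only [kv, cond_true, cond_false]
  ring

include he hne in
lemma c253 : ev (gs12 x y T) (pr (kc false 0 0 0 1 0) (kc false 2 0 0 0 0) m_l_7_8_9 m_l_1_4_7) +
    ev (gs12 x y T) (pr (kc true 0 2 0 0 0) (kc false 2 0 0 0 0) m_l_7_7_10 m_l_1_4_7) = 1 := by
  refine cls3 hne (e_l_7_8_9 he hne) (e_l_7_7_10 he hne) e_l_1_4_7 _ _ _ _ _ _ _ _ _ _ _ _ _ _ _ _ _ ?_
  simp only [kv, cond_true, cond_false]
  ring

include he hne in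
lemma c254 : ev (gs12 x y T) (pr (kc false 0 0 0 0 0) (kc false 2 2 2 1 0) m_v_4 m_1) +
    ev (gs12 x y T) (pr (kc true 0 0 0 0 0) (kc false 2 2 2 1 0) m_v_2 m_1) = 1 := by
  refine cls3 hne e_v_4 e_v_2 e_1 _ _ _ _ _ _ _ _ _ _ _ _ _ _ _ _ _ ?_
  simp only [kv, cond_true, cond_false]
  ring

include he hne in
lemma c255 : ev (gs12 x y T) (pr (kc true 0 0 0 0 0) (kc false 2 2 0 0 0) m_l_8_8_8 m_v_4) +
    ev (gs12 x y T) (pr (kc false 0 0 0 0 0) (kc false 2 2 0 0 0) m_l_6_8_10 m_v_4) = 1 := by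
  refine cls3 hne (e_l_8_8_8 he hne) (e_l_6_8_10 he hne) e_v_4 _ _ _ _ _ _ _ _ _ _ _ _ _ _ _ _ _ ?_
  simp only [kv, cond_true, cond_false]
  ring

include he hne in
lemma c256 : ev (gs12 x y T) (pr (kc false 0 0 0 0 0) (kc false 2 2 0 0 0) m_l_4_4_4 m_v_4) +
    ev (gs12 x y T) (pr (kc true 0 0 0 0 0) (kc false 2 2 0 0 0) m_l_2_4_6 m_v_4) = 1 := by
  refine cls3 hne (e_l_4_4_4 he hne) (e_l_2_4_6 he hne) e_v_4 _ _ _ _ _ _ _ _ _ _ _ _ _ _ _ _ _ ?_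
  simp only [kv, cond_true, cond_false]
  ring

include he hne in
lemma c257 : ev (gs12 x y T) (pr (kc false 0 0 0 0 0) (kc false 0 0 2 1 0) m_l_8_8_8 m_v_4) +
    ev (gs12 x y T) (pr (kc true 0 0 0 0 0) (kc false 0 0 2 1 0) m_l_2_2_8 m_v_4) = 1 := by
  refine cls3 hne (e_l_8_8_8 he hne) (e_l_2_2_8 he hne) e_v_4 _ _ _ _ _ _ _ _ _ _ _ _ _ _ _ _ _ ?_
  simp only [kv, cond_true, cond_false]
  ring

include he hne in
lemma c258 : ev (gs12 x y T) (pr (kc false 0 0 0 0 0) (kc false 4 4 0 0 0) m_v_6 m_1) +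
    ev (gs12 x y T) (pr (kc true 0 0 0 0 0) (kc false 4 4 0 0 0) m_v_4 m_1) = 1 := by
  refine cls3 hne e_v_6 e_v_4 e_1 _ _ _ _ _ _ _ _ _ _ _ _ _ _ _ _ _ ?_
  simp only [kv, cond_true, cond_false]
  ring

include he hne in
lemma c259 : ev (gs12 x y T) (pr (kc false 0 0 0 0 0) (kc false 0 0 2 1 0) m_l_4_10_10 m_v_4) +
    ev (gs12 x y T) (pr (kc true 0 0 0 0 0) (kc false 0 0 2 1 0) m_l_4_4_4 m_v_4) = 1 := by
  refine cls3 hne (e_l_4_10_10 he hne) (e_l_4_4_4 he hne) e_v_4 _ _ _ _ _ _ _ _ _ _ _ _ _ _ _ _ _ ?_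
  simp only [kv, cond_true, cond_false]
  ring

include he hne in
lemma c260 : ev (gs12 x y T) (pr (kc true 1 0 0 0 0) (kc false 0 1 1 0 0) m_l_4_10_10 m_l_1_4_7) +
    ev (gs12 x y T) (pr (kc false 0 0 0 1 0) (kc false 0 1 1 0 0) m_l_3_4_5 m_l_1_4_7) = 1 := by
  refine cls3 hne (e_l_4_10_10 he hne) (e_l_3_4_5 he hne) e_l_1_4_7 _ _ _ _ _ _ _ _ _ _ _ _ _ _ _ _ _ ?_
  simp only [kv, cond_true, cond_false]
  ring

include he hne in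
lemma c261 : ev (gs12 x y T) (pr (kc false 2 0 0 0 0) (kc false 0 0 1 0 0) m_l_4_9_11 m_l_2_4_6) +
    ev (gs12 x y T) (pr (kc true 0 2 0 0 0) (kc false 0 0 1 0 0) m_l_3_4_5 m_l_2_4_6) = 1 := by
  refine cls3 hne (e_l_4_9_11 he hne) (e_l_3_4_5 he hne) (e_l_2_4_6 he hne) _ _ _ _ _ _ _ _ _ _ _ _ _ _ _ _ _ ?_
  simp only [kv, cond_true, cond_false]
  ring

include he hne in
lemma c262 : ev (gs12 x y T) (pr (kc false 0 0 0 0 0) (kc false 0 0 0 0 1) (Mo.mul m_l_3_4_5 m_l_4_9_11) (Mo.mul m_v_4 m_l_2_4_6)) +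
    ev (gs12 x y T) (pr (kc true 0 0 0 0 0) (kc false 0 0 0 0 1) (Mo.mul m_l_1_4_7 m_l_1_4_7) (Mo.mul m_v_4 m_l_2_4_6)) = 1 := by
  refine cls3 hne (mul2 hne (e_l_3_4_5 he hne) (e_l_4_9_11 he hne)) (mul2 hne e_l_1_4_7 e_l_1_4_7) (mul2 hne e_v_4 (e_l_2_4_6 he hne)) _ _ _ _ _ _ _ _ _ _ _ _ _ _ _ _ _ ?_
  simp only [kv, cond_true, cond_false]
  ring

include he hne in
lemma c263 : ev (gs12 x y T) (pr (kc false 1 0 1 0 0) (kc false 0 0 0 1 0) m_l_5_8_11 m_l_1_3_8) +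
    ev (gs12 x y T) (pr (kc true 0 1 0 0 0) (kc false 0 0 0 1 0) m_l_2_2_8 m_l_1_3_8) = 1 := by
  refine cls3 hne (e_l_5_8_11 he hne) (e_l_2_2_8 he hne) e_l_1_3_8 _ _ _ _ _ _ _ _ _ _ _ _ _ _ _ _ _ ?_
  simp only [kv, cond_true, cond_false]
  ring

include he hne in
lemma c264 : ev (gs12 x y T) (pr (kc false 0 0 0 0 0) (kc false 1 0 0 0 0) m_l_6_8_10 m_l_1_3_8) +
    ev (gs12 x y T) (pr (kc false 0 1 0 0 0) (kc false 1 0 0 0 0) m_l_5_8_11 m_l_1_3_8) = 1 := by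
  refine cls3 hne (e_l_6_8_10 he hne) (e_l_5_8_11 he hne) e_l_1_3_8 _ _ _ _ _ _ _ _ _ _ _ _ _ _ _ _ _ ?_
  simp only [kv, cond_true, cond_false]
  ring

include he hne in
lemma c265 : ev (gs12 x y T) (pr (kc false 0 0 0 0 0) (kc false 0 4 0 0 0) m_l_6_7_11 m_v_5) +
    ev (gs12 x y T) (pr (kc true 0 0 0 0 0) (kc false 0 4 0 0 0) m_l_1_4_7 m_v_5) = 1 := by
  refine cls3 hne (e_l_6_7_11 he hne) e_l_1_4_7 e_v_5 _ _ _ _ _ _ _ _ _ _ _ _ _ _ _ _ _ ?_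
  simp only [kv, cond_true, cond_false]
  ring

include he hne in
lemma c266 : ev (gs12 x y T) (pr (kc false 0 0 0 0 0) (kc false 1 0 1 1 0) m_l_5_8_11 m_v_1) +
    ev (gs12 x y T) (pr (kc true 0 0 0 0 0) (kc false 1 0 1 1 0) m_l_2_11_11 m_v_1) = 1 := by
  refine cls3 hne (e_l_5_8_11 he hne) (e_l_2_11_11 he hne) e_v_1 _ _ _ _ _ _ _ _ _ _ _ _ _ _ _ _ _ ?_
  simp only [kv, cond_true, cond_false]
  ring

include he hne in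
lemma c267 : ev (gs12 x y T) (pr (kc false 0 0 0 1 0) (kc false 1 0 0 0 0) m_l_7_8_9 m_l_2_2_8) +
    ev (gs12 x y T) (pr (kc true 0 1 1 0 0) (kc false 1 0 0 0 0) m_l_5_8_11 m_l_2_2_8) = 1 := by
  refine cls3 hne (e_l_7_8_9 he hne) (e_l_5_8_11 he hne) (e_l_2_2_8 he hne) _ _ _ _ _ _ _ _ _ _ _ _ _ _ _ _ _ ?_
  simp only [kv, cond_true, cond_false]
  ring

include he hne in
lemma c268 : ev (gs12 x y T) (pr (kc false 0 1 0 0 0) (kc false 1 0 0 0 0) m_v_5 m_v_1) +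
    ev (gs12 x y T) (pr (kc false 0 0 0 0 0) (kc false 1 0 0 0 0) m_v_2 m_v_1) = 1 := by
  refine cls3 hne e_v_5 e_v_2 e_v_1 _ _ _ _ _ _ _ _ _ _ _ _ _ _ _ _ _ ?_
  simp only [kv, cond_true, cond_false]
  ring

include he hne in
lemma c269 : ev (gs12 x y T) (pr (kc false 0 1 0 0 0) (kc false 1 0 0 0 0) m_l_7_8_9 m_l_5_8_11) +
    ev (gs12 x y T) (pr (kc false 0 0 0 0 0) (kc false 1 0 0 0 0) m_l_6_8_10 m_l_5_8_11) = 1 := by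
  refine cls3 hne (e_l_7_8_9 he hne) (e_l_6_8_10 he hne) (e_l_5_8_11 he hne) _ _ _ _ _ _ _ _ _ _ _ _ _ _ _ _ _ ?_
  simp only [kv, cond_true, cond_false]
  ring

include he hne in
lemma c270 : ev (gs12 x y T) (pr (kc false 0 0 0 0 1) (kc false 3 0 0 0 0) m_l_6_8_10 m_l_1_1_10) +
    ev (gs12 x y T) (pr (kc false 0 3 0 0 0) (kc false 3 0 0 0 0) m_l_5_9_10 m_l_1_1_10) = 1 := by
  refine cls3 hne (e_l_6_8_10 he hne) (e_l_5_9_10 he hne) e_l_1_1_10 _ _ _ _ _ _ _ _ _ _ _ _ _ _ _ _ _ ?_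
  simp only [kv, cond_true, cond_false]
  ring

include he hne in
lemma c271 : ev (gs12 x y T) (pr (kc true 0 0 0 0 0) (kc false 0 1 0 0 1) m_l_5_9_10 m_v_2) +
    ev (gs12 x y T) (pr (kc false 0 0 0 0 0) (kc false 0 1 0 0 1) m_l_1_1_10 m_v_2) = 1 := by
  refine cls3 hne (e_l_5_9_10 he hne) e_l_1_1_10 e_v_2 _ _ _ _ _ _ _ _ _ _ _ _ _ _ _ _ _ ?_
  simp only [kv, cond_true, cond_false]
  ring

include he hne in
lemma c272 : ev (gs12 x y T) (pr (kc true 0 0 0 0 0) (kc false 4 0 0 0 0) m_l_6_7_11 m_v_1) +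
    ev (gs12 x y T) (pr (kc false 0 0 0 0 0) (kc false 4 0 0 0 0) m_l_5_8_11 m_v_1) = 1 := by
  refine cls3 hne (e_l_6_7_11 he hne) (e_l_5_8_11 he hne) e_v_1 _ _ _ _ _ _ _ _ _ _ _ _ _ _ _ _ _ ?_
  simp only [kv, cond_true, cond_false]
  ring

include he hne in
lemma c273 : ev (gs12 x y T) (pr (kc false 0 0 1 0 0) (kc false 1 0 0 0 0) m_l_3_4_5 m_l_1_3_8) +
    ev (gs12 x y T) (pr (kc true 0 1 0 0 0) (kc false 1 0 0 0 0) m_l_2_3_7 m_l_1_3_8) = 1 := by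
  refine cls3 hne (e_l_3_4_5 he hne) (e_l_2_3_7 he hne) e_l_1_3_8 _ _ _ _ _ _ _ _ _ _ _ _ _ _ _ _ _ ?_
  simp only [kv, cond_true, cond_false]
  ring

include he hne in
lemma c274 : ev (gs12 x y T) (pr (kc false 0 0 1 1 0) (kc false 4 0 0 0 0) m_v_6 m_v_1) +
    ev (gs12 x y T) (pr (kc false 0 4 0 0 0) (kc false 4 0 0 0 0) m_v_5 m_v_1) = 1 := by
  refine cls3 hne e_v_6 e_v_5 e_v_1 _ _ _ _ _ _ _ _ _ _ _ _ _ _ _ _ _ ?_
  simp only [kv, cond_true, cond_false]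
  ring

include he hne in
lemma c275 : ev (gs12 x y T) (pr (kc true 0 2 0 0 0) (kc false 2 0 0 0 0) m_l_3_4_5 m_l_1_3_8) +
    ev (gs12 x y T) (pr (kc false 0 0 0 1 0) (kc false 2 0 0 0 0) m_l_3_3_6 m_l_1_3_8) = 1 := by
  refine cls3 hne (e_l_3_4_5 he hne) (e_l_3_3_6 he hne) e_l_1_3_8 _ _ _ _ _ _ _ _ _ _ _ _ _ _ _ _ _ ?_
  simp only [kv, cond_true, cond_false]
  ring

include he hne in
lemma c276 : ev (gs12 x y T) (pr (kc true 0 0 0 0 0) (kc false 1 2 1 0 0) m_l_2_3_7 m_v_5) +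
    ev (gs12 x y T) (pr (kc false 0 0 0 0 0) (kc false 1 2 1 0 0) m_l_1_4_7 m_v_5) = 1 := by
  refine cls3 hne (e_l_2_3_7 he hne) e_l_1_4_7 e_v_5 _ _ _ _ _ _ _ _ _ _ _ _ _ _ _ _ _ ?_
  simp only [kv, cond_true, cond_false]
  ring

include he hne in
lemma c277 : ev (gs12 x y T) (pr (kc false 1 0 0 0 0) (kc false 0 0 1 0 0) m_l_3_10_11 m_l_1_3_8) +
    ev (gs12 x y T) (pr (kc false 0 1 0 0 0) (kc false 0 0 1 0 0) m_l_3_4_5 m_l_1_3_8) = 1 := by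
  refine cls3 hne (e_l_3_10_11 he hne) (e_l_3_4_5 he hne) e_l_1_3_8 _ _ _ _ _ _ _ _ _ _ _ _ _ _ _ _ _ ?_
  simp only [kv, cond_true, cond_false]
  ring

include he hne in
lemma c278 : ev (gs12 x y T) (pr (kc false 0 0 0 0 0) (kc false 1 0 0 0 0) m_l_4_10_10 m_l_3_4_5) +
    ev (gs12 x y T) (pr (kc false 0 1 0 0 0) (kc false 1 0 0 0 0) m_l_4_9_11 m_l_3_4_5) = 1 := by
  refine cls3 hne (e_l_4_10_10 he hne) (e_l_4_9_11 he hne) (e_l_3_4_5 he hne) _ _ _ _ _ _ _ _ _ _ _ _ _ _ _ _ _ ?_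
  simp only [kv, cond_true, cond_false]
  ring

include he hne in
lemma c279 : ev (gs12 x y T) (pr (kc true 0 0 0 0 1) (kc false 1 1 2 0 0) (Mo.mul m_l_4_4_4 m_l_4_10_10) (Mo.mul m_l_1_4_7 m_l_1_4_7)) +
    ev (gs12 x y T) (pr (kc false 0 0 0 2 0) (kc false 1 1 2 0 0) (Mo.mul m_l_3_4_5 m_l_4_9_11) (Mo.mul m_l_1_4_7 m_l_1_4_7)) = 1 := by
  refine cls3 hne (mul2 hne (e_l_4_4_4 he hne) (e_l_4_10_10 he hne)) (mul2 hne (e_l_3_4_5 he hne) (e_l_4_9_11 he hne)) (mul2 hne e_l_1_4_7 e_l_1_4_7) _ _ _ _ _ _ _ _ _ _ _ _ _ _ _ _ _ ?_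
  simp only [kv, cond_true, cond_false]
  ring

include he hne in
lemma c280 : ev (gs12 x y T) (pr (kc false 0 1 0 1 0) (kc false 2 0 1 0 0) m_l_5_9_10 m_l_1_1_10) +
    ev (gs12 x y T) (pr (kc false 0 0 0 0 1) (kc false 2 0 1 0 0) m_l_4_10_10 m_l_1_1_10) = 1 := by
  refine cls3 hne (e_l_5_9_10 he hne) (e_l_4_10_10 he hne) e_l_1_1_10 _ _ _ _ _ _ _ _ _ _ _ _ _ _ _ _ _ ?_
  simp only [kv, cond_true, cond_false]
  ring

include he hne in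
lemma c281 : ev (gs12 x y T) (pr (kc false 0 0 0 0 0) (kc false 0 1 1 1 0) m_l_7_7_10 m_v_5) +
    ev (gs12 x y T) (pr (kc true 0 0 0 0 0) (kc false 0 1 1 1 0) m_l_1_4_7 m_v_5) = 1 := by
  refine cls3 hne (e_l_7_7_10 he hne) e_l_1_4_7 e_v_5 _ _ _ _ _ _ _ _ _ _ _ _ _ _ _ _ _ ?_
  simp only [kv, cond_true, cond_false]
  ring

include he hne in
lemma c282 : ev (gs12 x y T) (pr (kc true 0 0 0 0 0) (kc false 2 1 1 0 0) m_l_5_8_11 m_v_1) +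
    ev (gs12 x y T) (pr (kc false 0 0 0 0 0) (kc false 2 1 1 0 0) m_l_3_10_11 m_v_1) = 1 := by
  refine cls3 hne (e_l_5_8_11 he hne) (e_l_3_10_11 he hne) e_v_1 _ _ _ _ _ _ _ _ _ _ _ _ _ _ _ _ _ ?_
  simp only [kv, cond_true, cond_false]
  ring

include he hne in
lemma c283 : ev (gs12 x y T) (pr (kc true 0 2 0 0 0) (kc false 2 0 0 0 0) m_l_5_8_11 m_l_2_11_11) +
    ev (gs12 x y T) (pr (kc false 0 0 0 1 0) (kc false 2 0 0 0 0) m_l_4_9_11 m_l_2_11_11) = 1 := by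
  refine cls3 hne (e_l_5_8_11 he hne) (e_l_4_9_11 he hne) (e_l_2_11_11 he hne) _ _ _ _ _ _ _ _ _ _ _ _ _ _ _ _ _ ?_
  simp only [kv, cond_true, cond_false]
  ring

include he hne in
lemma c284 : ev (gs12 x y T) (pr (kc false 0 0 0 0 0) (kc false 1 3 0 0 0) m_l_7_8_9 m_v_5) +
    ev (gs12 x y T) (pr (kc true 0 0 0 0 0) (kc false 1 3 0 0 0) m_l_6_7_11 m_v_5) = 1 := by
  refine cls3 hne (e_l_7_8_9 he hne) (e_l_6_7_11 he hne) e_v_5 _ _ _ _ _ _ _ _ _ _ _ _ _ _ _ _ _ ?_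
  simp only [kv, cond_true, cond_false]
  ring

include he hne in
lemma c285 : ev (gs12 x y T) (pr (kc true 0 1 1 0 0) (kc false 1 0 0 0 0) m_v_5 m_v_2) +
    ev (gs12 x y T) (pr (kc false 0 0 0 1 0) (kc false 1 0 0 0 0) m_v_3 m_v_2) = 1 := by
  refine cls3 hne e_v_5 e_v_3 e_v_2 _ _ _ _ _ _ _ _ _ _ _ _ _ _ _ _ _ ?_
  simp only [kv, cond_true, cond_false]
  ring

include he hne in
lemma c286 : ev (gs12 x y T) (pr (kc false 1 0 0 1 0) (kc false 0 2 1 0 0) m_l_6_9_9 m_l_1_5_6) +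
    ev (gs12 x y T) (pr (kc true 0 0 0 0 1) (kc false 0 2 1 0 0) m_l_2_4_6 m_l_1_5_6) = 1 := by
  refine cls3 hne (e_l_6_9_9 he hne) (e_l_2_4_6 he hne) e_l_1_5_6 _ _ _ _ _ _ _ _ _ _ _ _ _ _ _ _ _ ?_
  simp only [kv, cond_true, cond_false]
  ring

include he hne in
lemma c287 : ev (gs12 x y T) (pr (kc true 0 0 0 0 0) (kc false 3 1 0 0 0) m_l_3_4_5 m_v_3) +
    ev (gs12 x y T) (pr (kc false 0 0 0 0 0) (kc false 3 1 0 0 0) m_l_3_3_6 m_v_3) = 1 := by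
  refine cls3 hne (e_l_3_4_5 he hne) (e_l_3_3_6 he hne) e_v_3 _ _ _ _ _ _ _ _ _ _ _ _ _ _ _ _ _ ?_
  simp only [kv, cond_true, cond_false]
  ring

include he hne in
lemma c288 : ev (gs12 x y T) (pr (kc false 0 0 0 0 0) (kc false 0 2 2 0 0) m_l_7_8_9 m_v_5) +
    ev (gs12 x y T) (pr (kc true 0 0 0 0 0) (kc false 0 2 2 0 0) m_l_2_3_7 m_v_5) = 1 := by
  refine cls3 hne (e_l_7_8_9 he hne) (e_l_2_3_7 he hne) e_v_5 _ _ _ _ _ _ _ _ _ _ _ _ _ _ _ _ _ ?_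
  simp only [kv, cond_true, cond_false]
  ring

include he hne in
lemma c289 : ev (gs12 x y T) (pr (kc true 0 0 0 0 0) (kc false 0 0 1 0 1) m_l_6_9_9 m_v_6) +
    ev (gs12 x y T) (pr (kc false 0 0 0 0 0) (kc false 0 0 1 0 1) m_l_1_5_6 m_v_6) = 1 := by
  refine cls3 hne (e_l_6_9_9 he hne) e_l_1_5_6 e_v_6 _ _ _ _ _ _ _ _ _ _ _ _ _ _ _ _ _ ?_
  simp only [kv, cond_true, cond_false]
  ring

include he hne in
lemma c290 : ev (gs12 x y T) (pr (kc false 0 0 1 0 0) (kc false 1 0 0 0 0) m_l_6_7_11 m_l_4_9_11) +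
    ev (gs12 x y T) (pr (kc true 0 1 0 0 0) (kc false 1 0 0 0 0) m_l_5_8_11 m_l_4_9_11) = 1 := by
  refine cls3 hne (e_l_6_7_11 he hne) (e_l_5_8_11 he hne) (e_l_4_9_11 he hne) _ _ _ _ _ _ _ _ _ _ _ _ _ _ _ _ _ ?_
  simp only [kv, cond_true, cond_false]
  ring

include he hne in
lemma c291 : ev (gs12 x y T) (pr (kc false 0 0 1 0 0) (kc false 2 0 0 0 0) m_v_6 m_v_3) +
    ev (gs12 x y T) (pr (kc false 0 2 0 0 0) (kc false 2 0 0 0 0) m_v_5 m_v_3) = 1 := by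
  refine cls3 hne e_v_6 e_v_5 e_v_3 _ _ _ _ _ _ _ _ _ _ _ _ _ _ _ _ _ ?_
  simp only [kv, cond_true, cond_false]
  ring

include he hne in
lemma c292 : ev (gs12 x y T) (pr (kc false 0 0 0 0 0) (kc false 2 0 0 1 0) m_l_3_4_5 m_v_3) +
    ev (gs12 x y T) (pr (kc true 0 0 0 0 0) (kc false 2 0 0 1 0) m_l_2_3_7 m_v_3) = 1 := by
  refine cls3 hne (e_l_3_4_5 he hne) (e_l_2_3_7 he hne) e_v_3 _ _ _ _ _ _ _ _ _ _ _ _ _ _ _ _ _ ?_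
  simp only [kv, cond_true, cond_false]
  ring

include he hne in
lemma c293 : ev (gs12 x y T) (pr (kc false 0 2 1 0 0) (kc false 1 0 0 1 0) m_l_2_5_5 m_l_1_2_9) +
    ev (gs12 x y T) (pr (kc false 0 0 0 0 1) (kc false 1 0 0 1 0) m_l_2_2_8 m_l_1_2_9) = 1 := by
  refine cls3 hne (e_l_2_5_5 he hne) (e_l_2_2_8 he hne) e_l_1_2_9 _ _ _ _ _ _ _ _ _ _ _ _ _ _ _ _ _ ?_
  simp only [kv, cond_true, cond_false]
  ring

include he hne in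
lemma c294 : ev (gs12 x y T) (pr (kc false 0 3 0 0 0) (kc false 3 0 0 0 0) m_l_2_5_5 m_l_1_2_9) +
    ev (gs12 x y T) (pr (kc false 0 0 0 0 1) (kc false 3 0 0 0 0) m_l_2_4_6 m_l_1_2_9) = 1 := by
  refine cls3 hne (e_l_2_5_5 he hne) (e_l_2_4_6 he hne) e_l_1_2_9 _ _ _ _ _ _ _ _ _ _ _ _ _ _ _ _ _ ?_
  simp only [kv, cond_true, cond_false]
  ring

include he hne in
lemma c295 : ev (gs12 x y T) (pr (kc true 0 2 0 0 0) (kc false 1 0 1 0 0) m_l_5_9_10 m_l_1_1_10) +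
    ev (gs12 x y T) (pr (kc false 0 0 0 0 1) (kc false 1 0 1 0 0) m_l_3_10_11 m_l_1_1_10) = 1 := by
  refine cls3 hne (e_l_5_9_10 he hne) (e_l_3_10_11 he hne) e_l_1_1_10 _ _ _ _ _ _ _ _ _ _ _ _ _ _ _ _ _ ?_
  simp only [kv, cond_true, cond_false]
  ring

include he hne in
lemma c296 : ev (gs12 x y T) (pr (kc false 0 0 0 0 0) (kc false 0 1 1 1 0) m_l_3_10_11 m_v_3) +
    ev (gs12 x y T) (pr (kc true 0 0 0 0 0) (kc false 0 1 1 1 0) m_l_3_4_5 m_v_3) = 1 := by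
  refine cls3 hne (e_l_3_10_11 he hne) (e_l_3_4_5 he hne) e_v_3 _ _ _ _ _ _ _ _ _ _ _ _ _ _ _ _ _ ?_
  simp only [kv, cond_true, cond_false]
  ring

include he hne in
lemma c297 : ev (gs12 x y T) (pr (kc false 1 1 2 0 0) (kc false 0 0 0 2 0) (Mo.mul m_l_2_5_5 m_l_2_11_11) (Mo.mul m_l_1_2_9 m_l_2_3_7)) +
    ev (gs12 x y T) (pr (kc false 0 0 0 0 1) (kc false 0 0 0 2 0) (Mo.mul m_l_2_2_8 m_l_2_2_8) (Mo.mul m_l_1_2_9 m_l_2_3_7)) = 1 := by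
  refine cls3 hne (mul2 hne (e_l_2_5_5 he hne) (e_l_2_11_11 he hne)) (mul2 hne (e_l_2_2_8 he hne) (e_l_2_2_8 he hne)) (mul2 hne e_l_1_2_9 (e_l_2_3_7 he hne)) _ _ _ _ _ _ _ _ _ _ _ _ _ _ _ _ _ ?_
  simp only [kv, cond_true, cond_false]
  ring

include he hne in
lemma c298 : ev (gs12 x y T) (pr (kc false 0 1 0 1 0) (kc false 2 0 1 0 0) m_l_6_9_9 m_l_1_5_6) +
    ev (gs12 x y T) (pr (kc false 0 0 0 0 1) (kc false 2 0 1 0 0) m_l_6_8_10 m_l_1_5_6) = 1 := by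
  refine cls3 hne (e_l_6_9_9 he hne) (e_l_6_8_10 he hne) e_l_1_5_6 _ _ _ _ _ _ _ _ _ _ _ _ _ _ _ _ _ ?_
  simp only [kv, cond_true, cond_false]
  ring

include he hne in
lemma c299 : ev (gs12 x y T) (pr (kc true 0 0 0 0 0) (kc false 2 1 1 0 0) m_l_7_8_9 m_v_5) +
    ev (gs12 x y T) (pr (kc false 0 0 0 0 0) (kc false 2 1 1 0 0) m_l_7_7_10 m_v_5) = 1 := by
  refine cls3 hne (e_l_7_8_9 he hne) (e_l_7_7_10 he hne) e_v_5 _ _ _ _ _ _ _ _ _ _ _ _ _ _ _ _ _ ?_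
  simp only [kv, cond_true, cond_false]
  ring

/-- part 6 of the list -/
def cp6 : List (Mo × Mo) := [
  (pr (kc false 1 0 0 0 0) (kc false 0 1 0 0 0) m_l_7_8_9 m_l_1_3_8,
    pr (kc true 0 0 0 0 0) (kc false 0 1 0 0 0) m_l_2_2_8 m_l_1_3_8),
  (pr (kc false 0 0 0 0 0) (kc false 0 2 0 1 0) m_l_3_10_11 m_v_3,
    pr (kc true 0 0 0 0 0) (kc false 0 2 0 1 0) m_l_1_3_8 m_v_3),
  (pr (kc true 0 0 0 0 0) (kc false 2 0 2 0 0) m_l_4_9_11 m_v_1,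
    pr (kc false 0 0 0 0 0) (kc false 2 0 2 0 0) m_l_3_10_11 m_v_1),
  (pr (kc false 0 0 0 1 0) (kc false 2 0 0 0 0) m_l_7_8_9 m_l_1_4_7,
    pr (kc true 0 2 0 0 0) (kc false 2 0 0 0 0) m_l_7_7_10 m_l_1_4_7),
  (pr (kc false 0 0 0 0 0) (kc false 2 2 2 1 0) m_v_4 m_1,
    pr (kc true 0 0 0 0 0) (kc false 2 2 2 1 0) m_v_2 m_1),
  (pr (kc true 0 0 0 0 0) (kc false 2 2 0 0 0) m_l_8_8_8 m_v_4,
    pr (kc false 0 0 0 0 0) (kc false 2 2 0 0 0) m_l_6_8_10 m_v_4),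
  (pr (kc false 0 0 0 0 0) (kc false 2 2 0 0 0) m_l_4_4_4 m_v_4,
    pr (kc true 0 0 0 0 0) (kc false 2 2 0 0 0) m_l_2_4_6 m_v_4),
  (pr (kc false 0 0 0 0 0) (kc false 0 0 2 1 0) m_l_8_8_8 m_v_4,
    pr (kc true 0 0 0 0 0) (kc false 0 0 2 1 0) m_l_2_2_8 m_v_4),
  (pr (kc false 0 0 0 0 0) (kc false 4 4 0 0 0) m_v_6 m_1,
    pr (kc true 0 0 0 0 0) (kc false 4 4 0 0 0) m_v_4 m_1),
  (pr (kc false 0 0 0 0 0) (kc false 0 0 2 1 0) m_l_4_10_10 m_v_4,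
    pr (kc true 0 0 0 0 0) (kc false 0 0 2 1 0) m_l_4_4_4 m_v_4),
  (pr (kc true 1 0 0 0 0) (kc false 0 1 1 0 0) m_l_4_10_10 m_l_1_4_7,
    pr (kc false 0 0 0 1 0) (kc false 0 1 1 0 0) m_l_3_4_5 m_l_1_4_7),
  (pr (kc false 2 0 0 0 0) (kc false 0 0 1 0 0) m_l_4_9_11 m_l_2_4_6,
    pr (kc true 0 2 0 0 0) (kc false 0 0 1 0 0) m_l_3_4_5 m_l_2_4_6),
  (pr (kc false 0 0 0 0 0) (kc false 0 0 0 0 1) (Mo.mul m_l_3_4_5 m_l_4_9_11) (Mo.mul m_v_4 m_l_2_4_6),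
    pr (kc true 0 0 0 0 0) (kc false 0 0 0 0 1) (Mo.mul m_l_1_4_7 m_l_1_4_7) (Mo.mul m_v_4 m_l_2_4_6)),
  (pr (kc false 1 0 1 0 0) (kc false 0 0 0 1 0) m_l_5_8_11 m_l_1_3_8,
    pr (kc true 0 1 0 0 0) (kc false 0 0 0 1 0) m_l_2_2_8 m_l_1_3_8),
  (pr (kc false 0 0 0 0 0) (kc false 1 0 0 0 0) m_l_6_8_10 m_l_1_3_8,
    pr (kc false 0 1 0 0 0) (kc false 1 0 0 0 0) m_l_5_8_11 m_l_1_3_8),
  (pr (kc false 0 0 0 0 0) (kc false 0 4 0 0 0) m_l_6_7_11 m_v_5,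
    pr (kc true 0 0 0 0 0) (kc false 0 4 0 0 0) m_l_1_4_7 m_v_5),
  (pr (kc false 0 0 0 0 0) (kc false 1 0 1 1 0) m_l_5_8_11 m_v_1,
    pr (kc true 0 0 0 0 0) (kc false 1 0 1 1 0) m_l_2_11_11 m_v_1),
  (pr (kc false 0 0 0 1 0) (kc false 1 0 0 0 0) m_l_7_8_9 m_l_2_2_8,
    pr (kc true 0 1 1 0 0) (kc false 1 0 0 0 0) m_l_5_8_11 m_l_2_2_8),
  (pr (kc false 0 1 0 0 0) (kc false 1 0 0 0 0) m_v_5 m_v_1,
    pr (kc false 0 0 0 0 0) (kc false 1 0 0 0 0) m_v_2 m_v_1),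
  (pr (kc false 0 1 0 0 0) (kc false 1 0 0 0 0) m_l_7_8_9 m_l_5_8_11,
    pr (kc false 0 0 0 0 0) (kc false 1 0 0 0 0) m_l_6_8_10 m_l_5_8_11),
  (pr (kc false 0 0 0 0 1) (kc false 3 0 0 0 0) m_l_6_8_10 m_l_1_1_10,
    pr (kc false 0 3 0 0 0) (kc false 3 0 0 0 0) m_l_5_9_10 m_l_1_1_10),
  (pr (kc true 0 0 0 0 0) (kc false 0 1 0 0 1) m_l_5_9_10 m_v_2,
    pr (kc false 0 0 0 0 0) (kc false 0 1 0 0 1) m_l_1_1_10 m_v_2),
  (pr (kc true 0 0 0 0 0) (kc false 4 0 0 0 0) m_l_6_7_11 m_v_1,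
    pr (kc false 0 0 0 0 0) (kc false 4 0 0 0 0) m_l_5_8_11 m_v_1),
  (pr (kc false 0 0 1 0 0) (kc false 1 0 0 0 0) m_l_3_4_5 m_l_1_3_8,
    pr (kc true 0 1 0 0 0) (kc false 1 0 0 0 0) m_l_2_3_7 m_l_1_3_8),
  (pr (kc false 0 0 1 1 0) (kc false 4 0 0 0 0) m_v_6 m_v_1,
    pr (kc false 0 4 0 0 0) (kc false 4 0 0 0 0) m_v_5 m_v_1),
  (pr (kc true 0 2 0 0 0) (kc false 2 0 0 0 0) m_l_3_4_5 m_l_1_3_8,
    pr (kc false 0 0 0 1 0) (kc false 2 0 0 0 0) m_l_3_3_6 m_l_1_3_8),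
  (pr (kc true 0 0 0 0 0) (kc false 1 2 1 0 0) m_l_2_3_7 m_v_5,
    pr (kc false 0 0 0 0 0) (kc false 1 2 1 0 0) m_l_1_4_7 m_v_5),
  (pr (kc false 1 0 0 0 0) (kc false 0 0 1 0 0) m_l_3_10_11 m_l_1_3_8,
    pr (kc false 0 1 0 0 0) (kc false 0 0 1 0 0) m_l_3_4_5 m_l_1_3_8),
  (pr (kc false 0 0 0 0 0) (kc false 1 0 0 0 0) m_l_4_10_10 m_l_3_4_5,
    pr (kc false 0 1 0 0 0) (kc false 1 0 0 0 0) m_l_4_9_11 m_l_3_4_5),
  (pr (kc true 0 0 0 0 1) (kc false 1 1 2 0 0) (Mo.mul m_l_4_4_4 m_l_4_10_10) (Mo.mul m_l_1_4_7 m_l_1_4_7),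
    pr (kc false 0 0 0 2 0) (kc false 1 1 2 0 0) (Mo.mul m_l_3_4_5 m_l_4_9_11) (Mo.mul m_l_1_4_7 m_l_1_4_7)),
  (pr (kc false 0 1 0 1 0) (kc false 2 0 1 0 0) m_l_5_9_10 m_l_1_1_10,
    pr (kc false 0 0 0 0 1) (kc false 2 0 1 0 0) m_l_4_10_10 m_l_1_1_10),
  (pr (kc false 0 0 0 0 0) (kc false 0 1 1 1 0) m_l_7_7_10 m_v_5,
    pr (kc true 0 0 0 0 0) (kc false 0 1 1 1 0) m_l_1_4_7 m_v_5),
  (pr (kc true 0 0 0 0 0) (kc false 2 1 1 0 0) m_l_5_8_11 m_v_1,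
    pr (kc false 0 0 0 0 0) (kc false 2 1 1 0 0) m_l_3_10_11 m_v_1),
  (pr (kc true 0 2 0 0 0) (kc false 2 0 0 0 0) m_l_5_8_11 m_l_2_11_11,
    pr (kc false 0 0 0 1 0) (kc false 2 0 0 0 0) m_l_4_9_11 m_l_2_11_11),
  (pr (kc false 0 0 0 0 0) (kc false 1 3 0 0 0) m_l_7_8_9 m_v_5,
    pr (kc true 0 0 0 0 0) (kc false 1 3 0 0 0) m_l_6_7_11 m_v_5),
  (pr (kc true 0 1 1 0 0) (kc false 1 0 0 0 0) m_v_5 m_v_2,
    pr (kc false 0 0 0 1 0) (kc false 1 0 0 0 0) m_v_3 m_v_2),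
  (pr (kc false 1 0 0 1 0) (kc false 0 2 1 0 0) m_l_6_9_9 m_l_1_5_6,
    pr (kc true 0 0 0 0 1) (kc false 0 2 1 0 0) m_l_2_4_6 m_l_1_5_6),
  (pr (kc true 0 0 0 0 0) (kc false 3 1 0 0 0) m_l_3_4_5 m_v_3,
    pr (kc false 0 0 0 0 0) (kc false 3 1 0 0 0) m_l_3_3_6 m_v_3),
  (pr (kc false 0 0 0 0 0) (kc false 0 2 2 0 0) m_l_7_8_9 m_v_5,
    pr (kc true 0 0 0 0 0) (kc false 0 2 2 0 0) m_l_2_3_7 m_v_5),
  (pr (kc true 0 0 0 0 0) (kc false 0 0 1 0 1) m_l_6_9_9 m_v_6,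
    pr (kc false 0 0 0 0 0) (kc false 0 0 1 0 1) m_l_1_5_6 m_v_6),
  (pr (kc false 0 0 1 0 0) (kc false 1 0 0 0 0) m_l_6_7_11 m_l_4_9_11,
    pr (kc true 0 1 0 0 0) (kc false 1 0 0 0 0) m_l_5_8_11 m_l_4_9_11),
  (pr (kc false 0 0 1 0 0) (kc false 2 0 0 0 0) m_v_6 m_v_3,
    pr (kc false 0 2 0 0 0) (kc false 2 0 0 0 0) m_v_5 m_v_3),
  (pr (kc false 0 0 0 0 0) (kc false 2 0 0 1 0) m_l_3_4_5 m_v_3,
    pr (kc true 0 0 0 0 0) (kc false 2 0 0 1 0) m_l_2_3_7 m_v_3),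
  (pr (kc false 0 2 1 0 0) (kc false 1 0 0 1 0) m_l_2_5_5 m_l_1_2_9,
    pr (kc false 0 0 0 0 1) (kc false 1 0 0 1 0) m_l_2_2_8 m_l_1_2_9),
  (pr (kc false 0 3 0 0 0) (kc false 3 0 0 0 0) m_l_2_5_5 m_l_1_2_9,
    pr (kc false 0 0 0 0 1) (kc false 3 0 0 0 0) m_l_2_4_6 m_l_1_2_9),
  (pr (kc true 0 2 0 0 0) (kc false 1 0 1 0 0) m_l_5_9_10 m_l_1_1_10,
    pr (kc false 0 0 0 0 1) (kc false 1 0 1 0 0) m_l_3_10_11 m_l_1_1_10),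
  (pr (kc false 0 0 0 0 0) (kc false 0 1 1 1 0) m_l_3_10_11 m_v_3,
    pr (kc true 0 0 0 0 0) (kc false 0 1 1 1 0) m_l_3_4_5 m_v_3),
  (pr (kc false 1 1 2 0 0) (kc false 0 0 0 2 0) (Mo.mul m_l_2_5_5 m_l_2_11_11) (Mo.mul m_l_1_2_9 m_l_2_3_7),
    pr (kc false 0 0 0 0 1) (kc false 0 0 0 2 0) (Mo.mul m_l_2_2_8 m_l_2_2_8) (Mo.mul m_l_1_2_9 m_l_2_3_7)),
  (pr (kc false 0 1 0 1 0) (kc false 2 0 1 0 0) m_l_6_9_9 m_l_1_5_6,
    pr (kc false 0 0 0 0 1) (kc false 2 0 1 0 0) m_l_6_8_10 m_l_1_5_6),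
  (pr (kc true 0 0 0 0 0) (kc false 2 1 1 0 0) m_l_7_8_9 m_v_5,
    pr (kc false 0 0 0 0 0) (kc false 2 1 1 0 0) m_l_7_7_10 m_v_5)]

include he hne in
theorem sp6 : Sols (gs12 x y T) cp6 := by
  intro p hp
  unfold cp6 at hp
  simp only [List.mem_cons, List.not_mem_nil, or_false] at hp
  rcases hp with rfl | rfl | rfl | rfl | rfl | rfl | rfl | rfl | rfl | rfl | rfl | rfl | rfl | rfl | rfl | rfl | rfl | rfl | rfl | rfl | rfl | rfl | rfl | rfl | rfl | rfl | rfl | rfl | rfl | rfl | rfl | rfl | rfl | rfl | rfl | rfl | rfl | rfl | rfl | rfl | rfl | rfl | rfl | rfl | rfl | rfl | rfl | rfl | rfl | rfl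
  · exact c250 he hne
  · exact c251 he hne
  · exact c252 he hne
  · exact c253 he hne
  · exact c254 he hne
  · exact c255 he hne
  · exact c256 he hne
  · exact c257 he hne
  · exact c258 he hne
  · exact c259 he hne
  · exact c260 he hne
  · exact c261 he hne
  · exact c262 he hne
  · exact c263 he hne
  · exact c264 he hne
  · exact c265 he hne
  · exact c266 he hne
  · exact c267 he hne
  · exact c268 he hne
  · exact c269 he hne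
  · exact c270 he hne
  · exact c271 he hne
  · exact c272 he hne
  · exact c273 he hne
  · exact c274 he hne
  · exact c275 he hne
  · exact c276 he hne
  · exact c277 he hne
  · exact c278 he hne
  · exact c279 he hne
  · exact c280 he hne
  · exact c281 he hne
  · exact c282 he hne
  · exact c283 he hne
  · exact c284 he hne
  · exact c285 he hne
  · exact c286 he hne
  · exact c287 he hne
  · exact c288 he hne
  · exact c289 he hne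
  · exact c290 he hne
  · exact c291 he hne
  · exact c292 he hne
  · exact c293 he hne
  · exact c294 he hne
  · exact c295 he hne
  · exact c296 he hne
  · exact c297 he hne
  · exact c298 he hne
  · exact c299 he hne

end Pool.Agent.UE12C
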