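import Pool.Agent.Lib_helper7.N12.L

/-!
# The solutions of the unit equation for a point of order twelve, part 7
-/

set_option autoImplicit false
set_option linter.unusedSectionVars false
set_option linter.unusedSimpArgs false
set_option maxRecDepth 100000

namespace Pool.Agent.UE12C

open Pool.Agent.KC72

variable {F : Type*} [Field F] {x y T : F} (he : HE12 x y T) (hne : ∀ z ∈ gs12 x y T, z ≠ 0)

include he hne in
lemma c300 : ev (gs12 x y T) (pr (kc false 0 0 0 0 0) (kc false 0 0 0 0 1) (Mo.mul m_l_2_5_5 m_l_2_11_11) (Mo.mul m_v_2 m_l_2_4_6)) +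
    ev (gs12 x y T) (pr (kc true 0 0 0 0 0) (kc false 0 0 0 0 1) (Mo.mul m_l_1_2_9 m_l_2_3_7) (Mo.mul m_v_2 m_l_2_4_6)) = 1 := by
  refine cls3 hne (mul2 hne (e_l_2_5_5 he hne) (e_l_2_11_11 he hne)) (mul2 hne e_l_1_2_9 (e_l_2_3_7 he hne)) (mul2 hne e_v_2 (e_l_2_4_6 he hne)) _ _ _ _ _ _ _ _ _ _ _ _ _ _ _ _ _ ?_
  simp only [kv, cond_true, cond_false]
  ring

include he hne in
lemma c301 : ev (gs12 x y T) (pr (kc false 0 0 1 0 0) (kc false 1 0 0 0 0) m_l_5_8_11 m_l_3_10_11) +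
    ev (gs12 x y T) (pr (kc true 0 1 0 0 0) (kc false 1 0 0 0 0) m_l_4_9_11 m_l_3_10_11) = 1 := by
  refine cls3 hne (e_l_5_8_11 he hne) (e_l_4_9_11 he hne) (e_l_3_10_11 he hne) _ _ _ _ _ _ _ _ _ _ _ _ _ _ _ _ _ ?_
  simp only [kv, cond_true, cond_false]
  ring

include he hne in
lemma c302 : ev (gs12 x y T) (pr (kc false 0 0 0 0 0) (kc false 1 0 0 0 1) m_l_2_5_5 m_v_2) +
    ev (gs12 x y T) (pr (kc true 0 0 0 0 0) (kc false 1 0 0 0 1) m_l_1_2_9 m_v_2) = 1 := by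
  refine cls3 hne (e_l_2_5_5 he hne) e_l_1_2_9 e_v_2 _ _ _ _ _ _ _ _ _ _ _ _ _ _ _ _ _ ?_
  simp only [kv, cond_true, cond_false]
  ring

include he hne in
lemma c303 : ev (gs12 x y T) (pr (kc true 0 1 0 0 1) (kc false 3 0 0 0 0) m_l_7_7_10 m_l_1_1_10) +
    ev (gs12 x y T) (pr (kc false 0 0 1 1 0) (kc false 3 0 0 0 0) m_l_5_9_10 m_l_1_1_10) = 1 := by
  refine cls3 hne (e_l_7_7_10 he hne) (e_l_5_9_10 he hne) e_l_1_1_10 _ _ _ _ _ _ _ _ _ _ _ _ _ _ _ _ _ ?_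
  simp only [kv, cond_true, cond_false]
  ring

include he hne in
lemma c304 : ev (gs12 x y T) (pr (kc false 1 0 0 0 1) (kc false 0 0 1 1 0) m_l_2_11_11 m_l_1_2_9) +
    ev (gs12 x y T) (pr (kc false 0 3 0 0 0) (kc false 0 0 1 1 0) m_l_2_5_5 m_l_1_2_9) = 1 := by
  refine cls3 hne (e_l_2_11_11 he hne) (e_l_2_5_5 he hne) e_l_1_2_9 _ _ _ _ _ _ _ _ _ _ _ _ _ _ _ _ _ ?_
  simp only [kv, cond_true, cond_false]
  ring

include he hne in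
lemma c305 : ev (gs12 x y T) (pr (kc true 0 0 0 1 0) (kc false 1 1 0 0 0) m_l_6_9_9 m_l_1_5_6) +
    ev (gs12 x y T) (pr (kc false 0 0 0 0 1) (kc false 1 1 0 0 0) m_l_6_7_11 m_l_1_5_6) = 1 := by
  refine cls3 hne (e_l_6_9_9 he hne) (e_l_6_7_11 he hne) e_l_1_5_6 _ _ _ _ _ _ _ _ _ _ _ _ _ _ _ _ _ ?_
  simp only [kv, cond_true, cond_false]
  ring

include he hne in
lemma c306 : ev (gs12 x y T) (pr (kc false 0 0 0 2 0) (kc false 1 1 2 0 0) (Mo.mul m_v_3 m_v_3) (Mo.mul m_v_1 m_v_5)) +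
    ev (gs12 x y T) (pr (kc true 0 0 0 0 1) (kc false 1 1 2 0 0) (Mo.mul m_v_2 m_v_4) (Mo.mul m_v_1 m_v_5)) = 1 := by
  refine cls3 hne (mul2 hne e_v_3 e_v_3) (mul2 hne e_v_2 e_v_4) (mul2 hne e_v_1 e_v_5) _ _ _ _ _ _ _ _ _ _ _ _ _ _ _ _ _ ?_
  simp only [kv, cond_true, cond_false]
  ring

include he hne in
lemma c307 : ev (gs12 x y T) (pr (kc false 1 1 0 0 0) (kc false 0 0 2 0 0) m_l_6_9_9 m_l_1_5_6) +
    ev (gs12 x y T) (pr (kc false 0 0 0 0 1) (kc false 0 0 2 0 0) m_l_3_3_6 m_l_1_5_6) = 1 := by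
  refine cls3 hne (e_l_6_9_9 he hne) (e_l_3_3_6 he hne) e_l_1_5_6 _ _ _ _ _ _ _ _ _ _ _ _ _ _ _ _ _ ?_
  simp only [kv, cond_true, cond_false]
  ring

include he hne in
lemma c308 : ev (gs12 x y T) (pr (kc true 0 1 1 0 0) (kc false 2 0 0 0 0) m_l_2_5_5 m_l_1_2_9) +
    ev (gs12 x y T) (pr (kc false 0 0 0 0 1) (kc false 2 0 0 0 0) m_l_2_3_7 m_l_1_2_9) = 1 := by
  refine cls3 hne (e_l_2_5_5 he hne) (e_l_2_3_7 he hne) e_l_1_2_9 _ _ _ _ _ _ _ _ _ _ _ _ _ _ _ _ _ ?_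
  simp only [kv, cond_true, cond_false]
  ring

include he hne in
lemma c309 : ev (gs12 x y T) (pr (kc true 0 0 0 0 0) (kc false 1 1 2 0 1) (Mo.mul m_v_3 m_v_3) (Mo.mul m_1 m_v_6)) +
    ev (gs12 x y T) (pr (kc false 0 0 0 0 0) (kc false 1 1 2 0 1) (Mo.mul m_v_1 m_v_5) (Mo.mul m_1 m_v_6)) = 1 := by
  refine cls3 hne (mul2 hne e_v_3 e_v_3) (mul2 hne e_v_1 e_v_5) (mul2 hne e_1 e_v_6) _ _ _ _ _ _ _ _ _ _ _ _ _ _ _ _ _ ?_
  simp only [kv, cond_true, cond_false]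
  ring

include he hne in
lemma c310 : ev (gs12 x y T) (pr (kc false 0 0 1 1 0) (kc false 3 0 0 0 0) m_v_6 m_v_1) +
    ev (gs12 x y T) (pr (kc true 0 1 0 0 1) (kc false 3 0 0 0 0) m_v_4 m_v_1) = 1 := by
  refine cls3 hne e_v_6 e_v_4 e_v_1 _ _ _ _ _ _ _ _ _ _ _ _ _ _ _ _ _ ?_
  simp only [kv, cond_true, cond_false]
  ring

include he hne in
lemma c311 : ev (gs12 x y T) (pr (kc false 0 0 0 0 0) (kc false 0 1 1 0 1) m_l_4_10_10 m_v_4) +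
    ev (gs12 x y T) (pr (kc true 0 0 0 0 0) (kc false 0 1 1 0 1) m_l_3_4_5 m_v_4) = 1 := by
  refine cls3 hne (e_l_4_10_10 he hne) (e_l_3_4_5 he hne) e_v_4 _ _ _ _ _ _ _ _ _ _ _ _ _ _ _ _ _ ?_
  simp only [kv, cond_true, cond_false]
  ring

include he hne in
lemma c312 : ev (gs12 x y T) (pr (kc true 0 0 0 0 0) (kc false 1 5 0 0 1) m_v_6 m_1) +
    ev (gs12 x y T) (pr (kc false 0 0 0 0 0) (kc false 1 5 0 0 1) m_v_1 m_1) = 1 := by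
  refine cls3 hne e_v_6 e_v_1 e_1 _ _ _ _ _ _ _ _ _ _ _ _ _ _ _ _ _ ?_
  simp only [kv, cond_true, cond_false]
  ring

include he hne in
lemma c313 : ev (gs12 x y T) (pr (kc false 0 0 0 0 1) (kc false 1 1 0 0 0) m_v_4 m_v_2) +
    ev (gs12 x y T) (pr (kc true 0 0 0 1 0) (kc false 1 1 0 0 0) m_v_3 m_v_2) = 1 := by
  refine cls3 hne e_v_4 e_v_3 e_v_2 _ _ _ _ _ _ _ _ _ _ _ _ _ _ _ _ _ ?_
  simp only [kv, cond_true, cond_false]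
  ring

include he hne in
lemma c314 : ev (gs12 x y T) (pr (kc false 3 0 0 0 0) (kc false 0 0 1 1 0) m_l_4_10_10 m_l_3_4_5) +
    ev (gs12 x y T) (pr (kc false 0 1 0 0 1) (kc false 0 0 1 1 0) m_l_4_4_4 m_l_3_4_5) = 1 := by
  refine cls3 hne (e_l_4_10_10 he hne) (e_l_4_4_4 he hne) (e_l_3_4_5 he hne) _ _ _ _ _ _ _ _ _ _ _ _ _ _ _ _ _ ?_
  simp only [kv, cond_true, cond_false]
  ring

include he hne in
lemma c315 : ev (gs12 x y T) (pr (kc false 1 1 0 0 0) (kc false 0 0 2 0 0) m_l_4_10_10 m_l_1_4_7) +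
    ev (gs12 x y T) (pr (kc false 0 0 0 0 1) (kc false 0 0 2 0 0) m_l_4_4_4 m_l_1_4_7) = 1 := by
  refine cls3 hne (e_l_4_10_10 he hne) (e_l_4_4_4 he hne) e_l_1_4_7 _ _ _ _ _ _ _ _ _ _ _ _ _ _ _ _ _ ?_
  simp only [kv, cond_true, cond_false]
  ring

include he hne in
lemma c316 : ev (gs12 x y T) (pr (kc false 0 0 0 0 0) (kc false 0 0 0 1 1) m_l_4_10_10 m_v_4) +
    ev (gs12 x y T) (pr (kc true 0 0 0 0 0) (kc false 0 0 0 1 1) m_l_1_4_7 m_v_4) = 1 := by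
  refine cls3 hne (e_l_4_10_10 he hne) e_l_1_4_7 e_v_4 _ _ _ _ _ _ _ _ _ _ _ _ _ _ _ _ _ ?_
  simp only [kv, cond_true, cond_false]
  ring

include he hne in
lemma c317 : ev (gs12 x y T) (pr (kc false 0 0 2 0 0) (kc false 1 1 0 0 0) m_v_6 m_v_3) +
    ev (gs12 x y T) (pr (kc true 0 0 0 0 1) (kc false 1 1 0 0 0) m_v_4 m_v_3) = 1 := by
  refine cls3 hne e_v_6 e_v_4 e_v_3 _ _ _ _ _ _ _ _ _ _ _ _ _ _ _ _ _ ?_
  simp only [kv, cond_true, cond_false]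
  ring

include he hne in
lemma c318 : ev (gs12 x y T) (pr (kc true 0 0 0 0 0) (kc false 3 3 0 0 1) m_v_6 m_1) +
    ev (gs12 x y T) (pr (kc false 0 0 0 0 0) (kc false 3 3 0 0 1) m_v_3 m_1) = 1 := by
  refine cls3 hne e_v_6 e_v_3 e_1 _ _ _ _ _ _ _ _ _ _ _ _ _ _ _ _ _ ?_
  simp only [kv, cond_true, cond_false]
  ring

include he hne in
lemma c319 : ev (gs12 x y T) (pr (kc false 0 0 0 0 0) (kc false 2 0 0 0 1) m_l_3_4_5 m_v_4) +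
    ev (gs12 x y T) (pr (kc true 0 0 0 0 0) (kc false 2 0 0 0 1) m_l_2_4_6 m_v_4) = 1 := by
  refine cls3 hne (e_l_3_4_5 he hne) (e_l_2_4_6 he hne) e_v_4 _ _ _ _ _ _ _ _ _ _ _ _ _ _ _ _ _ ?_
  simp only [kv, cond_true, cond_false]
  ring

include he hne in
lemma c320 : ev (gs12 x y T) (pr (kc true 0 0 0 0 0) (kc false 1 1 0 0 1) m_l_2_4_6 m_v_4) +
    ev (gs12 x y T) (pr (kc false 0 0 0 0 0) (kc false 1 1 0 0 1) m_l_1_4_7 m_v_4) = 1 := by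
  refine cls3 hne (e_l_2_4_6 he hne) e_l_1_4_7 e_v_4 _ _ _ _ _ _ _ _ _ _ _ _ _ _ _ _ _ ?_
  simp only [kv, cond_true, cond_false]
  ring

include he hne in
lemma c321 : ev (gs12 x y T) (pr (kc false 0 0 0 0 1) (kc false 2 0 0 0 0) m_l_8_8_8 m_l_1_3_8) +
    ev (gs12 x y T) (pr (kc true 0 1 1 0 0) (kc false 2 0 0 0 0) m_l_6_8_10 m_l_1_3_8) = 1 := by
  refine cls3 hne (e_l_8_8_8 he hne) (e_l_6_8_10 he hne) e_l_1_3_8 _ _ _ _ _ _ _ _ _ _ _ _ _ _ _ _ _ ?_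
  simp only [kv, cond_true, cond_false]
  ring

include he hne in
lemma c322 : ev (gs12 x y T) (pr (kc false 0 0 0 0 1) (kc false 1 1 0 0 0) m_l_4_4_4 m_l_1_4_7) +
    ev (gs12 x y T) (pr (kc true 0 0 0 1 0) (kc false 1 1 0 0 0) m_l_2_4_6 m_l_1_4_7) = 1 := by
  refine cls3 hne (e_l_4_4_4 he hne) (e_l_2_4_6 he hne) e_l_1_4_7 _ _ _ _ _ _ _ _ _ _ _ _ _ _ _ _ _ ?_
  simp only [kv, cond_true, cond_false]
  ring

include he hne in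
lemma c323 : ev (gs12 x y T) (pr (kc true 0 0 0 0 0) (kc false 2 0 0 0 1) m_l_7_8_9 m_v_4) +
    ev (gs12 x y T) (pr (kc false 0 0 0 0 0) (kc false 2 0 0 0 1) m_l_6_8_10 m_v_4) = 1 := by
  refine cls3 hne (e_l_7_8_9 he hne) (e_l_6_8_10 he hne) e_v_4 _ _ _ _ _ _ _ _ _ _ _ _ _ _ _ _ _ ?_
  simp only [kv, cond_true, cond_false]
  ring

include he hne in
lemma c324 : ev (gs12 x y T) (pr (kc false 0 0 0 0 1) (kc false 1 0 1 0 0) m_v_4 m_v_1) +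
    ev (gs12 x y T) (pr (kc true 0 2 0 0 0) (kc false 1 0 1 0 0) m_v_2 m_v_1) = 1 := by
  refine cls3 hne e_v_4 e_v_2 e_v_1 _ _ _ _ _ _ _ _ _ _ _ _ _ _ _ _ _ ?_
  simp only [kv, cond_true, cond_false]
  ring

include he hne in
lemma c325 : ev (gs12 x y T) (pr (kc true 0 0 0 0 0) (kc false 1 2 1 1 1) m_v_2 m_1) +
    ev (gs12 x y T) (pr (kc false 0 0 0 0 0) (kc false 1 2 1 1 1) m_v_1 m_1) = 1 := by
  refine cls3 hne e_v_2 e_v_1 e_1 _ _ _ _ _ _ _ _ _ _ _ _ _ _ _ _ _ ?_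
  simp only [kv, cond_true, cond_false]
  ring

include he hne in
lemma c326 : ev (gs12 x y T) (pr (kc false 0 0 0 0 1) (kc false 1 0 1 0 0) m_l_4_4_4 m_l_2_4_6) +
    ev (gs12 x y T) (pr (kc true 0 2 0 0 0) (kc false 1 0 1 0 0) m_l_3_4_5 m_l_2_4_6) = 1 := by
  refine cls3 hne (e_l_4_4_4 he hne) (e_l_3_4_5 he hne) (e_l_2_4_6 he hne) _ _ _ _ _ _ _ _ _ _ _ _ _ _ _ _ _ ?_
  simp only [kv, cond_true, cond_false]
  ring

include he hne in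
lemma c327 : ev (gs12 x y T) (pr (kc false 0 0 0 0 0) (kc false 1 1 0 0 1) m_l_6_8_10 m_v_4) +
    ev (gs12 x y T) (pr (kc true 0 0 0 0 0) (kc false 1 1 0 0 1) m_l_5_8_11 m_v_4) = 1 := by
  refine cls3 hne (e_l_6_8_10 he hne) (e_l_5_8_11 he hne) e_v_4 _ _ _ _ _ _ _ _ _ _ _ _ _ _ _ _ _ ?_
  simp only [kv, cond_true, cond_false]
  ring

include he hne in
lemma c328 : ev (gs12 x y T) (pr (kc true 0 0 0 0 0) (kc false 1 0 1 0 1) m_l_2_2_8 m_v_4) +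
    ev (gs12 x y T) (pr (kc false 0 0 0 0 0) (kc false 1 0 1 0 1) m_l_1_3_8 m_v_4) = 1 := by
  refine cls3 hne (e_l_2_2_8 he hne) e_l_1_3_8 e_v_4 _ _ _ _ _ _ _ _ _ _ _ _ _ _ _ _ _ ?_
  simp only [kv, cond_true, cond_false]
  ring

include he hne in
lemma c329 : ev (gs12 x y T) (pr (kc false 0 0 0 0 0) (kc false 2 2 2 0 1) m_v_3 m_1) +
    ev (gs12 x y T) (pr (kc true 0 0 0 0 0) (kc false 2 2 2 0 1) m_v_2 m_1) = 1 := by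
  refine cls3 hne e_v_3 e_v_2 e_1 _ _ _ _ _ _ _ _ _ _ _ _ _ _ _ _ _ ?_
  simp only [kv, cond_true, cond_false]
  ring

include he hne in
lemma c330 : ev (gs12 x y T) (pr (kc true 2 0 0 0 0) (kc false 0 1 1 0 0) m_l_4_9_11 m_l_2_4_6) +
    ev (gs12 x y T) (pr (kc false 0 0 0 0 1) (kc false 0 1 1 0 0) m_l_4_4_4 m_l_2_4_6) = 1 := by
  refine cls3 hne (e_l_4_9_11 he hne) (e_l_4_4_4 he hne) (e_l_2_4_6 he hne) _ _ _ _ _ _ _ _ _ _ _ _ _ _ _ _ _ ?_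
  simp only [kv, cond_true, cond_false]
  ring

include he hne in
lemma c331 : ev (gs12 x y T) (pr (kc false 0 0 0 0 0) (kc false 0 2 0 0 1) m_l_4_9_11 m_v_4) +
    ev (gs12 x y T) (pr (kc true 0 0 0 0 0) (kc false 0 2 0 0 1) m_l_2_4_6 m_v_4) = 1 := by
  refine cls3 hne (e_l_4_9_11 he hne) (e_l_2_4_6 he hne) e_v_4 _ _ _ _ _ _ _ _ _ _ _ _ _ _ _ _ _ ?_
  simp only [kv, cond_true, cond_false]
  ring

include he hne in
lemma c332 : ev (gs12 x y T) (pr (kc false 0 0 0 0 1) (kc false 1 1 0 0 0) m_l_8_8_8 m_l_5_8_11) +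
    ev (gs12 x y T) (pr (kc true 0 0 0 1 0) (kc false 1 1 0 0 0) m_l_6_8_10 m_l_5_8_11) = 1 := by
  refine cls3 hne (e_l_8_8_8 he hne) (e_l_6_8_10 he hne) (e_l_5_8_11 he hne) _ _ _ _ _ _ _ _ _ _ _ _ _ _ _ _ _ ?_
  simp only [kv, cond_true, cond_false]
  ring

include he hne in
lemma c333 : ev (gs12 x y T) (pr (kc false 0 0 1 1 0) (kc false 1 0 0 0 1) m_v_6 m_v_4) +
    ev (gs12 x y T) (pr (kc true 0 3 0 0 0) (kc false 1 0 0 0 1) m_v_5 m_v_4) = 1 := by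
  refine cls3 hne e_v_6 e_v_5 e_v_4 _ _ _ _ _ _ _ _ _ _ _ _ _ _ _ _ _ ?_
  simp only [kv, cond_true, cond_false]
  ring

include he hne in
lemma c334 : ev (gs12 x y T) (pr (kc false 0 0 0 0 0) (kc false 1 0 1 0 1) m_l_4_10_10 m_v_4) +
    ev (gs12 x y T) (pr (kc true 0 0 0 0 0) (kc false 1 0 1 0 1) m_l_4_9_11 m_v_4) = 1 := by
  refine cls3 hne (e_l_4_10_10 he hne) (e_l_4_9_11 he hne) e_v_4 _ _ _ _ _ _ _ _ _ _ _ _ _ _ _ _ _ ?_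
  simp only [kv, cond_true, cond_false]
  ring

include he hne in
lemma c335 : ev (gs12 x y T) (pr (kc true 0 1 1 0 0) (kc false 2 0 0 0 0) m_v_5 m_v_2) +
    ev (gs12 x y T) (pr (kc false 0 0 0 0 1) (kc false 2 0 0 0 0) m_v_4 m_v_2) = 1 := by
  refine cls3 hne e_v_5 e_v_4 e_v_2 _ _ _ _ _ _ _ _ _ _ _ _ _ _ _ _ _ ?_
  simp only [kv, cond_true, cond_false]
  ring

include he hne in
lemma c336 : ev (gs12 x y T) (pr (kc false 0 0 0 0 0) (kc false 2 1 1 1 1) m_v_5 m_1) +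
    ev (gs12 x y T) (pr (kc true 0 0 0 0 0) (kc false 2 1 1 1 1) m_v_2 m_1) = 1 := by
  refine cls3 hne e_v_5 e_v_2 e_1 _ _ _ _ _ _ _ _ _ _ _ _ _ _ _ _ _ ?_
  simp only [kv, cond_true, cond_false]
  ring

include he hne in
lemma c337 : ev (gs12 x y T) (pr (kc true 0 0 0 0 0) (kc false 5 1 0 0 1) m_v_6 m_1) +
    ev (gs12 x y T) (pr (kc false 0 0 0 0 0) (kc false 5 1 0 0 1) m_v_5 m_1) = 1 := by
  refine cls3 hne e_v_6 e_v_5 e_1 _ _ _ _ _ _ _ _ _ _ _ _ _ _ _ _ _ ?_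
  simp only [kv, cond_true, cond_false]
  ring

include he hne in
lemma c338 : ev (gs12 x y T) (pr (kc true 0 3 0 0 0) (kc false 1 0 0 0 1) m_l_4_10_10 m_l_4_4_4) +
    ev (gs12 x y T) (pr (kc false 0 0 1 1 0) (kc false 1 0 0 0 1) m_l_4_9_11 m_l_4_4_4) = 1 := by
  refine cls3 hne (e_l_4_10_10 he hne) (e_l_4_9_11 he hne) (e_l_4_4_4 he hne) _ _ _ _ _ _ _ _ _ _ _ _ _ _ _ _ _ ?_
  simp only [kv, cond_true, cond_false]
  ring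

include he hne in
lemma c339 : ev (gs12 x y T) (pr (kc true 0 1 0 0 1) (kc false 3 0 0 0 0) m_l_8_8_8 m_l_2_2_8) +
    ev (gs12 x y T) (pr (kc false 0 0 1 1 0) (kc false 3 0 0 0 0) m_l_7_8_9 m_l_2_2_8) = 1 := by
  refine cls3 hne (e_l_8_8_8 he hne) (e_l_7_8_9 he hne) (e_l_2_2_8 he hne) _ _ _ _ _ _ _ _ _ _ _ _ _ _ _ _ _ ?_
  simp only [kv, cond_true, cond_false]
  ring

include he hne in
lemma c340 : ev (gs12 x y T) (pr (kc false 1 0 0 0 1) (kc false 0 0 1 1 0) m_l_8_8_8 m_l_1_3_8) +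
    ev (gs12 x y T) (pr (kc false 0 3 0 0 0) (kc false 0 0 1 1 0) m_l_2_2_8 m_l_1_3_8) = 1 := by
  refine cls3 hne (e_l_8_8_8 he hne) (e_l_2_2_8 he hne) e_l_1_3_8 _ _ _ _ _ _ _ _ _ _ _ _ _ _ _ _ _ ?_
  simp only [kv, cond_true, cond_false]
  ring

include he hne in
lemma c341 : ev (gs12 x y T) (pr (kc false 0 0 0 0 1) (kc false 1 0 1 0 0) m_l_8_8_8 m_l_6_8_10) +
    ev (gs12 x y T) (pr (kc true 0 2 0 0 0) (kc false 1 0 1 0 0) m_l_7_8_9 m_l_6_8_10) = 1 := by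
  refine cls3 hne (e_l_8_8_8 he hne) (e_l_7_8_9 he hne) (e_l_6_8_10 he hne) _ _ _ _ _ _ _ _ _ _ _ _ _ _ _ _ _ ?_
  simp only [kv, cond_true, cond_false]
  ring

include he hne in
lemma c342 : ev (gs12 x y T) (pr (kc false 0 0 0 0 0) (kc false 0 1 1 0 1) m_l_7_8_9 m_v_4) +
    ev (gs12 x y T) (pr (kc true 0 0 0 0 0) (kc false 0 1 1 0 1) m_l_2_2_8 m_v_4) = 1 := by
  refine cls3 hne (e_l_7_8_9 he hne) (e_l_2_2_8 he hne) e_v_4 _ _ _ _ _ _ _ _ _ _ _ _ _ _ _ _ _ ?_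
  simp only [kv, cond_true, cond_false]
  ring

include he hne in
lemma c343 : ev (gs12 x y T) (pr (kc false 0 0 0 0 0) (kc false 0 0 0 1 1) m_l_5_8_11 m_v_4) +
    ev (gs12 x y T) (pr (kc true 0 0 0 0 0) (kc false 0 0 0 1 1) m_l_2_2_8 m_v_4) = 1 := by
  refine cls3 hne (e_l_5_8_11 he hne) (e_l_2_2_8 he hne) e_v_4 _ _ _ _ _ _ _ _ _ _ _ _ _ _ _ _ _ ?_
  simp only [kv, cond_true, cond_false]
  ring

include he hne in
lemma c344 : ev (gs12 x y T) (pr (kc true 0 0 0 0 1) (kc false 1 1 0 0 0) m_l_8_8_8 m_l_2_2_8) +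
    ev (gs12 x y T) (pr (kc false 0 0 2 0 0) (kc false 1 1 0 0 0) m_l_5_8_11 m_l_2_2_8) = 1 := by
  refine cls3 hne (e_l_8_8_8 he hne) (e_l_5_8_11 he hne) (e_l_2_2_8 he hne) _ _ _ _ _ _ _ _ _ _ _ _ _ _ _ _ _ ?_
  simp only [kv, cond_true, cond_false]
  ring

/-- part 7 of the list -/
def cp7 : List (Mo × Mo) := [
  (pr (kc false 0 0 0 0 0) (kc false 0 0 0 0 1) (Mo.mul m_l_2_5_5 m_l_2_11_11) (Mo.mul m_v_2 m_l_2_4_6),
    pr (kc true 0 0 0 0 0) (kc false 0 0 0 0 1) (Mo.mul m_l_1_2_9 m_l_2_3_7) (Mo.mul m_v_2 m_l_2_4_6)),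
  (pr (kc false 0 0 1 0 0) (kc false 1 0 0 0 0) m_l_5_8_11 m_l_3_10_11,
    pr (kc true 0 1 0 0 0) (kc false 1 0 0 0 0) m_l_4_9_11 m_l_3_10_11),
  (pr (kc false 0 0 0 0 0) (kc false 1 0 0 0 1) m_l_2_5_5 m_v_2,
    pr (kc true 0 0 0 0 0) (kc false 1 0 0 0 1) m_l_1_2_9 m_v_2),
  (pr (kc true 0 1 0 0 1) (kc false 3 0 0 0 0) m_l_7_7_10 m_l_1_1_10,
    pr (kc false 0 0 1 1 0) (kc false 3 0 0 0 0) m_l_5_9_10 m_l_1_1_10),
  (pr (kc false 1 0 0 0 1) (kc false 0 0 1 1 0) m_l_2_11_11 m_l_1_2_9,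
    pr (kc false 0 3 0 0 0) (kc false 0 0 1 1 0) m_l_2_5_5 m_l_1_2_9),
  (pr (kc true 0 0 0 1 0) (kc false 1 1 0 0 0) m_l_6_9_9 m_l_1_5_6,
    pr (kc false 0 0 0 0 1) (kc false 1 1 0 0 0) m_l_6_7_11 m_l_1_5_6),
  (pr (kc false 0 0 0 2 0) (kc false 1 1 2 0 0) (Mo.mul m_v_3 m_v_3) (Mo.mul m_v_1 m_v_5),
    pr (kc true 0 0 0 0 1) (kc false 1 1 2 0 0) (Mo.mul m_v_2 m_v_4) (Mo.mul m_v_1 m_v_5)),
  (pr (kc false 1 1 0 0 0) (kc false 0 0 2 0 0) m_l_6_9_9 m_l_1_5_6,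
    pr (kc false 0 0 0 0 1) (kc false 0 0 2 0 0) m_l_3_3_6 m_l_1_5_6),
  (pr (kc true 0 1 1 0 0) (kc false 2 0 0 0 0) m_l_2_5_5 m_l_1_2_9,
    pr (kc false 0 0 0 0 1) (kc false 2 0 0 0 0) m_l_2_3_7 m_l_1_2_9),
  (pr (kc true 0 0 0 0 0) (kc false 1 1 2 0 1) (Mo.mul m_v_3 m_v_3) (Mo.mul m_1 m_v_6),
    pr (kc false 0 0 0 0 0) (kc false 1 1 2 0 1) (Mo.mul m_v_1 m_v_5) (Mo.mul m_1 m_v_6)),
  (pr (kc false 0 0 1 1 0) (kc false 3 0 0 0 0) m_v_6 m_v_1,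
    pr (kc true 0 1 0 0 1) (kc false 3 0 0 0 0) m_v_4 m_v_1),
  (pr (kc false 0 0 0 0 0) (kc false 0 1 1 0 1) m_l_4_10_10 m_v_4,
    pr (kc true 0 0 0 0 0) (kc false 0 1 1 0 1) m_l_3_4_5 m_v_4),
  (pr (kc true 0 0 0 0 0) (kc false 1 5 0 0 1) m_v_6 m_1,
    pr (kc false 0 0 0 0 0) (kc false 1 5 0 0 1) m_v_1 m_1),
  (pr (kc false 0 0 0 0 1) (kc false 1 1 0 0 0) m_v_4 m_v_2,
    pr (kc true 0 0 0 1 0) (kc false 1 1 0 0 0) m_v_3 m_v_2),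
  (pr (kc false 3 0 0 0 0) (kc false 0 0 1 1 0) m_l_4_10_10 m_l_3_4_5,
    pr (kc false 0 1 0 0 1) (kc false 0 0 1 1 0) m_l_4_4_4 m_l_3_4_5),
  (pr (kc false 1 1 0 0 0) (kc false 0 0 2 0 0) m_l_4_10_10 m_l_1_4_7,
    pr (kc false 0 0 0 0 1) (kc false 0 0 2 0 0) m_l_4_4_4 m_l_1_4_7),
  (pr (kc false 0 0 0 0 0) (kc false 0 0 0 1 1) m_l_4_10_10 m_v_4,
    pr (kc true 0 0 0 0 0) (kc false 0 0 0 1 1) m_l_1_4_7 m_v_4),
  (pr (kc false 0 0 2 0 0) (kc false 1 1 0 0 0) m_v_6 m_v_3,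
    pr (kc true 0 0 0 0 1) (kc false 1 1 0 0 0) m_v_4 m_v_3),
  (pr (kc true 0 0 0 0 0) (kc false 3 3 0 0 1) m_v_6 m_1,
    pr (kc false 0 0 0 0 0) (kc false 3 3 0 0 1) m_v_3 m_1),
  (pr (kc false 0 0 0 0 0) (kc false 2 0 0 0 1) m_l_3_4_5 m_v_4,
    pr (kc true 0 0 0 0 0) (kc false 2 0 0 0 1) m_l_2_4_6 m_v_4),
  (pr (kc true 0 0 0 0 0) (kc false 1 1 0 0 1) m_l_2_4_6 m_v_4,
    pr (kc false 0 0 0 0 0) (kc false 1 1 0 0 1) m_l_1_4_7 m_v_4),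
  (pr (kc false 0 0 0 0 1) (kc false 2 0 0 0 0) m_l_8_8_8 m_l_1_3_8,
    pr (kc true 0 1 1 0 0) (kc false 2 0 0 0 0) m_l_6_8_10 m_l_1_3_8),
  (pr (kc false 0 0 0 0 1) (kc false 1 1 0 0 0) m_l_4_4_4 m_l_1_4_7,
    pr (kc true 0 0 0 1 0) (kc false 1 1 0 0 0) m_l_2_4_6 m_l_1_4_7),
  (pr (kc true 0 0 0 0 0) (kc false 2 0 0 0 1) m_l_7_8_9 m_v_4,
    pr (kc false 0 0 0 0 0) (kc false 2 0 0 0 1) m_l_6_8_10 m_v_4),
  (pr (kc false 0 0 0 0 1) (kc false 1 0 1 0 0) m_v_4 m_v_1,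
    pr (kc true 0 2 0 0 0) (kc false 1 0 1 0 0) m_v_2 m_v_1),
  (pr (kc true 0 0 0 0 0) (kc false 1 2 1 1 1) m_v_2 m_1,
    pr (kc false 0 0 0 0 0) (kc false 1 2 1 1 1) m_v_1 m_1),
  (pr (kc false 0 0 0 0 1) (kc false 1 0 1 0 0) m_l_4_4_4 m_l_2_4_6,
    pr (kc true 0 2 0 0 0) (kc false 1 0 1 0 0) m_l_3_4_5 m_l_2_4_6),
  (pr (kc false 0 0 0 0 0) (kc false 1 1 0 0 1) m_l_6_8_10 m_v_4,
    pr (kc true 0 0 0 0 0) (kc false 1 1 0 0 1) m_l_5_8_11 m_v_4),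
  (pr (kc true 0 0 0 0 0) (kc false 1 0 1 0 1) m_l_2_2_8 m_v_4,
    pr (kc false 0 0 0 0 0) (kc false 1 0 1 0 1) m_l_1_3_8 m_v_4),
  (pr (kc false 0 0 0 0 0) (kc false 2 2 2 0 1) m_v_3 m_1,
    pr (kc true 0 0 0 0 0) (kc false 2 2 2 0 1) m_v_2 m_1),
  (pr (kc true 2 0 0 0 0) (kc false 0 1 1 0 0) m_l_4_9_11 m_l_2_4_6,
    pr (kc false 0 0 0 0 1) (kc false 0 1 1 0 0) m_l_4_4_4 m_l_2_4_6),
  (pr (kc false 0 0 0 0 0) (kc false 0 2 0 0 1) m_l_4_9_11 m_v_4,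
    pr (kc true 0 0 0 0 0) (kc false 0 2 0 0 1) m_l_2_4_6 m_v_4),
  (pr (kc false 0 0 0 0 1) (kc false 1 1 0 0 0) m_l_8_8_8 m_l_5_8_11,
    pr (kc true 0 0 0 1 0) (kc false 1 1 0 0 0) m_l_6_8_10 m_l_5_8_11),
  (pr (kc false 0 0 1 1 0) (kc false 1 0 0 0 1) m_v_6 m_v_4,
    pr (kc true 0 3 0 0 0) (kc false 1 0 0 0 1) m_v_5 m_v_4),
  (pr (kc false 0 0 0 0 0) (kc false 1 0 1 0 1) m_l_4_10_10 m_v_4,
    pr (kc true 0 0 0 0 0) (kc false 1 0 1 0 1) m_l_4_9_11 m_v_4),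
  (pr (kc true 0 1 1 0 0) (kc false 2 0 0 0 0) m_v_5 m_v_2,
    pr (kc false 0 0 0 0 1) (kc false 2 0 0 0 0) m_v_4 m_v_2),
  (pr (kc false 0 0 0 0 0) (kc false 2 1 1 1 1) m_v_5 m_1,
    pr (kc true 0 0 0 0 0) (kc false 2 1 1 1 1) m_v_2 m_1),
  (pr (kc true 0 0 0 0 0) (kc false 5 1 0 0 1) m_v_6 m_1,
    pr (kc false 0 0 0 0 0) (kc false 5 1 0 0 1) m_v_5 m_1),
  (pr (kc true 0 3 0 0 0) (kc false 1 0 0 0 1) m_l_4_10_10 m_l_4_4_4,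
    pr (kc false 0 0 1 1 0) (kc false 1 0 0 0 1) m_l_4_9_11 m_l_4_4_4),
  (pr (kc true 0 1 0 0 1) (kc false 3 0 0 0 0) m_l_8_8_8 m_l_2_2_8,
    pr (kc false 0 0 1 1 0) (kc false 3 0 0 0 0) m_l_7_8_9 m_l_2_2_8),
  (pr (kc false 1 0 0 0 1) (kc false 0 0 1 1 0) m_l_8_8_8 m_l_1_3_8,
    pr (kc false 0 3 0 0 0) (kc false 0 0 1 1 0) m_l_2_2_8 m_l_1_3_8),
  (pr (kc false 0 0 0 0 1) (kc false 1 0 1 0 0) m_l_8_8_8 m_l_6_8_10,
    pr (kc true 0 2 0 0 0) (kc false 1 0 1 0 0) m_l_7_8_9 m_l_6_8_10),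
  (pr (kc false 0 0 0 0 0) (kc false 0 1 1 0 1) m_l_7_8_9 m_v_4,
    pr (kc true 0 0 0 0 0) (kc false 0 1 1 0 1) m_l_2_2_8 m_v_4),
  (pr (kc false 0 0 0 0 0) (kc false 0 0 0 1 1) m_l_5_8_11 m_v_4,
    pr (kc true 0 0 0 0 0) (kc false 0 0 0 1 1) m_l_2_2_8 m_v_4),
  (pr (kc true 0 0 0 0 1) (kc false 1 1 0 0 0) m_l_8_8_8 m_l_2_2_8,
    pr (kc false 0 0 2 0 0) (kc false 1 1 0 0 0) m_l_5_8_11 m_l_2_2_8)]

include he hne in
theorem sp7 : Sols (gs12 x y T) cp7 := by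
  intro p hp
  unfold cp7 at hp
  simp only [List.mem_cons, List.not_mem_nil, or_false] at hp
  rcases hp with rfl | rfl | rfl | rfl | rfl | rfl | rfl | rfl | rfl | rfl | rfl | rfl | rfl | rfl | rfl | rfl | rfl | rfl | rfl | rfl | rfl | rfl | rfl | rfl | rfl | rfl | rfl | rfl | rfl | rfl | rfl | rfl | rfl | rfl | rfl | rfl | rfl | rfl | rfl | rfl | rfl | rfl | rfl | rfl | rfl
  · exact c300 he hne
  · exact c301 he hne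
  · exact c302 he hne
  · exact c303 he hne
  · exact c304 he hne
  · exact c305 he hne
  · exact c306 he hne
  · exact c307 he hne
  · exact c308 he hne
  · exact c309 he hne
  · exact c310 he hne
  · exact c311 he hne
  · exact c312 he hne
  · exact c313 he hne
  · exact c314 he hne
  · exact c315 he hne
  · exact c316 he hne
  · exact c317 he hne
  · exact c318 he hne
  · exact c319 he hne
  · exact c320 he hne
  · exact c321 he hne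
  · exact c322 he hne
  · exact c323 he hne
  · exact c324 he hne
  · exact c325 he hne
  · exact c326 he hne
  · exact c327 he hne
  · exact c328 he hne
  · exact c329 he hne
  · exact c330 he hne
  · exact c331 he hne
  · exact c332 he hne
  · exact c333 he hne
  · exact c334 he hne
  · exact c335 he hne
  · exact c336 he hne
  · exact c337 he hne
  · exact c338 he hne
  · exact c339 he hne
  · exact c340 he hne
  · exact c341 he hne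
  · exact c342 he hne
  · exact c343 he hne
  · exact c344 he hne

end Pool.Agent.UE12C
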