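import Pool.Agent.Lib_helper7.N12.K
import Pool.Agent.Lib_helper7.N12.B
import Pool.Agent.Lib_helper7.N12.S1
import Pool.Agent.Lib_helper7.N12.S2
import Pool.Agent.Lib_helper7.N12.S3
import Pool.Agent.Lib_helper7.N12.S4
import Pool.Agent.Lib_helper7.N12.S5
import Pool.Agent.Lib_helper7.N12.S6
import Pool.Agent.Lib_helper7.N12.S7

/-!
# Points of order twelve: the solutions
-/

set_option autoImplicit false
set_option maxRecDepth 100000

namespace Pool.Agent.UE12C

open Pool.Agent.KC72 UEN UE12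

/-- the scaled classes -/
def kp12 : List (Mo × Mo) := cp1 ++ (cp2 ++ (cp3 ++ (cp4 ++ (cp5 ++ (cp6 ++ (cp7))))))

lemma kp12_eq : k12.map (fun c => (trA 12 ks12 c.1, trA 12 ks12 c.2)) = kp12 := by decide +kernel

lemma k12_len : ∀ c ∈ k12, 12 < c.1.2.length ∧ 12 < c.2.2.length := by decide +kernel

section

variable {k : Type*} [Field k] {t : k} {F : Type*} [Field F] [Algebra k F] {x y : F}

/-- the solutions -/
theorem sols12 (h1 : 1 - t ≠ 0) (hne : ∀ z ∈ gl12 t x y, z ≠ 0)
    (he : y ^ 2 + (1 - algebraMap k F (cc t)) * x * y - algebraMap k F (bb t) * y =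
      x ^ 3 - algebraMap k F (bb t) * x ^ 2) : Sols (gl12 t x y) k12 := by
  have e := gl12_eq (F := F) (x := x) (y := y) h1
  have hq : algebraMap k F t - 1 ≠ 0 := by
    have h2 := (_root_.map_ne_zero (algebraMap k F)).mpr h1
    intro h3
    apply h2
    rw [map_sub, map_one]
    linear_combination -h3
  have hne' : ∀ z ∈ gs12 (x * sF F t ^ 6) (y * sF F t ^ 9) (algebraMap k F t), z ≠ 0 := by
    rw [e] at hne
    exact scl_ne (ks := ks12) rfl hne
  have h2 := he12 h1 he rfl rfl rfl
  rw [e]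
  refine sols_sclA hq (i := 12) rfl rfl k12_len hne' kp12_eq ?_
  intro p hp
  unfold kp12 at hp
  simp only [List.mem_append] at hp
  rcases hp with hp | hp | hp | hp | hp | hp | hp
  · exact sp1 h2 hne' p hp
  · exact sp2 h2 hne' p hp
  · exact sp3 h2 hne' p hp
  · exact sp4 h2 hne' p hp
  · exact sp5 h2 hne' p hp
  · exact sp6 h2 hne' p hp
  · exact sp7 h2 hne' p hp

end

end Pool.Agent.UE12C
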