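import Pool.Agent.Lib_helper7.N12.Cub
import Pool.Agent.Lib_helper7.N12.T
import Pool.Agent.Lib_helper7.N12.Sol
import Pool.Agent.Lib_helper87.FAM.S12
import Pool.Agent.Lib_helper24.FAM.LC

/-!
# Points of order twelve: the hypotheses of the certificate
-/

set_option autoImplicit false
set_option linter.unusedSectionVars false

open scoped TensorProduct

namespace Pool.Agent.UE12C

open WeierstrassCurve.Affine Polynomial WithZero GK UP
open UEG (Gen IsUn P0)
open UEN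
open UE12 (bb cc x4 x5 x6 s3 s4 s5 OK12)
open TN (Wt)
open MK4 (FT lg B2 sy)
open FK4 (Supp supp_iff OnlyConst Generic)
open KC72

section

variable {k : Type*} [Field k] [DecidableEq k] [CharZero k] {t : k} (ht : t ≠ 0) (h1 : 1 - t ≠ 0)
  (h2 : 2 * t - 1 ≠ 0) (hv : 2 * t ^ 2 - 2 * t + 1 ≠ 0) (hw : 3 * t ^ 2 - 3 * t + 1 ≠ 0)
  (hi : OK12 t)
  {hb : bb t ≠ 0} (hO : addOrderOf (P0 (cc t) hb) = 12)
  {F : Type*} [Field F] [Algebra k F] {x y : F}

/-- the symbols of the solutions -/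
noncomputable def R12 (t : k) (x y : F) : Submodule ℚ (B2 F) :=
  SC k F ⊔ Submodule.span ℚ {a : B2 F | ∃ p ∈ k12, a = sy (ev (gl12 t x y) p.1)}

section

variable [DecidableEq F] [Fintype (AddSubgroup.zmultiples (P0 (cc t) hb))]
  [DecidableEq (AddSubgroup.zmultiples (P0 (cc t) hb))] (hg : Gen (Wt (bb t) (cc t)) x y)

include ht h1 h2 hv hw hO hg in
lemma sols12' : Sols (gl12 t x y) k12 :=
  sols12 h1 (pq_ne (pq_gl12 ht h1 h2 hv hw hO hg)) (UE4.of_UEG hg).eq

include ht h1 h2 hv hw hO hg in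
lemma sy_rl {f : F} (h : RL (gl12 t x y) k12 f) : sy f ∈ R12 t x y := by
  obtain ⟨c, hc, h⟩ := h
  have h3 := ev_ne01 (pq_gl12 ht h1 h2 hv hw hO hg) (sols12' ht h1 h2 hv hw hO hg) hc
  have h4 : ev (gl12 t x y) c.1 ≠ 1 := fun e => h3.2.1 (by rw [e, sub_self])
  have h5 : sy (ev (gl12 t x y) c.1) ∈ R12 t x y :=
    Submodule.mem_sup_right (Submodule.subset_span ⟨c, hc, rfl⟩)
  have : CharZero F := charZero_of_injective_algebraMap (algebraMap k F).injective
  rcases TN.sy_orb h4 h with e | e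
  · rw [e]; exact h5
  · rw [e]; exact Submodule.neg_mem _ h5

include ht h1 h2 hv hw hi hO hg in
/-- **the symbols of the solutions are combinations of the classes** -/
theorem hU12 (hM : Main Ex12) (hG : IndG (AddSubgroup.zmultiples (P0 (cc t) hb)) F) {f : F}
    (hf : IsUn (AddSubgroup.zmultiples (P0 (cc t) hb)) x y f)
    (hf' : IsUn (AddSubgroup.zmultiples (P0 (cc t) hb)) x y (1 - f)) : sy f ∈ R12 t x y := by
  have : CharZero F := charZero_of_injective_algebraMap (algebraMap k F).injective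
  have hd := pq_gl12 ht h1 h2 hv hw hO hg
  have hs := sols12' ht h1 h2 hv hw hO hg
  have hR : ∀ m, RG hO id hg m → sy m ∈ R12 t x y := by
    rintro m ⟨S, p, q, r, hn, h⟩
    exact sy_rl ht h1 h2 hv hw hO hg (rl_mat hd hs h (mat12 hn))
  rcases UE12.unit12 ht h1 h2 hv hw hi hg hM hG hf hf' with ⟨c, rfl⟩ | h | h | h
  · exact Submodule.mem_sup_left (Submodule.subset_span ⟨c, rfl⟩)
  · exact hR _ h
  · obtain ⟨S, p, q, r, hn, h⟩ := h
    exact sy_rl ht h1 h2 hv hw hO hg (rl_mat hd hs h (mat6 hn))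
  · exact cub12 ht h1 h2 hw hg le_sup_left hR h

end

include h1 in
lemma G12_supp (hv : 2 * t ^ 2 - 2 * t + 1 ≠ 0) (ht : t ≠ 0) (h2 : 2 * t - 1 ≠ 0)
    (hw : 3 * t ^ 2 - 3 * t + 1 ≠ 0) (hO : addOrderOf (P0 (cc t) hb) = 12)
    (hg : Generic (Wt (bb t) (cc t)) x y) (i : Fin 16) :
    Supp (AddSubgroup.zmultiples (P0 (cc t) hb)) x y (G12 t x y i) := by
  classical
  have hfin : Finite (AddSubgroup.zmultiples (P0 (cc t) hb)) :=
    Finite.of_equiv _ (en hO).toEquiv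
  have hft : Fintype (AddSubgroup.zmultiples (P0 (cc t) hb)) := Fintype.ofFinite _
  have hg' := hg.toU
  rw [supp_iff]
  have hU := fun j => (UE12B.pq_uF ht h1 h2 hv hw hO hg' j).1
  fin_cases i
  · exact hU 0
  · exact hU 1
  · exact hU 2
  · exact hU 3
  · exact hU 4
  · exact hU 5
  · exact hU 6
  · exact hU 7
  · exact hU 8
  · exact hU 9
  · exact hU 10
  · exact (PQ.const (hO := hO) hg' ht).1
  · exact (PQ.const (hO := hO) hg' (t1_ne h1)).1
  · exact (PQ.const (hO := hO) hg' h2).1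
  · exact (PQ.const (hO := hO) hg' hv).1
  · exact (PQ.const (hO := hO) hg' hw).1

omit [DecidableEq k] [CharZero k] in
lemma G12_const (i : Fin 16) (hi' : 11 ≤ i.val) : ∃ c : k, G12 t x y i = algebraMap k F c := by
  fin_cases i
  · simp at hi'
  · simp at hi'
  · simp at hi'
  · simp at hi'
  · simp at hi'
  · simp at hi'
  · simp at hi'
  · simp at hi'
  · simp at hi'
  · simp at hi'
  · simp at hi'
  · exact ⟨t, rfl⟩
  · exact ⟨t - 1, rfl⟩
  · exact ⟨2 * t - 1, rfl⟩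
  · exact ⟨2 * t ^ 2 - 2 * t + 1, rfl⟩
  · exact ⟨3 * t ^ 2 - 3 * t + 1, rfl⟩

omit [DecidableEq k] [CharZero k] in
lemma G12_uF (hrn : 11 ≤ 16) (j : Fin 11) : G12 t x y (Fin.castLE hrn j) = UE12B.uF t x y j := by
  fin_cases j <;> rfl

include ht h1 h2 hv hw hO in
lemma G12_hM (hg : Generic (Wt (bb t) (cc t)) x y) (hrn : 11 ≤ 16) (e : Fin 11 → ℤ) (c : k)
    (h : ∏ i, G12 t x y (Fin.castLE hrn i) ^ e i = algebraMap k F c) : e = 0 := by
  refine UE12B.const12 ht h1 h2 hv hw hO hg.toU (s := c) ?_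
  rw [← h]
  exact Finset.prod_congr rfl fun j _ => by rw [G12_uF]

include hi in
omit [DecidableEq k] in
lemma G12_hc (e : Fin 16 → ℤ) (h0 : ∀ i : Fin 16, i.val < 11 → e i = 0)
    (he : ∏ i, G12 t x y i ^ e i = 1) : e = 0 := by
  have z0 := h0 0 (by norm_num)
  have z1 := h0 1 (by norm_num)
  have z2 := h0 2 (by norm_num)
  have z3 := h0 3 (by norm_num)
  have z4 := h0 4 (by norm_num)
  have z5 := h0 5 (by norm_num)
  have z6 := h0 6 (by norm_num)
  have z7 := h0 7 (by norm_num)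
  have z8 := h0 8 (by norm_num)
  have z9 := h0 9 (by norm_num)
  have z10 := h0 10 (by norm_num)
  have h3 : algebraMap k F (t ^ e 11 * (t - 1) ^ e 12 * (2 * t - 1) ^ e 13 *
      (2 * t ^ 2 - 2 * t + 1) ^ e 14 * (3 * t ^ 2 - 3 * t + 1) ^ e 15) = 1 := by
    rw [← he, map_mul, map_mul, map_mul, map_mul, map_zpow₀, map_zpow₀, map_zpow₀, map_zpow₀,
      map_zpow₀]
    simp only [Fin.prod_univ_succ, Fin.prod_univ_zero, mul_one]
    have e0 : ∀ z : F, z ^ (0 : ℤ) = 1 := fun z => zpow_zero z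
    show _ = G12 t x y 0 ^ e 0 * (G12 t x y 1 ^ e 1 * (G12 t x y 2 ^ e 2 * (G12 t x y 3 ^ e 3 *
      (G12 t x y 4 ^ e 4 * (G12 t x y 5 ^ e 5 * (G12 t x y 6 ^ e 6 * (G12 t x y 7 ^ e 7 *
      (G12 t x y 8 ^ e 8 * (G12 t x y 9 ^ e 9 * (G12 t x y 10 ^ e 10 * (G12 t x y 11 ^ e 11 *
      (G12 t x y 12 ^ e 12 * (G12 t x y 13 ^ e 13 * (G12 t x y 14 ^ e 14 *
      G12 t x y 15 ^ e 15))))))))))))))
    rw [z0, z1, z2, z3, z4, z5, z6, z7, z8, z9, z10, e0, e0, e0, e0, e0, e0, e0, e0, e0, e0, e0]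
    simp only [one_mul]
    rw [mul_assoc, mul_assoc, mul_assoc]
    rfl
  rw [← map_one (algebraMap k F)] at h3
  obtain ⟨g1, g2, g3, g4, g5⟩ := hi.ind _ _ _ _ _ ((algebraMap k F).injective h3)
  funext i
  fin_cases i
  · exact z0
  · exact z1
  · exact z2
  · exact z3
  · exact z4
  · exact z5
  · exact z6
  · exact z7
  · exact z8
  · exact z9
  · exact z10
  · exact g1
  · exact g2
  · exact g3
  · exact g4
  · exact g5

end

end Pool.Agent.UE12C
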