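import Pool.Agent.Lib_helper76.UE12.U
import Pool.Agent.Lib_helper72.KC.P2
import Pool.Agent.Lib_helper7.N12.B

/-!
# Points of order twelve: the functions of degree six
-/

set_option autoImplicit false
set_option linter.unusedSectionVars false

open scoped TensorProduct

namespace Pool.Agent.UE12C

open WeierstrassCurve.Affine Polynomial WithZero GK UP
open UEG (Gen IsUn P0)
open UEN
open UE12 (bb cc x4 x5 x6 s3 s4 s5)
open TN (Wt)
open MK4 (FT lg B2 sy)
open KC72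

section mob

variable {k : Type*} [Field k] [DecidableEq k] [CharZero k] {W : WeierstrassCurve.Affine k}
  {F : Type*} [Field F] [CharZero F] [DecidableEq F] [Algebra k F] {x y : F} {P : W.Point}
  {hO : addOrderOf P = 12}
  [Fintype (AddSubgroup.zmultiples P)] [DecidableEq (AddSubgroup.zmultiples P)]
  {hg : Gen W x y}

lemma mz_dV (i z : ZMod 12) : dV i z = mz 0 i z - 2 * (if z = 0 then 1 else 0) := by
  unfold dV UP.mz
  rw [zero_sub]

/-- quotients of vertical lines -/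
lemma mob {i j l : ZMod 12} {u v w : F × F} (hu : PQ hO hg (br (pt x) u) (dV i))
    (hv : PQ hO hg (br (pt x) v) (dV j)) (hw : PQ hO hg (br (pt x) w) (dV l))
    (wv : PQ hO hg (br w v) (fun _ => 0)) (wu : PQ hO hg (br w u) (fun _ => 0))
    (uv : PQ hO hg (br u v) (fun _ => 0)) (hn : Nd 0 i j l) :
    RG hO id hg (cr (pt x) u v w) := by
  refine ⟨0, i, j, l, hn, ?_, ?_⟩
  · unfold cr
    rw [div_eq_mul_inv]
    refine ((hu.mul wv).mul (hv.mul wu).inv).congr fun z => ?_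
    rw [mz_dV, mz_dV]
    simp only [id_eq]
    ring
  · rw [cr_compl hv.1.1 wu.1.1]
    have uw : PQ hO hg (br u w) (fun _ => 0) := by rw [br_anti]; exact wu.neg
    unfold cr
    rw [div_eq_mul_inv]
    refine ((hw.mul uv).mul (hv.mul uw).inv).congr fun z => ?_
    rw [mz_dV, mz_dV]
    simp only [id_eq]
    ring

end mob

section fin

variable {k : Type*} [Field k] [DecidableEq k] [CharZero k] {t : k} (ht : t ≠ 0) (h1 : 1 - t ≠ 0)
  (h2 : 2 * t - 1 ≠ 0) (hv : 2 * t ^ 2 - 2 * t + 1 ≠ 0) (hw : 3 * t ^ 2 - 3 * t + 1 ≠ 0)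
  {hb : bb t ≠ 0} {hO : addOrderOf (P0 (cc t) hb) = 12}
  {F : Type*} [Field F] [CharZero F] [DecidableEq F] [Algebra k F] {x y : F}
  [Fintype (AddSubgroup.zmultiples (P0 (cc t) hb))]
  [DecidableEq (AddSubgroup.zmultiples (P0 (cc t) hb))] (hg : Gen (Wt (bb t) (cc t)) x y)

/-- the abscissas of the points -/
def xa {k : Type*} [Field k] (t : k) : Fin 6 → k := ![0, bb t, cc t, x4 t, x5 t, x6 t]

/-- their numbers -/
def ix : Fin 6 → ZMod 12 := ![1, 2, 3, 4, 5, 6]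

include ht h1 h2 hw in
lemma pq_xa (j : Fin 6) : PQ hO hg (x - algebraMap k F (xa t j)) (dV (ix j)) := by
  fin_cases j
  · show PQ hO hg (x - algebraMap k F 0) (dV 1)
    rw [map_zero, sub_zero]
    exact UE12.v1 hO hg
  · exact UE12.v2 hO hg
  · exact UE12.v3 hO hg
  · exact UE12.v4 ht h1 h2 hw hO hg
  · exact UE12.v5 ht h1 h2 hw hO hg
  · exact UE12.v6 ht h1 h2 hw hO hg

lemma dV_ne : ∀ i j : Fin 6, i ≠ j → ∃ z : ZMod 12, dV (ix i) z ≠ dV (ix j) z := by
  decide +kernel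

include ht h1 h2 hw hO hg in
lemma xa_ne {i j : Fin 6} (h : i ≠ j) : xa t i ≠ xa t j := by
  intro e
  obtain ⟨z, hz⟩ := dV_ne i j h
  have a := pq_xa ht h1 h2 hw hg (hO := hO) i
  rw [e] at a
  exact hz (a.unique (pq_xa ht h1 h2 hw hg j) z)

include ht h1 h2 hw in
lemma pq_pt (j : Fin 6) : PQ hO hg (br (pt x) (pt (algebraMap k F (xa t j)))) (dV (ix j)) := by
  rw [br_pt]; exact pq_xa ht h1 h2 hw hg j

include ht h1 h2 hw in
lemma pq_pp {i j : Fin 6} (h : i ≠ j) :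
    PQ hO hg (br (pt (algebraMap k F (xa t i))) (pt (algebraMap k F (xa t j)))) (fun _ => 0) := by
  rw [br_pt, ← map_sub]
  exact PQ.const hg (sub_ne_zero.mpr (xa_ne ht h1 h2 hw (hO := hO) hg h))

lemma pq_po : PQ hO hg (br (pt x) (po F)) (dV 0) := by
  rw [br_pto]
  refine (PQ.one hg).neg.congr fun z => ?_
  unfold dV
  rw [neg_zero]
  ring

lemma pq_pto (a : F) : PQ hO hg (br (pt a) (po F)) (fun _ => 0) := by
  rw [br_pto]; exact (PQ.one hg).neg

lemma pq_opt (a : F) : PQ hO hg (br (po F) (pt a)) (fun _ => 0) := by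
  rw [br_opt]; exact PQ.one hg

lemma nd_ix : ∀ i j l : Fin 6, i ≠ j → i ≠ l → j ≠ l → Nd 0 (ix i) (ix j) (ix l) := by
  unfold Nd
  decide +kernel

lemma nd_io : ∀ i l : Fin 6, i ≠ l → Nd 0 (ix i) 0 (ix l) := by
  unfold Nd
  decide +kernel

lemma nd_ij : ∀ i l : Fin 6, i ≠ l → Nd 0 (ix i) (ix l) 0 := by
  unfold Nd
  decide +kernel

include ht h1 h2 hw in
lemma rg3 {i j l : Fin 6} (hij : i ≠ j) (hil : i ≠ l) (hjl : j ≠ l) :
    RG hO id hg (cr (pt x) (pt (algebraMap k F (xa t i))) (pt (algebraMap k F (xa t j)))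
      (pt (algebraMap k F (xa t l)))) :=
  mob (pq_pt ht h1 h2 hw hg i) (pq_pt ht h1 h2 hw hg j) (pq_pt ht h1 h2 hw hg l)
    (pq_pp ht h1 h2 hw hg (Ne.symm hjl)) (pq_pp ht h1 h2 hw hg (Ne.symm hil))
    (pq_pp ht h1 h2 hw hg hij) (nd_ix i j l hij hil hjl)

include ht h1 h2 hw in
lemma rgo {i l : Fin 6} (hil : i ≠ l) :
    RG hO id hg (cr (pt x) (pt (algebraMap k F (xa t i))) (po F)
      (pt (algebraMap k F (xa t l)))) :=
  mob (pq_pt ht h1 h2 hw hg i) (pq_po hg) (pq_pt ht h1 h2 hw hg l)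
    (pq_pto hg _) (pq_pp ht h1 h2 hw hg (Ne.symm hil))
    (pq_pto hg _) (nd_io i l hil)

include ht h1 h2 hw in
lemma rgi {i l : Fin 6} (hil : i ≠ l) :
    RG hO id hg (cr (pt x) (pt (algebraMap k F (xa t i))) (pt (algebraMap k F (xa t l)))
      (po F)) :=
  mob (pq_pt ht h1 h2 hw hg i) (pq_pt ht h1 h2 hw hg l) (pq_po hg)
    (pq_opt hg _) (pq_opt hg _) (pq_pp ht h1 h2 hw hg hil) (nd_ij i l hil)

/-- the leading coefficient -/
def kap {k : Type*} [Field k] (t : k) : k := -((1 - t) ^ 5 / (t * (3 * t ^ 2 - 3 * t + 1) ^ 3))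

omit [DecidableEq k] [CharZero k] in
lemma Hk_aux {p s v w : k} (ht : t ≠ 0) (hs : s ≠ 0) (hw : w ≠ 0) (es : s = 1 - t)
    (ev : v = 2 * t ^ 2 - 2 * t + 1) (ew : w = 3 * t ^ 2 - 3 * t + 1) :
    -(s ^ 5 / (t * w ^ 3)) * (p - 0) * (p - w * (t * (2 * t - 1)) / s ^ 3) *
      (p - t * (2 * t - 1) * v * w / s ^ 5) -
    -(s ^ 5 / (t * w ^ 3)) * (p - v / s * (w * (t * (2 * t - 1)) / s ^ 3)) *
      (p - v / s * (w * (t * (2 * t - 1)) / s ^ 3)) * (p - -(t * w / s)) =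
    (p - t * (2 * t - 1) * v / s ^ 2) ^ 2 := by
  field_simp
  rw [ev, ew, es]
  ring

include ht h1 hw in
omit [DecidableEq k] [CharZero k] in
lemma Hk (p : k) : kap t * (p - xa t 0) * (p - xa t 2) * (p - xa t 4) -
    kap t * (p - xa t 1) * (p - xa t 1) * (p - xa t 5) = (p - xa t 3) ^ 2 := by
  show kap t * (p - 0) * (p - cc t) * (p - x5 t) -
    kap t * (p - bb t) * (p - bb t) * (p - x6 t) = (p - x4 t) ^ 2
  exact Hk_aux ht h1 hw rfl rfl rfl

/-- the function of degree six -/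
def f6 (t : k) (x : F) : F := algebraMap k F (kap t) * (x - algebraMap k F (xa t 0)) *
  (x - algebraMap k F (xa t 2)) * (x - algebraMap k F (xa t 4)) / (x - algebraMap k F (xa t 3)) ^ 2

include ht h1 hw in
omit [DecidableEq k] [DecidableEq F] in
lemma f6_compl (hx : x - algebraMap k F (xa t 3) ≠ 0) : 1 - f6 t x = -(algebraMap k F (kap t) *
    (x - algebraMap k F (xa t 1)) * (x - algebraMap k F (xa t 1)) *
    (x - algebraMap k F (xa t 5)) / (x - algebraMap k F (xa t 3)) ^ 2) := by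
  have a0 := congrArg (algebraMap k F) (Hk ht h1 hw 0)
  have a1 := congrArg (algebraMap k F) (Hk ht h1 hw 1)
  have a2 := congrArg (algebraMap k F) (Hk ht h1 hw (-1))
  simp only [map_sub, map_mul, map_pow, map_zero, map_one, map_neg] at a0 a1 a2
  have two : (2 : F) ≠ 0 := two_ne_zero
  have key : algebraMap k F (kap t) * (x - algebraMap k F (xa t 0)) *
      (x - algebraMap k F (xa t 2)) * (x - algebraMap k F (xa t 4)) -
      algebraMap k F (kap t) * (x - algebraMap k F (xa t 1)) * (x - algebraMap k F (xa t 1)) *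
      (x - algebraMap k F (xa t 5)) = (x - algebraMap k F (xa t 3)) ^ 2 := by
    refine mul_left_cancel₀ two ?_
    linear_combination (2 - 2 * x ^ 2) * a0 + (x ^ 2 + x) * a1 + (x ^ 2 - x) * a2
  unfold f6
  rw [eq_neg_iff_add_eq_zero, sub_add, sub_eq_zero, ← sub_div, eq_div_iff (pow_ne_zero 2 hx),
    one_mul]
  exact key.symm

lemma kap_ne {k : Type*} [Field k] {t : k} (ht : t ≠ 0) (h1 : 1 - t ≠ 0)
    (hw : 3 * t ^ 2 - 3 * t + 1 ≠ 0) : kap t ≠ 0 :=
  neg_ne_zero.mpr (div_ne_zero (pow_ne_zero 5 h1) (mul_ne_zero ht (pow_ne_zero 3 hw)))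

lemma dA : ∀ z : ZMod 12, dV (ix 0) z + dV (ix 2) z + dV (ix 4) z + -(2 * dV (ix 3) z) =
    pb r4 (mz 0 1) z - pb r4 (mz 0 0) z := by decide +kernel

lemma dB : ∀ z : ZMod 12, dV (ix 1) z + dV (ix 1) z + dV (ix 5) z + -(2 * dV (ix 3) z) =
    pb r4 (mz 0 2) z - pb r4 (mz 0 0) z := by decide +kernel

include ht h1 h2 hw in
lemma q3_f6 : Q3 hO hg (f6 t x) (pb r4 (mz 0 1)) (pb r4 (mz 0 2)) (pb r4 (mz 0 0)) := by
  have V := fun j => pq_xa ht h1 h2 hw (hO := hO) hg j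
  have hk := kap_ne ht h1 hw
  refine ⟨?_, ?_⟩
  · unfold f6
    rw [mul_assoc, mul_assoc, mul_div_assoc]
    refine PQ.smul ?_ hk
    rw [div_eq_mul_inv, ← mul_assoc]
    refine ((((V 0).mul (V 2)).mul (V 4)).mul ((V 3).pow 2).inv).congr fun z => ?_
    rw [← dA z]
    push_cast
    ring
  · rw [f6_compl ht h1 hw (V 3).1.1]
    refine PQ.neg ?_
    rw [mul_assoc, mul_assoc, mul_div_assoc]
    refine PQ.smul ?_ hk
    rw [div_eq_mul_inv, ← mul_assoc]
    refine ((((V 1).mul (V 1)).mul (V 5)).mul ((V 3).pow 2).inv).congr fun z => ?_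
    rw [← dB z]
    push_cast
    ring

/-- the number of the orbit -/
def rho : ZMod 4 → ZMod 4 := (![0, 1, 2, 1] : Fin 4 → Fin 4)

lemma ro : ∀ (p : ZMod 4) (z : ZMod 12), pb r4 (mz 0 p) z = pb r4 (mz 0 (rho p)) z := by
  decide +kernel

lemma ro' {p s : ZMod 4} (h : rho p = s) (z : ZMod 12) :
    pb r4 (mz 0 p) z = pb r4 (mz 0 s) z := by rw [ro p z, h]

lemma r3 : ∀ p : ZMod 4, rho p = 0 ∨ rho p = 1 ∨ rho p = 2 := by decide

lemma rne : ∀ p q : ZMod 4, p ≠ q → p ≠ 0 - q → rho p ≠ rho q := by decide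

/-- the six orders -/
lemma six4 {p q r : ZMod 4} (h : Nd 0 p q r) :
    Six (fun A B C : ZMod 12 → ℤ => (∀ z, A z = pb r4 (mz 0 1) z) ∧
      (∀ z, B z = pb r4 (mz 0 2) z) ∧ (∀ z, C z = pb r4 (mz 0 0) z))
      (pb r4 (mz 0 p)) (pb r4 (mz 0 r)) (pb r4 (mz 0 q)) := by
  obtain ⟨h1, h2, h3, h4, h5, h6⟩ := h
  have n1 := rne p q h1 h2
  have n2 := rne q r h3 h4
  have n3 := rne p r h5 h6
  rcases r3 p with a | a | a <;> rcases r3 r with b | b | b <;> rcases r3 q with c | c | c <;>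
    first
      | exact absurd (a.trans c.symm) n1
      | exact absurd (c.trans b.symm) n2
      | exact absurd (a.trans b.symm) n3
      | exact Or.inl ⟨ro' a, ro' b, ro' c⟩
      | exact Or.inr (Or.inl ⟨ro' a, ro' c, ro' b⟩)
      | exact Or.inr (Or.inr (Or.inl ⟨ro' b, ro' a, ro' c⟩))
      | exact Or.inr (Or.inr (Or.inr (Or.inl ⟨ro' b, ro' c, ro' a⟩)))
      | exact Or.inr (Or.inr (Or.inr (Or.inr (Or.inl ⟨ro' c, ro' a, ro' b⟩))))
      | exact Or.inr (Or.inr (Or.inr (Or.inr (Or.inr ⟨ro' c, ro' b, ro' a⟩))))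

variable {R : Submodule ℚ (B2 F)}

include ht h1 h2 hw in
/-- the function of degree six is a combination of quotients of lines -/
theorem sy_f6 (hSC : SC k F ≤ R) (hR : ∀ m, RG hO id hg m → sy m ∈ R) : sy (f6 t x) ∈ R := by
  have hx : ∀ c : k, x ≠ algebraMap k F c := by
    intro c
    exact (UE12.v1 hO hg).not_const (x := 1) (by decide) c
  have N : ∀ {i j : Fin 6}, i ≠ j → xa t i ≠ xa t j := fun h => xa_ne ht h1 h2 hw (hO := hO) hg h
  have h := sy_cubic' (k := k) hx (Hk ht h1 hw) (N (by decide)) (N (by decide)) (N (by decide))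
    (N (by decide)) (N (by decide)) (N (by decide)) (N (by decide))
  have S3 : ∀ {i j l : Fin 6}, i ≠ j → i ≠ l → j ≠ l → SS (pt x) (pt (algebraMap k F (xa t i)))
      (pt (algebraMap k F (xa t j))) (pt (algebraMap k F (xa t l))) ∈ R :=
    fun h h' h'' => hR _ (rg3 ht h1 h2 hw hg h h' h'')
  have So : ∀ {i l : Fin 6}, i ≠ l → SS (pt x) (pt (algebraMap k F (xa t i)))
      (po F) (pt (algebraMap k F (xa t l))) ∈ R :=
    fun h => hR _ (rgo ht h1 h2 hw hg h)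
  have Si : ∀ {i l : Fin 6}, i ≠ l → SS (pt x) (pt (algebraMap k F (xa t i)))
      (pt (algebraMap k F (xa t l))) (po F) ∈ R :=
    fun h => hR _ (rgi ht h1 h2 hw hg h)
  have e := (Submodule.sub_mem_iff_left R ?_).mp (hSC h)
  · exact e
  · have d : ∀ {i j : Fin 6} (_ : decide (i ≠ j) = true), i ≠ j := fun h => of_decide_eq_true h
    refine Submodule.add_mem _ (Submodule.add_mem _ (Submodule.add_mem _ (Submodule.add_mem _
      (Submodule.add_mem _ (Submodule.sub_mem _ (Submodule.sub_mem _ (Submodule.sub_mem _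
      (Submodule.add_mem _ (Submodule.add_mem _ ?_ ?_) ?_) ?_) ?_) ?_) ?_) ?_) ?_) ?_) ?_
    · exact S3 (d rfl) (d rfl) (d rfl)
    · exact S3 (d rfl) (d rfl) (d rfl)
    · exact So (d rfl)
    · exact S3 (d rfl) (d rfl) (d rfl)
    · exact S3 (d rfl) (d rfl) (d rfl)
    · exact S3 (d rfl) (d rfl) (d rfl)
    · exact So (d rfl)
    · exact S3 (d rfl) (d rfl) (d rfl)
    · exact S3 (d rfl) (d rfl) (d rfl)
    · exact Si (d rfl)
    · exact So (d rfl)

include ht h1 h2 hw in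
/-- the pencil of sum zero -/
theorem cub0 (hSC : SC k F ≤ R) (hR : ∀ m, RG hO id hg m → sy m ∈ R) {f : F} {p q r : ZMod 4}
    (hn : Nd 0 p q r) (h : Q3 hO hg f (pb r4 (mz 0 p)) (pb r4 (mz 0 r)) (pb r4 (mz 0 q))) :
    sy f ∈ R := by
  obtain ⟨f', A, B, C, ⟨hA, hB, hC⟩, h', hf⟩ := h.six (R := fun f => sy f ∈ R)
    (fun f h => by
      have h3 : sy (1 - f) = - sy f := TN.sycompl f
      rw [h3] at h
      exact (Submodule.neg_mem_iff _).mp h)
    (fun f h => by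
      have h3 : sy (f⁻¹) = - sy f := TN.syinv f
      rw [h3] at h
      exact (Submodule.neg_mem_iff _).mp h) (six4 hn)
  apply hf
  have h4 := h'.congr hA hB hC
  have h5 := q3_f6 ht h1 h2 hw (hO := hO) hg
  have h6 : f' = f6 t x := h4.p.eq h5.p h4.q h5.q (x := 0) (by decide)
  rw [h6]
  exact sy_f6 ht h1 h2 hw hg hSC hR

lemma all4 : ∀ S : ZMod 4, S = 0 ∨ S = 1 ∨ S = 2 ∨ S = 3 := by decide

lemma no1 : ∀ p q r : ZMod 4, ¬ Nd 1 p q r := by
  unfold Nd
  decide +kernel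

lemma no3 : ∀ p q r : ZMod 4, ¬ Nd 3 p q r := by
  unfold Nd
  decide +kernel

lemma nd20 : ∀ p q r : ZMod 4, Nd 2 p q r → Nd 0 (p + 1) (q + 1) (r + 1) := by
  unfold Nd
  decide +kernel

lemma mz20 : ∀ (p : ZMod 4) (z : ZMod 12), pb r4 (mz 2 p) (z - 1) = pb r4 (mz 0 (p + 1)) z := by
  decide +kernel

include ht h1 h2 hw in
/-- **the functions of the quotient by `4P`** -/
theorem cub12 (hSC : SC k F ≤ R) (hR : ∀ m, RG hO id hg m → sy m ∈ R) {f : F}
    (h : RG hO (pb r4) hg f) : sy f ∈ R := by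
  obtain ⟨S, p, q, r, hn, h⟩ := h
  have hS : S = 0 ∨ S = 1 ∨ S = 2 ∨ S = 3 := all4 S
  rcases hS with rfl | rfl | rfl | rfl
  · exact cub0 ht h1 h2 hw hg hSC hR hn h
  · exact absurd hn (no1 p q r)
  · obtain ⟨X', Y', hg', e'⟩ := gen_add hg (((en hO 1 :
      AddSubgroup.zmultiples (P0 (cc t) hb)) : (Wt (bb t) (cc t)).Point))
    have e1 : gp hg' = gp hg + pp F (AddSubgroup.zmultiples (P0 (cc t) hb)) (en hO 1) := e'
    have e2 : gp hg = gp hg' + pp F (AddSubgroup.zmultiples (P0 (cc t) hb)) (en hO (-1)) := by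
      rw [e1, map_neg, map_neg, add_neg_cancel_right]
    refine cub0 ht h1 h2 hw hg' hSC (fun m hm => hR m (hm.tr e2 (-1) fun _ _ => rfl))
      (nd20 p q r hn) ((h.tr e1).congr (mz20 p) (mz20 r) (mz20 q))
  · exact absurd hn (no3 p q r)

end fin

end Pool.Agent.UE12C
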