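import Pool.Agent.Lib_helper40.N12C.Dat

/-!
# Points of order twelve: the classes
-/

set_option autoImplicit false

namespace Pool.Agent.UE12C

open Pool.Agent.KC72

/-- the classes `(f, 1 - f)`: the list of the certificate -/
def k12 : List (Mo × Mo) := N12C.c12_cls

end Pool.Agent.UE12C
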