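import Pool.Agent.Lib_helper7.N12.S0

/-!
# Points of order twelve: the lines through three multiples, as monomials
-/

set_option autoImplicit false
set_option linter.unusedSectionVars false
set_option linter.unusedSimpArgs false
set_option maxRecDepth 100000

namespace Pool.Agent.UE12C

open Pool.Agent.KC72

section tools

variable {F : Type*} [Field F] {g : List F}

lemma norm2 (hne : ∀ z ∈ g, z ≠ 0) {m m1 va vb vc : Mo} {L L1 A B C : F} (h1 : ev g m1 = L1)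
    (ha : ev g va = A) (hb : ev g vb = B) (hc : ev g vc = C)
    (hm : m = Mo.div (Mo.mul (Mo.mul va vb) vc) m1) (h : L1 * L = A * B * C) : ev g m = L := by
  have n1 := ev_ne hne m1
  rw [hm, ev_div hne, ev_mul hne, ev_mul hne, ha, hb, hc, div_eq_iff n1, h1, ← h]
  ring

lemma assoc2 (hne : ∀ z ∈ g, z ≠ 0) {m m1 m2 m3 v v' : Mo} {L L1 L2 L3 V V' : F}
    (h1 : ev g m1 = L1) (h2 : ev g m2 = L2) (h3 : ev g m3 = L3)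
    (hv : ev g v = V) (hv' : ev g v' = V')
    (hm : m = Mo.div (Mo.mul (Mo.mul m2 m3) v') (Mo.mul m1 v)) (h : L * (L1 * V) = L2 * L3 * V') :
    ev g m = L := by
  have n1 := mul_ne_zero (ev_ne hne m1) (ev_ne hne v)
  rw [hm, ev_div hne, ev_mul hne, ev_mul hne, ev_mul hne, h2, h3, hv', div_eq_iff n1, h1, hv, ← h]

lemma mul2 (hne : ∀ z ∈ g, z ≠ 0) {a b : Mo} {A B : F} (ha : ev g a = A) (hb : ev g b = B) :
    ev g (Mo.mul a b) = A * B := by rw [ev_mul hne, ha, hb]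

/-- the quotient of two products -/
def pr (ki kj mi mj : Mo) : Mo := Mo.div (Mo.mul ki mi) (Mo.mul kj mj)

/-- the monomials in the constants -/
def kc (s : Bool) (a b c d e : ℕ) : Mo :=
  (s, [0, 0, 0, 0, 0, 0, 0, 0, 0, 0, 0, (a : ℤ), (b : ℤ), (c : ℤ), (d : ℤ), (e : ℤ)])

/-- their values -/
def kv (T : F) (s : Bool) (a b c d e : ℕ) : F := (bif s then -1 else 1) *
  (T ^ a * (T - 1) ^ b * (2 * T - 1) ^ c * (2 * T ^ 2 - 2 * T + 1) ^ d *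
    (3 * T ^ 2 - 3 * T + 1) ^ e)

lemma ev_kc {x y T : F} (s : Bool) (a b c d e : ℕ) :
    ev (gs12 x y T) (kc s a b c d e) = kv T s a b c d e := by
  unfold kv kc gs12 ev
  simp only [evl_cons, evl_nil_left, zpow_zero, one_mul, mul_one, zpow_natCast]
  ring

/-- three members of a pencil -/
lemma cls3 {x y T : F} (hne : ∀ z ∈ gs12 x y T, z ≠ 0) {mi ml mj : Mo} {A B C : F}
    (hA : ev (gs12 x y T) mi = A) (hB : ev (gs12 x y T) ml = B) (hC : ev (gs12 x y T) mj = C)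
    (si : Bool) (i1 i2 i3 i4 i5 : ℕ) (sl : Bool) (l1 l2 l3 l4 l5 : ℕ) (j1 j2 j3 j4 j5 : ℕ)
    (h : kv T si i1 i2 i3 i4 i5 * A + kv T sl l1 l2 l3 l4 l5 * B =
      kv T false j1 j2 j3 j4 j5 * C) :
    ev (gs12 x y T) (pr (kc si i1 i2 i3 i4 i5) (kc false j1 j2 j3 j4 j5) mi mj) +
    ev (gs12 x y T) (pr (kc sl l1 l2 l3 l4 l5) (kc false j1 j2 j3 j4 j5) ml mj) = 1 := by
  have n1 := mul_ne_zero (ev_ne hne (kc false j1 j2 j3 j4 j5)) (ev_ne hne mj)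
  unfold pr
  rw [ev_div hne, ev_div hne, ev_mul hne, ev_mul hne, ev_mul hne, ← add_div, div_eq_iff n1, hA,
    hB, hC, ev_kc, ev_kc, ev_kc, h, one_mul]

end tools

section lines

variable {F : Type*} [Field F] {x y T : F}

/-- the trivial monomial -/
def m_1 : Mo := (false, [])

lemma e_1 : ev (gs12 x y T) m_1 = 1 := by
  unfold m_1 ev
  rw [evl_nil_right, cond_false, one_mul]

/-- the vertical line through `1P` -/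
def m_v_1 : Mo := (false, [1, 0, 0, 0, 0, 0, 0, 0, 0, 0, 0, 0, 0, 0, 0, 0])

lemma e_v_1 : ev (gs12 x y T) m_v_1 = x := by
  unfold m_v_1 gs12 ev
  simp only [evl_cons, evl_nil_left, zpow_zero, zpow_one, one_mul, mul_one, cond_false]

/-- the vertical line through `2P` -/
def m_v_2 : Mo := (false, [0, 1, 0, 0, 0, 0, 0, 0, 0, 0, 0, 0, 0, 0, 0, 0])

lemma e_v_2 : ev (gs12 x y T) m_v_2 = x - (12 * T ^ 8 - 54 * T ^ 7 + 106 * T ^ 6 - 119 * T ^ 5 + 83 * T ^ 4 - 36 * T ^ 3 + 9 * T ^ 2 - T) := by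
  unfold m_v_2 gs12 ev
  simp only [evl_cons, evl_nil_left, zpow_zero, zpow_one, one_mul, mul_one, cond_false]
  ring

/-- the vertical line through `3P` -/
def m_v_3 : Mo := (false, [0, 0, 1, 0, 0, 0, 0, 0, 0, 0, 0, 0, 0, 0, 0, 0])

lemma e_v_3 : ev (gs12 x y T) m_v_3 = x - (-6 * T ^ 7 + 27 * T ^ 6 - 50 * T ^ 5 + 49 * T ^ 4 - 27 * T ^ 3 + 8 * T ^ 2 - T) := by
  unfold m_v_3 gs12 ev
  simp only [evl_cons, evl_nil_left, zpow_zero, zpow_one, one_mul, mul_one, cond_false]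
  ring

/-- the vertical line through `4P` -/
def m_v_4 : Mo := (false, [0, 0, 0, 1, 0, 0, 0, 0, 0, 0, 0, 0, 0, 0, 0, 0])

lemma e_v_4 : ev (gs12 x y T) m_v_4 = x - (4 * T ^ 8 - 22 * T ^ 7 + 52 * T ^ 6 - 69 * T ^ 5 + 56 * T ^ 4 - 28 * T ^ 3 + 8 * T ^ 2 - T) := by
  unfold m_v_4 gs12 ev
  simp only [evl_cons, evl_nil_left, zpow_zero, zpow_one, one_mul, mul_one, cond_false]
  ring

/-- the vertical line through `5P` -/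
def m_v_5 : Mo := (false, [0, 0, 0, 0, 1, 0, 0, 0, 0, 0, 0, 0, 0, 0, 0, 0])

lemma e_v_5 : ev (gs12 x y T) m_v_5 = x - (-12 * T ^ 7 + 42 * T ^ 6 - 64 * T ^ 5 + 55 * T ^ 4 - 28 * T ^ 3 + 8 * T ^ 2 - T) := by
  unfold m_v_5 gs12 ev
  simp only [evl_cons, evl_nil_left, zpow_zero, zpow_one, one_mul, mul_one, cond_false]
  ring

/-- the vertical line through `6P` -/
def m_v_6 : Mo := (false, [0, 0, 0, 0, 0, 1, 0, 0, 0, 0, 0, 0, 0, 0, 0, 0])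

lemma e_v_6 : ev (gs12 x y T) m_v_6 = x - (3 * T ^ 8 - 18 * T ^ 7 + 46 * T ^ 6 - 65 * T ^ 5 + 55 * T ^ 4 - 28 * T ^ 3 + 8 * T ^ 2 - T) := by
  unfold m_v_6 gs12 ev
  simp only [evl_cons, evl_nil_left, zpow_zero, zpow_one, one_mul, mul_one, cond_false]
  ring

/-- a line -/
def m_l_1_1_10 : Mo := (false, [0, 0, 0, 0, 0, 0, 1, 0, 0, 0, 0, 0, 0, 0, 0, 0])

lemma e_l_1_1_10 : ev (gs12 x y T) m_l_1_1_10 = y := by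
  unfold m_l_1_1_10 gs12 ev
  simp only [evl_cons, evl_nil_left, zpow_zero, zpow_one, one_mul, mul_one, cond_false]

/-- a line -/
def m_l_1_2_9 : Mo := (false, [0, 0, 0, 0, 0, 0, 0, 1, 0, 0, 0, 0, 0, 0, 0, 0])

lemma e_l_1_2_9 : ev (gs12 x y T) m_l_1_2_9 = y - (6 * T ^ 4 - 9 * T ^ 3 + 5 * T ^ 2 - T) * x := by
  unfold m_l_1_2_9 gs12 ev
  simp only [evl_cons, evl_nil_left, zpow_zero, zpow_one, one_mul, mul_one, cond_false]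
  ring

/-- a line -/
def m_l_1_3_8 : Mo := (false, [0, 0, 0, 0, 0, 0, 0, 0, 1, 0, 0, 0, 0, 0, 0, 0])

lemma e_l_1_3_8 : ev (gs12 x y T) m_l_1_3_8 = y - (2 * T ^ 4 - 5 * T ^ 3 + 4 * T ^ 2 - T) * x := by
  unfold m_l_1_3_8 gs12 ev
  simp only [evl_cons, evl_nil_left, zpow_zero, zpow_one, one_mul, mul_one, cond_false]
  ring

/-- a line -/
def m_l_1_4_7 : Mo := (false, [0, 0, 0, 0, 0, 0, 0, 0, 0, 1, 0, 0, 0, 0, 0, 0])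

lemma e_l_1_4_7 : ev (gs12 x y T) m_l_1_4_7 = y - (4 * T ^ 4 - 6 * T ^ 3 + 4 * T ^ 2 - T) * x := by
  unfold m_l_1_4_7 gs12 ev
  simp only [evl_cons, evl_nil_left, zpow_zero, zpow_one, one_mul, mul_one, cond_false]
  ring

/-- a line -/
def m_l_1_5_6 : Mo := (false, [0, 0, 0, 0, 0, 0, 0, 0, 0, 0, 1, 0, 0, 0, 0, 0])

lemma e_l_1_5_6 : ev (gs12 x y T) m_l_1_5_6 = y - (3 * T ^ 4 - 6 * T ^ 3 + 4 * T ^ 2 - T) * x := by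
  unfold m_l_1_5_6 gs12 ev
  simp only [evl_cons, evl_nil_left, zpow_zero, zpow_one, one_mul, mul_one, cond_false]
  ring

variable (he : HE12 x y T) (hne : ∀ z ∈ gs12 x y T, z ≠ 0)

/-- a line -/
def m_l_2_11_11 : Mo := (false, [2, 1, 0, 0, 0, 0, -1, 0, 0, 0, 0, 0, 0, 0, 0, 0])

include he hne in
lemma e_l_2_11_11 : ev (gs12 x y T) m_l_2_11_11 = y - (6 * T ^ 4 - 8 * T ^ 3 + 2 * T ^ 2 + 2 * T - 1) * x - (-12 * T ^ 11 + 90 * T ^ 10 - 304 * T ^ 9 + 611 * T ^ 8 - 812 * T ^ 7 + 748 * T ^ 6 - 485 * T ^ 5 + 219 * T ^ 4 - 66 * T ^ 3 + 12 * T ^ 2 - T) := by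
  refine norm2 hne e_l_1_1_10 e_v_1 e_v_1 e_v_2 (by decide) ?_
  unfold HE12 at he
  linear_combination he

/-- a line -/
def m_l_3_10_11 : Mo := (false, [1, 1, 1, 0, 0, 0, 0, -1, 0, 0, 0, 0, 0, 0, 0, 0])

include he hne in
lemma e_l_3_10_11 : ev (gs12 x y T) m_l_3_10_11 = y - (T ^ 3 - 3 * T ^ 2 + 3 * T - 1) * x - (-12 * T ^ 11 + 90 * T ^ 10 - 304 * T ^ 9 + 611 * T ^ 8 - 812 * T ^ 7 + 748 * T ^ 6 - 485 * T ^ 5 + 219 * T ^ 4 - 66 * T ^ 3 + 12 * T ^ 2 - T) := by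
  refine norm2 hne e_l_1_2_9 e_v_1 e_v_2 e_v_3 (by decide) ?_
  unfold HE12 at he
  linear_combination he

/-- a line -/
def m_l_4_9_11 : Mo := (false, [1, 0, 1, 1, 0, 0, 0, 0, -1, 0, 0, 0, 0, 0, 0, 0])

include he hne in
lemma e_l_4_9_11 : ev (gs12 x y T) m_l_4_9_11 = y - (4 * T ^ 4 - 3 * T ^ 3 - 2 * T ^ 2 + 3 * T - 1) * x - (-12 * T ^ 11 + 90 * T ^ 10 - 304 * T ^ 9 + 611 * T ^ 8 - 812 * T ^ 7 + 748 * T ^ 6 - 485 * T ^ 5 + 219 * T ^ 4 - 66 * T ^ 3 + 12 * T ^ 2 - T) := by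
  refine norm2 hne e_l_1_3_8 e_v_1 e_v_3 e_v_4 (by decide) ?_
  unfold HE12 at he
  linear_combination he

/-- a line -/
def m_l_5_8_11 : Mo := (false, [1, 0, 0, 1, 1, 0, 0, 0, 0, -1, 0, 0, 0, 0, 0, 0])

include he hne in
lemma e_l_5_8_11 : ev (gs12 x y T) m_l_5_8_11 = y - (2 * T ^ 4 - 2 * T ^ 3 - 2 * T ^ 2 + 3 * T - 1) * x - (-12 * T ^ 11 + 90 * T ^ 10 - 304 * T ^ 9 + 611 * T ^ 8 - 812 * T ^ 7 + 748 * T ^ 6 - 485 * T ^ 5 + 219 * T ^ 4 - 66 * T ^ 3 + 12 * T ^ 2 - T) := by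
  refine norm2 hne e_l_1_4_7 e_v_1 e_v_4 e_v_5 (by decide) ?_
  unfold HE12 at he
  linear_combination he

/-- a line -/
def m_l_6_7_11 : Mo := (false, [1, 0, 0, 0, 1, 1, 0, 0, 0, 0, -1, 0, 0, 0, 0, 0])

include he hne in
lemma e_l_6_7_11 : ev (gs12 x y T) m_l_6_7_11 = y - (3 * T ^ 4 - 2 * T ^ 3 - 2 * T ^ 2 + 3 * T - 1) * x - (-12 * T ^ 11 + 90 * T ^ 10 - 304 * T ^ 9 + 611 * T ^ 8 - 812 * T ^ 7 + 748 * T ^ 6 - 485 * T ^ 5 + 219 * T ^ 4 - 66 * T ^ 3 + 12 * T ^ 2 - T) := by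
  refine norm2 hne e_l_1_5_6 e_v_1 e_v_5 e_v_6 (by decide) ?_
  unfold HE12 at he
  linear_combination he

/-- a line -/
def m_l_2_5_5 : Mo := (false, [0, 1, 0, 0, 0, -1, -1, 0, 0, 0, 2, 0, 0, 0, 0, 0])

include he hne in
lemma e_l_2_5_5 : ev (gs12 x y T) m_l_2_5_5 = y - (6 * T ^ 4 - 12 * T ^ 3 + 8 * T ^ 2 - 2 * T) * x - (36 * T ^ 11 - 198 * T ^ 10 + 492 * T ^ 9 - 729 * T ^ 8 + 712 * T ^ 7 - 476 * T ^ 6 + 218 * T ^ 5 - 66 * T ^ 4 + 12 * T ^ 3 - T ^ 2) := by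
  refine assoc2 hne e_l_1_1_10 e_l_1_5_6 e_l_1_5_6 e_v_6 e_v_2 (by decide) ?_
  unfold HE12 at he
  linear_combination (9 * T ^ 8 - 36 * T ^ 7 + 60 * T ^ 6 - 54 * T ^ 5 + 28 * T ^ 4 - 8 * T ^ 3 + T ^ 2) * he

/-- a line -/
def m_l_2_2_8 : Mo := (false, [0, 1, -1, 0, 0, 0, -1, 1, 1, 0, 0, 0, 0, 0, 0, 0])

include he hne in
lemma e_l_2_2_8 : ev (gs12 x y T) m_l_2_2_8 = y - (8 * T ^ 4 - 14 * T ^ 3 + 9 * T ^ 2 - 2 * T) * x - (-24 * T ^ 12 + 168 * T ^ 11 - 530 * T ^ 10 + 996 * T ^ 9 - 1239 * T ^ 8 + 1069 * T ^ 7 - 649 * T ^ 6 + 274 * T ^ 5 - 77 * T ^ 4 + 13 * T ^ 3 - T ^ 2) := by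
  refine assoc2 hne e_l_1_1_10 e_l_1_2_9 e_l_1_3_8 e_v_3 e_v_2 (by decide) ?_
  unfold HE12 at he
  linear_combination (12 * T ^ 8 - 48 * T ^ 7 + 79 * T ^ 6 - 69 * T ^ 5 + 34 * T ^ 4 - 9 * T ^ 3 + T ^ 2) * he

/-- a line -/
def m_l_2_3_7 : Mo := (false, [0, 1, 0, -1, 0, 0, -1, 0, 1, 1, 0, 0, 0, 0, 0, 0])

include he hne in
lemma e_l_2_3_7 : ev (gs12 x y T) m_l_2_3_7 = y - (6 * T ^ 4 - 11 * T ^ 3 + 8 * T ^ 2 - 2 * T) * x - (24 * T ^ 11 - 144 * T ^ 10 + 386 * T ^ 9 - 610 * T ^ 8 + 629 * T ^ 7 - 440 * T ^ 6 + 209 * T ^ 5 - 65 * T ^ 4 + 12 * T ^ 3 - T ^ 2) := by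
  refine assoc2 hne e_l_1_1_10 e_l_1_3_8 e_l_1_4_7 e_v_4 e_v_2 (by decide) ?_
  unfold HE12 at he
  linear_combination (8 * T ^ 8 - 32 * T ^ 7 + 54 * T ^ 6 - 50 * T ^ 5 + 27 * T ^ 4 - 8 * T ^ 3 + T ^ 2) * he

/-- a line -/
def m_l_2_4_6 : Mo := (false, [0, 1, 0, 0, -1, 0, -1, 0, 0, 1, 1, 0, 0, 0, 0, 0])

include he hne in
lemma e_l_2_4_6 : ev (gs12 x y T) m_l_2_4_6 = y - (7 * T ^ 4 - 12 * T ^ 3 + 8 * T ^ 2 - 2 * T) * x - (-12 * T ^ 12 + 90 * T ^ 11 - 304 * T ^ 10 + 611 * T ^ 9 - 812 * T ^ 8 + 748 * T ^ 7 - 485 * T ^ 6 + 219 * T ^ 5 - 66 * T ^ 4 + 12 * T ^ 3 - T ^ 2) := by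
  refine assoc2 hne e_l_1_1_10 e_l_1_4_7 e_l_1_5_6 e_v_5 e_v_2 (by decide) ?_
  unfold HE12 at he
  linear_combination (12 * T ^ 8 - 42 * T ^ 7 + 64 * T ^ 6 - 55 * T ^ 5 + 28 * T ^ 4 - 8 * T ^ 3 + T ^ 2) * he

/-- a line -/
def m_l_4_10_10 : Mo := (false, [0, 1, 1, 1, 0, 0, 1, -1, -1, 0, 0, 0, 0, 0, 0, 0])

include he hne in
lemma e_l_4_10_10 : ev (gs12 x y T) m_l_4_10_10 = y - (-2 * T ^ 4 + 6 * T ^ 3 - 7 * T ^ 2 + 4 * T - 1) * x - (24 * T ^ 12 - 180 * T ^ 11 + 620 * T ^ 10 - 1300 * T ^ 9 + 1850 * T ^ 8 - 1881 * T ^ 7 + 1397 * T ^ 6 - 759 * T ^ 5 + 296 * T ^ 4 - 79 * T ^ 3 + 13 * T ^ 2 - T) := by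
  refine norm2 hne (e_l_2_2_8 he hne) e_v_2 e_v_2 e_v_4 (by decide) ?_
  unfold HE12 at he
  linear_combination he

/-- a line -/
def m_l_5_9_10 : Mo := (false, [0, 0, 1, 1, 1, 0, 1, 0, -1, -1, 0, 0, 0, 0, 0, 0])

include he hne in
lemma e_l_5_9_10 : ev (gs12 x y T) m_l_5_9_10 = y - (3 * T ^ 3 - 6 * T ^ 2 + 4 * T - 1) * x - (-36 * T ^ 11 + 234 * T ^ 10 - 690 * T ^ 9 + 1221 * T ^ 8 - 1441 * T ^ 7 + 1188 * T ^ 6 - 694 * T ^ 5 + 284 * T ^ 4 - 78 * T ^ 3 + 13 * T ^ 2 - T) := by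
  refine norm2 hne (e_l_2_3_7 he hne) e_v_2 e_v_3 e_v_5 (by decide) ?_
  unfold HE12 at he
  linear_combination he

/-- a line -/
def m_l_6_8_10 : Mo := (false, [0, 0, 0, 1, 1, 1, 1, 0, 0, -1, -1, 0, 0, 0, 0, 0])

include he hne in
lemma e_l_6_8_10 : ev (gs12 x y T) m_l_6_8_10 = y - (-T ^ 4 + 4 * T ^ 3 - 6 * T ^ 2 + 4 * T - 1) * x - (12 * T ^ 12 - 102 * T ^ 11 + 394 * T ^ 10 - 915 * T ^ 9 + 1423 * T ^ 8 - 1560 * T ^ 7 + 1233 * T ^ 6 - 704 * T ^ 5 + 285 * T ^ 4 - 78 * T ^ 3 + 13 * T ^ 2 - T) := by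
  refine norm2 hne (e_l_2_4_6 he hne) e_v_2 e_v_4 e_v_6 (by decide) ?_
  unfold HE12 at he
  linear_combination he

/-- a line -/
def m_l_7_7_10 : Mo := (false, [0, 0, 0, 0, 2, 1, 1, 0, 0, 0, -2, 0, 0, 0, 0, 0])

include he hne in
lemma e_l_7_7_10 : ev (gs12 x y T) m_l_7_7_10 = y - (4 * T ^ 3 - 6 * T ^ 2 + 4 * T - 1) * x - (-48 * T ^ 11 + 288 * T ^ 10 - 796 * T ^ 9 + 1340 * T ^ 8 - 1524 * T ^ 7 + 1224 * T ^ 6 - 703 * T ^ 5 + 285 * T ^ 4 - 78 * T ^ 3 + 13 * T ^ 2 - T) := by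
  refine norm2 hne (e_l_2_5_5 he hne) e_v_2 e_v_5 e_v_5 (by decide) ?_
  unfold HE12 at he
  linear_combination he

/-- a line -/
def m_l_3_3_6 : Mo := (false, [0, 1, 1, -1, -1, 0, -1, -1, 1, 1, 1, 0, 0, 0, 0, 0])

include he hne in
lemma e_l_3_3_6 : ev (gs12 x y T) m_l_3_3_6 = y - (3 * T ^ 4 - 8 * T ^ 3 + 7 * T ^ 2 - 2 * T) * x - (6 * T ^ 11 - 45 * T ^ 10 + 149 * T ^ 9 - 286 * T ^ 8 + 351 * T ^ 7 - 286 * T ^ 6 + 155 * T ^ 5 - 54 * T ^ 4 + 11 * T ^ 3 - T ^ 2) := by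
  refine assoc2 hne e_l_1_2_9 (e_l_2_3_7 he hne) e_l_1_5_6 e_v_5 e_v_3 (by decide) ?_
  unfold HE12 at he
  linear_combination (6 * T ^ 7 - 15 * T ^ 6 + 14 * T ^ 5 - 6 * T ^ 4 + T ^ 3) * he

/-- a line -/
def m_l_3_4_5 : Mo := (false, [0, 1, 1, 0, -1, -1, -1, -1, 0, 1, 2, 0, 0, 0, 0, 0])

include he hne in
lemma e_l_3_4_5 : ev (gs12 x y T) m_l_3_4_5 = y - (4 * T ^ 4 - 9 * T ^ 3 + 7 * T ^ 2 - 2 * T) * x - (12 * T ^ 11 - 78 * T ^ 10 + 226 * T ^ 9 - 385 * T ^ 8 + 427 * T ^ 7 - 321 * T ^ 6 + 164 * T ^ 5 - 55 * T ^ 4 + 11 * T ^ 3 - T ^ 2) := by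
  refine assoc2 hne e_l_1_2_9 (e_l_2_4_6 he hne) e_l_1_5_6 e_v_6 e_v_3 (by decide) ?_
  unfold HE12 at he
  linear_combination (-3 * T ^ 8 + 12 * T ^ 7 - 19 * T ^ 6 + 15 * T ^ 5 - 6 * T ^ 4 + T ^ 3) * he

/-- a line -/
def m_l_6_9_9 : Mo := (false, [0, -1, 1, 1, 1, 1, 1, 1, -1, -1, -1, 0, 0, 0, 0, 0])

include he hne in
lemma e_l_6_9_9 : ev (gs12 x y T) m_l_6_9_9 = y - (3 * T ^ 4 - 5 * T ^ 2 + 4 * T - 1) * x - (-18 * T ^ 11 + 135 * T ^ 10 - 453 * T ^ 9 + 897 * T ^ 8 - 1163 * T ^ 7 + 1034 * T ^ 6 - 640 * T ^ 5 + 273 * T ^ 4 - 77 * T ^ 3 + 13 * T ^ 2 - T) := by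
  refine norm2 hne (e_l_3_3_6 he hne) e_v_3 e_v_3 e_v_6 (by decide) ?_
  unfold HE12 at he
  linear_combination he

/-- a line -/
def m_l_7_8_9 : Mo := (false, [0, -1, 0, 1, 2, 1, 1, 1, 0, -1, -2, 0, 0, 0, 0, 0])

include he hne in
lemma e_l_7_8_9 : ev (gs12 x y T) m_l_7_8_9 = y - (2 * T ^ 4 + T ^ 3 - 5 * T ^ 2 + 4 * T - 1) * x - (-24 * T ^ 11 + 168 * T ^ 10 - 530 * T ^ 9 + 996 * T ^ 8 - 1239 * T ^ 7 + 1069 * T ^ 6 - 649 * T ^ 5 + 274 * T ^ 4 - 77 * T ^ 3 + 13 * T ^ 2 - T) := by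
  refine norm2 hne (e_l_3_4_5 he hne) e_v_3 e_v_4 e_v_5 (by decide) ?_
  unfold HE12 at he
  linear_combination he

/-- a line -/
def m_l_4_4_4 : Mo := (false, [0, 1, 1, 1, -2, -1, -1, -1, -1, 2, 2, 0, 0, 0, 0, 0])

include he hne in
lemma e_l_4_4_4 : ev (gs12 x y T) m_l_4_4_4 = y - (6 * T ^ 4 - 10 * T ^ 3 + 7 * T ^ 2 - 2 * T) * x - (-8 * T ^ 12 + 60 * T ^ 11 - 204 * T ^ 10 + 416 * T ^ 9 - 566 * T ^ 8 + 539 * T ^ 7 - 365 * T ^ 6 + 174 * T ^ 5 - 56 * T ^ 4 + 11 * T ^ 3 - T ^ 2) := by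
  refine assoc2 hne (e_l_2_2_8 he hne) (e_l_2_4_6 he hne) (e_l_2_4_6 he hne) e_v_6 e_v_4 (by decide) ?_
  unfold HE12 at he
  linear_combination (T ^ 8 - 4 * T ^ 7 + 6 * T ^ 6 - 4 * T ^ 5 + T ^ 4) * he

/-- a line -/
def m_l_8_8_8 : Mo := (false, [0, -1, -1, 2, 2, 1, 1, 1, 1, -2, -2, 0, 0, 0, 0, 0])

include he hne in
lemma e_l_8_8_8 : ev (gs12 x y T) m_l_8_8_8 = y - (2 * T ^ 3 - 5 * T ^ 2 + 4 * T - 1) * x - (8 * T ^ 12 - 72 * T ^ 11 + 294 * T ^ 10 - 720 * T ^ 9 + 1177 * T ^ 8 - 1351 * T ^ 7 + 1113 * T ^ 6 - 659 * T ^ 5 + 275 * T ^ 4 - 77 * T ^ 3 + 13 * T ^ 2 - T) := by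
  refine norm2 hne (e_l_4_4_4 he hne) e_v_4 e_v_4 e_v_4 (by decide) ?_
  unfold HE12 at he
  linear_combination he

end lines

end Pool.Agent.UE12C
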