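import Pool.Agent.Lib_helper7.N12.Z
import Pool.Agent.Lib_helper76.UE12.Z

/-!
# Points of order twelve: the clause, from the special curves
-/

set_option autoImplicit false

namespace Pool.Agent.FK4

open Pool.Agent.MK4 WeierstrassCurve.Affine

variable {k : Type*} [Field k] [DecidableEq k] [CharZero k] {W : WeierstrassCurve.Affine k}
  {F : Type*} [Field F] [Algebra k F] {X Y : F}

/-- **points of order twelve** -/
theorem twelve_of' (hg : Generic W X Y) (P : W.Point) (h : addOrderOf P = 12)
    (a1 : To12t 2 P X Y → ClosedIn (AddSubgroup.zmultiples P) X Y ⊥)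
    (a2 : To12t (3 / 2) P X Y → ClosedIn (AddSubgroup.zmultiples P) X Y ⊥)
    (a3 : To12t (3 / 4) P X Y → ClosedIn (AddSubgroup.zmultiples P) X Y ⊥)
    (a4 : To12t (2 / 3) P X Y → Line P X Y) : Twelve P X Y :=
  twelve_of (fun ht h1 h2 hv hw hi hb hO hg' => UE12C.closed12 ht h1 h2 hv hw hi hb hO hg')
    hg P h a1 a2 a3 a4

end Pool.Agent.FK4
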