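import Pool.Agent.Lib_helper7.N12.Cl
import Pool.Agent.Lib_helper40.N12C.Ok
import Pool.Agent.Lib_helper76.UEN.RC
import Pool.Agent.Lib_helper76.UEN.K
import Pool.Agent.Lib_helper7.UEL.Main12
import Pool.Agent.Lib_helper87.FAM.Siegel12

/-!
# Points of order twelve: the closed elements for independent parameters
-/

set_option autoImplicit false
set_option linter.unusedSectionVars false

open scoped TensorProduct

namespace Pool.Agent.UE12C

open WeierstrassCurve.Affine Polynomial WithZero GK UP
open UEG (Gen IsUn P0)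
open UEN
open UE12 (bb cc OK12)
open TN (Wt)
open MK4 (FT lg B2 sy)
open FK4 (Supp supp_iff OnlyConst Generic)
open KC72 MC

lemma sameC_refl (L : List (Mo × Mo)) : sameC L L = true := by
  unfold sameC
  rw [Bool.and_self, List.all_eq_true]
  intro x hx
  exact decide_eq_true hx

lemma same12 : sameC N12C.c12.cls k12 = true := sameC_refl _

variable {k : Type*} [Field k] [DecidableEq k] [CharZero k] {t : k}
  {F : Type*} [Field F] [Algebra k F] {x y : F}

/-- **the closed elements are constant** -/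
theorem closed12 (ht : t ≠ 0) (h1 : 1 - t ≠ 0) (h2 : 2 * t - 1 ≠ 0)
    (hv : 2 * t ^ 2 - 2 * t + 1 ≠ 0) (hw : 3 * t ^ 2 - 3 * t + 1 ≠ 0) (hi : OK12 t)
    (hb : bb t ≠ 0) (hO : addOrderOf (P0 (cc t) hb) = 12)
    (h : Generic (Wt (bb t) (cc t)) x y) :
    OnlyConst (AddSubgroup.zmultiples (P0 (cc t) hb)) x y := by
  classical
  have hfin : Finite (AddSubgroup.zmultiples (P0 (cc t) hb)) :=
    Finite.of_equiv _ (en hO).toEquiv
  have hft : Fintype (AddSubgroup.zmultiples (P0 (cc t) hb)) := Fintype.ofFinite _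
  have hg := h.toU
  have hG := indG_of (F := F) (GK.siegel12 hb h1 hO hi.ind)
  refine only_rcertX N12C.c12_ok (n := 16) (r := 11) rfl rfl (cls := k12) same12
    (G := G12 t x y) (by norm_num) (G12_supp h1 hv ht h2 hw hO h) G12_const
    (fun e c _ he => G12_hM ht h1 h2 hv hw hO h _ e c he) (G12_hc hi) ?_ ?_
  · rw [ofFn_G12]
    exact sols12' ht h1 h2 hv hw hO hg
  · intro f hf hf'
    rw [ofFn_G12]
    exact hU12 ht h1 h2 hv hw hi hO hg UEL.main12 hG (supp_iff.mp hf) (supp_iff.mp hf')

end Pool.Agent.UE12C
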